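import Mathlib
import Pool.Agent.Lib.MP_e52354_nt.RInf

/-!
The algebra structures of a function field of one variable attached to a separating element.
-/

namespace Pool.Agent.Lib.MP_44a246_nt

open Pool.Agent.Lib.MP_e52354_nt

theorem with_instances {κ K : Type*} [Field κ] [Field K] [Algebra κ K]
    {t : K} (ht : Transcendental κ t) [FiniteDimensional (IntermediateField.adjoin κ {t}) K]
    {P : Prop}
    (h : ∀ (_ : Algebra (Polynomial κ) K) (_ : IsScalarTower κ (Polynomial κ) K)
      (_ : Algebra (RatFunc κ) K) (_ : IsScalarTower (Polynomial κ) (RatFunc κ) K)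
      (_ : Algebra (Rinf κ) K) (_ : IsScalarTower (Rinf κ) (RatFunc κ) K)
      (_ : FiniteDimensional (RatFunc κ) K)
      (_ : Transcendental κ (algebraMap (Polynomial κ) K Polynomial.X))
      (_ : Algebra.IsAlgebraic
        (IntermediateField.adjoin κ {algebraMap (Polynomial κ) K Polynomial.X}) K), P) : P := by
  let F₁ := IntermediateField.adjoin κ {t}
  let E := (RatFunc.algEquivOfTranscendental t ht).toRingEquiv
  have hE : ∀ f : Polynomial κ, ((E (algebraMap _ _ f) : F₁) : K) = Polynomial.aeval t f := by
    intro f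
    show ((RatFunc.algEquivOfTranscendental t ht (algebraMap _ _ f)) : K) = _
    rw [RatFunc.algEquivOfTranscendental_algebraMap]
    exact (Polynomial.aeval_algebraMap_apply K (IntermediateField.AdjoinSimple.gen _ t) f).symm
  let iK : Algebra (RatFunc κ) K := ((algebraMap F₁ K).comp (E : RatFunc κ →+* F₁)).toAlgebra
  let iX : Algebra (Polynomial κ) K :=
    (((algebraMap F₁ K).comp (E : RatFunc κ →+* F₁)).comp
      (algebraMap (Polynomial κ) (RatFunc κ))).toAlgebra
  let iR : Algebra (Rinf κ) K :=
    (((algebraMap F₁ K).comp (E : RatFunc κ →+* F₁)).comp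
      (algebraMap (Rinf κ) (RatFunc κ))).toAlgebra
  have t1 : IsScalarTower (Polynomial κ) (RatFunc κ) K := IsScalarTower.of_algebraMap_eq' rfl
  have t2 : IsScalarTower (Rinf κ) (RatFunc κ) K := IsScalarTower.of_algebraMap_eq' rfl
  have t3 : IsScalarTower κ (Polynomial κ) K := IsScalarTower.of_algebraMap_eq fun u => by
    have := hE (Polynomial.C u)
    rw [Polynomial.aeval_C] at this
    exact this.symm
  have hfin : FiniteDimensional (RatFunc κ) K :=
    Module.Finite.of_equiv_equiv (A₁ := F₁) (B₁ := K) E.symm (RingEquiv.refl K) (by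
      ext x
      show algebraMap F₁ K (E (E.symm x)) = algebraMap F₁ K x
      rw [RingEquiv.apply_symm_apply])
  have hX : algebraMap (Polynomial κ) K Polynomial.X = t := by
    have := hE Polynomial.X
    rw [Polynomial.aeval_X] at this
    exact this
  refine h iX t3 iK t1 iR t2 hfin ?_ ?_
  · rw [hX]; exact ht
  · rw [hX]
    exact Algebra.IsAlgebraic.of_finite _ _

end Pool.Agent.Lib.MP_44a246_nt
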