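import Mathlib

/-!
Polar parts of derivations at a ramified place.
-/

namespace Pool.Agent.Lib.MP_44a246_nt

open WithZero

section Polar

variable {L : Type*} [Field L] (v : Valuation L ℤᵐ⁰)

theorem lt_one_of_uniformizer {π : L} (hπ : v π = exp (-1 : ℤ)) : v π < 1 := by
  rw [hπ, ← exp_zero, exp_lt_exp]
  omega

/-- an element of positive order is divisible by the uniformiser -/
theorem div_uniformizer {π : L} (hπ : v π = exp (-1 : ℤ)) {z : L} (hz : v z < 1) :
    ∃ y, v y ≤ 1 ∧ z = π * y := by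
  have hπ0 : π ≠ 0 := by
    rintro rfl
    rw [map_zero] at hπ
    exact exp_ne_zero hπ.symm
  refine ⟨z / π, ?_, by field_simp⟩
  by_cases hz0 : z = 0
  · rw [hz0, zero_div, map_zero]; exact zero_le
  obtain ⟨k, hk⟩ : ∃ k : ℤ, v z = exp k := ⟨log (v z), (exp_log ((v.ne_zero_iff).mpr hz0)).symm⟩
  rw [hk, ← exp_zero, exp_lt_exp] at hz
  rw [map_div₀, hk, hπ, ← exp_sub, ← exp_zero, exp_le_exp]
  omega

theorem add_le_one {a b : L} (ha : v a ≤ 1) (hb : v b ≤ 1) : v (a + b) ≤ 1 :=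
  (v.map_add a b).trans (max_le ha hb)

theorem sub_le_one {a b : L} (ha : v a ≤ 1) (hb : v b ≤ 1) : v (a - b) ≤ 1 :=
  (v.map_sub a b).trans (max_le ha hb)

theorem mul_le_one' {a b : L} (ha : v a ≤ 1) (hb : v b ≤ 1) : v (a * b) ≤ 1 := by
  rw [map_mul]; exact mul_le_one₀ ha zero_le hb

/-- Polar parts are proportional. `C` is the image of the constant field. -/
theorem polar_part {T : Type*} (C : Set L) (hres : ∀ y, v y ≤ 1 → ∃ c ∈ C, v (y - c) < 1)
    (𝒟 : T → Derivation ℤ L L) (hC : ∀ θ, ∀ c ∈ C, v (𝒟 θ c) ≤ 1) (N : ℕ)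
    (hN : ∀ θ, ∀ y, v y ≤ 1 → v (𝒟 θ y) ≤ exp (N : ℤ)) {π : L} (hπ : v π = exp (-1 : ℤ))
    (y : L) (hy : v y ≤ 1) :
    ∃ g, v g ≤ 1 ∧ ∀ θ, v (𝒟 θ y - g * 𝒟 θ π) ≤ 1 := by
  have hπ1 : v π ≤ 1 := (lt_one_of_uniformizer v hπ).le
  have key : ∀ k : ℕ, ∀ y, v y ≤ 1 → ∃ g, v g ≤ 1 ∧ ∃ z, v z ≤ 1 ∧
      ∀ θ, v (𝒟 θ y - g * 𝒟 θ π - π ^ k * 𝒟 θ z) ≤ 1 := by
    intro k
    induction k with
    | zero =>
      intro y hy
      refine ⟨0, by rw [map_zero]; exact zero_le, y, hy, fun θ => ?_⟩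
      rw [pow_zero, one_mul, zero_mul, sub_zero, sub_self, map_zero]
      exact zero_le
    | succ k ih =>
      intro y hy
      obtain ⟨c, hc, hyc⟩ := hres y hy
      obtain ⟨y₁, hy₁, hy₁'⟩ := div_uniformizer v hπ hyc
      obtain ⟨g, hg, z, hz, hgz⟩ := ih y₁ hy₁
      refine ⟨π * g + y₁, add_le_one v (mul_le_one' v hπ1 hg) hy₁, z, hz, fun θ => ?_⟩
      have h1 : 𝒟 θ y = 𝒟 θ c + (π * 𝒟 θ y₁ + y₁ * 𝒟 θ π) := by
        have h2 : y = c + π * y₁ := by rw [← hy₁']; ring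
        conv_lhs => rw [h2]
        rw [map_add, Derivation.leibniz, smul_eq_mul, smul_eq_mul]
      have h3 : 𝒟 θ y - (π * g + y₁) * 𝒟 θ π - π ^ (k + 1) * 𝒟 θ z =
          𝒟 θ c + π * (𝒟 θ y₁ - g * 𝒟 θ π - π ^ k * 𝒟 θ z) := by
        rw [h1]; ring
      rw [h3]
      exact add_le_one v (hC θ c hc) (mul_le_one' v hπ1 (hgz θ))
  obtain ⟨g, hg, z, hz, hgz⟩ := key N y hy
  refine ⟨g, hg, fun θ => ?_⟩
  have h1 : 𝒟 θ y - g * 𝒟 θ π = (𝒟 θ y - g * 𝒟 θ π - π ^ N * 𝒟 θ z) + π ^ N * 𝒟 θ z := by ring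
  rw [h1]
  refine add_le_one v (hgz θ) ?_
  rw [map_mul, map_pow, hπ, ← exp_nsmul]
  calc exp (N • (-1 : ℤ)) * v (𝒟 θ z) ≤ exp (N • (-1 : ℤ)) * exp (N : ℤ) := by
        gcongr
        exact hN θ z hz
    _ = 1 := by
        rw [← exp_add, ← exp_zero]
        congr 1
        simp

/-- the common computation for the two order statements -/
theorem polar_unit {T : Type*} (C : Set L) (hres : ∀ y, v y ≤ 1 → ∃ c ∈ C, v (y - c) < 1)
    (hnat : ∀ k : ℕ, k ≠ 0 → v (k : L) = 1)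
    (𝒟 : T → Derivation ℤ L L) (hC : ∀ θ, ∀ c ∈ C, v (𝒟 θ c) ≤ 1) (N : ℕ)
    (hN : ∀ θ, ∀ y, v y ≤ 1 → v (𝒟 θ y) ≤ exp (N : ℤ)) {π : L} (hπ : v π = exp (-1 : ℤ))
    {s : L} {e : ℕ} (he : 1 ≤ e) (hs : v s = exp (-(e : ℤ))) :
    ∃ w : L, v w = 1 ∧ ∀ θ, ∃ r : L, v r ≤ 1 ∧ π ^ (e - 1) * w * 𝒟 θ π = 𝒟 θ s - π ^ e * r := by
  have hπ0 : π ≠ 0 := by
    rintro rfl
    rw [map_zero] at hπ
    exact exp_ne_zero hπ.symm
  have hπ1 : v π < 1 := lt_one_of_uniformizer v hπ
  set u : L := s / π ^ e with hu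
  have hsu : s = u * π ^ e := by rw [hu]; field_simp
  have hvu : v u = 1 := by
    rw [hu, map_div₀, map_pow, hπ, hs, ← exp_nsmul, ← exp_sub, ← exp_zero]
    congr 1
    simp
  obtain ⟨g, hg, hgu⟩ := polar_part v C hres 𝒟 hC N hN hπ u hvu.le
  refine ⟨π * g + e * u, ?_, fun θ => ⟨𝒟 θ u - g * 𝒟 θ π, hgu θ, ?_⟩⟩
  · have h1 : v (π * g) < v ((e : L) * u) := by
      rw [map_mul, map_mul, hnat e (by omega), hvu, mul_one]
      exact mul_lt_one_of_lt_of_le hπ1 hg
    rw [v.map_add_eq_of_lt_right h1, map_mul, hnat e (by omega), hvu, mul_one]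
  · obtain ⟨e', rfl⟩ : ∃ e', e = e' + 1 := ⟨e - 1, by omega⟩
    have h2 : 𝒟 θ s = u * (((e' + 1 : ℕ) : L) * π ^ e' * 𝒟 θ π) + π ^ (e' + 1) * 𝒟 θ u := by
      conv_lhs => rw [hsu]
      rw [Derivation.leibniz, Derivation.leibniz_pow]
      simp only [smul_eq_mul, nsmul_eq_mul, Nat.add_sub_cancel]
      ring
    rw [h2, Nat.add_sub_cancel]
    ring

/-- The pole order of the derivative of a uniformiser is at most `e - 1`. -/
theorem polar_order {T : Type*} (C : Set L) (hres : ∀ y, v y ≤ 1 → ∃ c ∈ C, v (y - c) < 1)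
    (hnat : ∀ k : ℕ, k ≠ 0 → v (k : L) = 1)
    (𝒟 : T → Derivation ℤ L L) (hC : ∀ θ, ∀ c ∈ C, v (𝒟 θ c) ≤ 1) (N : ℕ)
    (hN : ∀ θ, ∀ y, v y ≤ 1 → v (𝒟 θ y) ≤ exp (N : ℤ)) {π : L} (hπ : v π = exp (-1 : ℤ))
    {s : L} {e : ℕ} (he : 1 ≤ e) (hs : v s = exp (-(e : ℤ))) (hDs : ∀ θ, v (𝒟 θ s) ≤ 1) (θ : T) :
    v (𝒟 θ π) ≤ exp ((e : ℤ) - 1) := by
  obtain ⟨w, hw, hwθ⟩ := polar_unit v C hres hnat 𝒟 hC N hN hπ he hs
  obtain ⟨r, hr, h⟩ := hwθ θ
  have hπ1 : v π ≤ 1 := (lt_one_of_uniformizer v hπ).le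
  have h1 : v (π ^ (e - 1) * w * 𝒟 θ π) ≤ 1 := by
    rw [h]
    refine sub_le_one v (hDs θ) (mul_le_one' v ?_ hr)
    rw [map_pow]
    exact pow_le_one₀ zero_le hπ1
  rw [map_mul, map_mul, hw, mul_one, map_pow, hπ, ← exp_nsmul] at h1
  have h2 : v (𝒟 θ π) = exp ((e : ℤ) - 1) * (exp ((e - 1) • (-1 : ℤ)) * v (𝒟 θ π)) := by
    rw [← mul_assoc, ← exp_add]
    have : (e : ℤ) - 1 + (e - 1) • (-1 : ℤ) = 0 := by
      rw [nsmul_eq_mul]
      push_cast [Nat.cast_sub he]
      ring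
    rw [this, exp_zero, one_mul]
  rw [h2]
  calc exp ((e : ℤ) - 1) * (exp ((e - 1) • (-1 : ℤ)) * v (𝒟 θ π)) ≤ exp ((e : ℤ) - 1) * 1 := by
        gcongr
    _ = exp ((e : ℤ) - 1) := mul_one _

/-- In the situation of `polar_order`, if moreover `𝒟 s` is a unit then the order is exact. -/
theorem polar_order_eq {T : Type*} (C : Set L) (hres : ∀ y, v y ≤ 1 → ∃ c ∈ C, v (y - c) < 1)
    (hnat : ∀ k : ℕ, k ≠ 0 → v (k : L) = 1)
    (𝒟 : T → Derivation ℤ L L) (hC : ∀ θ, ∀ c ∈ C, v (𝒟 θ c) ≤ 1) (N : ℕ)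
    (hN : ∀ θ, ∀ y, v y ≤ 1 → v (𝒟 θ y) ≤ exp (N : ℤ)) {π : L} (hπ : v π = exp (-1 : ℤ))
    {s : L} {e : ℕ} (he : 1 ≤ e) (hs : v s = exp (-(e : ℤ))) (θ : T) (hDs : v (𝒟 θ s) = 1)
    (hDs' : ∀ θ, v (𝒟 θ s) ≤ 1) :
    v (𝒟 θ π) = exp ((e : ℤ) - 1) := by
  obtain ⟨w, hw, hwθ⟩ := polar_unit v C hres hnat 𝒟 hC N hN hπ he hs
  obtain ⟨r, hr, h⟩ := hwθ θ
  have hπ1 : v π < 1 := lt_one_of_uniformizer v hπ
  have h1 : v (π ^ (e - 1) * w * 𝒟 θ π) = 1 := by
    rw [h]
    have h2 : v (π ^ e * r) < v (𝒟 θ s) := by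
      rw [hDs, map_mul, map_pow]
      exact mul_lt_one_of_lt_of_le (pow_lt_one₀ zero_le hπ1 (by omega)) hr
    rw [v.map_sub_eq_of_lt_left h2, hDs]
  rw [map_mul, map_mul, hw, mul_one, map_pow, hπ, ← exp_nsmul] at h1
  have h2 : v (𝒟 θ π) = exp ((e : ℤ) - 1) * (exp ((e - 1) • (-1 : ℤ)) * v (𝒟 θ π)) := by
    rw [← mul_assoc, ← exp_add]
    have : (e : ℤ) - 1 + (e - 1) • (-1 : ℤ) = 0 := by
      rw [nsmul_eq_mul]
      push_cast [Nat.cast_sub he]
      ring
    rw [this, exp_zero, one_mul]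
  rw [h2, h1, mul_one]

/-- a bound for the determinant by row and column weights -/
theorem det_weights {m : Type*} [Fintype m] [DecidableEq m] (A : Matrix m m L)
    (r c : m → ℤᵐ⁰) (h : ∀ i j, v (A i j) ≤ r i * c j) :
    v A.det ≤ (∏ i, r i) * ∏ j, c j := by
  rw [Matrix.det_apply]
  refine v.map_sum_le fun σ _ => ?_
  rw [Units.smul_def, zsmul_eq_mul, map_mul]
  have h1 : v ((Equiv.Perm.sign σ : ℤ) : L) ≤ 1 := by
    rcases Int.units_eq_one_or (Equiv.Perm.sign σ) with h2 | h2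
    · rw [h2]; simp
    · rw [h2]; simp
  calc v ((Equiv.Perm.sign σ : ℤ) : L) * v (∏ i, A (σ i) i)
      ≤ 1 * v (∏ i, A (σ i) i) := by gcongr
    _ = ∏ i, v (A (σ i) i) := by rw [one_mul, map_prod]
    _ ≤ ∏ i, (r (σ i) * c i) := Finset.prod_le_prod' fun i _ => h _ _
    _ = (∏ i, r i) * ∏ j, c j := by
        rw [Finset.prod_mul_distrib, Equiv.prod_comp σ r]

/-- Determinant of a regular matrix plus a rank one polar matrix. -/
theorem det_polar {m : Type*} [Fintype m] [DecidableEq m] (R : Matrix m m L)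
    (hR : ∀ i j, v (R i j) ≤ 1) (ρ τ : m → L) (k₁ k₂ : ℕ) (hρ : ∀ i, v (ρ i) ≤ exp (k₁ : ℤ))
    (hτ : ∀ i, v (τ i) ≤ exp (k₂ : ℤ)) :
    v ((Matrix.of fun i j => R i j + ρ i * τ j).det) ≤ exp ((k₁ + k₂ : ℕ) : ℤ) := by
  have h1 : (Matrix.of fun i j => R i j + ρ i * τ j).det =
      (Matrix.fromBlocks (1 : Matrix Unit Unit L) (Matrix.of fun _ j => -τ j)
        (Matrix.of fun i _ => ρ i) R).det := by
    rw [Matrix.det_fromBlocks_one₁₁]
    congr 1
    ext i j
    simp [Matrix.mul_apply]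
  rw [h1]
  refine (det_weights v _ (Sum.elim (fun _ => exp (k₂ : ℤ)) fun _ => 1)
    (Sum.elim (fun _ => exp (k₁ : ℤ)) fun _ => 1) ?_).trans ?_
  · have hk : ∀ k : ℕ, (1 : ℤᵐ⁰) ≤ exp (k : ℤ) := by
      intro k
      rw [← exp_zero, exp_le_exp]
      exact Int.natCast_nonneg k
    rintro (i | i) (j | j)
    · simp only [Matrix.fromBlocks_apply₁₁, Sum.elim_inl]
      rw [Subsingleton.elim i j, Matrix.one_apply_eq, map_one, ← exp_add]
      have := hk (k₂ + k₁)
      push_cast at this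
      exact this
    · simp only [Matrix.fromBlocks_apply₁₂, Sum.elim_inl, Sum.elim_inr, Matrix.of_apply, mul_one]
      rw [Valuation.map_neg]
      exact hτ j
    · simp only [Matrix.fromBlocks_apply₂₁, Sum.elim_inl, Sum.elim_inr, Matrix.of_apply, one_mul]
      exact hρ i
    · simp only [Matrix.fromBlocks_apply₂₂, Sum.elim_inr, mul_one]
      exact hR i j
  · simp only [Fintype.prod_sum_type, Sum.elim_inl, Sum.elim_inr, Finset.prod_const_one, mul_one,
      Finset.univ_unique, Finset.prod_singleton]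
    rw [← exp_add]
    push_cast
    rw [add_comm]

end Polar

section Dominate

open IsDedekindDomain

theorem integral_le_one {R E : Type*} [CommRing R] [Field E] [Algebra R E]
    (v : Valuation E ℤᵐ⁰) (hv : ∀ ρ : R, v (algebraMap R E ρ) ≤ 1) {b : E} (hb : IsIntegral R b) :
    v b ≤ 1 := by
  by_contra hcon
  push Not at hcon
  obtain ⟨p, hp, hpb⟩ := hb
  -- the leading term dominates
  have hb0 : b ≠ 0 := by
    rintro rfl
    rw [map_zero] at hcon
    exact absurd hcon (not_lt.mpr zero_le)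
  by_cases hn : p.natDegree = 0
  · have h1 : p = 1 := by
      exact hp.natDegree_eq_zero.mp hn
    rw [h1, Polynomial.eval₂_one] at hpb
    exact one_ne_zero hpb
  have h2 : b ^ p.natDegree = -∑ i ∈ Finset.range p.natDegree,
      algebraMap R E (p.coeff i) * b ^ i := by
    rw [Polynomial.eval₂_eq_sum_range, Finset.sum_range_succ, hp.coeff_natDegree, map_one,
      one_mul] at hpb
    linear_combination hpb
  have h3 : v (b ^ p.natDegree) ≤ v b ^ (p.natDegree - 1) := by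
    rw [h2, Valuation.map_neg]
    refine v.map_sum_le fun i hi => ?_
    rw [map_mul, map_pow]
    calc v (algebraMap R E (p.coeff i)) * v b ^ i ≤ 1 * v b ^ i := by gcongr; exact hv _
      _ = v b ^ i := one_mul _
      _ ≤ v b ^ (p.natDegree - 1) := by
          apply pow_le_pow_right₀ hcon.le
          have := Finset.mem_range.mp hi
          omega
  rw [map_pow] at h3
  have h4 : v b ^ (p.natDegree - 1) < v b ^ p.natDegree :=
    pow_lt_pow_right₀ hcon (by omega)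
  exact absurd h4 (not_lt.mpr h3)

/-- If a valuation of `E` is at most one on `R`, then every element of its ring is a quotient of
elements integral over `R`, the denominator being a unit. -/
theorem exists_frac {R K₀ E : Type*} [CommRing R] [IsDomain R] [IsPrincipalIdealRing R]
    [Field K₀] [Algebra R K₀] [IsFractionRing R K₀] [Field E] [Algebra R E] [Algebra K₀ E]
    [IsScalarTower R K₀ E] [FiniteDimensional K₀ E] [Algebra.IsSeparable K₀ E]
    (v : Valuation E ℤᵐ⁰) (hv : ∀ ρ : R, v (algebraMap R E ρ) ≤ 1) {y : E} (hy : v y ≤ 1) :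
    ∃ b c : E, IsIntegral R b ∧ IsIntegral R c ∧ v c = 1 ∧ y * c = b := by
  classical
  have hfr : IsFractionRing (integralClosure R E) E :=
    IsIntegralClosure.isFractionRing_of_finite_extension R K₀ E _
  have hded : IsDedekindDomain (integralClosure R E) :=
    integralClosure.isDedekindDomain R K₀ E
  have hB : ∀ b : integralClosure R E, v (b : E) ≤ 1 := fun b => integral_le_one v hv b.2
  let P : Ideal (integralClosure R E) :=
    { carrier := {b | v (b : E) < 1}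
      add_mem' := fun {a b} ha hb => by
        show v ((a + b : integralClosure R E) : E) < 1
        exact (v.map_add _ _).trans_lt (max_lt ha hb)
      zero_mem' := by
        show v ((0 : integralClosure R E) : E) < 1
        simp
      smul_mem' := fun c b hb => by
        show v ((c * b : integralClosure R E) : E) < 1
        push_cast
        rw [map_mul]
        calc v (c : E) * v (b : E) ≤ 1 * v (b : E) := by gcongr; exact hB c
          _ < 1 := by rw [one_mul]; exact hb }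
  have hP : ∀ b : integralClosure R E, b ∈ P ↔ v (b : E) < 1 := fun b => Iff.rfl
  have hunit : ∀ b : integralClosure R E, b ∉ P → v (b : E) = 1 := by
    intro b hb
    rw [hP, not_lt] at hb
    exact le_antisymm (hB b) hb
  have hprime : P.IsPrime := by
    refine ⟨?_, ?_⟩
    · intro h
      have : (1 : integralClosure R E) ∈ P := by rw [h]; trivial
      rw [hP] at this
      simp at this
    · intro a b hab
      by_contra hcon
      push Not at hcon
      rw [hP] at hab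
      push_cast at hab
      rw [map_mul, hunit a hcon.1, hunit b hcon.2, one_mul] at hab
      exact lt_irrefl _ hab
  by_cases hbot : P = ⊥
  · obtain ⟨b, c, hc, hbc⟩ := IsFractionRing.div_surjective (A := integralClosure R E) y
    have hc0 : c ≠ 0 := nonZeroDivisors.ne_zero hc
    refine ⟨b, c, b.2, c.2, hunit c ?_, ?_⟩
    · rw [hbot]
      exact hc0
    · rw [← hbc]
      have : (algebraMap (integralClosure R E) E c) ≠ 0 := by
        rwa [ne_eq, FaithfulSMul.algebraMap_eq_zero_iff]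
      show algebraMap (integralClosure R E) E b / algebraMap (integralClosure R E) E c *
        algebraMap (integralClosure R E) E c = algebraMap (integralClosure R E) E b
      field_simp
  · let w : HeightOneSpectrum (integralClosure R E) := ⟨P, hprime, hbot⟩
    obtain ⟨n, d, h⟩ := w.exists_primeCompl_mul_eq_or_mul_eq (K := E) y
    have hd : v ((d : integralClosure R E) : E) = 1 := hunit d d.2
    rcases h with h | h
    · exact ⟨n, d, n.2, (d : integralClosure R E).2, hd, h⟩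
    · refine ⟨d, n, (d : integralClosure R E).2, n.2, ?_, h⟩
      have h1 : v y * v (n : E) = 1 := by
        rw [← map_mul]
        have : y * (n : E) = ((d : integralClosure R E) : E) := h
        rw [this, hd]
      refine le_antisymm (hB n) ?_
      rw [← h1]
      calc v y * v (n : E) ≤ 1 * v (n : E) := by gcongr
        _ = v (n : E) := one_mul _

/-- A derivation with bounded denominators on the integral closure has bounded poles at `v`. -/
theorem der_bound {R K₀ E : Type*} [CommRing R] [IsDomain R] [IsPrincipalIdealRing R]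
    [Field K₀] [Algebra R K₀] [IsFractionRing R K₀] [Field E] [Algebra R E] [Algebra K₀ E]
    [IsScalarTower R K₀ E] [FiniteDimensional K₀ E] [Algebra.IsSeparable K₀ E]
    (v : Valuation E ℤᵐ⁰) (hv : ∀ ρ : R, v (algebraMap R E ρ) ≤ 1)
    (D : Derivation ℤ E E) (δ : R)
    (hδ : ∀ b : E, IsIntegral R b → IsIntegral R (algebraMap R E δ * D b)) {y : E} (hy : v y ≤ 1) :
    v (algebraMap R E δ * D y) ≤ 1 := by
  obtain ⟨b, c, hb, hc, hvc, hyc⟩ := exists_frac (K₀ := K₀) v hv hy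
  have h1 : D b = y * D c + c * D y := by
    rw [← hyc, Derivation.leibniz, smul_eq_mul, smul_eq_mul]
  have h2 : c * (algebraMap R E δ * D y) =
      algebraMap R E δ * D b - y * (algebraMap R E δ * D c) := by
    rw [h1]; ring
  have h3 : v (c * (algebraMap R E δ * D y)) ≤ 1 := by
    rw [h2]
    exact sub_le_one v (integral_le_one v hv (hδ b hb))
      (mul_le_one' v hy (integral_le_one v hv (hδ c hc)))
  rw [map_mul, hvc, one_mul] at h3
  exact h3

end Dominate

end Pool.Agent.Lib.MP_44a246_nt
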