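import Mathlib
import Pool.Agent.Lib.MP_44a246_nt.Polar
import Pool.Agent.Lib.MP_e52354_nt.Stable

/-!
The hypotheses of the local inequality at a place, from a chart.
-/

namespace Pool.Agent.Lib.MP_44a246_nt

open Pool.Agent.Lib.MP_e52354_nt WithZero

section Den

variable {R K₀ L : Type*} [CommRing R] [IsDomain R] [IsPrincipalIdealRing R]
    [Field K₀] [Algebra R K₀] [IsFractionRing R K₀] [Field L] [Algebra R L] [Algebra K₀ L]
    [IsScalarTower R K₀ L] [FiniteDimensional K₀ L] [Algebra.IsSeparable K₀ L]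

include K₀ in
theorem exists_den (D : Derivation ℤ L L) (hR : ∀ ρ : R, IsIntegral R (D (algebraMap R L ρ))) :
    ∃ ρ : R, ρ ≠ 0 ∧ ∀ b : L, IsIntegral R b → IsIntegral R (algebraMap R L ρ * D b) := by
  classical
  have hfin : Module.Finite R (integralClosure R L) := IsIntegralClosure.finite R K₀ L _
  obtain ⟨T, hT⟩ := hfin.fg_top
  choose ρ hρ0 hρ using exists_mul_isIntegral (R := R) K₀ (M := L)
  let δ : R := ∏ b ∈ T, ρ (D (b : L))
  refine ⟨δ, Finset.prod_ne_zero_iff.mpr fun b _ => hρ0 _, ?_⟩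
  intro b hb
  have hall : ∀ b : integralClosure R L, IsIntegral R (algebraMap R L δ * D (b : L)) := by
    intro b
    have hb : b ∈ Submodule.span R (T : Set (integralClosure R L)) := by rw [hT]; trivial
    induction hb using Submodule.span_induction with
    | mem b hb =>
      obtain ⟨u, hu⟩ := Finset.dvd_prod_of_mem (fun b : integralClosure R L => ρ (D (b : L))) hb
      have : algebraMap R L δ * D (b : L) =
          algebraMap R L u * (algebraMap R L (ρ (D (b : L))) * D (b : L)) := by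
        show algebraMap R L (∏ b ∈ T, ρ (D (b : L))) * D (b : L) = _
        rw [hu, map_mul]; ring
      rw [this]
      exact isIntegral_algebraMap.mul (hρ _)
    | zero =>
      simp only [ZeroMemClass.coe_zero, map_zero, mul_zero]
      exact isIntegral_zero
    | add b b' _ _ hb hb' =>
      rw [Subalgebra.coe_add, map_add, mul_add]
      exact hb.add hb'
    | smul s b _ hb =>
      have : ((s • b : integralClosure R L) : L) = algebraMap R L s * (b : L) := by
        rw [Subalgebra.coe_smul, Algebra.smul_def]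
      rw [this, Derivation.leibniz, smul_eq_mul, smul_eq_mul]
      have h2 : algebraMap R L δ * (algebraMap R L s * D (b : L) +
          (b : L) * D (algebraMap R L s)) = algebraMap R L s * (algebraMap R L δ * D (b : L)) +
          algebraMap R L δ * (b : L) * D (algebraMap R L s) := by ring
      rw [h2]
      exact (isIntegral_algebraMap.mul hb).add ((isIntegral_algebraMap.mul b.2).mul (hR s))
  exact hall ⟨b, hb⟩

include K₀ in
theorem bounded_poles (v : Valuation L ℤᵐ⁰) (hv : ∀ ρ : R, v (algebraMap R L ρ) ≤ 1)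
    {T : Type*} [Finite T] (𝒟 : T → Derivation ℤ L L)
    (hR : ∀ θ, ∀ ρ : R, IsIntegral R (𝒟 θ (algebraMap R L ρ))) :
    ∃ N : ℕ, ∀ θ y, v y ≤ 1 → v (𝒟 θ y) ≤ exp (N : ℤ) := by
  classical
  have := Fintype.ofFinite T
  choose ρ hρ0 hρ using fun θ => exists_den (K₀ := K₀) (𝒟 θ) (hR θ)
  have hinj : Function.Injective (algebraMap R L) := by
    rw [IsScalarTower.algebraMap_eq R K₀ L]
    exact (algebraMap K₀ L).injective.comp (IsFractionRing.injective R K₀)
  have hv0 : ∀ θ, v (algebraMap R L (ρ θ)) ≠ 0 := fun θ => by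
    rw [Valuation.ne_zero_iff, ne_eq, map_eq_zero_iff _ hinj]
    exact hρ0 θ
  refine ⟨∑ θ, (- log (v (algebraMap R L (ρ θ)))).toNat, fun θ y hy => ?_⟩
  have h1 := der_bound (K₀ := K₀) v hv (𝒟 θ) (ρ θ) (hρ θ) hy
  rw [map_mul] at h1
  by_cases h0 : v (𝒟 θ y) = 0
  · rw [h0]; exact zero_le
  have h2 : log (v (algebraMap R L (ρ θ))) + log (v (𝒟 θ y)) ≤ 0 := by
    rw [← log_mul (hv0 θ) h0, ← log_one]
    exact (log_le_log (mul_ne_zero (hv0 θ) h0) one_ne_zero).mpr h1
  rw [← exp_log h0, exp_le_exp]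
  have h3 : (- log (v (algebraMap R L (ρ θ)))).toNat ≤
      ∑ θ, (- log (v (algebraMap R L (ρ θ)))).toNat :=
    Finset.single_le_sum (f := fun θ => (- log (v (algebraMap R L (ρ θ)))).toNat)
      (fun _ _ => Nat.zero_le _) (Finset.mem_univ θ)
  have h4 : - log (v (algebraMap R L (ρ θ))) ≤
      ((- log (v (algebraMap R L (ρ θ)))).toNat : ℤ) := Int.self_le_toNat _
  have h5 : ((- log (v (algebraMap R L (ρ θ)))).toNat : ℤ) ≤
      ((∑ θ, (- log (v (algebraMap R L (ρ θ)))).toNat : ℕ) : ℤ) := by exact_mod_cast h3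
  linarith

end Den

section Chart

variable {R K₀ K L : Type*} [CommRing R] [IsDomain R] [IsPrincipalIdealRing R]
    [Field K₀] [Algebra R K₀] [IsFractionRing R K₀]
    [Field K] [Algebra R K] [Algebra K₀ K] [IsScalarTower R K₀ K] [FiniteDimensional K₀ K]
    [Algebra.IsSeparable K₀ K]
    [Field L] [Algebra R L] [Algebra K₀ L] [IsScalarTower R K₀ L] [FiniteDimensional K₀ L]
    [Algebra.IsSeparable K₀ L] [Algebra K L] [IsScalarTower R K L]

include K₀ in
/-- Polar structure at a place for finitely many derivations of `K` extended to `L`. -/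
theorem chart_polar (v : Valuation L ℤᵐ⁰) (hv : ∀ ρ : R, v (algebraMap R L ρ) ≤ 1)
    {T : Type*} [Finite T] (DK : T → Derivation ℤ K K) (DL : T → Derivation ℤ L L)
    (hext : ∀ θ y, DL θ (algebraMap K L y) = algebraMap K L (DK θ y)) (δ : R)
    (hδ : ∀ θ, ∀ b : K, IsIntegral R b → IsIntegral R (algebraMap R K δ * DK θ b))
    (C : Set L) (hC : ∀ c ∈ C, ∃ c' : K, IsIntegral R c' ∧ c = algebraMap K L c')
    (hres : ∀ y, v y ≤ 1 → ∃ c ∈ C, v (y - c) < 1) (hnat : ∀ k : ℕ, k ≠ 0 → v (k : L) = 1)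
    {π : L} (hπ : v π = exp (-1 : ℤ)) {s : K} {e : ℕ} (he : 1 ≤ e)
    (hs : v (algebraMap K L s) = exp (-(e : ℤ))) :
    (∀ y, v y ≤ 1 → ∃ g, v g ≤ 1 ∧ ∀ θ, v (algebraMap R L δ * DL θ y -
      g * (algebraMap R L δ * DL θ π)) ≤ 1) ∧
    ∀ θ, v (algebraMap R L δ * DL θ π) ≤ exp ((e : ℤ) - 1) := by
  classical
  let 𝒟 : T → Derivation ℤ L L := fun θ => (algebraMap R L δ) • DL θ
  have h𝒟 : ∀ θ y, 𝒟 θ y = algebraMap R L δ * DL θ y := fun θ y => rfl
  have hRKL : ∀ ρ : R, algebraMap R L ρ = algebraMap K L (algebraMap R K ρ) := fun ρ =>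
    IsScalarTower.algebraMap_apply R K L ρ
  have hKint : ∀ θ, ∀ b : K, IsIntegral R b → IsIntegral R (𝒟 θ (algebraMap K L b)) := by
    intro θ b hb
    rw [h𝒟, hext, hRKL, ← map_mul]
    exact (hδ θ b hb).algebraMap
  have hR : ∀ θ, ∀ ρ : R, IsIntegral R (𝒟 θ (algebraMap R L ρ)) := by
    intro θ ρ
    rw [hRKL]
    exact hKint θ _ isIntegral_algebraMap
  obtain ⟨N, hN⟩ := bounded_poles (K₀ := K₀) v hv 𝒟 hR
  have hC' : ∀ θ, ∀ c ∈ C, v (𝒟 θ c) ≤ 1 := by
    intro θ c hc
    obtain ⟨c', hc', rfl⟩ := hC c hc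
    exact integral_le_one v hv (hKint θ c' hc')
  let vK : Valuation K ℤᵐ⁰ := v.comap (algebraMap K L)
  have hvK : ∀ y, vK y = v (algebraMap K L y) := fun y => rfl
  have hDs : ∀ θ, v (𝒟 θ (algebraMap K L s)) ≤ 1 := by
    intro θ
    rw [h𝒟, hext, hRKL, ← map_mul, ← hvK]
    refine der_bound (K₀ := K₀) vK (fun ρ => ?_) (DK θ) δ (hδ θ) ?_
    · rw [hvK, ← hRKL]; exact hv ρ
    · rw [hvK, hs, ← exp_zero]
      exact exp_le_exp.mpr (by omega)
  refine ⟨fun y hy => ?_, fun θ => ?_⟩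
  · obtain ⟨g, hg, h⟩ := polar_part v C hres 𝒟 hC' N hN hπ y hy
    exact ⟨g, hg, fun θ => h θ⟩
  · exact polar_order v C hres hnat 𝒟 hC' N hN hπ he hs hDs θ

end Chart

end Pool.Agent.Lib.MP_44a246_nt
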