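import Mathlib

/-!
Places of a function field of one variable, heights, ramification, truncated counting.
-/

namespace Pool.Agent.Lib.MP_44a246_nt

open WithZero

/-- A place of `L` over `κ`: a normalised (surjective onto `ℤᵐ⁰`) discrete valuation of `L`
which is trivial on `κ`. -/
def Place (κ L : Type*) [Field κ] [Field L] [Algebra κ L] : Type _ :=
  {v : Valuation L ℤᵐ⁰ // Function.Surjective v ∧ ∀ c : κ, c ≠ 0 → v (algebraMap κ L c) = 1}

section

variable {κ L : Type*} [Field κ] [Field L] [Algebra κ L]

/-- the maximum of the absolute values of a finite family -/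
noncomputable def vmax {σ : Type*} [Fintype σ] (v : Valuation L ℤᵐ⁰) (x : σ → L) : ℤᵐ⁰ :=
  Finset.univ.sup fun j => v (x j)

variable (κ)

/-- The (logarithmic, unnormalised) height of a vector with coordinates in `L`. -/
noncomputable def height {σ : Type*} [Fintype σ] (x : σ → L) : ℤ :=
  ∑ᶠ v : Place κ L, log (vmax v.1 x)

/-- The height of a polynomial: the height of the vector of its coefficients. -/
noncomputable def polyHeight {σ : Type*} (G : MvPolynomial σ L) : ℤ :=
  ∑ᶠ v : Place κ L, log (G.support.sup fun I => v.1 (G.coeff I))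

/-- The least `H` such that every form of degree `m` over `L` vanishing at `x` is a linear
combination of forms of degree `m` over `L` vanishing at `x` and of height at most `H`. -/
noncomputable def mu {σ : Type*} (m : ℕ) (x : σ → L) : ℕ :=
  sInf {H : ℕ | ∀ G : MvPolynomial σ L, G.IsHomogeneous m → MvPolynomial.eval x G = 0 →
    G ∈ Submodule.span L {G' : MvPolynomial σ L | G'.IsHomogeneous m ∧
      MvPolynomial.eval x G' = 0 ∧ polyHeight κ G' ≤ H}}

variable {κ}

/-- The ramification index of a place of `L` over the subfield `K`. -/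
noncomputable def ramIdx (K : Type*) [Field K] [Algebra K L] (v : Valuation L ℤᵐ⁰) : ℕ :=
  sInf {m : ℕ | 0 < m ∧ ∃ s : K, v (algebraMap K L s) = exp (-(m : ℤ))}

variable (κ L)

/-- The degree of the ramification divisor of `L` over `K`. -/
noncomputable def ramDeg (K : Type*) [Field K] [Algebra K L] : ℕ :=
  ∑ᶠ v : Place κ L, (ramIdx K v.1 - 1)

variable {L}

/-- The truncated counting function: the number of places of `L`, not lying over the set `S` of
places of `K`, at which the value at `x` of one of the forms `F i` not vanishing at `x` is smaller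
than the maximal possible one. -/
noncomputable def truncCount {K : Type*} [Field K] [Algebra κ K] [Algebra K L] {ι σ : Type*}
    [Fintype σ] (F : ι → MvPolynomial σ K) (d : ι → ℕ) (S : Set (Place κ K)) (x : σ → L) : ℕ :=
  Set.ncard {w : Place κ L | (∀ v ∈ S, ¬ (w.1.comap (algebraMap K L)).IsEquiv v.1) ∧
    ∃ i, MvPolynomial.aeval x (F i) ≠ 0 ∧
      w.1 (MvPolynomial.aeval x (F i)) < vmax w.1 x ^ d i}

end

end Pool.Agent.Lib.MP_44a246_nt
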