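import Mathlib
import Pool.Agent.Lib.MP_e52354_nt.Span

/-!
The vectors attached to a point and several forms.
-/

namespace Pool.Agent.Lib.MP_44a246_nt

open Pool.Agent.Lib.MP_e52354_nt

section Vec

variable {n : ℕ} {ι : Type*} {M : Type*} [Field M]

/-- exponents of monomials in `n + 1` variables -/
abbrev Expo (n : ℕ) := Fin (n + 1) →₀ ℕ

variable (d : ι → ℕ) (a : ι → Expo n → M) (D : ι → Expo n → Derivation ℤ M M)

/-- the values of the forms -/
def yv (x : Fin (n + 1) → M) (j : ι) : M := Fval (d j) (a j) x

open Classical in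
/-- the vector of a derivation: derivatives of the coordinates and logarithmic derivatives of the
values of the forms -/
noncomputable def vecD (x : Fin (n + 1) → M) (i : ι) (I : Expo n) : Fin (n + 1) ⊕ ι → M :=
  Sum.elim (fun k => D i I (x k))
    (fun j => if yv d a x j = 0 then 0 else D i I (yv d a x j) / yv d a x j)

open Classical in
/-- the Euler vector -/
noncomputable def vecP (x : Fin (n + 1) → M) : Fin (n + 1) ⊕ ι → M :=
  Sum.elim x (fun j => if yv d a x j = 0 then 0 else (d j : M))

/-- the functionals -/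
noncomputable def func (x : Fin (n + 1) → M) (j : ι) (v : Fin (n + 1) ⊕ ι → M) : M :=
  ∑ k, grad (d j) (a j) x k * v (Sum.inl k) - yv d a x j * v (Sum.inr j)

/-- the space spanned by the Euler vector and the vectors of the derivations -/
noncomputable def spanV (x : Fin (n + 1) → M) : Submodule M (Fin (n + 1) ⊕ ι → M) :=
  Submodule.span M (insert (vecP d a x)
    {w | ∃ i, ∃ I ∈ expo (Fin (n + 1)) (d i), w = vecD d a D x i I})

/-- the first block of `spanV` -/
noncomputable def spanX (x : Fin (n + 1) → M) : Submodule M (Fin (n + 1) → M) :=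
  Submodule.span M (insert x
    {w | ∃ i, ∃ I ∈ expo (Fin (n + 1)) (d i), w = fun k => D i I (x k)})

/-- labels of the generators of the common kernel of the functionals -/
structure Gen (n : ℕ) (ι M : Type*) where
  /-- the index of the form -/
  i : ι
  /-- the coefficients of a form vanishing at the point -/
  G : Expo n → M
  /-- the complementary monomial -/
  U : Expo n

/-- admissible generators with respect to a set `GS` of forms of degree `m` -/
def Gen.Valid (d : ι → ℕ) (m : ℕ) (GS : Set (Expo n → M)) (g : Gen n ι M) : Prop :=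
  g.G ∈ GS ∧ g.U.degree + m = d g.i

/-- the vector of a generator -/
noncomputable def Zgen (m : ℕ) (x : Fin (n + 1) → M) (g : Gen n ι M) : Fin (n + 1) ⊕ ι → M :=
  fun z => ∑ K ∈ expo (Fin (n + 1)) m, g.G K * vecD d a D x g.i (K + g.U) z

/-- the square matrix with rows `P, Z_1, ..., Z_r` and `v_i`, and the columns `e` -/
noncomputable def bigRows {r : ℕ} (e : Fin (r + 1) ⊕ ι → Fin (n + 1) ⊕ ι)
    (P : Fin (n + 1) ⊕ ι → M) (Z : Fin r → Fin (n + 1) ⊕ ι → M)
    (v : ι → Fin (n + 1) ⊕ ι → M) : Matrix (Fin (r + 1) ⊕ ι) (Fin (r + 1) ⊕ ι) M :=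
  Matrix.of fun a b => Sum.elim (Fin.cons P Z : Fin (r + 1) → Fin (n + 1) ⊕ ι → M) v a (e b)

end Vec

end Pool.Agent.Lib.MP_44a246_nt
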