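import Mathlib
import Pool.Agent.Lib.MP_44a246_nt.Vec

/-!
The spanning property and the element J (several forms).
-/

namespace Pool.Agent.Lib.MP_44a246_nt

open Pool.Agent.Lib.MP_e52354_nt

section Jac

variable {n : ℕ} {ι : Type*} [Fintype ι] [DecidableEq ι] {M : Type*} [Field M]

variable {d : ι → ℕ} {a : ι → Expo n → M} {D : ι → Expo n → Derivation ℤ M M}

/-- the dual family condition -/
def DualFam (d : ι → ℕ) (a : ι → Expo n → M) (D : ι → Expo n → Derivation ℤ M M) : Prop :=
  ∀ i, ∀ I ∈ expo (Fin (n + 1)) (d i), ∀ j, ∀ J ∈ expo (Fin (n + 1)) (d j),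
    D i I (a j J) = if i = j ∧ I = J then 1 else 0

omit [Fintype ι] in
theorem func_vecD (hD : DualFam d a D) (x : Fin (n + 1) → M) (i : ι) {I : Expo n}
    (hI : I ∈ expo (Fin (n + 1)) (d i)) (j : ι) :
    func d a x j (vecD d a D x i I) = if i = j then - mon x I else 0 := by
  classical
  have h1 := D_Fval (d j) (a j) (D i I) x
  have h2 : ∑ J ∈ expo (Fin (n + 1)) (d j), D i I (a j J) * mon x J =
      if i = j then mon x I else 0 := by
    rw [Finset.sum_congr rfl fun J hJ => by rw [hD i I hI j J hJ]]
    split_ifs with hij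
    · subst hij
      simp [hI]
    · simp [hij]
  have h3 : yv d a x j * (if yv d a x j = 0 then 0 else D i I (yv d a x j) / yv d a x j) =
      D i I (yv d a x j) := by
    split_ifs with h0
    · rw [h0, map_zero, mul_zero]
    · field_simp
  unfold func vecD
  simp only [Sum.elim_inl, Sum.elim_inr]
  rw [h3]
  change D i I (yv d a x j) = _ at h1
  rw [h1, h2]
  split_ifs <;> ring

omit [Fintype ι] [DecidableEq ι] in
theorem func_vecP (x : Fin (n + 1) → M) (j : ι) : func d a x j (vecP d a x) = 0 := by
  have heul : ∑ k, grad (d j) (a j) x k * x k = (d j : M) * Fval (d j) (a j) x := by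
    unfold grad Fval
    simp only [Finset.sum_mul, Finset.mul_sum]
    rw [Finset.sum_comm]
    refine Finset.sum_congr rfl fun I hI => ?_
    rw [mem_expo, Finsupp.degree_eq_sum] at hI
    have h1 : ∀ k, a j I * (I k : M) * mon x (I - Finsupp.single k 1) * x k =
        (I k : M) * (a j I * mon x I) := by
      intro k
      have := mon_sub x I k
      linear_combination (a j I) * this
    simp only [h1]
    rw [← Finset.sum_mul, ← Nat.cast_sum, hI]
  unfold func vecP
  simp only [Sum.elim_inl, Sum.elim_inr]
  rw [heul]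
  unfold yv
  split_ifs with h0
  · rw [h0]; ring
  · ring

/-- the functionals as linear maps -/
noncomputable def funcL (d : ι → ℕ) (a : ι → Expo n → M) (x : Fin (n + 1) → M) :
    (Fin (n + 1) ⊕ ι → M) →ₗ[M] (ι → M) where
  toFun v j := func d a x j v
  map_add' v w := by
    funext j
    simp only [func, Pi.add_apply, mul_add, Finset.sum_add_distrib]
    ring
  map_smul' c v := by
    funext j
    simp only [func, Pi.smul_apply, smul_eq_mul, RingHom.id_apply, mul_sub, Finset.mul_sum]
    congr 1
    · exact Finset.sum_congr rfl fun k _ => by ring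
    · ring

omit [Fintype ι] [DecidableEq ι] in
theorem funcL_apply (x : Fin (n + 1) → M) (v : Fin (n + 1) ⊕ ι → M) (j : ι) :
    funcL d a x v j = func d a x j v := rfl

omit [Fintype ι] [DecidableEq ι] in
theorem Zgen_eq_sum (m : ℕ) (x : Fin (n + 1) → M) (g : Gen n ι M) :
    Zgen d a D m x g = ∑ K ∈ expo (Fin (n + 1)) m, g.G K • vecD d a D x g.i (K + g.U) := by
  funext z
  simp [Zgen, Finset.sum_apply]

omit [Fintype ι] [DecidableEq ι] in
theorem add_mem_expo {i : ι} {m : ℕ} {K U : Expo n} (hK : K ∈ expo (Fin (n + 1)) m)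
    (hU : U.degree + m = d i) : K + U ∈ expo (Fin (n + 1)) (d i) := by
  rw [mem_expo] at hK ⊢
  rw [map_add, hK]
  omega

omit [Fintype ι] in
theorem func_Zgen (hD : DualFam d a D) (x : Fin (n + 1) → M) (m : ℕ) (GS : Set (Expo n → M))
    (hGS : ∀ G ∈ GS, Fval m G x = 0) (g : Gen n ι M) (hg : g.Valid d m GS) (j : ι) :
    func d a x j (Zgen d a D m x g) = 0 := by
  rw [← funcL_apply, Zgen_eq_sum, map_sum, Finset.sum_apply]
  have h1 : ∀ K ∈ expo (Fin (n + 1)) m,
      funcL d a x (g.G K • vecD d a D x g.i (K + g.U)) j =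
        (if g.i = j then - mon x g.U else 0) * (g.G K * mon x K) := by
    intro K hK
    rw [map_smul, Pi.smul_apply, funcL_apply, func_vecD hD x g.i (add_mem_expo hK hg.2) j,
      smul_eq_mul]
    split_ifs
    · rw [mon_add]; ring
    · ring
  rw [Finset.sum_congr rfl h1, ← Finset.mul_sum]
  have h2 := hGS _ hg.1
  unfold Fval at h2
  rw [h2, mul_zero]

omit [Fintype ι] [DecidableEq ι] in
theorem Zgen_mem_spanV (m : ℕ) (x : Fin (n + 1) → M) (GS : Set (Expo n → M)) (g : Gen n ι M)
    (hg : g.Valid d m GS) : Zgen d a D m x g ∈ spanV d a D x := by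
  rw [Zgen_eq_sum]
  refine Submodule.sum_mem _ fun K hK => Submodule.smul_mem _ _ (Submodule.subset_span ?_)
  exact Set.mem_insert_of_mem _ ⟨g.i, K + g.U, add_mem_expo hK hg.2, rfl⟩

/-- splitting off a divisor of given degree -/
theorem exists_split {σ : Type*} {I : σ →₀ ℕ} {m : ℕ} (h : m ≤ I.degree) :
    ∃ K U : σ →₀ ℕ, K + U = I ∧ K.degree = m := by
  classical
  induction m with
  | zero => exact ⟨0, I, by simp, by simp⟩
  | succ m ih =>
    obtain ⟨K, U, hKU, hK⟩ := ih (by omega)
    have hU : U ≠ 0 := by
      rintro rfl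
      rw [add_zero] at hKU
      rw [← hKU, hK] at h
      omega
    obtain ⟨i, hi⟩ : ∃ i, U i ≠ 0 := by
      by_contra hcon
      push Not at hcon
      exact hU (Finsupp.ext hcon)
    refine ⟨K + Finsupp.single i 1, U - Finsupp.single i 1, ?_, ?_⟩
    · rw [add_assoc, add_comm (Finsupp.single i 1), sub_add_single hi, hKU]
    · rw [map_add, hK, Finsupp.degree_single]

omit [Fintype ι] [DecidableEq ι] in
/-- A function on the monomials of degree `d` satisfying the relations of the `zeta` vectors is
proportional to the values of the monomials. -/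
theorem prop_of_rel {d' m : ℕ} (hm : 1 ≤ m) (hmd : m ≤ d') {x : Fin (n + 1) → M}
    {l : Fin (n + 1)} (hl : x l ≠ 0) (A : Expo n → M)
    (hA : ∀ U : Expo n, U.degree + m = d' → ∀ G : Expo n → M, Fval m G x = 0 →
      ∑ K ∈ expo (Fin (n + 1)) m, G K * A (K + U) = 0) :
    ∃ c : M, ∀ I ∈ expo (Fin (n + 1)) d', A I = c * mon x I := by
  classical
  have hrel : ∀ m' : Expo n, m'.degree + 1 = d' → ∀ u v : Fin (n + 1),
      x u * A (m' + Finsupp.single v 1) = x v * A (m' + Finsupp.single u 1) := by
    intro m' hm' u v
    obtain ⟨K, U, hKU, hK⟩ := exists_split (I := m') (m := m - 1) (by omega)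
    have hU : U.degree + m = d' := by
      have : (K + U).degree = m'.degree := by rw [hKU]
      rw [map_add] at this
      omega
    have hKe : ∀ w, K + Finsupp.single w 1 ∈ expo (Fin (n + 1)) m := by
      intro w
      rw [mem_expo, map_add, hK, Finsupp.degree_single]
      omega
    have h1 := hA U hU (fun J => x u * (if J = K + Finsupp.single v 1 then 1 else 0) -
      x v * (if J = K + Finsupp.single u 1 then 1 else 0)) (by
        unfold Fval
        simp only [sub_mul, Finset.sum_sub_distrib, mul_assoc, ← Finset.mul_sum, ite_mul, one_mul,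
          zero_mul, Finset.sum_ite_eq', hKe, if_true, mon_add, mon_single, pow_one]
        ring)
    simp only [sub_mul, Finset.sum_sub_distrib, mul_assoc, ← Finset.mul_sum, ite_mul, one_mul,
      zero_mul, Finset.sum_ite_eq', hKe, if_true] at h1
    have e : ∀ w, K + Finsupp.single w 1 + U = m' + Finsupp.single w 1 := by
      intro w
      rw [← hKU]
      abel
    rw [e, e] at h1
    linear_combination h1
  set c : M := A (Finsupp.single l d') * (x l ^ d')⁻¹ with hc
  have hAI : ∀ k : ℕ, ∀ I ∈ expo (Fin (n + 1)) d', I l + k = d' → A I = c * mon x I := by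
    intro k
    induction k with
    | zero =>
      intro I hI hn
      have hIl : I = Finsupp.single l d' := by
        rw [mem_expo, Finsupp.degree_eq_sum] at hI
        ext j
        by_cases hj : j = l
        · subst hj; simpa using hn
        · rw [Finsupp.single_eq_of_ne hj]
          have h2 := Finset.add_sum_erase Finset.univ (fun i => I i) (Finset.mem_univ l)
          have h3 : I j ≤ ∑ i ∈ Finset.univ.erase l, I i :=
            Finset.single_le_sum (f := fun i => I i) (fun _ _ => Nat.zero_le _)
              (Finset.mem_erase.mpr ⟨hj, Finset.mem_univ j⟩)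
          omega
      rw [hIl, hc, mon_single]
      field_simp
    | succ k ih =>
      intro I hI hn
      obtain ⟨v, hvl, hv⟩ : ∃ v, v ≠ l ∧ I v ≠ 0 := by
        by_contra hcon
        push Not at hcon
        have hI' : I = Finsupp.single l (I l) := by
          ext j
          by_cases hj : j = l
          · subst hj; simp
          · rw [Finsupp.single_eq_of_ne hj]; exact hcon j hj
        rw [mem_expo, hI', Finsupp.degree_single] at hI
        omega
      set m' := I - Finsupp.single v 1 with hm'
      have hmI : m' + Finsupp.single v 1 = I := sub_add_single hv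
      have hmd' : m'.degree + 1 = d' := by
        have : (m' + Finsupp.single v 1).degree = d' := by rw [hmI]; exact mem_expo.mp hI
        simpa using this
      have hml : m' l = I l := by
        rw [hm', Finsupp.tsub_apply, Finsupp.single_eq_of_ne (Ne.symm hvl), Nat.sub_zero]
      have h1 := hrel m' hmd' l v
      rw [hmI] at h1
      have h2 := ih (m' + Finsupp.single l 1) (add_mem hmd' l) (by
        simp only [Finsupp.coe_add, Pi.add_apply, Finsupp.single_eq_same, hml]; omega)
      rw [h2] at h1
      have h3 : mon x I * x l = mon x (m' + Finsupp.single l 1) * x v := by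
        rw [← hmI, mon_add, mon_add, mon_single, mon_single]; ring
      have h4 : x l * A I = x l * (c * mon x I) := by
        rw [h1]; linear_combination (-c) * h3
      exact mul_left_cancel₀ hl h4
  refine ⟨c, fun I hI => hAI (d' - I l) I hI ?_⟩
  have : I l ≤ d' := by
    rw [mem_expo, Finsupp.degree_eq_sum] at hI
    rw [← hI]
    exact Finset.single_le_sum (f := fun i => I i) (fun _ _ => Nat.zero_le _)
      (Finset.mem_univ l)
  omega

/-- the common kernel of the functionals on `spanV` is spanned by the Euler vector and the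
generators -/
theorem ker_le_span (hD : DualFam d a D) {x : Fin (n + 1) → M} {l : Fin (n + 1)} (hl : x l ≠ 0)
    (m : ℕ) (hm : 1 ≤ m) (hmd : ∀ i, m ≤ d i) (GS : Set (Expo n → M))
    (hspan : ∀ G : Expo n → M, Fval m G x = 0 →
      ∃ G' ∈ Submodule.span M GS, ∀ I ∈ expo (Fin (n + 1)) m, G' I = G I) :
    spanV d a D x ⊓ LinearMap.ker (funcL d a x) ≤
      Submodule.span M (insert (vecP d a x)
        {w | ∃ g : Gen n ι M, g.Valid d m GS ∧ Zgen d a D m x g = w}) := by
  classical
  intro w hw
  obtain ⟨hwV, hwK⟩ := hw
  by_contra hcon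
  obtain ⟨lam, hlam, hlam'⟩ := Submodule.exists_dual_map_eq_bot_of_notMem hcon inferInstance
  have hkill : ∀ z ∈ insert (vecP d a x)
      {w | ∃ g : Gen n ι M, g.Valid d m GS ∧ Zgen d a D m x g = w}, lam z = 0 := by
    intro z hz
    have h1 : lam z ∈ (Submodule.span M (insert (vecP d a x)
        {w | ∃ g : Gen n ι M, g.Valid d m GS ∧ Zgen d a D m x g = w})).map lam :=
      ⟨z, Submodule.subset_span hz, rfl⟩
    rw [hlam'] at h1
    exact (Submodule.mem_bot M).mp h1
  have hprop : ∀ i, ∃ c : M, ∀ I ∈ expo (Fin (n + 1)) (d i),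
      lam (vecD d a D x i I) = c * mon x I := by
    intro i
    refine prop_of_rel hm (hmd i) hl (fun I => lam (vecD d a D x i I)) ?_
    intro U hU G hG
    obtain ⟨G', hG', hGG'⟩ := hspan G hG
    have h1 : ∀ G ∈ Submodule.span M GS,
        ∑ K ∈ expo (Fin (n + 1)) m, G K * lam (vecD d a D x i (K + U)) = 0 := by
      intro G hG
      induction hG using Submodule.span_induction with
      | mem G hG =>
        have h2 := hkill _ (Set.mem_insert_of_mem _ ⟨⟨i, G, U⟩, ⟨hG, hU⟩, rfl⟩)
        rw [Zgen_eq_sum, map_sum] at h2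
        simpa only [map_smul, smul_eq_mul] using h2
      | zero => simp
      | add G₁ G₂ _ _ h₁ h₂ =>
        simp only [Pi.add_apply, add_mul, Finset.sum_add_distrib, h₁, h₂, add_zero]
      | smul c G _ h₁ =>
        simp only [Pi.smul_apply, smul_eq_mul, mul_assoc, ← Finset.mul_sum, h₁, mul_zero]
    rw [← h1 G' hG']
    exact Finset.sum_congr rfl fun K hK => by rw [hGG' K hK]
  choose c hc using hprop
  -- `lam` is a combination of the functionals on `spanV`
  have hcomb : ∀ v ∈ spanV d a D x, lam v = - ∑ j, c j * func d a x j v := by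
    intro v hv
    have e : ∀ v, - ∑ j, c j * func d a x j v =
        -(Fintype.linearCombination M c (funcL d a x v)) := by
      intro v
      simp [Fintype.linearCombination_apply, funcL_apply, mul_comm]
    unfold spanV at hv
    induction hv using Submodule.span_induction with
    | mem v hv =>
      rcases hv with rfl | ⟨i, I, hI, rfl⟩
      · rw [hkill _ (Set.mem_insert _ _)]
        simp only [func_vecP, mul_zero, Finset.sum_const_zero, neg_zero]
      · rw [hc i I hI]
        simp only [func_vecD hD x i hI]
        simp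
    | zero => simp [e]
    | add v₁ v₂ _ _ h₁ h₂ =>
      rw [map_add, h₁, h₂, e, e, e, map_add, map_add]
      ring
    | smul t v _ h₁ =>
      rw [map_smul, h₁, e, e, map_smul, map_smul, smul_eq_mul, smul_eq_mul]
      ring
  apply hlam
  rw [hcomb w hwV]
  have h3 : ∀ j, func d a x j w = 0 := by
    intro j
    rw [← funcL_apply, LinearMap.mem_ker.mp hwK]
    rfl
  simp [h3]

omit [Fintype ι] [DecidableEq ι] in
/-- a basis of a subspace containing a given vector and consisting otherwise of given
generators -/
theorem exists_basis_ext {W : Type*} [AddCommGroup W] [Module M W] [FiniteDimensional M W]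
    (K : Submodule M W) (p : W) (hp0 : p ≠ 0) (T : Set W) (hpK : p ∈ K) (hT : ∀ z ∈ T, z ∈ K)
    (hK : K ≤ Submodule.span M (insert p T)) :
    ∃ (r : ℕ) (Z : Fin r → W), (∀ k, Z k ∈ T) ∧ r + 1 = Module.finrank M K ∧
      LinearIndependent M (Fin.cons p Z : Fin (r + 1) → W) ∧
      K ≤ Submodule.span M (Set.range (Fin.cons p Z : Fin (r + 1) → W)) := by
  classical
  obtain ⟨b, hbt, hpb, htb, hbi⟩ := exists_linearIndepOn_id_extension (K := M)
    (s := {p}) (t := insert p T) (LinearIndepOn.singleton (by simpa using hp0)) (by simp)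
  have hbK : Submodule.span M b = K := by
    apply le_antisymm
    · rw [Submodule.span_le]
      intro z hz
      rcases hbt hz with rfl | hz'
      · exact hpK
      · exact hT z hz'
    · refine hK.trans ?_
      rw [Submodule.span_le]
      exact htb
  have hbfin : b.Finite := hbi.finite
  have hbi' : LinearIndependent M ((↑) : b → W) := hbi
  have hpb' : p ∈ b := hpb (by simp)
  have hbcard : hbfin.toFinset.card = Module.finrank M K := by
    have := hbfin.fintype
    have h1 := finrank_span_set_eq_card hbi'
    rw [hbK] at h1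
    rw [h1]
    congr 1
    ext x; simp
  have hpos : 0 < hbfin.toFinset.card := Finset.card_pos.mpr ⟨p, by simpa using hpb'⟩
  obtain ⟨r, hr⟩ : ∃ r, hbfin.toFinset.card = r + 1 := ⟨_, (Nat.succ_pred_eq_of_pos hpos).symm⟩
  have hb'card : (hbfin.toFinset.erase p).card = r := by
    rw [Finset.card_erase_of_mem (by simpa using hpb'), hr]
    simp
  let f : Fin r ≃ (hbfin.toFinset.erase p) :=
    (Fintype.equivFinOfCardEq (by rw [Fintype.card_coe]; exact hb'card)).symm
  have hf1 : ∀ i, ((f i : hbfin.toFinset.erase p) : W) ∈ b := by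
    intro i
    have := Finset.mem_of_mem_erase (f i).2
    simpa using this
  have hf2 : ∀ i, ((f i : hbfin.toFinset.erase p) : W) ≠ p := by
    intro i
    exact Finset.ne_of_mem_erase (f i).2
  let Z : Fin r → W := fun i => (f i).1
  refine ⟨r, Z, ?_, by rw [← hr, hbcard], ?_, ?_⟩
  · intro i
    rcases hbt (hf1 i) with h | h
    · exact absurd h (hf2 i)
    · exact h
  · let e : Fin (r + 1) → b := Fin.cons ⟨p, hpb'⟩ (fun i => ⟨(f i).1, hf1 i⟩)
    have he : Function.Injective e := by
      intro i j
      refine Fin.cases ?_ (fun i => ?_) i <;> refine Fin.cases ?_ (fun j => ?_) j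
      · intro _; rfl
      · intro h
        simp only [e, Fin.cons_zero, Fin.cons_succ, Subtype.mk.injEq] at h
        exact absurd h.symm (hf2 j)
      · intro h
        simp only [e, Fin.cons_zero, Fin.cons_succ, Subtype.mk.injEq] at h
        exact absurd h (hf2 i)
      · intro h
        simp only [e, Fin.cons_succ, Subtype.mk.injEq] at h
        rw [f.injective (Subtype.ext h)]
    have h1 := hbi'.comp e he
    have h2 : ((↑) : b → W) ∘ e = Fin.cons p Z := by
      funext i
      refine Fin.cases ?_ (fun i => ?_) i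
      · simp [e]
      · simp [e, Z]
    rwa [h2] at h1
  · rw [← hbK, Submodule.span_le]
    intro z hz
    apply Submodule.subset_span
    by_cases hzp : z = p
    · exact ⟨0, by simp [hzp]⟩
    · obtain ⟨i, hi⟩ := f.surjective ⟨z, Finset.mem_erase.mpr ⟨hzp, by simpa using hz⟩⟩
      refine ⟨i.succ, ?_⟩
      simp only [Fin.cons_succ, Z]
      rw [hi]

omit [Fintype ι] [DecidableEq ι] in
/-- selection of columns -/
theorem exists_cols {α : Type*} [Finite α] (W : Submodule M (α → M)) :
    ∃ s : Finset α, s.card = Module.finrank M W ∧ ∀ v ∈ W, (∀ i ∈ s, v i = 0) → v = 0 := by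
  classical
  have := Fintype.ofFinite α
  let π : α → Module.Dual M W := fun i => (LinearMap.proj i).comp W.subtype
  obtain ⟨κ, f, hf, hspan, hli⟩ := exists_linearIndependent' M π
  have : Finite κ := Finite.of_injective f hf
  have := Fintype.ofFinite κ
  have hbot : (Submodule.span M (Set.range π)).dualCoannihilator = ⊥ := by
    rw [eq_bot_iff]
    intro w hw
    rw [Submodule.mem_dualCoannihilator] at hw
    rw [Submodule.mem_bot]
    apply Subtype.ext
    funext i
    exact hw (π i) (Submodule.subset_span ⟨i, rfl⟩)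
  have hcard : Fintype.card κ = Module.finrank M W := by
    have h1 := finrank_span_eq_card hli
    have h2 := Subspace.finrank_add_finrank_dualCoannihilator_eq
      (Submodule.span M (Set.range π))
    rw [hbot, finrank_bot, add_zero, ← hspan, h1] at h2
    exact h2
  refine ⟨Finset.univ.image f, ?_, ?_⟩
  · rw [Finset.card_image_of_injective _ hf, Finset.card_univ, hcard]
  · intro v hv h0
    have h1 : ∀ g ∈ Submodule.span M (Set.range (π ∘ f)), g ⟨v, hv⟩ = 0 := by
      intro g hg
      induction hg using Submodule.span_induction with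
      | mem g hg =>
        obtain ⟨k, rfl⟩ := hg
        exact h0 (f k) (Finset.mem_image_of_mem _ (Finset.mem_univ _))
      | zero => rfl
      | add g₁ g₂ _ _ h₁ h₂ => rw [LinearMap.add_apply, h₁, h₂, add_zero]
      | smul c g _ h₁ => rw [LinearMap.smul_apply, h₁, smul_zero]
    rw [hspan] at h1
    funext i
    exact h1 (π i) (Submodule.subset_span ⟨i, rfl⟩)

omit [Fintype ι] [DecidableEq ι] in
theorem spanV_inr {x : Fin (n + 1) → M} {j : ι} (hj : yv d a x j = 0)
    {v : Fin (n + 1) ⊕ ι → M} (hv : v ∈ spanV d a D x) : v (Sum.inr j) = 0 := by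
  unfold spanV at hv
  induction hv using Submodule.span_induction with
  | mem v hv =>
    rcases hv with rfl | ⟨i, I, hI, rfl⟩
    · simp [vecP, hj]
    · simp [vecD, hj]
  | zero => rfl
  | add v₁ v₂ _ _ h₁ h₂ => rw [Pi.add_apply, h₁, h₂, add_zero]
  | smul c v _ h₁ => rw [Pi.smul_apply, h₁, smul_zero]

omit [Fintype ι] [DecidableEq ι] in
/-- the first block of `spanV` is `spanX` -/
theorem map_spanV (x : Fin (n + 1) → M) :
    (spanV d a D x).map (LinearMap.funLeft M M (Sum.inl : Fin (n + 1) → Fin (n + 1) ⊕ ι)) =
      spanX d D x := by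
  unfold spanV spanX
  rw [Submodule.map_span]
  congr 1
  ext w
  simp only [Set.mem_image, Set.mem_insert_iff, Set.mem_ofPred_eq]
  constructor
  · rintro ⟨v, rfl | ⟨i, I, hI, rfl⟩, rfl⟩
    · left
      funext k
      simp [LinearMap.funLeft_apply, vecP]
    · right
      refine ⟨i, I, hI, ?_⟩
      funext k
      simp [LinearMap.funLeft_apply, vecD]
  · rintro (rfl | ⟨i, I, hI, rfl⟩)
    · refine ⟨_, Or.inl rfl, ?_⟩
      funext k
      simp [LinearMap.funLeft_apply, vecP]
    · refine ⟨_, Or.inr ⟨i, I, hI, rfl⟩, ?_⟩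
      funext k
      simp [LinearMap.funLeft_apply, vecD]

theorem exists_J (hD : DualFam d a D) {x : Fin (n + 1) → M} {l : Fin (n + 1)} (hl : x l ≠ 0)
    (m : ℕ) (hm : 1 ≤ m) (hmd : ∀ i, m ≤ d i) (GS : Set (Expo n → M))
    (hGS : ∀ G ∈ GS, Fval m G x = 0)
    (hspan : ∀ G : Expo n → M, Fval m G x = 0 →
      ∃ G' ∈ Submodule.span M GS, ∀ I ∈ expo (Fin (n + 1)) m, G' I = G I) :
    ∃ (r : ℕ) (e : Fin (r + 1) ⊕ ι → Fin (n + 1) ⊕ ι) (g : Fin r → Gen n ι M),
      (∀ k, (g k).Valid d m GS) ∧
      Nat.card {b // (e b).isLeft} = Module.finrank M (spanX d D x) ∧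
      r + 1 + Nat.card {i // yv d a x i = 0} ≤ Module.finrank M (spanX d D x) ∧
      ∃ J : M, J ≠ 0 ∧ ∀ v : ι → Fin (n + 1) ⊕ ι → M, (∀ i, v i ∈ spanV d a D x) →
        (bigRows e (vecP d a x) (fun k => Zgen d a D m x (g k)) v).det =
          J * (Matrix.of fun i j => func d a x j (v i)).det := by
  classical
  set V := spanV d a D x with hV
  have hPV : vecP d a x ∈ V := Submodule.subset_span (Set.mem_insert _ _)
  have hP0 : vecP d a x ≠ 0 := by
    intro h0
    apply hl
    have := congrFun h0 (Sum.inl l)
    simpa [vecP] using this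
  -- vectors dual to the functionals
  let w : ι → Fin (n + 1) ⊕ ι → M := fun i =>
    (-(x l) ^ (d i))⁻¹ • vecD d a D x i (Finsupp.single l (d i))
  have hwV : ∀ i, w i ∈ V := fun i => Submodule.smul_mem _ _ (Submodule.subset_span
    (Set.mem_insert_of_mem _ ⟨i, _, by rw [mem_expo, Finsupp.degree_single], rfl⟩))
  have hwf : ∀ i j, func d a x j (w i) = if i = j then 1 else 0 := by
    intro i j
    rw [← funcL_apply, map_smul, Pi.smul_apply, funcL_apply,
      func_vecD hD x i (by rw [mem_expo, Finsupp.degree_single]) j, smul_eq_mul, mon_single]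
    split_ifs
    · exact inv_mul_cancel₀ (neg_ne_zero.mpr (pow_ne_zero _ hl))
    · rw [mul_zero]
  -- the kernel
  obtain ⟨r, Z, hZT, hr, hli, hKspan⟩ := exists_basis_ext (V ⊓ LinearMap.ker (funcL d a x))
    (vecP d a x) hP0 {w | ∃ g : Gen n ι M, g.Valid d m GS ∧ Zgen d a D m x g = w}
    ⟨hPV, by
      rw [SetLike.mem_coe, LinearMap.mem_ker]
      funext j
      exact func_vecP x j⟩
    (by
      rintro z ⟨g, hg, rfl⟩
      refine ⟨Zgen_mem_spanV m x GS g hg, ?_⟩
      rw [SetLike.mem_coe, LinearMap.mem_ker]
      funext j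
      exact func_Zgen hD x m GS hGS g hg j)
    (ker_le_span hD hl m hm hmd GS hspan)
  choose g hg hgZ using hZT
  have hZf : ∀ (k : Fin (r + 1)) (j : ι),
      func d a x j ((Fin.cons (vecP d a x) Z : Fin (r + 1) → Fin (n + 1) ⊕ ι → M) k) = 0 := by
    intro k j
    refine Fin.cases ?_ (fun k => ?_) k
    · exact func_vecP x j
    · rw [Fin.cons_succ, ← hgZ k]
      exact func_Zgen hD x m GS hGS _ (hg k) j
  have hZV : ∀ k : Fin (r + 1),
      (Fin.cons (vecP d a x) Z : Fin (r + 1) → Fin (n + 1) ⊕ ι → M) k ∈ V := by
    intro k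
    refine Fin.cases ?_ (fun k => ?_) k
    · exact hPV
    · rw [Fin.cons_succ, ← hgZ k]
      exact Zgen_mem_spanV m x GS _ (hg k)
  -- dimension of the kernel
  have hdimK : r + 1 + Fintype.card ι = Module.finrank M V := by
    let f : V →ₗ[M] (ι → M) := (funcL d a x).comp V.subtype
    have h1 := LinearMap.finrank_range_add_finrank_ker f
    have h2 : LinearMap.range f = ⊤ := by
      rw [eq_top_iff]
      intro c _
      refine ⟨∑ i, c i • ⟨w i, hwV i⟩, ?_⟩
      funext j
      simp only [map_sum, map_smul, Finset.sum_apply, Pi.smul_apply, smul_eq_mul]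
      have h3 : ∀ i, f ⟨w i, hwV i⟩ j = if i = j then 1 else 0 := fun i => hwf i j
      simp [h3]
    have h3 : Module.finrank M (LinearMap.ker f) =
        Module.finrank M (V ⊓ LinearMap.ker (funcL d a x) : Submodule M _) := by
      have h4 : LinearMap.ker f = (LinearMap.ker (funcL d a x)).comap V.subtype := rfl
      rw [h4]
      have h5 := Submodule.finrank_map_subtype_eq V ((LinearMap.ker (funcL d a x)).comap V.subtype)
      rw [Submodule.map_comap_subtype] at h5
      exact h5.symm
    rw [h2, finrank_top, Module.finrank_fintype_fun_eq_card, h3, ← hr] at h1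
    omega
  -- second blocks of the elements of the kernel of the projection to the first block
  let W2 : Submodule M (ι → M) :=
    V.comap (LinearMap.pi fun z => Sum.elim (fun _ => 0) (fun j => LinearMap.proj j) z)
  have hW2 : ∀ u : ι → M, u ∈ W2 ↔ (Sum.elim (fun _ => 0) u : Fin (n + 1) ⊕ ι → M) ∈ V := by
    intro u
    have : (LinearMap.pi fun z : Fin (n + 1) ⊕ ι =>
        Sum.elim (fun _ => (0 : (ι → M) →ₗ[M] M)) (fun j => LinearMap.proj j) z) u =
        (Sum.elim (fun _ => 0) u : Fin (n + 1) ⊕ ι → M) := by
      funext z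
      cases z <;> simp
    rw [← this]
    exact Iff.rfl
  have hdimV : Module.finrank M V = Module.finrank M (spanX d D x) + Module.finrank M W2 := by
    let p : V →ₗ[M] (Fin (n + 1) → M) :=
      (LinearMap.funLeft M M (Sum.inl : Fin (n + 1) → Fin (n + 1) ⊕ ι)).comp V.subtype
    have h1 := LinearMap.finrank_range_add_finrank_ker p
    have h2 : LinearMap.range p = spanX d D x := by
      rw [← map_spanV (a := a)]
      simp only [p, LinearMap.range_comp, Submodule.range_subtype]
      rfl
    have h3 : Module.finrank M (LinearMap.ker p) = Module.finrank M W2 := by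
      let q : LinearMap.ker p →ₗ[M] W2 :=
        LinearMap.codRestrict W2
          (((LinearMap.funLeft M M (Sum.inr : ι → Fin (n + 1) ⊕ ι)).comp V.subtype).comp
            (LinearMap.ker p).subtype)
          (by
            rintro ⟨⟨v, hv⟩, hvp⟩
            rw [hW2]
            have hv0 : ∀ k, v (Sum.inl k) = 0 := fun k => congrFun (LinearMap.mem_ker.mp hvp) k
            have : (Sum.elim (fun _ => 0) (fun j => v (Sum.inr j)) : Fin (n + 1) ⊕ ι → M) = v := by
              funext z
              cases z with
              | inl k => simp [hv0 k]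
              | inr j => rfl
            have h4 : (Sum.elim (fun _ => 0) (fun j => v (Sum.inr j)) :
              Fin (n + 1) ⊕ ι → M) ∈ V := by rw [this]; exact hv
            exact h4)
      refine LinearEquiv.finrank_eq (LinearEquiv.ofBijective q ⟨?_, ?_⟩)
      · rintro ⟨⟨v, hv⟩, hvp⟩ ⟨⟨v', hv'⟩, hvp'⟩ hq
        have hv0 : ∀ k, v (Sum.inl k) = 0 := fun k => congrFun (LinearMap.mem_ker.mp hvp) k
        have hv0' : ∀ k, v' (Sum.inl k) = 0 := fun k => congrFun (LinearMap.mem_ker.mp hvp') k
        have hv1 : ∀ j, v (Sum.inr j) = v' (Sum.inr j) := fun j =>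
          congrFun (congrArg Subtype.val hq) j
        apply Subtype.ext
        apply Subtype.ext
        funext z
        cases z with
        | inl k => exact (hv0 k).trans (hv0' k).symm
        | inr j => exact hv1 j
      · rintro ⟨u, hu⟩
        rw [hW2] at hu
        refine ⟨⟨⟨_, hu⟩, ?_⟩, ?_⟩
        · rw [LinearMap.mem_ker]
          funext k
          rfl
        · apply Subtype.ext
          funext j
          rfl
    rw [h2, h3] at h1
    exact h1.symm
  obtain ⟨s1, hs1, hs1'⟩ := exists_cols (spanX d D x)
  obtain ⟨s2, hs2, hs2'⟩ := exists_cols W2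
  let s : Finset (Fin (n + 1) ⊕ ι) := s1.disjSum s2
  have hscard : s.card = Module.finrank M V := by
    rw [Finset.card_disjSum, hs1, hs2, hdimV]
  have hsinj : ∀ v ∈ V, (∀ z ∈ s, v z = 0) → v = 0 := by
    intro v hv h0
    have h1 : (fun k => v (Sum.inl k)) = 0 := by
      apply hs1'
      · rw [← map_spanV (a := a)]
        exact ⟨v, hv, rfl⟩
      · intro k hk
        exact h0 _ (Finset.inl_mem_disjSum.mpr hk)
    have h1' : ∀ k, v (Sum.inl k) = 0 := fun k => congrFun h1 k
    have h2 : (fun j => v (Sum.inr j)) = 0 := by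
      apply hs2'
      · rw [hW2]
        have : (Sum.elim (fun _ => 0) (fun j => v (Sum.inr j)) : Fin (n + 1) ⊕ ι → M) = v := by
          funext z
          cases z with
          | inl k => simp [h1' k]
          | inr j => rfl
        rw [this]
        exact hv
      · intro j hj
        exact h0 _ (Finset.inr_mem_disjSum.mpr hj)
    funext z
    cases z with
    | inl k => exact h1' k
    | inr j => exact congrFun h2 j
  have hcards : Fintype.card (Fin (r + 1) ⊕ ι) = Fintype.card s := by
    rw [Fintype.card_coe, hscard, ← hdimK, Fintype.card_sum, Fintype.card_fin]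
  let E : Fin (r + 1) ⊕ ι ≃ s := Fintype.equivOfCardEq hcards
  let e : Fin (r + 1) ⊕ ι → Fin (n + 1) ⊕ ι := fun b => (E b).1
  have hes : ∀ z ∈ s, ∃ b, e b = z := by
    intro z hz
    obtain ⟨b, hb⟩ := E.surjective ⟨z, hz⟩
    exact ⟨b, by simp only [e]; rw [hb]⟩
  refine ⟨r, e, g, hg, ?_, ?_, ?_⟩
  · -- the number of columns in the first block
    rw [← hs1, ← Fintype.card_coe, ← Nat.card_eq_fintype_card]
    refine Nat.card_congr (Equiv.ofBijective (fun b => ⟨(e b.1).getLeft b.2, ?_⟩) ⟨?_, ?_⟩)
    · have h1 : (E b.1).1 ∈ s := (E b.1).2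
      have h2 : (E b.1).1 = Sum.inl ((e b.1).getLeft b.2) := (Sum.inl_getLeft _ _).symm
      rw [h2] at h1
      exact Finset.inl_mem_disjSum.mp h1
    · intro b b' hbb
      simp only [Subtype.mk.injEq] at hbb
      apply Subtype.ext
      apply E.injective
      apply Subtype.ext
      have h1 : (E b.1).1 = Sum.inl ((e b.1).getLeft b.2) := (Sum.inl_getLeft _ _).symm
      have h2 : (E b'.1).1 = Sum.inl ((e b'.1).getLeft b'.2) := (Sum.inl_getLeft _ _).symm
      rw [h1, h2, hbb]
    · rintro ⟨k, hk⟩
      obtain ⟨b, hb⟩ := hes (Sum.inl k) (Finset.inl_mem_disjSum.mpr hk)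
      refine ⟨⟨b, by rw [hb]; rfl⟩, ?_⟩
      apply Subtype.ext
      simp only
      apply Sum.inl_injective (β := ι)
      rw [Sum.inl_getLeft, hb]
  · -- the inequality
    have h1 : Module.finrank M W2 ≤ Nat.card {i // yv d a x i ≠ 0} := by
      let q : W2 →ₗ[M] ({i // yv d a x i ≠ 0} → M) :=
        (LinearMap.funLeft M M (Subtype.val : {i // yv d a x i ≠ 0} → ι)).comp W2.subtype
      have hq : Function.Injective q := by
        rw [← LinearMap.ker_eq_bot, eq_bot_iff]
        rintro ⟨u, hu⟩ hqu
        rw [Submodule.mem_bot]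
        apply Subtype.ext
        funext j
        by_cases hj : yv d a x j = 0
        · have := spanV_inr hj ((hW2 u).mp hu)
          simpa using this
        · exact congrFun (LinearMap.mem_ker.mp hqu) ⟨j, hj⟩
      have h2 := LinearMap.finrank_le_finrank_of_injective hq
      rw [Module.finrank_fintype_fun_eq_card] at h2
      rw [Nat.card_eq_fintype_card]
      exact h2
    have h2 : Nat.card {i // yv d a x i = 0} + Nat.card {i // yv d a x i ≠ 0} =
        Fintype.card ι := by
      rw [Nat.card_eq_fintype_card, Nat.card_eq_fintype_card, Fintype.card_subtype_compl]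
      have := Fintype.card_subtype_le (fun i => yv d a x i = 0)
      omega
    omega
  · -- the determinant
    have hZ : (fun k => Zgen d a D m x (g k)) = Z := funext hgZ
    rw [hZ]
    set C : Fin (r + 1) → Fin (n + 1) ⊕ ι → M := Fin.cons (vecP d a x) Z with hC
    have hfac : ∀ v : ι → Fin (n + 1) ⊕ ι → M, (∀ i, v i ∈ V) →
        (bigRows e (vecP d a x) Z v).det =
          (bigRows e (vecP d a x) Z w).det * (Matrix.of fun i j => func d a x j (v i)).det := by
      intro v hv
      have h1 : ∀ i, ∃ c : Fin (r + 1) → M,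
          v i = ∑ k, c k • C k + ∑ j, func d a x j (v i) • w j := by
        intro i
        have h2 : v i - ∑ j, func d a x j (v i) • w j ∈ V ⊓ LinearMap.ker (funcL d a x) := by
          refine ⟨Submodule.sub_mem _ (hv i) (Submodule.sum_mem _ fun j _ =>
            Submodule.smul_mem _ _ (hwV j)), ?_⟩
          rw [SetLike.mem_coe, LinearMap.mem_ker]
          funext j'
          rw [map_sub, map_sum, Pi.sub_apply, Finset.sum_apply, funcL_apply]
          have h3 : ∀ j, funcL d a x (func d a x j (v i) • w j) j' =
              func d a x j (v i) * (if j = j' then 1 else 0) := by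
            intro j
            rw [map_smul, Pi.smul_apply, funcL_apply, hwf, smul_eq_mul]
          simp [h3]
        obtain ⟨c, hc⟩ := (Submodule.mem_span_range_iff_exists_fun M).mp (hKspan h2)
        exact ⟨c, by rw [hc]; abel⟩
      choose c hc using h1
      have h2 : bigRows e (vecP d a x) Z v =
          Matrix.fromBlocks 1 0 (Matrix.of c) (Matrix.of fun i j => func d a x j (v i)) *
            bigRows e (vecP d a x) Z w := by
        ext b b'
        rw [Matrix.mul_apply, Fintype.sum_sum_type]
        cases b with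
        | inl k =>
          simp only [Matrix.fromBlocks_apply₁₁, Matrix.fromBlocks_apply₁₂, Matrix.zero_apply,
            zero_mul, Finset.sum_const_zero, add_zero, Matrix.one_apply, ite_mul, one_mul]
          rw [Finset.sum_ite_eq]
          simp [bigRows]
        | inr i =>
          simp only [Matrix.fromBlocks_apply₂₁, Matrix.fromBlocks_apply₂₂, Matrix.of_apply]
          have h3 : bigRows e (vecP d a x) Z v (Sum.inr i) b' = v i (e b') := rfl
          have h4 : ∀ k, bigRows e (vecP d a x) Z w (Sum.inl k) b' = C k (e b') := fun k => rfl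
          have h5 : ∀ j, bigRows e (vecP d a x) Z w (Sum.inr j) b' = w j (e b') := fun j => rfl
          rw [h3]
          simp only [h4, h5]
          conv_lhs => rw [hc i]
          simp [Finset.sum_apply]
      rw [h2, Matrix.det_mul, Matrix.det_fromBlocks_zero₁₂, Matrix.det_one, one_mul, mul_comm]
    refine ⟨(bigRows e (vecP d a x) Z w).det, ?_, hfac⟩
    intro hdet
    obtain ⟨c, hc0, hc⟩ := Matrix.exists_vecMul_eq_zero_iff.mpr hdet
    have h1 : ∑ k, c (Sum.inl k) • C k + ∑ i, c (Sum.inr i) • w i = 0 := by
      apply hsinj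
      · exact Submodule.add_mem _
          (Submodule.sum_mem _ fun k _ => Submodule.smul_mem _ _ (hZV k))
          (Submodule.sum_mem _ fun i _ => Submodule.smul_mem _ _ (hwV i))
      · intro z hz
        obtain ⟨b, rfl⟩ := hes z hz
        have h2 := congrFun hc b
        rw [Matrix.vecMul, dotProduct, Fintype.sum_sum_type] at h2
        simp only [Pi.add_apply, Finset.sum_apply, Pi.smul_apply, smul_eq_mul]
        exact h2
    have h2 : ∀ j, c (Sum.inr j) = 0 := by
      intro j
      have h3 := congrFun (congrArg (funcL d a x) h1) j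
      rw [map_add, map_sum, map_sum, map_zero, Pi.add_apply, Finset.sum_apply,
        Finset.sum_apply] at h3
      simp only [map_smul, Pi.smul_apply] at h3
      simp only [funcL_apply, hwf, smul_eq_mul, Pi.zero_apply] at h3
      have h4 : ∀ k, func d a x j (C k) = 0 := fun k => hZf k j
      simp only [h4, mul_zero, Finset.sum_const_zero, zero_add] at h3
      simpa using h3
    have h3 : ∑ k, c (Sum.inl k) • C k = 0 := by
      simp only [h2, zero_smul, Finset.sum_const_zero, add_zero] at h1
      exact h1
    have h4 := Fintype.linearIndependent_iff.mp hli (fun k => c (Sum.inl k)) h3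
    apply hc0
    funext b
    cases b with
    | inl k => exact h4 k
    | inr j => exact h2 j

/-- the evaluation of the determinant at the derivations of the pure powers -/
theorem det_eval (hD : DualFam d a D) (x : Fin (n + 1) → M) (l : Fin (n + 1)) :
    (Matrix.of fun i j => func d a x j
      (vecD d a D x i (Finsupp.single l (d i)))).det = ∏ i, (- (x l) ^ (d i)) := by
  have h1 : (Matrix.of fun i j => func d a x j (vecD d a D x i (Finsupp.single l (d i)))) =
      Matrix.diagonal (fun i => - (x l) ^ (d i)) := by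
    ext i j
    rw [Matrix.of_apply, func_vecD hD x i (by rw [mem_expo, Finsupp.degree_single]) j,
      Matrix.diagonal_apply]
    split_ifs
    · rw [mon_single]
    · rfl
  rw [h1, Matrix.det_diagonal]

end Jac

end Pool.Agent.Lib.MP_44a246_nt
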