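import Mathlib
import Pool.Agent.Lib.MP_44a246_nt.Polar
import Pool.Agent.Lib.MP_44a246_nt.Vec

/-!
The local estimate of the normalised determinant.
-/

namespace Pool.Agent.Lib.MP_44a246_nt

open Pool.Agent.Lib.MP_e52354_nt WithZero

section Good

variable {L : Type*} [Field L] (v : Valuation L ℤᵐ⁰) {Z : Type*} (τ : Z → L) (k₁ : ℕ)

/-- a vector which is regular up to a multiple of `τ` with bounded pole -/
def Good (w : Z → L) : Prop := ∃ ρ, v ρ ≤ exp (k₁ : ℤ) ∧ ∀ z, v (w z - ρ * τ z) ≤ 1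

variable {v τ k₁}

theorem Good.reg {w : Z → L} (h : ∀ z, v (w z) ≤ 1) : Good v τ k₁ w :=
  ⟨0, by simp, fun z => by simpa using h z⟩

theorem Good.add {w w' : Z → L} (h : Good v τ k₁ w) (h' : Good v τ k₁ w') :
    Good v τ k₁ (fun z => w z + w' z) := by
  obtain ⟨ρ, hρ, h1⟩ := h
  obtain ⟨ρ', hρ', h2⟩ := h'
  refine ⟨ρ + ρ', v.map_add_le hρ hρ', fun z => ?_⟩
  have : w z + w' z - (ρ + ρ') * τ z = (w z - ρ * τ z) + (w' z - ρ' * τ z) := by ring
  rw [this]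
  exact v.map_add_le (h1 z) (h2 z)

theorem Good.smul {w : Z → L} (h : Good v τ k₁ w) {c : L} (hc : v c ≤ 1) :
    Good v τ k₁ (fun z => c * w z) := by
  obtain ⟨ρ, hρ, h1⟩ := h
  refine ⟨c * ρ, ?_, fun z => ?_⟩
  · rw [map_mul]
    calc v c * v ρ ≤ 1 * exp (k₁ : ℤ) := mul_le_mul' hc hρ
      _ = _ := one_mul _
  · have : c * w z - c * ρ * τ z = c * (w z - ρ * τ z) := by ring
    rw [this, map_mul]
    exact _root_.mul_le_one' hc (h1 z)

theorem Good.sum {T : Type*} (S : Finset T) {w : T → Z → L} (h : ∀ t ∈ S, Good v τ k₁ (w t)) :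
    Good v τ k₁ (fun z => ∑ t ∈ S, w t z) := by
  classical
  induction S using Finset.induction_on with
  | empty =>
    simp only [Finset.sum_empty]
    exact Good.reg fun z => by simp
  | insert t S ht ih =>
    simp only [Finset.sum_insert ht]
    exact (h t (Finset.mem_insert_self t S)).add
      (ih fun s hs => h s (Finset.mem_insert_of_mem hs))

theorem Good.congr {w w' : Z → L} (h : Good v τ k₁ w) (hw : ∀ z, w' z = w z) :
    Good v τ k₁ w' := by
  have : w' = w := funext hw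
  rwa [this]

end Good

section Local

variable {n : ℕ} {ι : Type*} [Fintype ι] [DecidableEq ι] {L : Type*} [Field L]
variable {d : ι → ℕ} {a : ι → Expo n → L} {D : ι → Expo n → Derivation ℤ L L}

/-- normalised generators -/
def Gen.Norm (v : Valuation L ℤᵐ⁰) (d : ι → ℕ) (m : ℕ) (g : Gen n ι L) : Prop :=
  (∀ K ∈ expo (Fin (n + 1)) m, v (g.G K) ≤ 1) ∧ g.U.degree + m = d g.i

theorem v_nat (v : Valuation L ℤᵐ⁰) (k : ℕ) : v (k : L) ≤ 1 := by
  induction k with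
  | zero => simp
  | succ k ih => rw [Nat.cast_succ]; exact v.map_add_le ih (by simp)

theorem log_der_polar (v : Valuation L ℤᵐ⁰) {T : Type*} (𝒟 : T → L → L)
    (hleib : ∀ θ x y, 𝒟 θ (x * y) = x * 𝒟 θ y + y * 𝒟 θ x)
    (hpow : ∀ θ x, x ≠ 0 → ∀ k : ℤ, 𝒟 θ (x ^ k) = k * x ^ (k - 1) * 𝒟 θ x)
    {π : L} (hπ : v π = exp (-1 : ℤ))
    (hpol : ∀ y, v y ≤ 1 → ∃ g, v g ≤ 1 ∧ ∀ θ, v (𝒟 θ y - g * 𝒟 θ π) ≤ 1) {y : L} (hy : y ≠ 0) :
    ∃ τ, (v τ ≤ exp (1 : ℤ)) ∧ (v y = 1 → v τ ≤ 1) ∧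
      ∀ θ, v (𝒟 θ y / y - 𝒟 θ π * τ) ≤ 1 := by
  have hπ0 : π ≠ 0 := by
    rintro rfl
    rw [map_zero] at hπ
    exact exp_ne_zero hπ.symm
  have hvy : v y ≠ 0 := (Valuation.ne_zero_iff v).mpr hy
  set k : ℤ := - log (v y) with hk
  set u : L := y * π ^ (-k) with hu
  have hu0 : u ≠ 0 := mul_ne_zero hy (zpow_ne_zero _ hπ0)
  have hvu : v u = 1 := by
    rw [hu, map_mul, map_zpow₀, hπ, ← exp_zsmul, ← exp_log hvy, ← exp_add, hk]
    simp
  have hyu : y = u * π ^ k := by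
    rw [hu, mul_assoc, ← zpow_add₀ hπ0, neg_add_cancel, zpow_zero, mul_one]
  obtain ⟨g, hg, hgθ⟩ := hpol u hvu.le
  have hkey : ∀ θ, 𝒟 θ y / y - 𝒟 θ π * (g / u + k / π) = (𝒟 θ u - g * 𝒟 θ π) / u := by
    intro θ
    conv_lhs => rw [hyu]
    rw [hleib, hpow θ π hπ0]
    have hpk : π ^ k ≠ 0 := zpow_ne_zero _ hπ0
    have : π ^ (k - 1) = π ^ k / π := by rw [zpow_sub₀ hπ0, zpow_one]
    rw [this]
    field_simp
    ring
  have hvk : v (k : L) ≤ 1 := by
    obtain ⟨m, hm | hm⟩ := Int.eq_nat_or_neg k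
    · rw [hm]; exact_mod_cast v_nat v m
    · rw [hm, Int.cast_neg, Valuation.map_neg]; exact_mod_cast v_nat v m
  refine ⟨g / u + k / π, ?_, ?_, ?_⟩
  · refine v.map_add_le ?_ ?_
    · rw [map_div₀, hvu, div_one]
      exact hg.trans (by rw [← exp_zero]; exact exp_le_exp.mpr (by norm_num))
    · rw [map_div₀, hπ]
      rw [div_eq_mul_inv, ← exp_neg, neg_neg]
      calc v (k : L) * exp 1 ≤ 1 * exp 1 := mul_le_mul' hvk le_rfl
        _ = _ := one_mul _
  · intro hvy1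
    have hk0 : k = 0 := by rw [hk, hvy1, log_one, neg_zero]
    rw [hk0, Int.cast_zero, zero_div, add_zero, map_div₀, hvu, div_one]
    exact hg
  · intro θ
    rw [hkey, map_div₀, hvu, div_one]
    exact hgθ θ

/-- The local estimate of the normalised determinant. -/
theorem det_norm_bound (v : Valuation L ℤᵐ⁰) {δ π : L}
    (hπ : v π = exp (-1 : ℤ))
    (hpol : ∀ y, v y ≤ 1 → ∃ g, v g ≤ 1 ∧ ∀ i, ∀ I ∈ expo (Fin (n + 1)) (d i),
      v (δ * D i I y - g * (δ * D i I π)) ≤ 1) {k₁ k₂ : ℕ}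
    (hord : ∀ i, ∀ I ∈ expo (Fin (n + 1)) (d i), v (δ * D i I π) ≤ exp (k₁ : ℤ))
    {q : Fin (n + 1) → L} (hq : ∀ k, v (q k) ≤ 1)
    (hy : ∀ j, yv d a q j ≠ 0 → v (yv d a q j) = 1 ∨ k₂ = 1) {m r : ℕ}
    (e : Fin (r + 1) ⊕ ι → Fin (n + 1) ⊕ ι)
    (g : Fin r → Gen n ι L) (hg : ∀ k, (g k).Norm v d m)
    (l : ι → Expo n) (hl : ∀ i, l i ∈ expo (Fin (n + 1)) (d i)) :
    v (δ ^ (r + Fintype.card ι) * (bigRows e (vecP d a q) (fun k => Zgen d a D m q (g k))
      (fun i => vecD d a D q i (l i))).det) ≤ exp ((k₁ + k₂ : ℕ) : ℤ) := by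
  classical
  let T := {θ : ι × Expo n // θ.2 ∈ expo (Fin (n + 1)) (d θ.1)}
  let 𝒟 : T → L → L := fun θ y => δ * D θ.1.1 θ.1.2 y
  have hleib : ∀ θ x y, 𝒟 θ (x * y) = x * 𝒟 θ y + y * 𝒟 θ x := by
    intro θ x y
    simp only [𝒟, Derivation.leibniz, smul_eq_mul]
    ring
  have hpow : ∀ θ x, x ≠ 0 → ∀ k : ℤ, 𝒟 θ (x ^ k) = k * x ^ (k - 1) * 𝒟 θ x := by
    intro θ x hx k
    simp only [𝒟, Derivation.leibniz_zpow, smul_eq_mul, zsmul_eq_mul]
    ring
  have hpol' : ∀ y, v y ≤ 1 → ∃ g, v g ≤ 1 ∧ ∀ θ : T, v (𝒟 θ y - g * 𝒟 θ π) ≤ 1 := by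
    intro y hy
    obtain ⟨g, hg, h⟩ := hpol y hy
    exact ⟨g, hg, fun θ => h _ _ θ.2⟩
  -- the polar direction
  have hcol : ∀ z : Fin (n + 1) ⊕ ι, ∃ τ, v τ ≤ exp (k₂ : ℤ) ∧
      ∀ i, ∀ I ∈ expo (Fin (n + 1)) (d i),
        v (δ * vecD d a D q i I z - δ * D i I π * τ) ≤ 1 := by
    have hk2 : (1 : ℤᵐ⁰) ≤ exp (k₂ : ℤ) := by
      rw [← exp_zero]; exact exp_le_exp.mpr (by positivity)
    intro z
    rcases z with k | j
    · obtain ⟨g, hg, h⟩ := hpol (q k) (hq k)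
      refine ⟨g, hg.trans hk2, fun i I hI => ?_⟩
      have := h i I hI
      simp only [vecD, Sum.elim_inl]
      rwa [mul_comm (δ * D i I π) g]
    · by_cases h0 : yv d a q j = 0
      · refine ⟨0, by simp, fun i I hI => ?_⟩
        simp only [vecD, Sum.elim_inr, if_pos h0]
        simp
      · obtain ⟨τ, h1, h2, h3⟩ := log_der_polar v 𝒟 hleib hpow hπ hpol' h0
        refine ⟨τ, ?_, fun i I hI => ?_⟩
        · rcases hy j h0 with h | h
          · exact (h2 h).trans hk2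
          · rw [h]; exact_mod_cast h1
        · have := h3 ⟨(i, I), hI⟩
          simp only [𝒟] at this
          simp only [vecD, Sum.elim_inr, if_neg h0]
          rwa [← mul_div_assoc]
  choose τ hτ hcolτ using hcol
  -- good vectors
  have hgD : ∀ i, ∀ I ∈ expo (Fin (n + 1)) (d i),
      Good v τ k₁ (fun z => δ * vecD d a D q i I z) := fun i I hI =>
    ⟨δ * D i I π, hord i I hI, fun z => hcolτ z i I hI⟩
  have hgP : Good v τ k₁ (vecP d a q) := by
    refine Good.reg fun z => ?_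
    rcases z with k | j
    · exact hq k
    · simp only [vecP, Sum.elim_inr]
      split_ifs
      · simp
      · exact v_nat v _
  have hgZ : ∀ k, Good v τ k₁ (fun z => δ * Zgen d a D m q (g k) z) := by
    intro k
    obtain ⟨hG, hU⟩ := hg k
    have h1 : Good v τ k₁ (fun z => ∑ K ∈ expo (Fin (n + 1)) m,
        (g k).G K * (δ * vecD d a D q (g k).i (K + (g k).U) z)) := by
      refine Good.sum _ fun K hK => (hgD (g k).i (K + (g k).U) ?_).smul (hG K hK)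
      rw [mem_expo] at hK ⊢
      simp only [map_add, hK]
      omega
    refine h1.congr fun z => ?_
    simp only [Zgen, Finset.mul_sum]
    exact Finset.sum_congr rfl fun K _ => by ring
  -- the scaled matrix
  let w : Fin (r + 1) ⊕ ι → L := Sum.elim (Fin.cons 1 (fun _ => δ) : Fin (r + 1) → L)
    (fun _ => δ)
  set B := bigRows e (vecP d a q) (fun k => Zgen d a D m q (g k))
      (fun i => vecD d a D q i (l i)) with hB
  have hrow : ∀ a, ∃ ρ, v ρ ≤ exp (k₁ : ℤ) ∧ ∀ b, v (w a * B a b - ρ * τ (e b)) ≤ 1 := by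
    intro r
    rcases r with r | i
    · refine Fin.cases ?_ (fun k => ?_) r
      · obtain ⟨ρ, hρ, h⟩ := hgP
        refine ⟨ρ, hρ, fun b => ?_⟩
        show v (1 * vecP d a q (e b) - ρ * τ (e b)) ≤ 1
        rw [one_mul]; exact h _
      · obtain ⟨ρ, hρ, h⟩ := hgZ k
        exact ⟨ρ, hρ, fun b => h (e b)⟩
    · obtain ⟨ρ, hρ, h⟩ := hgD i (l i) (hl i)
      exact ⟨ρ, hρ, fun b => h (e b)⟩
  choose ρ hρ hreg using hrow
  have hdet := det_polar v (Matrix.of fun r z => w r * B r z - ρ r * τ (e z))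
    (fun r z => hreg r z) ρ (fun b => τ (e b)) k₁ k₂ hρ (fun b => hτ (e b))
  have h1 : (Matrix.of fun r z => (Matrix.of fun r z => w r * B r z - ρ r * τ (e z)) r z +
      ρ r * τ (e z)) = Matrix.of fun r z => w r * B r z := by
    ext r z
    simp
  rw [h1, Matrix.det_mul_column] at hdet
  have h2 : ∏ a, w a = δ ^ (r + Fintype.card ι) := by
    rw [Fintype.prod_sum_type, Fin.prod_univ_succ]
    simp only [w, Sum.elim_inl, Sum.elim_inr, Fin.cons_zero, Fin.cons_succ, Finset.prod_const,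
      Finset.card_univ, Fintype.card_fin, one_mul]
    rw [← pow_add]
  rw [h2] at hdet
  exact hdet

end Local

end Pool.Agent.Lib.MP_44a246_nt
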