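import Mathlib
import Pool.Agent.Lib.MP_44a246_nt.Vec
import Pool.Agent.Lib.MP_e52354_nt.Local

/-!
Behaviour of the big determinant under scaling of the point.
-/

namespace Pool.Agent.Lib.MP_44a246_nt

open Pool.Agent.Lib.MP_e52354_nt

section Scale

variable {n : ℕ} {ι : Type*} {M : Type*} [Field M]

variable (d : ι → ℕ) (a : ι → Expo n → M) (D : ι → Expo n → Derivation ℤ M M)

theorem yv_smul (α : M) (q : Fin (n + 1) → M) (j : ι) :
    yv d a (fun k => α * q k) j = α ^ d j * yv d a q j := Fval_smul _ _ _ _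

theorem yv_smul_eq_zero {α : M} (hα : α ≠ 0) (q : Fin (n + 1) → M) (j : ι) :
    yv d a (fun k => α * q k) j = 0 ↔ yv d a q j = 0 := by
  rw [yv_smul, mul_eq_zero]
  exact ⟨fun h => h.resolve_left (pow_ne_zero _ hα), Or.inr⟩

/-- multiplication of the first block by `α` -/
def TT (α : M) : (Fin (n + 1) ⊕ ι → M) →ₗ[M] (Fin (n + 1) ⊕ ι → M) where
  toFun v := Sum.elim (fun k => α * v (Sum.inl k)) (fun j => v (Sum.inr j))
  map_add' v w := by
    funext z
    rcases z with k | j <;> simp [mul_add]
  map_smul' c v := by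
    funext z
    rcases z with k | j <;> simp [mul_left_comm]

theorem TT_inl (α : M) (v : Fin (n + 1) ⊕ ι → M) (k : Fin (n + 1)) :
    TT α v (Sum.inl k) = α * v (Sum.inl k) := rfl

theorem TT_inr (α : M) (v : Fin (n + 1) ⊕ ι → M) (j : ι) :
    TT α v (Sum.inr j) = v (Sum.inr j) := rfl

theorem vecP_smul {α : M} (hα : α ≠ 0) (q : Fin (n + 1) → M) :
    vecP d a (fun k => α * q k) = TT α (vecP d a q) := by
  funext z
  rcases z with k | j
  · simp [vecP, TT]
  · rw [TT_inr]
    simp only [vecP, Sum.elim_inr]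
    by_cases h : yv d a q j = 0
    · rw [if_pos h, if_pos ((yv_smul_eq_zero d a hα q j).mpr h)]
    · rw [if_neg h, if_neg (mt (yv_smul_eq_zero d a hα q j).mp h)]

theorem vecD_smul {α : M} (hα : α ≠ 0) (q : Fin (n + 1) → M) (i : ι) (I : Expo n) :
    vecD d a D (fun k => α * q k) i I =
      TT α (vecD d a D q i I + (D i I α / α) • vecP d a q) := by
  funext z
  rcases z with k | j
  · rw [TT_inl]
    simp only [vecD, vecP, Sum.elim_inl, Derivation.leibniz, smul_eq_mul, Pi.add_apply,
      Pi.smul_apply]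
    field_simp
  · rw [TT_inr]
    simp only [vecD, vecP, Sum.elim_inr, Pi.add_apply, Pi.smul_apply]
    by_cases h : yv d a q j = 0
    · rw [if_pos h, if_pos h, if_pos ((yv_smul_eq_zero d a hα q j).mpr h)]
      simp
    · rw [if_neg h, if_neg h, if_neg (mt (yv_smul_eq_zero d a hα q j).mp h), yv_smul]
      simp only [Derivation.leibniz, Derivation.leibniz_pow, smul_eq_mul, nsmul_eq_mul]
      rcases Nat.eq_zero_or_pos (d j) with h0 | h0
      · simp [h0]
      · obtain ⟨e, he⟩ : ∃ e, d j = e + 1 := ⟨d j - 1, by omega⟩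
        rw [he, Nat.add_sub_cancel]
        field_simp
        ring

/-- the correction coefficient -/
noncomputable def betaG (m : ℕ) (α : M) (g : Gen n ι M) : M :=
  ∑ K ∈ expo (Fin (n + 1)) m, g.G K * (D g.i (K + g.U) α / α)

theorem Zgen_smul {α : M} (hα : α ≠ 0) (m : ℕ) (q : Fin (n + 1) → M) (g : Gen n ι M) :
    Zgen d a D m (fun k => α * q k) g =
      TT α (Zgen d a D m q g + betaG D m α g • vecP d a q) := by
  have h : ∀ x : Fin (n + 1) → M, Zgen d a D m x g =
      ∑ K ∈ expo (Fin (n + 1)) m, g.G K • vecD d a D x g.i (K + g.U) := by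
    intro x
    funext z
    simp [Zgen]
  rw [h, h]
  simp only [betaG, vecD_smul d a D hα, ← map_smul, ← map_sum, smul_add, Finset.sum_add_distrib,
    Finset.sum_smul, smul_smul]

variable [Fintype ι] [DecidableEq ι]

theorem det_bigRows_smul {α : M} (hα : α ≠ 0) (m : ℕ) (q : Fin (n + 1) → M) {r : ℕ}
    (e : Fin (r + 1) ⊕ ι → Fin (n + 1) ⊕ ι) (g : Fin r → Gen n ι M) (l : ι → Expo n) :
    (bigRows e (vecP d a (fun k => α * q k)) (fun k => Zgen d a D m (fun k => α * q k) (g k))
      (fun i => vecD d a D (fun k => α * q k) i (l i))).det =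
    α ^ (Nat.card {b // (e b).isLeft}) *
      (bigRows e (vecP d a q) (fun k => Zgen d a D m q (g k))
      (fun i => vecD d a D q i (l i))).det := by
  set B := bigRows e (vecP d a q) (fun k => Zgen d a D m q (g k))
      (fun i => vecD d a D q i (l i)) with hB
  -- the unipotent row operation
  let c : Fin (r + 1) ⊕ ι → M := Sum.elim
    (Fin.cons 0 (fun k => betaG D m α (g k)) : Fin (r + 1) → M) (fun i => D i (l i) α / α)
  let A : Matrix (Fin (r + 1) ⊕ ι) (Fin (r + 1) ⊕ ι) M :=
    Matrix.of fun r z => B r z + c r * B (Sum.inl 0) z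
  have hA : A.det = B.det := by
    refine Matrix.det_eq_of_forall_row_eq_smul_add_const c (Sum.inl 0) (by simp [c]) ?_
    intro r z
    rfl
  let s : Fin (n + 1) ⊕ ι → M := Sum.elim (fun _ => α) (fun _ => 1)
  have hs : bigRows e (vecP d a (fun k => α * q k))
      (fun k => Zgen d a D m (fun k => α * q k) (g k))
      (fun i => vecD d a D (fun k => α * q k) i (l i)) = Matrix.of fun r z => s (e z) * A r z := by
    ext r z
    have hP0 : B (Sum.inl 0) z = vecP d a q (e z) := rfl
    show _ = s (e z) * (B r z + c r * B (Sum.inl 0) z)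
    rw [hP0]
    have hT : ∀ w : Fin (n + 1) ⊕ ι → M, TT α w (e z) = s (e z) * w (e z) := by
      intro w
      rcases e z with k | j
      · rfl
      · rw [TT_inr]
        simp [s]
    rcases r with r | i
    · refine Fin.cases ?_ (fun k => ?_) r
      · show vecP d a (fun k => α * q k) (e z) = s (e z) * (vecP d a q (e z) + 0 * vecP d a q (e z))
        rw [vecP_smul d a hα, hT]; ring
      · show Zgen d a D m (fun k => α * q k) (g k) (e z) =
          s (e z) * (Zgen d a D m q (g k) (e z) + betaG D m α (g k) * vecP d a q (e z))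
        rw [Zgen_smul d a D hα, hT]
        rfl
    · show vecD d a D (fun k => α * q k) i (l i) (e z) =
          s (e z) * (vecD d a D q i (l i) (e z) + (D i (l i) α / α) * vecP d a q (e z))
      rw [vecD_smul d a D hα, hT]
      rfl
  rw [hs, Matrix.det_mul_row, hA]
  congr 1
  have h1 : ∀ b, s (e b) = if (e b).isLeft then α else 1 := by
    intro b
    rcases e b with k | j <;> simp [s]
  simp only [h1, Finset.prod_ite, Finset.prod_const_one, mul_one, Finset.prod_const]
  congr 1
  rw [Nat.card_eq_fintype_card, Fintype.card_subtype]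

end Scale

end Pool.Agent.Lib.MP_44a246_nt
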