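import Mathlib
import Pool.Agent.Lib.MP_44a246_nt.Defs
import Pool.Agent.Lib.MP_44a246_nt.Jacobian
import Pool.Agent.Lib.MP_44a246_nt.LocalDet
import Pool.Agent.Lib.MP_44a246_nt.Scale

/-!
The local inequality for the element J.
-/

namespace Pool.Agent.Lib.MP_44a246_nt

open Pool.Agent.Lib.MP_e52354_nt WithZero

section LocalIneq

variable {n : ℕ} {ι : Type*} [Fintype ι] [DecidableEq ι] {L : Type*} [Field L]
variable {d : ι → ℕ} {a : ι → Expo n → L} {D : ι → Expo n → Derivation ℤ L L}

/-- the size of the coefficients of a generator -/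
noncomputable def Gam (v : Valuation L ℤᵐ⁰) (m : ℕ) (G : Expo n → L) : ℤᵐ⁰ :=
  (expo (Fin (n + 1)) m).sup fun K => v (G K)

theorem expo_nonempty (n m : ℕ) : (expo (Fin (n + 1)) m).Nonempty :=
  ⟨Finsupp.single 0 m, by rw [mem_expo, Finsupp.degree_single]⟩

omit [Fintype ι] [DecidableEq ι] in
/-- normalisation of a generator -/
theorem exists_norm (v : Valuation L ℤᵐ⁰) (m : ℕ) (x : Fin (n + 1) → L)
    (GS : Set (Expo n → L)) (g : Gen n ι L) (hg : g.Valid d m GS) :
    ∃ g' : Gen n ι L, ∃ γ : L, g'.Norm v d m ∧ v γ = Gam v m g.G ∧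
      ∀ z, Zgen d a D m x g z = γ * Zgen d a D m x g' z := by
  obtain ⟨K₀, hK₀, hmax⟩ := Finset.exists_max_image (expo (Fin (n + 1)) m) (fun K => v (g.G K))
    (expo_nonempty n m)
  have hsup : (expo (Fin (n + 1)) m).sup (fun K => v (g.G K)) = v (g.G K₀) :=
    le_antisymm (Finset.sup_le hmax) (Finset.le_sup (f := fun K => v (g.G K)) hK₀)
  have hzero : g.G K₀ = 0 → ∀ K ∈ expo (Fin (n + 1)) m, g.G K = 0 := by
    intro h0 K hK
    have := hmax K hK
    rw [h0, map_zero, le_zero_iff, Valuation.zero_iff] at this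
    exact this
  refine ⟨⟨g.i, fun K => g.G K / g.G K₀, g.U⟩, g.G K₀, ⟨fun K hK => ?_, hg.2⟩, hsup.symm,
    fun z => ?_⟩
  · show v (g.G K / g.G K₀) ≤ 1
    by_cases h0 : g.G K₀ = 0
    · rw [h0, div_zero, map_zero]; exact zero_le_one
    · rw [map_div₀]
      exact div_le_one_of_le₀ (hmax K hK) zero_le
  · simp only [Zgen, Finset.mul_sum]
    refine Finset.sum_congr rfl fun K hK => ?_
    by_cases h0 : g.G K₀ = 0
    · rw [hzero h0 K hK, h0]; simp
    · field_simp

theorem exists_vmax {σ : Type*} [Fintype σ] (v : Valuation L ℤᵐ⁰) {x : σ → L} (hx : x ≠ 0) :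
    ∃ l, x l ≠ 0 ∧ vmax v x = v (x l) ∧ ∀ k, v (x k) ≤ v (x l) := by
  obtain ⟨k₀, hk₀⟩ : ∃ k, x k ≠ 0 := by
    by_contra hcon
    push Not at hcon
    exact hx (funext hcon)
  obtain ⟨l, -, hmax⟩ := Finset.exists_max_image Finset.univ (fun k => v (x k))
    ⟨k₀, Finset.mem_univ _⟩
  have hmax' : ∀ k, v (x k) ≤ v (x l) := fun k => hmax k (Finset.mem_univ _)
  refine ⟨l, ?_, ?_, hmax'⟩
  · intro h0
    have := hmax' k₀
    rw [h0, map_zero, le_zero_iff, Valuation.zero_iff] at this
    exact hk₀ this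
  · exact le_antisymm (Finset.sup_le fun k _ => hmax' k)
      (Finset.le_sup (f := fun k => v (x k)) (Finset.mem_univ l))

theorem local_ineq (v : Valuation L ℤᵐ⁰) {δ π : L}
    (hπ : v π = exp (-1 : ℤ)) (hD : DualFam d a D)
    (hpol : ∀ y, v y ≤ 1 → ∃ g, v g ≤ 1 ∧ ∀ i, ∀ I ∈ expo (Fin (n + 1)) (d i),
      v (δ * D i I y - g * (δ * D i I π)) ≤ 1) {k₁ k₂ : ℕ}
    (hord : ∀ i, ∀ I ∈ expo (Fin (n + 1)) (d i), v (δ * D i I π) ≤ exp (k₁ : ℤ))
    {x : Fin (n + 1) → L} (hx : x ≠ 0)
    (hy : ∀ j, yv d a x j ≠ 0 → v (yv d a x j) = vmax v x ^ d j ∨ k₂ = 1) {m r : ℕ}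
    (GS : Set (Expo n → L)) (e : Fin (r + 1) ⊕ ι → Fin (n + 1) ⊕ ι)
    (g : Fin r → Gen n ι L) (hg : ∀ k, (g k).Valid d m GS) {J : L}
    (hJ : ∀ u : ι → Fin (n + 1) ⊕ ι → L, (∀ i, u i ∈ spanV d a D x) →
        (bigRows e (vecP d a x) (fun k => Zgen d a D m x (g k)) u).det =
          J * (Matrix.of fun i j => func d a x j (u i)).det) :
    v δ ^ (r + Fintype.card ι) * (v J * vmax v x ^ (∑ i, d i)) ≤
      vmax v x ^ (Nat.card {b // (e b).isLeft}) * (∏ k, Gam v m (g k).G) *
        exp ((k₁ + k₂ : ℕ) : ℤ) := by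
  classical
  obtain ⟨l, hl0, hlmax, hle⟩ := exists_vmax v hx
  set α := x l with hα
  set q : Fin (n + 1) → L := fun k => x k / α with hq
  have hxq : x = fun k => α * q k := by
    funext k
    show x k = α * (x k / α)
    field_simp
  choose g' γ hg'N hγ hZ using fun k => exists_norm (a := a) (D := D) v m x GS (g k) (hg k)
  -- evaluation at the pure powers
  have h1 := hJ (fun i => vecD d a D x i (Finsupp.single l (d i))) (fun i =>
    Submodule.subset_span (Set.mem_insert_of_mem _ ⟨i, Finsupp.single l (d i),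
      by rw [mem_expo, Finsupp.degree_single], rfl⟩))
  rw [det_eval hD x l] at h1
  -- the factors of the generators
  have h2 : (bigRows e (vecP d a x) (fun k => Zgen d a D m x (g k))
      (fun i => vecD d a D x i (Finsupp.single l (d i)))).det =
      (∏ k, γ k) * (bigRows e (vecP d a x) (fun k => Zgen d a D m x (g' k))
        (fun i => vecD d a D x i (Finsupp.single l (d i)))).det := by
    let w : Fin (r + 1) ⊕ ι → L := Sum.elim (Fin.cons 1 γ : Fin (r + 1) → L) (fun _ => 1)
    have h3 : bigRows e (vecP d a x) (fun k => Zgen d a D m x (g k))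
      (fun i => vecD d a D x i (Finsupp.single l (d i))) = Matrix.of fun r z => w r *
        bigRows e (vecP d a x) (fun k => Zgen d a D m x (g' k))
        (fun i => vecD d a D x i (Finsupp.single l (d i))) r z := by
      ext r z
      rcases r with r | i
      · refine Fin.cases ?_ (fun k => ?_) r
        · show vecP d a x (e z) = 1 * vecP d a x (e z)
          rw [one_mul]
        · exact hZ k (e z)
      · show vecD d a D x i (Finsupp.single l (d i)) (e z) =
          1 * vecD d a D x i (Finsupp.single l (d i)) (e z)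
        rw [one_mul]
    rw [h3, Matrix.det_mul_column]
    congr 1
    simp only [w, Fintype.prod_sum_type, Sum.elim_inl, Sum.elim_inr, Finset.prod_const_one, mul_one]
    rw [Fin.prod_univ_succ]
    simp
  have h4 := det_bigRows_smul d a D hl0 m q e g' (fun i => Finsupp.single l (d i))
  rw [← hxq] at h4
  have hqle : ∀ k, v (q k) ≤ 1 := by
    intro k
    rw [hq]
    simp only
    rw [map_div₀]
    exact div_le_one_of_le₀ (hle k) zero_le
  have hyq : ∀ j, yv d a x j = α ^ d j * yv d a q j := by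
    intro j
    conv_lhs => rw [hxq]
    exact yv_smul d a α q j
  have hvα : v α ≠ 0 := (Valuation.ne_zero_iff v).mpr hl0
  have h5 := det_norm_bound (a := a) (D := D) v hπ hpol hord hqle (k₂ := k₂) (by
    intro j hj
    have h6 : yv d a x j ≠ 0 := by
      rw [hyq]; exact mul_ne_zero (pow_ne_zero _ hl0) hj
    rcases hy j h6 with h7 | h7
    · left
      rw [hyq, map_mul, map_pow, hlmax] at h7
      exact mul_left_cancel₀ (pow_ne_zero _ hvα) (by rw [h7, mul_one])
    · exact Or.inr h7) e g' hg'N (fun i => Finsupp.single l (d i))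
    (fun i => by rw [mem_expo, Finsupp.degree_single])
  set B := (bigRows e (vecP d a q) (fun k => Zgen d a D m q (g' k))
      (fun i => vecD d a D q i (Finsupp.single l (d i)))).det with hB
  -- combine
  have h8 : v J * v α ^ (∑ i, d i) =
      (∏ k, v (γ k)) * (v α ^ (Nat.card {b // (e b).isLeft}) * v B) := by
    have h9 := congrArg v h1
    rw [h2, h4] at h9
    simp only [map_mul, map_prod, map_pow, Valuation.map_neg, Finset.prod_pow_eq_pow_sum] at h9
    exact h9.symm
  rw [hlmax, h8]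
  simp only [hγ]
  rw [map_mul, map_pow] at h5
  calc v δ ^ (r + Fintype.card ι) * ((∏ k, Gam v m (g k).G) *
        (v α ^ (Nat.card {b // (e b).isLeft}) * v B))
      = v α ^ (Nat.card {b // (e b).isLeft}) * (∏ k, Gam v m (g k).G) *
        (v δ ^ (r + Fintype.card ι) * v B) := by
        ac_rfl
    _ ≤ v α ^ (Nat.card {b // (e b).isLeft}) * (∏ k, Gam v m (g k).G) *
        exp ((k₁ + k₂ : ℕ) : ℤ) :=
        mul_le_mul' le_rfl h5

end LocalIneq

end Pool.Agent.Lib.MP_44a246_nt
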