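import Mathlib
import Pool.Agent.Lib.MP_44a246_nt.Chart
import Pool.Agent.Lib.MP_44a246_nt.LocalIneq

/-!
The logarithmic inequality at one place.
-/

namespace Pool.Agent.Lib.MP_44a246_nt

open Pool.Agent.Lib.MP_e52354_nt WithZero

section LogLemmas

theorem log_pow' {a : ℤᵐ⁰} (n : ℕ) : log (a ^ n) = n * log a := by
  rw [log_pow, nsmul_eq_mul]

theorem log_prod' {T : Type*} (S : Finset T) (f : T → ℤᵐ⁰) (h : ∀ t ∈ S, f t ≠ 0) :
    log (∏ t ∈ S, f t) = ∑ t ∈ S, log (f t) := by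
  classical
  induction S using Finset.induction_on with
  | empty => simp
  | insert t S ht ih =>
    rw [Finset.prod_insert ht, Finset.sum_insert ht, log_mul (h t (Finset.mem_insert_self t S))
      (Finset.prod_ne_zero_iff.mpr fun s hs => h s (Finset.mem_insert_of_mem hs)),
      ih fun s hs => h s (Finset.mem_insert_of_mem hs)]

theorem log_nonpos {a : ℤᵐ⁰} (h : a ≤ 1) : log a ≤ 0 := by
  by_cases h0 : a = 0
  · rw [h0, log_zero]
  · rw [← log_one]
    exact (log_le_log h0 one_ne_zero).mpr h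

theorem log_le_neg_one {a : ℤᵐ⁰} (h0 : a ≠ 0) (h : a < 1) : log a ≤ -1 := by
  have : log a < log 1 := (log_lt_log h0 one_ne_zero).mpr h
  rw [log_one] at this
  omega

end LogLemmas

section PlaceIneq

variable {R K₀ K L : Type*} [CommRing R] [IsDomain R] [IsPrincipalIdealRing R]
    [Field K₀] [Algebra R K₀] [IsFractionRing R K₀]
    [Field K] [Algebra R K] [Algebra K₀ K] [IsScalarTower R K₀ K] [FiniteDimensional K₀ K]
    [Algebra.IsSeparable K₀ K]
    [Field L] [Algebra R L] [Algebra K₀ L] [IsScalarTower R K₀ L] [FiniteDimensional K₀ L]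
    [Algebra.IsSeparable K₀ L] [Algebra K L] [IsScalarTower R K L]

variable {n : ℕ} {ι : Type*} [Fintype ι] [DecidableEq ι]
variable {d : ι → ℕ} {aK : ι → Expo n → K} {DK : ι → Expo n → Derivation ℤ K K}
  {DL : ι → Expo n → Derivation ℤ L L}

open Classical in
include K₀ in
/-- The inequality at one place. -/
theorem place_ineq (v : Valuation L ℤᵐ⁰) (hsurj : Function.Surjective v)
    (hv : ∀ ρ : R, v (algebraMap R L ρ) ≤ 1)
    (hext : ∀ i I y, DL i I (algebraMap K L y) = algebraMap K L (DK i I y))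
    (hD : DualFam d (fun i I => algebraMap K L (aK i I)) DL)
    {δ : R} (hδ0 : v (algebraMap R L δ) ≠ 0)
    (hδ : ∀ i, ∀ I ∈ expo (Fin (n + 1)) (d i), ∀ b : K, IsIntegral R b →
      IsIntegral R (algebraMap R K δ * DK i I b))
    (C : Set L) (hC : ∀ c ∈ C, ∃ c' : K, IsIntegral R c' ∧ c = algebraMap K L c')
    (hres : ∀ y, v y ≤ 1 → ∃ c ∈ C, v (y - c) < 1) (hnat : ∀ k : ℕ, k ≠ 0 → v (k : L) = 1)
    {s₀ : K} {e₀ : ℕ} (he₀ : 1 ≤ e₀) (hs₀ : v (algebraMap K L s₀) = exp (-(e₀ : ℤ)))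
    {x : Fin (n + 1) → L} (hx : x ≠ 0) {m r : ℕ}
    (GS : Set (Expo n → L)) (e : Fin (r + 1) ⊕ ι → Fin (n + 1) ⊕ ι)
    (g : Fin r → Gen n ι L) (hg : ∀ k, (g k).Valid d m GS) {J : L} (hJ0 : J ≠ 0)
    (hJ : ∀ u : ι → Fin (n + 1) ⊕ ι → L,
      (∀ i, u i ∈ spanV d (fun i I => algebraMap K L (aK i I)) DL x) →
        (bigRows e (vecP d (fun i I => algebraMap K L (aK i I)) x)
          (fun k => Zgen d (fun i I => algebraMap K L (aK i I)) DL m x (g k)) u).det =
          J * (Matrix.of fun i j =>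
            func d (fun i I => algebraMap K L (aK i I)) x j (u i)).det) :
    log (v J) + ((∑ i, d i : ℕ) : ℤ) * log (vmax v x) +
        ((r + Fintype.card ι : ℕ) : ℤ) * log (v (algebraMap R L δ)) ≤
      ((Nat.card {b // (e b).isLeft} : ℕ) : ℤ) * log (vmax v x) +
        ∑ k, log (Gam v m (g k).G) + ((e₀ - 1 : ℕ) : ℤ) +
        (if ∃ j, yv d (fun i I => algebraMap K L (aK i I)) x j ≠ 0 ∧
          v (yv d (fun i I => algebraMap K L (aK i I)) x j) ≠ vmax v x ^ d j then 1 else 0) ∧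
      ∀ k, Gam v m (g k).G ≠ 0 := by
  set a : ι → Expo n → L := fun i I => algebraMap K L (aK i I) with ha
  obtain ⟨π, hπ⟩ := hsurj (exp (-1 : ℤ))
  let T := {θ : ι × Expo n // θ.2 ∈ expo (Fin (n + 1)) (d θ.1)}
  have hT : Finite T := by
    have : Function.Injective (fun θ : T => (⟨θ.1.1, ⟨θ.1.2, θ.2⟩⟩ :
        Σ i, {I // I ∈ expo (Fin (n + 1)) (d i)})) := by
      rintro ⟨⟨i, I⟩, h⟩ ⟨⟨i', I'⟩, h'⟩ heq
      simp only [Sigma.mk.injEq] at heq
      obtain ⟨h1, h2⟩ := heq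
      subst h1
      simp only [heq_eq_eq, Subtype.mk.injEq] at h2
      subst h2
      rfl
    exact Finite.of_injective _ this
  obtain ⟨hpol, hord⟩ := chart_polar (K₀ := K₀) v hv (fun θ : T => DK θ.1.1 θ.1.2)
    (fun θ : T => DL θ.1.1 θ.1.2) (fun θ y => hext _ _ y) δ (fun θ b hb => hδ _ _ θ.2 b hb)
    C hC hres hnat hπ he₀ hs₀
  have hpol' : ∀ y, v y ≤ 1 → ∃ g, v g ≤ 1 ∧ ∀ i, ∀ I ∈ expo (Fin (n + 1)) (d i),
      v (algebraMap R L δ * DL i I y - g * (algebraMap R L δ * DL i I π)) ≤ 1 := by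
    intro y hy
    obtain ⟨g, hg, h⟩ := hpol y hy
    exact ⟨g, hg, fun i I hI => h ⟨(i, I), hI⟩⟩
  have hord' : ∀ i, ∀ I ∈ expo (Fin (n + 1)) (d i),
      v (algebraMap R L δ * DL i I π) ≤ exp ((e₀ - 1 : ℕ) : ℤ) := by
    intro i I hI
    refine (hord ⟨(i, I), hI⟩).trans (exp_le_exp.mpr ?_)
    omega
  set k₂ : ℕ := if ∃ j, yv d a x j ≠ 0 ∧ v (yv d a x j) ≠ vmax v x ^ d j then 1 else 0 with hk₂
  have hy : ∀ j, yv d a x j ≠ 0 → v (yv d a x j) = vmax v x ^ d j ∨ k₂ = 1 := by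
    intro j hj
    by_cases h : v (yv d a x j) = vmax v x ^ d j
    · exact Or.inl h
    · right
      rw [hk₂, if_pos ⟨j, hj, h⟩]
  have h := local_ineq v hπ hD hpol' hord' hx hy GS e g hg hJ
  obtain ⟨l, hl0, hlmax, -⟩ := exists_vmax v hx
  have hvmax : vmax v x ≠ 0 := by rw [hlmax]; exact (Valuation.ne_zero_iff v).mpr hl0
  have hvJ : v J ≠ 0 := (Valuation.ne_zero_iff v).mpr hJ0
  have hlhs : v (algebraMap R L δ) ^ (r + Fintype.card ι) *
      (v J * vmax v x ^ (∑ i, d i)) ≠ 0 :=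
    mul_ne_zero (pow_ne_zero _ hδ0) (mul_ne_zero hvJ (pow_ne_zero _ hvmax))
  have hrhs : vmax v x ^ (Nat.card {b // (e b).isLeft}) * (∏ k, Gam v m (g k).G) *
        exp ((e₀ - 1 + k₂ : ℕ) : ℤ) ≠ 0 := by
    intro h0
    rw [h0, le_zero_iff] at h
    exact hlhs h
  have hGam : ∀ k, Gam v m (g k).G ≠ 0 := by
    intro k h0
    apply hrhs
    rw [Finset.prod_eq_zero (Finset.mem_univ k) h0, mul_zero, zero_mul]
  refine ⟨?_, hGam⟩
  have h1 := (log_le_log hlhs hrhs).mpr h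
  rw [log_mul (pow_ne_zero _ hδ0) (mul_ne_zero hvJ (pow_ne_zero _ hvmax)),
    log_mul hvJ (pow_ne_zero _ hvmax), log_pow', log_pow',
    log_mul (mul_ne_zero (pow_ne_zero _ hvmax) (Finset.prod_ne_zero_iff.mpr fun k _ => hGam k))
      exp_ne_zero, log_mul (pow_ne_zero _ hvmax) (Finset.prod_ne_zero_iff.mpr fun k _ => hGam k),
    log_pow', log_prod' _ _ (fun k _ => hGam k), log_exp] at h1
  have h2 : ((e₀ - 1 + k₂ : ℕ) : ℤ) = ((e₀ - 1 : ℕ) : ℤ) + (if ∃ j, yv d a x j ≠ 0 ∧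
      v (yv d a x j) ≠ vmax v x ^ d j then 1 else 0 : ℤ) := by
    rw [hk₂]
    push_cast
    rfl
  rw [h2] at h1
  linarith

/-- The values of the forms at a place where the coefficients are integral. -/
theorem v_yv_le (v : Valuation L ℤᵐ⁰) {a : ι → Expo n → L} {j : ι}
    (ha : ∀ I ∈ expo (Fin (n + 1)) (d j), v (a j I) ≤ 1) (x : Fin (n + 1) → L) :
    v (yv d a x j) ≤ vmax v x ^ d j := by
  unfold yv Fval
  refine v.map_sum_le fun I hI => ?_
  rw [map_mul, mon, map_prod]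
  have h1 : ∏ k, v (x k ^ I k) ≤ ∏ k, vmax v x ^ I k := by
    refine Finset.prod_le_prod' fun k _ => ?_
    rw [map_pow]
    exact pow_le_pow_left' (Finset.le_sup (f := fun k => v (x k)) (Finset.mem_univ k)) _
  have h2 : ∏ k, vmax v x ^ I k = vmax v x ^ d j := by
    rw [Finset.prod_pow_eq_pow_sum, ← mem_expo.mp hI, Finsupp.degree_eq_sum]
  calc v (a j I) * ∏ k, v (x k ^ I k) ≤ 1 * (vmax v x ^ d j) := by
        rw [← h2]
        exact mul_le_mul' (ha I hI) h1
    _ = _ := one_mul _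

open Classical in
omit [IsDomain R] [IsPrincipalIdealRing R] in
/-- The exceptional places are controlled by the denominator. -/
theorem trunc_le (v : Valuation L ℤᵐ⁰) (hv : ∀ ρ : R, v (algebraMap R L ρ) ≤ 1)
    {δ : R} (hδ0 : v (algebraMap R L δ) ≠ 0)
    (hδa : ∀ i, ∀ I ∈ expo (Fin (n + 1)) (d i), IsIntegral R (algebraMap R K δ * aK i I))
    {s : K} (hs0 : s ≠ 0) (hδs : IsIntegral R (algebraMap R K δ * s))
    (hδs' : IsIntegral R (algebraMap R K δ * s⁻¹)) (x : Fin (n + 1) → L) :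
    (if ∃ j, yv d (fun i I => algebraMap K L (aK i I)) x j ≠ 0 ∧
          v (yv d (fun i I => algebraMap K L (aK i I)) x j) ≠ vmax v x ^ d j then 1 else 0 : ℤ) ≤
      (if v (algebraMap K L s) = 1 ∧ ∃ j, yv d (fun i I => algebraMap K L (aK i I)) x j ≠ 0 ∧
          v (yv d (fun i I => algebraMap K L (aK i I)) x j) < vmax v x ^ d j then 1 else 0) -
        log (v (algebraMap R L δ)) := by
  set a : ι → Expo n → L := fun i I => algebraMap K L (aK i I) with ha
  have hδle := hv δ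
  have hlog := log_nonpos hδle
  by_cases h1 : v (algebraMap R L δ) = 1
  · rw [h1, log_one, sub_zero]
    have hint : ∀ b : K, IsIntegral R (algebraMap R K δ * b) → v (algebraMap K L b) ≤ 1 := by
      intro b hb
      have h2 := integral_le_one v hv (hb.algebraMap (B := L))
      rw [map_mul, ← IsScalarTower.algebraMap_apply, map_mul, h1, one_mul] at h2
      exact h2
    have hvs : v (algebraMap K L s) = 1 := by
      refine le_antisymm (hint s hδs) ?_
      have h3 := hint _ hδs'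
      rw [map_inv₀, map_inv₀] at h3
      have h4 : v (algebraMap K L s) ≠ 0 := by
        rw [Valuation.ne_zero_iff]
        exact (_root_.map_ne_zero _).mpr hs0
      exact (inv_le_one₀ (zero_lt_iff.mpr h4)).mp h3
    have hle : ∀ j, v (yv d a x j) ≤ vmax v x ^ d j := fun j =>
      v_yv_le v (fun I hI => hint _ (hδa j I hI)) x
    split_ifs with h5 h6 h6
    · exact le_rfl
    · exfalso
      obtain ⟨j, hj, hj'⟩ := h5
      exact h6 ⟨hvs, j, hj, lt_of_le_of_ne (hle j) hj'⟩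
    · exact zero_le_one
    · exact le_rfl
  · have h2 : log (v (algebraMap R L δ)) ≤ -1 := log_le_neg_one hδ0 (lt_of_le_of_ne hδle h1)
    split_ifs <;> linarith

end PlaceIneq

end Pool.Agent.Lib.MP_44a246_nt
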