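import Mathlib
import Pool.Agent.Lib.MP_44a246_nt.Defs
import Pool.Agent.Lib.MP_44a246_nt.Polar
import Pool.Agent.Lib.MP_e52354_nt.NormBound

/-!
Places of a finite extension of the fraction field of a principal ideal domain over an
algebraically closed field: the dictionary with the primes of the integral closure.
-/

namespace Pool.Agent.Lib.MP_44a246_nt

open WithZero Polynomial IsDedekindDomain
open Pool.Agent.Lib.MP_e52354_nt

section ValPrime

variable {B L : Type*} [CommRing B] [IsDedekindDomain B] [Field L] [Algebra B L]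
  [IsFractionRing B L]

/-- the centre of a valuation on a Dedekind domain -/
def centreIdeal (v : Valuation L ℤᵐ⁰) (hv : ∀ b : B, v (algebraMap B L b) ≤ 1) : Ideal B where
  carrier := {b | v (algebraMap B L b) < 1}
  add_mem' := by
    intro a b ha hb
    simp only [Set.mem_ofPred_eq, map_add] at *
    exact lt_of_le_of_lt (v.map_add _ _) (max_lt ha hb)
  zero_mem' := by simp
  smul_mem' := by
    intro c x hx
    simp only [Set.mem_ofPred_eq, smul_eq_mul, map_mul] at *
    calc v (algebraMap B L c) * v (algebraMap B L x) ≤ 1 * v (algebraMap B L x) :=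
          mul_le_mul' (hv c) le_rfl
      _ < 1 := by rwa [one_mul]

omit [IsDedekindDomain B] [IsFractionRing B L] in
theorem mem_centreIdeal (v : Valuation L ℤᵐ⁰) (hv : ∀ b : B, v (algebraMap B L b) ≤ 1) (b : B) :
    b ∈ centreIdeal v hv ↔ v (algebraMap B L b) < 1 := Iff.rfl

omit [IsDedekindDomain B] [IsFractionRing B L] in
theorem centreIdeal_isPrime (v : Valuation L ℤᵐ⁰) (hv : ∀ b : B, v (algebraMap B L b) ≤ 1) :
    (centreIdeal v hv).IsPrime := by
  refine ⟨?_, ?_⟩
  · rw [Ideal.ne_top_iff_one, mem_centreIdeal, map_one, map_one]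
    exact lt_irrefl _
  · intro a b hab
    rw [mem_centreIdeal, map_mul, map_mul] at hab
    rw [mem_centreIdeal, mem_centreIdeal]
    by_contra hcon
    push Not at hcon
    have ha : v (algebraMap B L a) = 1 := le_antisymm (hv a) hcon.1
    have hb : v (algebraMap B L b) = 1 := le_antisymm (hv b) hcon.2
    rw [ha, hb, one_mul] at hab
    exact lt_irrefl _ hab

theorem centreIdeal_ne_bot (v : Valuation L ℤᵐ⁰) (hs : Function.Surjective v)
    (hv : ∀ b : B, v (algebraMap B L b) ≤ 1) : centreIdeal v hv ≠ ⊥ := by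
  intro h
  have h1 : ∀ b : B, b ≠ 0 → v (algebraMap B L b) = 1 := by
    intro b hb
    by_contra hne
    have : b ∈ centreIdeal v hv := lt_of_le_of_ne (hv b) hne
    rw [h, Ideal.mem_bot] at this
    exact hb this
  obtain ⟨y, hy⟩ := hs (exp (1 : ℤ))
  obtain ⟨n, d, hd, rfl⟩ := IsFractionRing.div_surjective (A := B) y
  have hd0 : d ≠ 0 := nonZeroDivisors.ne_zero hd
  have hn0 : n ≠ 0 := by
    rintro rfl
    rw [map_zero, zero_div, map_zero] at hy
    exact exp_ne_zero hy.symm
  rw [map_div₀, h1 n hn0, h1 d hd0, div_one, ← exp_zero, exp_inj] at hy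
  omega

/-- the prime of `B` attached to a valuation -/
def centre (v : Valuation L ℤᵐ⁰) (hs : Function.Surjective v)
    (hv : ∀ b : B, v (algebraMap B L b) ≤ 1) : HeightOneSpectrum B where
  asIdeal := centreIdeal v hv
  isPrime := centreIdeal_isPrime v hv
  ne_bot := centreIdeal_ne_bot v hs hv

theorem le_one_of_centre (v : Valuation L ℤᵐ⁰) (hs : Function.Surjective v)
    (hv : ∀ b : B, v (algebraMap B L b) ≤ 1) {y : L}
    (hy : (centre v hs hv).valuation L y ≤ 1) : v y ≤ 1 := by
  obtain ⟨n, d, hnd⟩ := HeightOneSpectrum.exists_primeCompl_mul_eq_of_integer _ y hy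
  have hd : v (algebraMap B L d) = 1 := by
    refine le_antisymm (hv d) ?_
    by_contra hlt
    push Not at hlt
    exact d.2 hlt
  have := congrArg v hnd
  rw [map_mul, hd, mul_one] at this
  rw [this]
  exact hv n

theorem valuation_centre (v : Valuation L ℤᵐ⁰) (hs : Function.Surjective v)
    (hv : ∀ b : B, v (algebraMap B L b) ≤ 1) : (centre v hs hv).valuation L = v := by
  set P := centre v hs hv with hP
  obtain ⟨π, hπ⟩ := P.valuation_exists_uniformizer L
  have hπ0 : π ≠ 0 := by
    rintro rfl
    rw [map_zero] at hπ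
    exact exp_ne_zero hπ.symm
  have hle : ∀ y : L, P.valuation L y ≤ 1 → v y ≤ 1 := fun y hy => le_one_of_centre v hs hv hy
  have heq : ∀ y : L, P.valuation L y = 1 → v y = 1 := by
    intro y hy
    refine le_antisymm (hle y hy.le) ?_
    have h1 : P.valuation L y⁻¹ ≤ 1 := by rw [map_inv₀, hy, inv_one]
    have h2 := hle _ h1
    have hvy : v y ≠ 0 := by
      rw [Valuation.ne_zero_iff]
      rintro rfl
      rw [map_zero] at hy
      exact zero_ne_one hy
    rw [map_inv₀] at h2
    exact (inv_le_one₀ (zero_lt_iff.mpr hvy)).mp h2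
  have hvπ : v π ≠ 0 := (Valuation.ne_zero_iff v).2 hπ0
  have hform : ∀ y : L, y ≠ 0 → v y = v π ^ (- log (P.valuation L y)) := by
    intro y hy
    have hPy : P.valuation L y ≠ 0 := (Valuation.ne_zero_iff _).2 hy
    have h1 : P.valuation L (y * π ^ (log (P.valuation L y))) = 1 := by
      rw [map_mul, map_zpow₀, hπ, ← exp_zsmul]
      conv_lhs => rw [← exp_log hPy]
      rw [← exp_add, ← exp_zero, exp_inj, log_exp]
      simp
    have h2 := heq _ h1
    rw [map_mul, map_zpow₀] at h2
    rw [zpow_neg]
    exact eq_inv_of_mul_eq_one_left h2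
  -- `v π < 1`
  have hπlt : v π < 1 := by
    refine lt_of_le_of_ne (hle π (by rw [hπ, ← exp_zero, exp_le_exp]; omega)) ?_
    intro h1
    obtain ⟨y, hy⟩ := hs (exp (1 : ℤ))
    have hy0 : y ≠ 0 := by
      rintro rfl
      rw [map_zero] at hy
      exact exp_ne_zero hy.symm
    rw [hform y hy0, h1, one_zpow, ← exp_zero, exp_inj] at hy
    omega
  obtain ⟨y, hy⟩ := hs (exp (-1 : ℤ))
  have hy0 : y ≠ 0 := by
    rintro rfl
    rw [map_zero] at hy
    exact exp_ne_zero hy.symm
  have hval : v π = exp (-1 : ℤ) := by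
    rw [hform y hy0] at hy
    have h3 : log (v π) < 0 := by
      rw [← log_one]
      exact (log_lt_log hvπ one_ne_zero).mpr hπlt
    have h4 := congrArg log hy
    rw [log_zpow, log_exp] at h4
    have h5 : log (v π) = -1 := by
      have h6 : (log (v π)) ∣ (-1 : ℤ) := by
        rw [← h4]
        exact Dvd.intro_left _ rfl
      have h7 := Int.isUnit_iff.1 (isUnit_of_dvd_unit h6 (by decide))
      omega
    rw [← exp_log hvπ, h5]
  ext y
  by_cases hy : y = 0
  · rw [hy, map_zero, map_zero]
  · rw [hform y hy, hval]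
    have hPy : P.valuation L y ≠ 0 := (Valuation.ne_zero_iff _).2 hy
    rw [← exp_zsmul]
    conv_lhs => rw [← exp_log hPy]
    rw [exp_inj]
    simp

end ValPrime

section Gen

variable {κ R K₀ L B : Type*} [Field κ] [IsAlgClosed κ] [CommRing R] [IsDomain R]
  [IsPrincipalIdealRing R] [Algebra κ R] [Field K₀] [Algebra R K₀] [IsFractionRing R K₀]
  [Field L] [Algebra R L] [Algebra K₀ L] [IsScalarTower R K₀ L]
  [FiniteDimensional K₀ L] [CharZero K₀]
  [CommRing B] [IsDedekindDomain B] [Algebra R B] [Algebra B L] [IsFractionRing B L]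
  [IsScalarTower R B L] [IsIntegralClosure B R L] [Module.Finite R B]
  [Algebra κ B] [IsScalarTower κ R B]

/-- all residue fields of `R` are `κ` -/
def ResField (κ R : Type*) [Field κ] [CommRing R] [Algebra κ R] : Prop :=
  ∀ p : Ideal R, p.IsMaximal → ∀ r : R, ∃ c : κ, r - algebraMap κ R c ∈ p

omit [IsDomain R] [IsPrincipalIdealRing R] [IsDedekindDomain B] [Module.Finite R B] in
theorem residue_B [Algebra.IsIntegral R B] (hres : ResField κ R) (P : Ideal B) [P.IsMaximal]
    (b : B) : ∃ c : κ, b - algebraMap κ B c ∈ P := by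
  set p := P.comap (algebraMap R B) with hp
  have hpm : p.IsMaximal := Ideal.isMaximal_comap_of_isIntegral_of_isMaximal P
  have hbij : Function.Bijective (algebraMap κ (R ⧸ p)) := by
    refine ⟨(algebraMap κ (R ⧸ p)).injective, ?_⟩
    intro y
    obtain ⟨r, rfl⟩ := Ideal.Quotient.mk_surjective y
    obtain ⟨c, hc⟩ := hres p hpm r
    refine ⟨c, ?_⟩
    rw [IsScalarTower.algebraMap_apply κ R (R ⧸ p), Ideal.Quotient.algebraMap_eq]
    exact (Ideal.Quotient.eq.2 hc).symm
  let e : κ ≃+* R ⧸ p := RingEquiv.ofBijective _ hbij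
  let ψ : R →+* κ := (e.symm : (R ⧸ p) →+* κ).comp (Ideal.Quotient.mk p)
  have hψ : ∀ r : R, r - algebraMap κ R (ψ r) ∈ p := by
    intro r
    rw [← Ideal.Quotient.eq]
    have h1 : e (ψ r) = Ideal.Quotient.mk p r := e.apply_symm_apply _
    rw [← h1]
    rfl
  have hint : Algebra.IsIntegral κ (B ⧸ P) := by
    refine ⟨fun y => ?_⟩
    obtain ⟨b, rfl⟩ := Ideal.Quotient.mk_surjective y
    obtain ⟨f, hf, hfb⟩ := Algebra.IsIntegral.isIntegral (R := R) b
    refine ⟨f.map ψ, hf.map ψ, ?_⟩
    rw [eval₂_map]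
    have h2 : (algebraMap κ (B ⧸ P)).comp ψ = (Ideal.Quotient.mk P).comp (algebraMap R B) := by
      ext r
      rw [RingHom.comp_apply, RingHom.comp_apply, IsScalarTower.algebraMap_apply κ B (B ⧸ P),
        Ideal.Quotient.algebraMap_eq, IsScalarTower.algebraMap_apply κ R B]
      change Ideal.Quotient.mk P (algebraMap R B (algebraMap κ R (ψ r))) =
        Ideal.Quotient.mk P (algebraMap R B r)
      symm
      rw [Ideal.Quotient.eq, ← map_sub]
      exact hψ r
    rw [h2, ← hom_eval₂, hfb, map_zero]
  obtain ⟨c, hc⟩ := (IsAlgClosed.algebraMap_bijective_of_isIntegral (k := κ)).2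
    (Ideal.Quotient.mk P b)
  refine ⟨c, ?_⟩
  rw [← Ideal.Quotient.eq, ← hc, IsScalarTower.algebraMap_apply κ B (B ⧸ P),
    Ideal.Quotient.algebraMap_eq]

omit [IsDomain R] [IsPrincipalIdealRing R] [IsDedekindDomain B] [Module.Finite R B] in
theorem inertia_one [Algebra.IsIntegral R B] (hres : ResField κ R) (P : Ideal B) [P.IsMaximal] :
    P.inertiaDeg R = 1 := by
  have hpm : (P.under R).IsMaximal := Ideal.isMaximal_comap_of_isIntegral_of_isMaximal P
  rw [Ideal.inertiaDeg_eq_of_isMaximal (P.under R) P]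
  refine finrank_eq_one (1 : B ⧸ P) one_ne_zero fun w => ?_
  obtain ⟨b, rfl⟩ := Ideal.Quotient.mk_surjective w
  obtain ⟨c, hc⟩ := residue_B hres P b
  refine ⟨algebraMap κ (R ⧸ P.under R) c, ?_⟩
  rw [Algebra.smul_def, mul_one]
  rw [← Ideal.Quotient.eq] at hc
  rw [hc, IsScalarTower.algebraMap_apply κ R (R ⧸ P.under R), IsScalarTower.algebraMap_apply κ R B]
  rfl

variable [Module.IsTorsionFree R B]

variable (K₀ L) in
include K₀ L in
theorem relNorm_prime (hres : ResField κ R) (P : Ideal B) [P.IsMaximal] :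
    Ideal.relNorm R P = P.under R := by
  have : Algebra.IsIntegral R B := IsIntegralClosure.isIntegral_algebra R L
  have hpm : (P.under R).IsMaximal := Ideal.isMaximal_comap_of_isIntegral_of_isMaximal P
  have : CharZero (FractionRing R) := by
    have : CharZero R := by
      refine ⟨fun a b hab => ?_⟩
      have := congrArg (algebraMap R K₀) hab
      rw [map_natCast, map_natCast] at this
      exact_mod_cast this
    infer_instance
  rw [Ideal.relNorm_eq_pow_of_isMaximal P (P.under R), inertia_one hres, pow_one]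

/-- the data of an additive degree function normalised at the primes of `R` -/
structure DegFun (R K₀ : Type*) [CommRing R] [Field K₀] [Algebra R K₀] (δ : K₀ → ℤ) : Prop where
  mul : ∀ x y, x ≠ 0 → y ≠ 0 → δ (x * y) = δ x + δ y
  unit : ∀ u : R, IsUnit u → δ (algebraMap R K₀ u) = 0
  prime : ∀ π : R, Prime π → δ (algebraMap R K₀ π) = 1

omit [IsDomain R] [IsPrincipalIdealRing R] [IsFractionRing R K₀] [CharZero K₀] in
theorem DegFun.pow {δ : K₀ → ℤ} (h : DegFun R K₀ δ) {x : K₀} (hx : x ≠ 0) (n : ℕ) :
    δ (x ^ n) = n * δ x := by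
  induction n with
  | zero =>
    have := h.unit 1 isUnit_one
    rw [map_one] at this
    simp [this]
  | succ n ih =>
    rw [pow_succ, h.mul _ _ (pow_ne_zero _ hx) hx, ih]
    push_cast; ring

omit [IsDomain R] [IsPrincipalIdealRing R] [IsFractionRing R K₀] [CharZero K₀] in
theorem DegFun.prod {δ : K₀ → ℤ} (h : DegFun R K₀ δ) {ι : Type*} (s : Finset ι) {f : ι → K₀}
    (hf : ∀ i ∈ s, f i ≠ 0) : δ (∏ i ∈ s, f i) = ∑ i ∈ s, δ (f i) := by
  classical
  induction s using Finset.induction_on with
  | empty =>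
    have := h.unit 1 isUnit_one
    rw [map_one] at this
    simp [this]
  | insert a s ha ih =>
    rw [Finset.prod_insert ha, Finset.sum_insert ha, h.mul _ _ (hf a (Finset.mem_insert_self _ _))
      (Finset.prod_ne_zero_iff.2 fun i hi => hf i (Finset.mem_insert_of_mem hi)),
      ih fun i hi => hf i (Finset.mem_insert_of_mem hi)]

omit [IsDomain R] [IsPrincipalIdealRing R] [IsFractionRing R K₀] [CharZero K₀] in
theorem DegFun.inv {δ : K₀ → ℤ} (h : DegFun R K₀ δ) {x : K₀} (hx : x ≠ 0) :
    δ (x⁻¹) = - δ x := by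
  have h1 := h.mul x x⁻¹ hx (inv_ne_zero hx)
  have h2 := h.unit 1 isUnit_one
  rw [map_one] at h2
  rw [mul_inv_cancel₀ hx, h2] at h1
  linarith

omit [Module.Finite R B] [Module.IsTorsionFree R B] [FiniteDimensional K₀ L] [CharZero K₀]
  [IsIntegralClosure B R L] in
theorem finite_valuation_ne_one {x : L} (hx : x ≠ 0) :
    {P : HeightOneSpectrum B | P.valuation L x ≠ 1}.Finite := by
  have h1 := HeightOneSpectrum.Support.finite B x
  have h2 := HeightOneSpectrum.Support.finite B x⁻¹
  refine (h1.union h2).subset ?_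
  intro P hP
  have hne : P.valuation L x ≠ 0 := (Valuation.ne_zero_iff _).2 hx
  rcases lt_or_gt_of_ne hP with h | h
  · right
    change 1 < P.valuation L x⁻¹
    rw [map_inv₀]
    exact (one_lt_inv₀ (zero_lt_iff.mpr hne)).mpr h
  · left
    exact h

theorem sum_B {δ : K₀ → ℤ} (hδ : DegFun R K₀ δ) (hres : ResField κ R) {b : B} (hb : b ≠ 0) :
    ∑ᶠ P : HeightOneSpectrum B, - log (P.valuation L (algebraMap B L b)) =
      δ (Algebra.norm K₀ (algebraMap B L b)) := by
  classical
  have hint : Algebra.IsIntegral R B := IsIntegralClosure.isIntegral_algebra R L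
  have hI : (Ideal.span {b} : Ideal B) ≠ 0 := by
    rw [Ne, Ideal.zero_eq_bot, Ideal.span_singleton_eq_bot]; exact hb
  set n : HeightOneSpectrum B → ℕ := fun P =>
    (Associates.mk P.asIdeal).count (Associates.mk (Ideal.span {b} : Ideal B)).factors with hn
  have hval : ∀ P : HeightOneSpectrum B, - log (P.valuation L (algebraMap B L b)) = n P := by
    intro P
    rw [P.valuation_of_algebraMap, P.intValuation_if_neg hb, log_exp, neg_neg]
  have hbL : algebraMap B L b ≠ 0 := by
    intro h
    exact hb ((FaithfulSMul.algebraMap_injective B L) (by rw [h, map_zero]))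
  have hfin := finite_valuation_ne_one (B := B) hbL
  set S := hfin.toFinset with hS
  have hnS : ∀ P, P ∉ S → n P = 0 := by
    intro P hP
    rw [hS, Set.Finite.mem_toFinset, Set.mem_ofPred_eq, not_not] at hP
    have := hval P
    rw [hP, log_one, neg_zero] at this
    exact_mod_cast this.symm
  have hsum : ∑ᶠ P : HeightOneSpectrum B, - log (P.valuation L (algebraMap B L b)) =
      ∑ P ∈ S, (n P : ℤ) := by
    rw [finsum_eq_sum_of_support_subset (s := S)]
    · exact Finset.sum_congr rfl fun P _ => hval P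
    · intro P hP
      by_contra hPS
      apply hP
      simp only
      rw [hval P, hnS P hPS, Nat.cast_zero]
  rw [hsum]
  -- factorization
  have hfac := Ideal.finprod_heightOneSpectrum_factorization hI
  rw [finprod_eq_prod_of_mulSupport_subset (s := S)] at hfac
  swap
  · intro P hP
    by_contra hPS
    apply hP
    change P.asIdeal ^ n P = 1
    rw [hnS P hPS, pow_zero]
  -- generators
  have hgen : ∀ P : HeightOneSpectrum B, ∃ π : R, Prime π ∧ Ideal.relNorm R P.asIdeal =
      Ideal.span {π} := by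
    intro P
    have hPm : P.asIdeal.IsMaximal := P.isMaximal
    have h1 := relNorm_prime K₀ L hres P.asIdeal
    have hpp : (P.asIdeal.under R).IsPrime := inferInstance
    have hp0 : P.asIdeal.under R ≠ ⊥ := by
      rw [← h1]
      intro h
      exact P.ne_bot (Ideal.relNorm_eq_bot_iff.mp h)
    obtain ⟨π, hπ⟩ := (IsPrincipalIdealRing.principal (P.asIdeal.under R)).principal
    have hπ' : P.asIdeal.under R = Ideal.span {π} := hπ
    refine ⟨π, ?_, by rw [h1, hπ']⟩
    have hπ0 : π ≠ 0 := by
      rintro rfl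
      rw [Ideal.span_singleton_zero] at hπ'
      exact hp0 hπ'
    rw [← Ideal.span_singleton_prime hπ0, ← hπ']
    exact hpp
  choose π hπp hπ using hgen
  have h2 := congrArg (Ideal.relNorm R) hfac
  rw [map_prod, Ideal.relNorm_singleton] at h2
  have h3 : ∏ P ∈ S, Ideal.relNorm R (P.maxPowDividing (Ideal.span {b})) =
      Ideal.span {∏ P ∈ S, π P ^ n P} := by
    rw [← Ideal.prod_span_singleton]
    refine Finset.prod_congr rfl fun P _ => ?_
    change Ideal.relNorm R (P.asIdeal ^ n P) = _
    rw [map_pow, hπ, Ideal.span_singleton_pow]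
  rw [h3, Ideal.span_singleton_eq_span_singleton] at h2
  obtain ⟨u, hu⟩ := h2
  have h4 : Algebra.norm K₀ (algebraMap B L b) =
      (∏ P ∈ S, algebraMap R K₀ (π P) ^ n P) * algebraMap R K₀ u := by
    rw [← Algebra.algebraMap_intNorm (A := R) (K := K₀) (L := L), ← hu, map_mul, map_prod]
    simp only [map_pow]
  have hπ0 : ∀ P, algebraMap R K₀ (π P) ≠ 0 := by
    intro P h
    exact (hπp P).ne_zero (IsFractionRing.injective R K₀ (by rw [h, map_zero]))
  have hu0 : algebraMap R K₀ u ≠ 0 := by
    intro h
    exact u.ne_zero (IsFractionRing.injective R K₀ (by rw [h, map_zero]))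
  rw [h4, hδ.mul _ _ (Finset.prod_ne_zero_iff.2 fun P _ => pow_ne_zero _ (hπ0 P)) hu0,
    hδ.unit _ u.isUnit, add_zero, hδ.prod _ (fun P _ => pow_ne_zero _ (hπ0 P))]
  refine Finset.sum_congr rfl fun P _ => ?_
  rw [hδ.pow (hπ0 P), hδ.prime _ (hπp P), mul_one]

theorem sum_L {δ : K₀ → ℤ} (hδ : DegFun R K₀ δ) (hres : ResField κ R) {x : L} (hx : x ≠ 0) :
    ∑ᶠ P : HeightOneSpectrum B, - log (P.valuation L x) = δ (Algebra.norm K₀ x) := by
  obtain ⟨a, s, hs, rfl⟩ := IsFractionRing.div_surjective (A := B) x
  have hs0 : s ≠ 0 := nonZeroDivisors.ne_zero hs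
  have ha0 : a ≠ 0 := by
    rintro rfl
    rw [map_zero, zero_div] at hx
    exact hx rfl
  have hinj := FaithfulSMul.algebraMap_injective B L
  have haL : algebraMap B L a ≠ 0 := fun h => ha0 (hinj (by rw [h, map_zero]))
  have hsL : algebraMap B L s ≠ 0 := fun h => hs0 (hinj (by rw [h, map_zero]))
  have h1 := sum_B (L := L) (κ := κ) hδ hres ha0
  have h2 := sum_B (L := L) (κ := κ) hδ hres hs0
  have e : ∀ P : HeightOneSpectrum B, - log (P.valuation L (algebraMap B L a / algebraMap B L s)) =
      - log (P.valuation L (algebraMap B L a)) - - log (P.valuation L (algebraMap B L s)) := by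
    intro P
    rw [map_div₀, log_div ((Valuation.ne_zero_iff _).2 haL) ((Valuation.ne_zero_iff _).2 hsL)]
    ring
  have hfa : (Function.support fun P : HeightOneSpectrum B =>
      - log (P.valuation L (algebraMap B L a))).Finite := by
    refine (finite_valuation_ne_one (B := B) haL).subset fun P hP h => hP ?_
    simp only
    rw [h, log_one, neg_zero]
  have hfs : (Function.support fun P : HeightOneSpectrum B =>
      - log (P.valuation L (algebraMap B L s))).Finite := by
    refine (finite_valuation_ne_one (B := B) hsL).subset fun P hP h => hP ?_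
    simp only
    rw [h, log_one, neg_zero]
  simp_rw [e]
  rw [finsum_sub_distrib hfa hfs, h1, h2]
  have hNx : Algebra.norm K₀ (algebraMap B L a / algebraMap B L s) ≠ 0 :=
    Algebra.norm_ne_zero_iff.2 hx
  have hNs : Algebra.norm K₀ (algebraMap B L s) ≠ 0 := Algebra.norm_ne_zero_iff.2 hsL
  have h3 : Algebra.norm K₀ (algebraMap B L a) =
      Algebra.norm K₀ (algebraMap B L a / algebraMap B L s) *
        Algebra.norm K₀ (algebraMap B L s) := by
    rw [← map_mul, div_mul_cancel₀ _ hsL]
  rw [h3, hδ.mul _ _ hNx hNs]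
  ring

variable [Algebra κ L] [IsScalarTower κ B L]

omit [IsAlgClosed κ] [IsDomain R] [IsPrincipalIdealRing R] [CharZero K₀]
  [IsScalarTower R K₀ L] [FiniteDimensional K₀ L] [IsIntegralClosure B R L] [Module.Finite R B]
  [Module.IsTorsionFree R B] [Algebra κ R] [Algebra R B] [Algebra R L] [IsScalarTower R B L]
  [IsScalarTower κ R B] [Algebra K₀ L] [IsFractionRing R K₀] [CommRing R] [Field K₀]
  [Algebra R K₀] in
theorem valuation_const (P : HeightOneSpectrum B) {c : κ} (hc : c ≠ 0) :
    P.valuation L (algebraMap κ L c) = 1 := by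
  rw [IsScalarTower.algebraMap_apply κ B L, HeightOneSpectrum.valuation_eq_one_iff_notMem]
  intro h
  exact P.isPrime.ne_top (Ideal.eq_top_of_isUnit_mem _ h ((IsUnit.mk0 c hc).map _))

variable (κ L) in
/-- the place attached to a prime -/
noncomputable def placeOf (P : HeightOneSpectrum B) : Place κ L :=
  ⟨P.valuation L, P.valuation_surjective L, fun _ hc => valuation_const P hc⟩

theorem placeOf_injective : Function.Injective (placeOf κ L (B := B)) := by
  intro P Q h
  have h1 : P.valuation L = Q.valuation L := congrArg Subtype.val h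
  apply HeightOneSpectrum.ext
  ext b
  rw [← P.valuation_lt_one_iff_mem (K := L), ← Q.valuation_lt_one_iff_mem (K := L), h1]

theorem le_one_B (v : Valuation L ℤᵐ⁰) (hv : ∀ r : R, v (algebraMap R L r) ≤ 1) (b : B) :
    v (algebraMap B L b) ≤ 1 :=
  integral_le_one v hv ((IsIntegralClosure.isIntegral R L b).algebraMap)

theorem range_placeOf :
    Set.range (placeOf κ L (B := B)) = {v | ∀ r : R, v.1 (algebraMap R L r) ≤ 1} := by
  ext v
  constructor
  · rintro ⟨P, rfl⟩ r
    change P.valuation L _ ≤ 1
    rw [IsScalarTower.algebraMap_apply R B L]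
    exact P.valuation_le_one _
  · intro hv
    have hB := le_one_B (R := R) (B := B) v.1 hv
    exact ⟨centre v.1 v.2.1 hB, Subtype.ext (valuation_centre v.1 v.2.1 hB)⟩

open Classical in
theorem sum_places_aux (B : Type*) [CommRing B] [IsDedekindDomain B] [Algebra R B] [Algebra B L]
    [IsFractionRing B L] [IsScalarTower R B L] [IsIntegralClosure B R L] [Module.Finite R B]
    [Algebra κ B] [IsScalarTower κ R B] [Module.IsTorsionFree R B] [IsScalarTower κ B L]
    {δ : K₀ → ℤ} (hδ : DegFun R K₀ δ) (hres : ResField κ R) {x : L} (hx : x ≠ 0) :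
    ∑ᶠ v : Place κ L, (if ∀ r : R, v.1 (algebraMap R L r) ≤ 1 then - log (v.1 x) else 0) =
      δ (Algebra.norm K₀ x) := by
  rw [← sum_L (B := B) (κ := κ) hδ hres hx]
  have h1 := finsum_mem_range (f := fun v : Place κ L =>
    (if ∀ r : R, v.1 (algebraMap R L r) ≤ 1 then - log (v.1 x) else 0))
    (placeOf_injective (κ := κ) (L := L) (B := B))
  have hr := range_placeOf (κ := κ) (R := R) (L := L) (B := B)
  have h2 : ∀ v : Place κ L, (∑ᶠ (_ : v ∈ Set.range (placeOf κ L (B := B))),
      (if ∀ r : R, v.1 (algebraMap R L r) ≤ 1 then - log (v.1 x) else 0)) =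
      (if ∀ r : R, v.1 (algebraMap R L r) ≤ 1 then - log (v.1 x) else 0) := by
    intro v
    by_cases hv : ∀ r : R, v.1 (algebraMap R L r) ≤ 1
    · have : v ∈ Set.range (placeOf κ L (B := B)) := by rw [hr]; exact hv
      rw [finsum_eq_if, if_pos this]
    · rw [if_neg hv]; simp
  simp_rw [h2] at h1
  rw [h1]
  refine finsum_congr fun P => ?_
  have : ∀ r : R, (placeOf κ L P).1 (algebraMap R L r) ≤ 1 := by
    have : placeOf κ L P ∈ Set.range (placeOf κ L (B := B)) := ⟨P, rfl⟩
    rw [hr] at this
    exact this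
  rw [if_pos this]
  rfl

variable (R) in
theorem finite_places_aux (B : Type*) [CommRing B] [IsDedekindDomain B] [Algebra R B]
    [Algebra B L] [IsFractionRing B L] [IsScalarTower R B L] [IsIntegralClosure B R L]
    [Module.Finite R B] [Module.IsTorsionFree R B]
    [Algebra κ B] [IsScalarTower κ R B] [IsScalarTower κ B L] {x : L} (hx : x ≠ 0) :
    {v : Place κ L | (∀ r : R, v.1 (algebraMap R L r) ≤ 1) ∧ v.1 x ≠ 1}.Finite := by
  refine ((finite_valuation_ne_one (B := B) hx).image (placeOf κ L)).subset ?_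
  rintro v ⟨hv, hvx⟩
  have : v ∈ Set.range (placeOf κ L (B := B)) := by
    rw [range_placeOf (κ := κ) (R := R) (L := L) (B := B)]; exact hv
  obtain ⟨P, rfl⟩ := this
  exact ⟨P, hvx, rfl⟩

theorem residue_places_aux (B : Type*) [CommRing B] [IsDedekindDomain B] [Algebra R B]
    [Algebra B L] [IsFractionRing B L] [IsScalarTower R B L] [IsIntegralClosure B R L]
    [Module.Finite R B] [Module.IsTorsionFree R B]
    [Algebra κ B] [IsScalarTower κ R B] [IsScalarTower κ B L]
    (hres : ResField κ R) (v : Place κ L)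
    (hv : ∀ r : R, v.1 (algebraMap R L r) ≤ 1) {y : L} (hy : v.1 y ≤ 1) :
    ∃ c : κ, v.1 (y - algebraMap κ L c) < 1 := by
  have hint : Algebra.IsIntegral R B := IsIntegralClosure.isIntegral_algebra R L
  have : v ∈ Set.range (placeOf κ L (B := B)) := by
    rw [range_placeOf (κ := κ) (R := R) (L := L) (B := B)]; exact hv
  obtain ⟨P, rfl⟩ := this
  change P.valuation L y ≤ 1 at hy
  change ∃ c : κ, P.valuation L (y - algebraMap κ L c) < 1
  obtain ⟨n, d, hnd⟩ := P.exists_primeCompl_mul_eq_of_integer y hy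
  have hPm : P.asIdeal.IsMaximal := P.isMaximal
  obtain ⟨a, ha⟩ := residue_B hres P.asIdeal n
  obtain ⟨s, hs⟩ := residue_B hres P.asIdeal (d : B)
  have hs0 : s ≠ 0 := by
    rintro rfl
    rw [map_zero, sub_zero] at hs
    exact d.2 hs
  have hd1 : P.valuation L (algebraMap B L d) = 1 := by
    rw [HeightOneSpectrum.valuation_eq_one_iff_notMem]; exact d.2
  refine ⟨a / s, ?_⟩
  have h1 : (y - algebraMap κ L (a / s)) * algebraMap B L d =
      algebraMap B L (n - algebraMap κ B a) -
        algebraMap κ L (a / s) * algebraMap B L ((d : B) - algebraMap κ B s) := by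
    rw [sub_mul, hnd, map_sub, map_sub, ← IsScalarTower.algebraMap_apply κ B L,
      ← IsScalarTower.algebraMap_apply κ B L, map_div₀]
    have : algebraMap κ L s ≠ 0 := by
      intro h
      exact hs0 ((algebraMap κ L).injective (by rw [h, map_zero]))
    field_simp
    ring
  have h2 : P.valuation L ((y - algebraMap κ L (a / s)) * algebraMap B L d) < 1 := by
    rw [h1]
    refine lt_of_le_of_lt ((P.valuation L).map_sub _ _) (max_lt ?_ ?_)
    · rw [P.valuation_lt_one_iff_mem]; exact ha
    · rw [map_mul]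
      have h3 : P.valuation L (algebraMap B L ((d : B) - algebraMap κ B s)) < 1 := by
        rw [P.valuation_lt_one_iff_mem]; exact hs
      have h4 : P.valuation L (algebraMap κ L (a / s)) ≤ 1 := by
        rw [IsScalarTower.algebraMap_apply κ B L]; exact P.valuation_le_one _
      calc P.valuation L (algebraMap κ L (a / s)) *
            P.valuation L (algebraMap B L ((d : B) - algebraMap κ B s))
          ≤ 1 * P.valuation L (algebraMap B L ((d : B) - algebraMap κ B s)) :=
            mul_le_mul' h4 le_rfl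
        _ < 1 := by rwa [one_mul]
  rwa [map_mul, hd1, mul_one] at h2

end Gen

section Final

variable {κ R K₀ L : Type*} [Field κ] [IsAlgClosed κ] [CommRing R] [IsDomain R]
  [IsPrincipalIdealRing R] [Algebra κ R] [Field K₀] [Algebra R K₀] [IsFractionRing R K₀]
  [Field L] [Algebra R L] [Algebra K₀ L] [IsScalarTower R K₀ L]
  [FiniteDimensional K₀ L] [CharZero K₀] [Algebra κ L] [IsScalarTower κ R L]

omit [CharZero K₀] [IsPrincipalIdealRing R] [FiniteDimensional K₀ L] in
variable (R K₀ L) in
include K₀ in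
theorem faithful_RL : FaithfulSMul R L := by
  have := IsFractionRing.injective R K₀
  rw [faithfulSMul_iff_algebraMap_injective]
  rw [IsScalarTower.algebraMap_eq R K₀ L]
  exact (algebraMap K₀ L).injective.comp this

open Classical in
theorem sum_places {δ : K₀ → ℤ} (hδ : DegFun R K₀ δ) (hres : ResField κ R) {x : L} (hx : x ≠ 0) :
    ∑ᶠ v : Place κ L, (if ∀ r : R, v.1 (algebraMap R L r) ≤ 1 then - log (v.1 x) else 0) =
      δ (Algebra.norm K₀ x) := by
  have : Module.Finite R (integralClosure R L) := finite_B R K₀ L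
  have := isFractionRing_B R K₀ L
  have := isDedekindDomain_B R K₀ L
  have := faithful_RL R K₀ L
  have : Module.IsTorsionFree R (integralClosure R L) := inferInstance
  exact sum_places_aux (integralClosure R L) hδ hres hx

variable (R K₀) in
include K₀ in
theorem finite_places {x : L} (hx : x ≠ 0) :
    {v : Place κ L | (∀ r : R, v.1 (algebraMap R L r) ≤ 1) ∧ v.1 x ≠ 1}.Finite := by
  have : Module.Finite R (integralClosure R L) := finite_B R K₀ L
  have := isFractionRing_B R K₀ L
  have := isDedekindDomain_B R K₀ L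
  have := faithful_RL R K₀ L
  have : Module.IsTorsionFree R (integralClosure R L) := inferInstance
  exact finite_places_aux R (integralClosure R L) hx

variable (K₀) in
include K₀ in
theorem residue_places (hres : ResField κ R) (v : Place κ L)
    (hv : ∀ r : R, v.1 (algebraMap R L r) ≤ 1) {y : L} (hy : v.1 y ≤ 1) :
    ∃ c : κ, v.1 (y - algebraMap κ L c) < 1 := by
  have : Module.Finite R (integralClosure R L) := finite_B R K₀ L
  have := isFractionRing_B R K₀ L
  have := isDedekindDomain_B R K₀ L
  have := faithful_RL R K₀ L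
  have : Module.IsTorsionFree R (integralClosure R L) := inferInstance
  exact residue_places_aux (integralClosure R L) hres v hv hy

end Final

end Pool.Agent.Lib.MP_44a246_nt
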