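import Mathlib
import Pool.Agent.Lib.MP_44a246_nt.PlacesGen
import Pool.Agent.Lib.MP_e52354_nt.RInf

/-!
Places of a finite extension of `κ(X)`: finiteness, residue fields, degrees of norms, product
formula.
-/

namespace Pool.Agent.Lib.MP_44a246_nt

open WithZero Polynomial
open Pool.Agent.Lib.MP_e52354_nt

section Rings

variable (κ : Type*) [Field κ] [IsAlgClosed κ]

theorem degFun_poly : DegFun κ[X] (RatFunc κ) (fun x => x.intDegree) where
  mul x y hx hy := RatFunc.intDegree_mul hx hy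
  unit u hu := by
    rw [RatFunc.intDegree_polynomial, Polynomial.natDegree_eq_zero_of_isUnit hu]; rfl
  prime π hπ := by
    have h1 := IsAlgClosed.degree_eq_one_of_irreducible κ hπ.irreducible
    rw [RatFunc.intDegree_polynomial, Polynomial.natDegree_eq_of_degree_eq_some h1]; rfl

theorem resField_poly : ResField κ κ[X] := by
  intro p hp r
  have hne : p ≠ ⊥ := Ring.ne_bot_of_isMaximal_of_not_isField hp (Polynomial.not_isField κ)
  obtain ⟨π, hπ⟩ := (IsPrincipalIdealRing.principal p).principal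
  have hπ' : p = Ideal.span {π} := hπ
  have hπ0 : π ≠ 0 := by
    rintro rfl
    rw [Ideal.span_singleton_zero] at hπ'
    exact hne hπ'
  have hpr : Prime π := by
    rw [← Ideal.span_singleton_prime hπ0, ← hπ']
    exact hp.isPrime
  have hdeg := IsAlgClosed.degree_eq_one_of_irreducible κ hpr.irreducible
  obtain ⟨a, ha⟩ := IsAlgClosed.exists_root π (by rw [hdeg]; exact one_ne_zero)
  have h1 : (X - C a) ∣ π := dvd_iff_isRoot.2 ha
  have h2 : Associated (X - C a) π :=
    (irreducible_X_sub_C a).associated_of_dvd hpr.irreducible h1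
  refine ⟨r.eval a, ?_⟩
  rw [hπ', ← Ideal.span_singleton_eq_span_singleton.2 h2, Ideal.mem_span_singleton,
    dvd_iff_isRoot]
  simp

end Rings

section RinfFacts

variable (κ : Type*) [Field κ]

theorem intDegree_X_inv : (RatFunc.X⁻¹ : RatFunc κ).intDegree = -1 := by
  rw [RatFunc.intDegree_inv, RatFunc.intDegree_X]

theorem isUnit_Rinf_iff (u : Rinf κ) : IsUnit u ↔ (u : RatFunc κ) ≠ 0 ∧
    (u : RatFunc κ).intDegree = 0 := by
  constructor
  · intro hu
    obtain ⟨w, hw⟩ := hu.exists_right_inv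
    have hw' : (u : RatFunc κ) * (w : RatFunc κ) = 1 := congrArg Subtype.val hw
    have hu0 : (u : RatFunc κ) ≠ 0 := left_ne_zero_of_mul_eq_one hw'
    have hw0 : (w : RatFunc κ) ≠ 0 := right_ne_zero_of_mul_eq_one hw'
    refine ⟨hu0, ?_⟩
    have h1 := RatFunc.intDegree_mul hu0 hw0
    rw [hw', RatFunc.intDegree_one] at h1
    have h2 := (mem_Rinf κ).1 u.2
    have h3 := (mem_Rinf κ).1 w.2
    omega
  · rintro ⟨h0, h1⟩
    have h2 : (u : RatFunc κ)⁻¹ ∈ Rinf κ := by
      rw [mem_Rinf, RatFunc.intDegree_inv, h1]; simp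
    refine IsUnit.of_mul_eq_one ⟨_, h2⟩ ?_
    apply Subtype.ext
    exact mul_inv_cancel₀ h0

theorem degFun_Rinf : DegFun (Rinf κ) (RatFunc κ) (fun x => - x.intDegree) where
  mul x y hx hy := by
    rw [RatFunc.intDegree_mul hx hy]; ring
  unit u hu := by
    have := ((isUnit_Rinf_iff κ u).1 hu).2
    change - (u : RatFunc κ).intDegree = 0
    rw [this, neg_zero]
  prime π hπ := by
    change - (π : RatFunc κ).intDegree = 1
    have h0 : (π : RatFunc κ) ≠ 0 := fun h => hπ.ne_zero (Subtype.ext h)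
    have h1 : (π : RatFunc κ).intDegree ≠ 0 := fun h =>
      hπ.not_isUnit ((isUnit_Rinf_iff κ π).2 ⟨h0, h⟩)
    have h2 := (mem_Rinf κ).1 π.2
    by_contra hcon
    have h3 : (π : RatFunc κ).intDegree ≤ -2 := by omega
    have ht : (RatFunc.X⁻¹ : RatFunc κ) ∈ Rinf κ := by
      rw [mem_Rinf, intDegree_X_inv]; omega
    have hX0 : (RatFunc.X : RatFunc κ) ≠ 0 := RatFunc.X_ne_zero
    have hq : (π : RatFunc κ) * RatFunc.X ∈ Rinf κ := by
      rw [mem_Rinf, RatFunc.intDegree_mul h0 hX0, RatFunc.intDegree_X]; omega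
    have hfac : π = (⟨_, ht⟩ : Rinf κ) * ⟨_, hq⟩ := by
      apply Subtype.ext
      change (π : RatFunc κ) = RatFunc.X⁻¹ * ((π : RatFunc κ) * RatFunc.X)
      field_simp
    rcases hπ.irreducible.isUnit_or_isUnit hfac with h | h
    · have := ((isUnit_Rinf_iff κ _).1 h).2
      change (RatFunc.X⁻¹ : RatFunc κ).intDegree = 0 at this
      rw [intDegree_X_inv] at this
      omega
    · have := ((isUnit_Rinf_iff κ _).1 h).2
      change ((π : RatFunc κ) * RatFunc.X).intDegree = 0 at this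
      rw [RatFunc.intDegree_mul h0 hX0, RatFunc.intDegree_X] at this
      omega

theorem C_mem_Rinf (c : κ) : RatFunc.C c ∈ Rinf κ := by
  rw [mem_Rinf, RatFunc.intDegree_C]

/-- the constants in `Rinf` -/
noncomputable def constRinf : κ →+* Rinf κ where
  toFun c := ⟨RatFunc.C c, C_mem_Rinf κ c⟩
  map_one' := Subtype.ext (map_one _)
  map_mul' a b := Subtype.ext (map_mul _ a b)
  map_zero' := Subtype.ext (map_zero _)
  map_add' a b := Subtype.ext (map_add _ a b)

theorem exists_const_Rinf (r : Rinf κ) : ∃ c : κ, ¬ IsUnit (r - constRinf κ c) := by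
  by_cases hu : IsUnit r
  swap
  · exact ⟨0, by rwa [map_zero, sub_zero]⟩
  obtain ⟨h0, h1⟩ := (isUnit_Rinf_iff κ r).1 hu
  set x : RatFunc κ := (r : RatFunc κ) with hx
  have hnum : x.num ≠ 0 := RatFunc.num_ne_zero h0
  have hden : x.denom ≠ 0 := RatFunc.denom_ne_zero x
  have hdeg : x.num.natDegree = x.denom.natDegree := by
    have : x.intDegree = (x.num.natDegree : ℤ) - x.denom.natDegree := rfl
    omega
  have hlc : x.denom.leadingCoeff ≠ 0 := leadingCoeff_ne_zero.2 hden
  have hlcn : x.num.leadingCoeff ≠ 0 := leadingCoeff_ne_zero.2 hnum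
  set c := x.num.leadingCoeff / x.denom.leadingCoeff with hc
  have hc0 : c ≠ 0 := div_ne_zero hlcn hlc
  refine ⟨c, fun hu' => ?_⟩
  obtain ⟨h2, h3⟩ := (isUnit_Rinf_iff κ _).1 hu'
  change x - RatFunc.C c ≠ 0 at h2
  change (x - RatFunc.C c).intDegree = 0 at h3
  have hdK : algebraMap κ[X] (RatFunc κ) x.denom ≠ 0 := RatFunc.algebraMap_ne_zero hden
  set q : κ[X] := x.num - C c * x.denom with hq
  have h4 : x - RatFunc.C c = algebraMap κ[X] (RatFunc κ) q / algebraMap κ[X] (RatFunc κ) x.denom := by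
    rw [hq, map_sub, map_mul, sub_div, mul_div_cancel_right₀ _ hdK, RatFunc.num_div_denom]
    rfl
  have hq0 : q ≠ 0 := by
    intro h
    rw [h, map_zero, zero_div] at h4
    exact h2 h4
  have hqK : algebraMap κ[X] (RatFunc κ) q ≠ 0 := RatFunc.algebraMap_ne_zero hq0
  rw [h4, div_eq_mul_inv, RatFunc.intDegree_mul hqK (inv_ne_zero hdK), RatFunc.intDegree_inv,
    RatFunc.intDegree_polynomial, RatFunc.intDegree_polynomial] at h3
  have h5 : q.degree < x.num.degree := by
    rw [hq]
    refine degree_sub_lt_left ?_ hnum ?_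
    · rw [degree_C_mul hc0, degree_eq_natDegree hnum, degree_eq_natDegree hden, hdeg]
    · rw [leadingCoeff_mul, leadingCoeff_C, hc, div_mul_cancel₀ _ hlc]
  have h6 := natDegree_lt_natDegree hq0 h5
  omega

theorem resField_Rinf : @ResField κ (Rinf κ) _ _ (constRinf κ).toAlgebra := by
  intro p hp r
  obtain ⟨c, hc⟩ := exists_const_Rinf κ r
  refine ⟨c, ?_⟩
  have : p = IsLocalRing.maximalIdeal (Rinf κ) := IsLocalRing.eq_maximalIdeal hp
  rw [this, IsLocalRing.mem_maximalIdeal, mem_nonunits_iff]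
  exact hc

end RinfFacts

section Places

variable {κ L : Type*} [Field κ] [IsAlgClosed κ] [CharZero κ] [Field L] [Algebra κ L]
  [Algebra κ[X] L] [IsScalarTower κ κ[X] L]
  [Algebra (RatFunc κ) L] [IsScalarTower κ[X] (RatFunc κ) L]
  [Algebra (Rinf κ) L] [IsScalarTower (Rinf κ) (RatFunc κ) L]
  [FiniteDimensional (RatFunc κ) L]

omit [IsAlgClosed κ] [CharZero κ] [Algebra κ[X] L] [IsScalarTower κ κ[X] L]
  [Algebra (RatFunc κ) L] [IsScalarTower κ[X] (RatFunc κ) L]
  [Algebra (Rinf κ) L] [IsScalarTower (Rinf κ) (RatFunc κ) L]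
  [FiniteDimensional (RatFunc κ) L] in
theorem place_const_le (v : Place κ L) (c : κ) : v.1 (algebraMap κ L c) ≤ 1 := by
  by_cases hc : c = 0
  · rw [hc, map_zero, map_zero]; exact zero_le_one
  · rw [v.2.2 c hc]

omit [IsAlgClosed κ] [CharZero κ] [Algebra (RatFunc κ) L] [IsScalarTower κ[X] (RatFunc κ) L]
  [Algebra (Rinf κ) L] [IsScalarTower (Rinf κ) (RatFunc κ) L]
  [FiniteDimensional (RatFunc κ) L] in
theorem place_poly (v : Place κ L) (hv : v.1 (algebraMap κ[X] L X) ≤ 1) (ρ : κ[X]) :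
    v.1 (algebraMap κ[X] L ρ) ≤ 1 := by
  induction ρ using Polynomial.induction_on' with
  | add p q hp hq =>
    rw [map_add]
    exact (v.1.map_add _ _).trans (max_le hp hq)
  | monomial n a =>
    rw [← C_mul_X_pow_eq_monomial, map_mul, map_pow, map_mul, map_pow]
    have h1 : v.1 (algebraMap κ[X] L (C a)) ≤ 1 := by
      have : algebraMap κ[X] L (C a) = algebraMap κ L a := by
        rw [IsScalarTower.algebraMap_apply κ κ[X] L]; rfl
      rw [this]; exact place_const_le v a
    exact _root_.mul_le_one' h1 (pow_le_one' hv n)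

omit [IsAlgClosed κ] [CharZero κ] [Algebra (RatFunc κ) L] [IsScalarTower κ[X] (RatFunc κ) L]
  [Algebra (Rinf κ) L] [IsScalarTower (Rinf κ) (RatFunc κ) L]
  [FiniteDimensional (RatFunc κ) L] in
theorem place_poly_gt (v : Place κ L) (hv : 1 < v.1 (algebraMap κ[X] L X)) {p : κ[X]}
    (hp : p ≠ 0) : v.1 (algebraMap κ[X] L p) = v.1 (algebraMap κ[X] L X) ^ p.natDegree := by
  have hC : ∀ a : κ, algebraMap κ[X] L (C a) = algebraMap κ L a := fun a => by
    rw [IsScalarTower.algebraMap_apply κ κ[X] L]; rfl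
  have h1 := p.as_sum_range_C_mul_X_pow
  rw [Finset.sum_range_succ] at h1
  have hlead : v.1 (algebraMap κ[X] L (C (p.coeff p.natDegree) * X ^ p.natDegree)) =
      v.1 (algebraMap κ[X] L X) ^ p.natDegree := by
    rw [map_mul, map_pow, map_mul, map_pow, hC, v.2.2 _ (by
      rw [coeff_natDegree]; exact leadingCoeff_ne_zero.2 hp), one_mul]
  have hX0 : v.1 (algebraMap κ[X] L X) ≠ 0 := (zero_lt_one.trans hv).ne'
  conv_lhs => rw [h1, map_add]
  rw [Valuation.map_add_eq_of_lt_right, hlead]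
  rw [hlead, map_sum]
  refine v.1.map_sum_lt (pow_ne_zero _ hX0) fun i hi => ?_
  rw [map_mul, map_pow, map_mul, map_pow, hC]
  rw [Finset.mem_range] at hi
  calc v.1 (algebraMap κ L (p.coeff i)) * v.1 (algebraMap κ[X] L X) ^ i
      ≤ 1 * v.1 (algebraMap κ[X] L X) ^ i := mul_le_mul' (place_const_le v _) le_rfl
    _ = v.1 (algebraMap κ[X] L X) ^ i := one_mul _
    _ < _ := pow_lt_pow_right₀ hv hi

omit [IsAlgClosed κ] [CharZero κ] [FiniteDimensional (RatFunc κ) L] in
theorem place_rinf (v : Place κ L) (hv : ¬ v.1 (algebraMap κ[X] L X) ≤ 1) (ρ : Rinf κ) :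
    v.1 (algebraMap (Rinf κ) L ρ) ≤ 1 := by
  push Not at hv
  by_cases h0 : (ρ : RatFunc κ) = 0
  · have : ρ = 0 := Subtype.ext h0
    rw [this, map_zero, map_zero]; exact zero_le_one
  set x : RatFunc κ := (ρ : RatFunc κ) with hx
  have hnum : x.num ≠ 0 := RatFunc.num_ne_zero h0
  have hden : x.denom ≠ 0 := RatFunc.denom_ne_zero x
  have hdeg : x.num.natDegree ≤ x.denom.natDegree := by
    have h1 : x.intDegree = (x.num.natDegree : ℤ) - x.denom.natDegree := rfl
    have h2 := (mem_Rinf κ).1 ρ.2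
    change x.intDegree ≤ 0 at h2
    omega
  have e : algebraMap (Rinf κ) L ρ = algebraMap κ[X] L x.num / algebraMap κ[X] L x.denom := by
    rw [IsScalarTower.algebraMap_apply (Rinf κ) (RatFunc κ) L]
    change algebraMap (RatFunc κ) L x = _
    conv_lhs => rw [← RatFunc.num_div_denom x]
    rw [map_div₀, ← IsScalarTower.algebraMap_apply κ[X] (RatFunc κ) L,
      ← IsScalarTower.algebraMap_apply κ[X] (RatFunc κ) L]
  rw [e, map_div₀, place_poly_gt v hv hnum, place_poly_gt v hv hden]
  have hX0 : 0 < v.1 (algebraMap κ[X] L X) := zero_lt_one.trans hv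
  exact div_le_one_of_le₀ (pow_le_pow_right₀ hv.le hdeg) (pow_pos hX0 _).le

omit [IsAlgClosed κ] [CharZero κ] [Algebra (RatFunc κ) L] [IsScalarTower κ[X] (RatFunc κ) L]
  [Algebra (Rinf κ) L] [IsScalarTower (Rinf κ) (RatFunc κ) L]
  [FiniteDimensional (RatFunc κ) L] in
theorem place_poly_iff (v : Place κ L) :
    (∀ r : κ[X], v.1 (algebraMap κ[X] L r) ≤ 1) ↔ v.1 (algebraMap κ[X] L X) ≤ 1 :=
  ⟨fun h => h X, fun h => place_poly v h⟩

omit [IsAlgClosed κ] [CharZero κ] in
theorem place_rinf_iff (v : Place κ L) :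
    (∀ r : Rinf κ, v.1 (algebraMap (Rinf κ) L r) ≤ 1) ↔ ¬ v.1 (algebraMap κ[X] L X) ≤ 1 := by
  refine ⟨fun h hX => ?_, fun h => place_rinf v h⟩
  -- `v` is trivial on `RatFunc κ`
  have h1 : ∀ x : RatFunc κ, v.1 (algebraMap (RatFunc κ) L x) ≤ 1 := by
    intro x
    have hden : x.denom ≠ 0 := RatFunc.denom_ne_zero x
    have e : algebraMap (RatFunc κ) L x = algebraMap κ[X] L x.num *
        algebraMap (RatFunc κ) L (algebraMap κ[X] (RatFunc κ) x.denom)⁻¹ := by
      conv_lhs => rw [← RatFunc.num_div_denom x]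
      rw [div_eq_mul_inv, map_mul, ← IsScalarTower.algebraMap_apply κ[X] (RatFunc κ) L]
    have hm : (algebraMap κ[X] (RatFunc κ) x.denom)⁻¹ ∈ Rinf κ := by
      rw [mem_Rinf, RatFunc.intDegree_inv, RatFunc.intDegree_polynomial]
      omega
    have h2 := h ⟨_, hm⟩
    rw [IsScalarTower.algebraMap_apply (Rinf κ) (RatFunc κ) L] at h2
    rw [e, map_mul]
    exact _root_.mul_le_one' (place_poly v hX _) h2
  obtain ⟨y, hy⟩ := v.2.1 (exp (1 : ℤ))
  have hint : IsIntegral (RatFunc κ) y := IsIntegral.of_finite _ y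
  have h3 := integral_le_one v.1 h1 hint
  rw [hy, ← exp_zero, exp_le_exp] at h3
  omega

theorem place_finite {x : L} (hx : x ≠ 0) : {v : Place κ L | v.1 x ≠ 1}.Finite := by
  let _ : Algebra κ (Rinf κ) := (constRinf κ).toAlgebra
  have ht : IsScalarTower κ (Rinf κ) L := by
    refine IsScalarTower.of_algebraMap_eq fun c => ?_
    rw [IsScalarTower.algebraMap_apply (Rinf κ) (RatFunc κ) L,
      IsScalarTower.algebraMap_apply κ κ[X] L,
      IsScalarTower.algebraMap_apply κ[X] (RatFunc κ) L]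
    rfl
  have h1 := finite_places (κ := κ) κ[X] (RatFunc κ) hx
  have h2 := finite_places (κ := κ) (Rinf κ) (RatFunc κ) hx
  refine (h1.union h2).subset fun v hv => ?_
  by_cases hX : v.1 (algebraMap κ[X] L X) ≤ 1
  · left
    exact ⟨place_poly v hX, hv⟩
  · right
    exact ⟨place_rinf v hX, hv⟩

/-- the residue field of a place is `κ` -/
theorem place_residue (v : Place κ L) {y : L} (hy : v.1 y ≤ 1) :
    ∃ c : κ, v.1 (y - algebraMap κ L c) < 1 := by
  let _ : Algebra κ (Rinf κ) := (constRinf κ).toAlgebra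
  have ht : IsScalarTower κ (Rinf κ) L := by
    refine IsScalarTower.of_algebraMap_eq fun c => ?_
    rw [IsScalarTower.algebraMap_apply (Rinf κ) (RatFunc κ) L,
      IsScalarTower.algebraMap_apply κ κ[X] L,
      IsScalarTower.algebraMap_apply κ[X] (RatFunc κ) L]
    rfl
  by_cases hX : v.1 (algebraMap κ[X] L X) ≤ 1
  · exact residue_places (RatFunc κ) (resField_poly κ) v (place_poly v hX) hy
  · exact residue_places (RatFunc κ) (resField_Rinf κ) v (place_rinf v hX) hy

open Classical in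
theorem sum_finite_places {x : L} (hx : x ≠ 0) :
    ∑ᶠ v : Place κ L, (if v.1 (algebraMap κ[X] L X) ≤ 1 then - log (v.1 x) else 0) =
      (Algebra.norm (RatFunc κ) x).intDegree := by
  have h1 := sum_places (κ := κ) (degFun_poly κ) (resField_poly κ) hx
  rw [← h1]
  refine finsum_congr fun v => ?_
  by_cases hX : v.1 (algebraMap κ[X] L X) ≤ 1
  · rw [if_pos hX, if_pos (place_poly v hX)]
  · rw [if_neg hX, if_neg (fun h => hX (h X))]

open Classical in
theorem sum_infinite_places {x : L} (hx : x ≠ 0) :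
    ∑ᶠ v : Place κ L, (if v.1 (algebraMap κ[X] L X) ≤ 1 then 0 else - log (v.1 x)) =
      - (Algebra.norm (RatFunc κ) x).intDegree := by
  let _ : Algebra κ (Rinf κ) := (constRinf κ).toAlgebra
  have ht : IsScalarTower κ (Rinf κ) L := by
    refine IsScalarTower.of_algebraMap_eq fun c => ?_
    rw [IsScalarTower.algebraMap_apply (Rinf κ) (RatFunc κ) L,
      IsScalarTower.algebraMap_apply κ κ[X] L,
      IsScalarTower.algebraMap_apply κ[X] (RatFunc κ) L]
    rfl
  have h1 := sum_places (κ := κ) (degFun_Rinf κ) (resField_Rinf κ) hx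
  rw [← h1]
  refine finsum_congr fun v => ?_
  by_cases hX : v.1 (algebraMap κ[X] L X) ≤ 1
  · rw [if_pos hX, if_neg (fun h => (place_rinf_iff v).1 h hX)]
  · rw [if_neg hX, if_pos (place_rinf v hX)]

theorem product_formula {x : L} (hx : x ≠ 0) : ∑ᶠ v : Place κ L, log (v.1 x) = 0 := by
  classical
  have h1 := sum_finite_places (κ := κ) hx
  have h2 := sum_infinite_places (κ := κ) hx
  have hfin := place_finite (κ := κ) hx
  have hf1 : (Function.support fun v : Place κ L =>
      (if v.1 (algebraMap κ[X] L X) ≤ 1 then - log (v.1 x) else 0)).Finite := by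
    refine hfin.subset fun v hv h => hv ?_
    simp only
    rw [h, log_one, neg_zero, ite_self]
  have hf2 : (Function.support fun v : Place κ L =>
      (if v.1 (algebraMap κ[X] L X) ≤ 1 then 0 else - log (v.1 x))).Finite := by
    refine hfin.subset fun v hv h => hv ?_
    simp only
    rw [h, log_one, neg_zero, ite_self]
  have h3 := finsum_add_distrib hf1 hf2
  have h4 : ∀ v : Place κ L, log (v.1 x) =
      - ((if v.1 (algebraMap κ[X] L X) ≤ 1 then - log (v.1 x) else 0) +
        (if v.1 (algebraMap κ[X] L X) ≤ 1 then 0 else - log (v.1 x))) := by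
    intro v
    split_ifs <;> simp
  rw [finsum_congr h4, finsum_neg_distrib, h3]
  have e1 : ∑ᶠ v : Place κ L, (if v.1 (algebraMap κ[X] L X) ≤ 1 then - log (v.1 x) else 0) =
      (Algebra.norm (RatFunc κ) x).intDegree := by
    rw [← h1]
  have e2 : ∑ᶠ v : Place κ L, (if v.1 (algebraMap κ[X] L X) ≤ 1 then 0 else - log (v.1 x)) =
      - (Algebra.norm (RatFunc κ) x).intDegree := by
    rw [← h2]
  rw [e1, e2]
  ring

end Places

end Pool.Agent.Lib.MP_44a246_nt
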