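import Mathlib
import Pool.Agent.Lib.MP_44a246_nt.Places

/-!
Ramification indices.
-/

namespace Pool.Agent.Lib.MP_44a246_nt

open WithZero Polynomial
open Pool.Agent.Lib.MP_e52354_nt

section RamIdx

variable {K L : Type*} [Field K] [Field L] [Algebra K L] [Algebra.IsAlgebraic K L]

/-- a surjective valuation is not trivial on a subfield over which the field is algebraic -/
theorem exists_lt_one (v : Valuation L ℤᵐ⁰) (hv : Function.Surjective v) :
    ∃ s : K, s ≠ 0 ∧ v (algebraMap K L s) < 1 := by
  by_contra hcon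
  push Not at hcon
  have htriv : ∀ s : K, v (algebraMap K L s) ≤ 1 := by
    intro s
    by_cases hs : s = 0
    · rw [hs, map_zero, map_zero]; exact zero_le_one
    · have h1 := hcon s⁻¹ (inv_ne_zero hs)
      rw [map_inv₀, map_inv₀] at h1
      have h4 : v (algebraMap K L s) ≠ 0 := by
        rw [Valuation.ne_zero_iff]
        exact (_root_.map_ne_zero _).mpr hs
      exact (one_le_inv₀ (zero_lt_iff.mpr h4)).mp h1
  obtain ⟨y, hy⟩ := hv (exp (1 : ℤ))
  have hint : IsIntegral K y := (Algebra.IsAlgebraic.isAlgebraic (R := K) y).isIntegral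
  have h1 : v y ≤ 1 := integral_le_one v htriv hint
  rw [hy, ← exp_zero, exp_le_exp] at h1
  omega

theorem ramIdx_nonempty (v : Valuation L ℤᵐ⁰) (hv : Function.Surjective v) :
    {m : ℕ | 0 < m ∧ ∃ s : K, v (algebraMap K L s) = exp (-(m : ℤ))}.Nonempty := by
  obtain ⟨s, hs0, hs⟩ := exists_lt_one (K := K) v hv
  have h4 : v (algebraMap K L s) ≠ 0 := by
    rw [Valuation.ne_zero_iff]
    exact (_root_.map_ne_zero _).mpr hs0
  have h5 : log (v (algebraMap K L s)) < 0 := by
    rw [← log_one]
    exact (log_lt_log h4 one_ne_zero).mpr hs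
  refine ⟨(- log (v (algebraMap K L s))).toNat, by omega, s, ?_⟩
  rw [Int.toNat_of_nonneg (by omega), neg_neg, exp_log h4]

theorem one_le_ramIdx (v : Valuation L ℤᵐ⁰) (hv : Function.Surjective v) : 1 ≤ ramIdx K v :=
  (Nat.sInf_mem (ramIdx_nonempty (K := K) v hv)).1

theorem exists_ramIdx (v : Valuation L ℤᵐ⁰) (hv : Function.Surjective v) :
    ∃ s : K, v (algebraMap K L s) = exp (-(ramIdx K v : ℤ)) :=
  (Nat.sInf_mem (ramIdx_nonempty (K := K) v hv)).2

end RamIdx

section Newton

variable {K L : Type*} [Field K] [Field L] [Algebra K L]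

/-- the polynomial `f` over the valuation ring of `L` -/
noncomputable def intPoly (v : Valuation L ℤᵐ⁰) (P : L[X]) (hP : ∀ i, v (P.coeff i) ≤ 1) :
    (v.integer)[X] :=
  P.toSubring v.integer (by
    intro x hx
    rw [Finset.mem_coe, Polynomial.mem_coeffs_iff] at hx
    obtain ⟨i, -, rfl⟩ := hx
    exact hP i)

theorem intPoly_map (v : Valuation L ℤᵐ⁰) (P : L[X]) (hP : ∀ i, v (P.coeff i) ≤ 1) :
    (intPoly v P hP).map v.integer.subtype = P := by
  exact Polynomial.map_toSubring _ _ _

theorem intPoly_eval (v : Valuation L ℤᵐ⁰) (P : L[X]) (hP : ∀ i, v (P.coeff i) ≤ 1)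
    (y : v.integer) : (((intPoly v P hP).eval y : v.integer) : L) = P.eval (y : L) := by
  conv_rhs => rw [← intPoly_map v P hP, Polynomial.eval_map]
  exact (Polynomial.eval₂_at_apply v.integer.subtype y).symm

theorem intPoly_deriv_eval (v : Valuation L ℤᵐ⁰) (P : L[X]) (hP : ∀ i, v (P.coeff i) ≤ 1)
    (y : v.integer) : (((derivative (intPoly v P hP)).eval y : v.integer) : L) =
      (derivative P).eval (y : L) := by
  conv_rhs => rw [← intPoly_map v P hP, Polynomial.derivative_map, Polynomial.eval_map]
  exact (Polynomial.eval₂_at_apply v.integer.subtype y).symm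

theorem le_exp_neg_one {g : ℤᵐ⁰} (hg : g < 1) : g ≤ exp (-1 : ℤ) := by
  by_cases h0 : g = 0
  · rw [h0]; exact bot_le
  · rw [← exp_log h0] at hg ⊢
    rw [← exp_zero, exp_lt_exp] at hg
    rw [exp_le_exp]
    omega

/-- Newton approximation -/
theorem newton (v : Valuation L ℤᵐ⁰) {α : L} {f : K[X]} (hf : ∀ i, v (algebraMap K L (f.coeff i)) ≤ 1)
    (hα : v α ≤ 1) (h0 : aeval α f = 0) (h1 : v (aeval α (derivative f)) = 1)
    {c : K} (hc : v (α - algebraMap K L c) < 1) (N : ℕ) :
    ∃ z : K, v (α - algebraMap K L z) ≤ exp (-((N : ℤ) + 1)) := by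
  have hP : ∀ i, v ((f.map (algebraMap K L)).coeff i) ≤ 1 := fun i => by
    rw [Polynomial.coeff_map]; exact hf i
  set g := intPoly v (f.map (algebraMap K L)) hP with hg
  have ev : ∀ y : v.integer, ((g.eval y : v.integer) : L) = aeval (y : L) f := fun y => by
    rw [hg, intPoly_eval, Polynomial.eval_map_algebraMap]
  have ev' : ∀ y : v.integer, (((derivative g).eval y : v.integer) : L) =
      aeval (y : L) (derivative f) := fun y => by
    rw [hg, intPoly_deriv_eval, Polynomial.derivative_map, Polynomial.eval_map_algebraMap]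
  induction N with
  | zero =>
    refine ⟨c, ?_⟩
    simpa using le_exp_neg_one hc
  | succ N ih =>
    obtain ⟨z, hz⟩ := ih
    have hlt : v (α - algebraMap K L z) < 1 := by
      refine lt_of_le_of_lt hz ?_
      rw [← exp_zero, exp_lt_exp]
      omega
    have hzi : v (algebraMap K L z) ≤ 1 := by
      have : algebraMap K L z = α - (α - algebraMap K L z) := by ring
      rw [this]
      exact (v.map_sub _ _).trans (max_le hα hlt.le)
    let αR : v.integer := ⟨α, hα⟩
    let zR : v.integer := ⟨algebraMap K L z, hzi⟩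
    obtain ⟨k, hk⟩ := g.binomExpansion zR (αR - zR)
    obtain ⟨r, hr⟩ := (derivative g).evalSubFactor αR zR
    rw [add_sub_cancel] at hk
    have hkL := congrArg (fun y : v.integer => (y : L)) hk
    have hrL := congrArg (fun y : v.integer => (y : L)) hr
    simp only [Subring.coe_add, Subring.coe_mul, Subring.coe_pow, AddSubgroupClass.coe_sub, ev, ev'] at hkL hrL
    change aeval α f = aeval (algebraMap K L z) f + aeval (algebraMap K L z) (derivative f) *
      (α - algebraMap K L z) + (k : L) * (α - algebraMap K L z) ^ 2 at hkL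
    change aeval α (derivative f) - aeval (algebraMap K L z) (derivative f) =
      (r : L) * (α - algebraMap K L z) at hrL
    rw [h0] at hkL
    have hv' : v (aeval (algebraMap K L z) (derivative f)) = 1 := by
      have e1 : aeval (algebraMap K L z) (derivative f) =
          aeval α (derivative f) - (r : L) * (α - algebraMap K L z) := by
        rw [← hrL]; ring
      have e2 : v ((r : L) * (α - algebraMap K L z)) < 1 := by
        rw [map_mul]
        exact lt_of_le_of_lt (mul_le_of_le_one_left' r.2) hlt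
      rw [e1, Valuation.map_sub_eq_of_lt_left, h1]
      rw [h1]
      exact e2
    have hne : aeval (algebraMap K L z) (derivative f) ≠ 0 := by
      intro h
      rw [h, map_zero] at hv'
      exact zero_ne_one hv'
    refine ⟨z - f.eval z / (derivative f).eval z, ?_⟩
    have e3 : algebraMap K L (z - f.eval z / (derivative f).eval z) =
        algebraMap K L z - aeval (algebraMap K L z) f / aeval (algebraMap K L z) (derivative f) := by
      rw [map_sub, map_div₀, Polynomial.aeval_algebraMap_apply_eq_algebraMap_eval,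
        Polynomial.aeval_algebraMap_apply_eq_algebraMap_eval]
    have e4 : α - algebraMap K L (z - f.eval z / (derivative f).eval z) =
        - ((k : L) * (α - algebraMap K L z) ^ 2) / aeval (algebraMap K L z) (derivative f) := by
      rw [e3]
      field_simp
      linear_combination -hkL
    rw [e4, map_div₀, hv', div_one, Valuation.map_neg, map_mul, map_pow]
    calc v (k : L) * v (α - algebraMap K L z) ^ 2
        ≤ 1 * (exp (-((N : ℤ) + 1))) ^ 2 := by
          gcongr
          exact k.2
      _ ≤ exp (-(((N + 1 : ℕ) : ℤ) + 1)) := by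
          rw [one_mul, ← exp_nsmul, exp_le_exp]
          push_cast
          simp only [nsmul_eq_mul]
          push_cast
          nlinarith

theorem exists_integral_mul (v : Valuation L ℤᵐ⁰) (s : Finset L) :
    ∃ t : L, t ≠ 0 ∧ ∀ x ∈ s, v (t * x) ≤ 1 := by
  classical
  induction s using Finset.induction_on with
  | empty => exact ⟨1, one_ne_zero, by simp⟩
  | insert x s _ ih =>
    obtain ⟨t, ht, h⟩ := ih
    by_cases hx : v (t * x) ≤ 1
    · refine ⟨t, ht, fun y hy => ?_⟩
      rcases Finset.mem_insert.1 hy with rfl | hy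
      · exact hx
      · exact h y hy
    · push Not at hx
      have hx0 : t * x ≠ 0 := by
        intro h0
        rw [h0, map_zero] at hx
        exact absurd hx (by simp)
      have hinv : v (t * x)⁻¹ ≤ 1 := by
        rw [map_inv₀]
        exact inv_le_one_of_one_le₀ hx.le
      refine ⟨(t * x)⁻¹ * t, mul_ne_zero (inv_ne_zero hx0) ht, fun y hy => ?_⟩
      rcases Finset.mem_insert.1 hy with rfl | hy
      · rw [mul_assoc, inv_mul_cancel₀ hx0, map_one]
      · rw [mul_assoc, map_mul]
        exact _root_.mul_le_one' hinv (h y hy)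

theorem ramIdx_eq_one (v : Valuation L ℤᵐ⁰) (hv : Function.Surjective v)
    {α : L} (hgen : Algebra.adjoin K {α} = ⊤) {f : K[X]} (hf : ∀ i, v (algebraMap K L (f.coeff i)) ≤ 1)
    (hα : v α ≤ 1) (h0 : aeval α f = 0) (h1 : v (aeval α (derivative f)) = 1)
    {c : K} (hc : v (α - algebraMap K L c) < 1) : ramIdx K v = 1 := by
  obtain ⟨y, hy⟩ := hv (exp (-1 : ℤ))
  have hmem : y ∈ Algebra.adjoin K {α} := hgen ▸ Algebra.mem_top
  rw [Algebra.adjoin_singleton_eq_range_aeval] at hmem
  obtain ⟨P, hP⟩ := hmem
  change aeval α P = y at hP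
  obtain ⟨t, ht0, ht⟩ := exists_integral_mul v (P.map (algebraMap K L)).coeffs
  have hQ : ∀ i, v ((C t * P.map (algebraMap K L)).coeff i) ≤ 1 := by
    intro i
    rw [Polynomial.coeff_C_mul]
    by_cases h : (P.map (algebraMap K L)).coeff i = 0
    · rw [h, mul_zero, map_zero]; exact zero_le_one
    · exact ht _ (Polynomial.coeff_mem_coeffs h)
  set g := intPoly v (C t * P.map (algebraMap K L)) hQ with hg
  have ev : ∀ x : v.integer, ((g.eval x : v.integer) : L) = t * aeval (x : L) P := fun x => by
    rw [hg, intPoly_eval, Polynomial.eval_mul, Polynomial.eval_C, Polynomial.eval_map_algebraMap]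
  -- precision
  have hvt : v t ≠ 0 := (Valuation.ne_zero_iff v).2 ht0
  obtain ⟨N, hN⟩ : ∃ N : ℕ, exp (-((N : ℤ) + 1)) < v t * exp (-1 : ℤ) := by
    refine ⟨(- log (v t)).toNat + 1, ?_⟩
    rw [← exp_log hvt, ← exp_add, exp_lt_exp, log_exp]
    have := Int.self_le_toNat (- log (v t))
    push_cast
    omega
  obtain ⟨z, hz⟩ := newton v hf hα h0 h1 hc N
  have hlt : v (α - algebraMap K L z) < 1 := by
    refine lt_of_le_of_lt hz ?_
    rw [← exp_zero, exp_lt_exp]
    omega
  have hzi : v (algebraMap K L z) ≤ 1 := by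
    have : algebraMap K L z = α - (α - algebraMap K L z) := by ring
    rw [this]
    exact (v.map_sub _ _).trans (max_le hα hlt.le)
  let αR : v.integer := ⟨α, hα⟩
  let zR : v.integer := ⟨algebraMap K L z, hzi⟩
  obtain ⟨r, hr⟩ := g.evalSubFactor αR zR
  have hrL := congrArg (fun y : v.integer => (y : L)) hr
  simp only [Subring.coe_mul, AddSubgroupClass.coe_sub, ev] at hrL
  change t * aeval α P - t * aeval (algebraMap K L z) P = (r : L) * (α - algebraMap K L z) at hrL
  have h3 : v (t * (aeval α P - aeval (algebraMap K L z) P)) < v t * exp (-1 : ℤ) := by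
    rw [mul_sub, hrL, map_mul]
    calc v (r : L) * v (α - algebraMap K L z) ≤ 1 * exp (-((N : ℤ) + 1)) := by
          gcongr
          exact r.2
      _ < v t * exp (-1 : ℤ) := by rw [one_mul]; exact hN
  rw [map_mul] at h3
  have h4 : v (aeval α P - aeval (algebraMap K L z) P) < exp (-1 : ℤ) :=
    lt_of_mul_lt_mul_left' h3
  have h5 : v (aeval (algebraMap K L z) P) = exp (-1 : ℤ) := by
    have : aeval (algebraMap K L z) P = aeval α P - (aeval α P - aeval (algebraMap K L z) P) := by
      ring
    rw [this, Valuation.map_sub_eq_of_lt_left, hP, hy]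
    rw [hP, hy]
    rw [hP] at h4
    exact h4
  rw [Polynomial.aeval_algebraMap_apply_eq_algebraMap_eval] at h5
  have hmem1 : 1 ∈ {m : ℕ | 0 < m ∧ ∃ s : K, v (algebraMap K L s) = exp (-(m : ℤ))} :=
    ⟨one_pos, P.eval z, by simpa using h5⟩
  have h6 := Nat.sInf_le hmem1
  have h7 := (Nat.sInf_mem ⟨1, hmem1⟩).1
  unfold ramIdx
  omega

end Newton

section Finiteness

variable {κ K L : Type*} [Field κ] [IsAlgClosed κ] [CharZero κ] [Field L] [Algebra κ L]
  [Algebra κ[X] L] [IsScalarTower κ κ[X] L]
  [Algebra (RatFunc κ) L] [IsScalarTower κ[X] (RatFunc κ) L]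
  [Algebra (Rinf κ) L] [IsScalarTower (Rinf κ) (RatFunc κ) L]
  [FiniteDimensional (RatFunc κ) L]
  [Field K] [Algebra κ K] [Algebra K L] [IsScalarTower κ K L] [FiniteDimensional K L]

theorem ramIdx_finite : {v : Place κ L | ramIdx K v.1 ≠ 1}.Finite := by
  classical
  have : CharZero K := charZero_of_injective_algebraMap (algebraMap κ K).injective
  obtain ⟨α, hα⟩ := Field.exists_primitive_element K L
  have hint : IsIntegral K α := IsIntegral.of_finite K α
  have hgen : Algebra.adjoin K {α} = ⊤ := by
    rw [← IntermediateField.adjoin_simple_toSubalgebra_of_isAlgebraic hint.isAlgebraic, hα,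
      IntermediateField.top_toSubalgebra]
  set f := minpoly K α with hf
  have h0 : aeval α f = 0 := minpoly.aeval K α
  have hsep : aeval α (derivative f) ≠ 0 :=
    (minpoly.irreducible hint).separable.aeval_derivative_ne_zero h0
  let bad : Finset L := insert α (insert (aeval α (derivative f))
    (f.coeffs.image (algebraMap K L)))
  have hfin : (⋃ x ∈ bad, {v : Place κ L | x ≠ 0 ∧ v.1 x ≠ 1}).Finite := by
    refine Set.Finite.biUnion bad.finite_toSet fun x _ => ?_
    by_cases hx : x = 0
    · simp [hx]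
    · exact (place_finite (κ := κ) hx).subset fun v hv => hv.2
  refine hfin.subset fun v hv => ?_
  by_contra hcon
  have hbad : ∀ x ∈ bad, x ≠ 0 → v.1 x = 1 := by
    intro x hx hx0
    by_contra h
    exact hcon (Set.mem_biUnion hx ⟨hx0, h⟩)
  have hle : ∀ x ∈ bad, v.1 x ≤ 1 := by
    intro x hx
    by_cases hx0 : x = 0
    · rw [hx0, map_zero]; exact zero_le_one
    · exact (hbad x hx hx0).le
  have hα1 : v.1 α ≤ 1 := hle α (Finset.mem_insert_self _ _)
  obtain ⟨c, hc⟩ := place_residue v hα1
  refine hv (ramIdx_eq_one (K := K) v.1 v.2.1 hgen (f := f) ?_ hα1 h0 ?_ (c := algebraMap κ K c) ?_)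
  · intro i
    by_cases h : f.coeff i = 0
    · rw [h, map_zero, map_zero]; exact zero_le_one
    · exact hle _ (Finset.mem_insert_of_mem (Finset.mem_insert_of_mem
        (Finset.mem_image_of_mem _ (Polynomial.coeff_mem_coeffs h))))
  · exact hbad _ (Finset.mem_insert_of_mem (Finset.mem_insert_self _ _)) hsep
  · rw [← IsScalarTower.algebraMap_apply κ K L]
    exact hc

end Finiteness

end Pool.Agent.Lib.MP_44a246_nt
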