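import Mathlib
import Pool.Agent.Lib.MP_44a246_nt.PlaceIneq
import Pool.Agent.Lib.MP_44a246_nt.Ram
import Pool.Agent.Lib.MP_e52354_nt.Machine

/-!
The summation over all places.
-/

namespace Pool.Agent.Lib.MP_44a246_nt

open Pool.Agent.Lib.MP_e52354_nt WithZero Polynomial

section Support

variable {κ L : Type*} [Field κ] [IsAlgClosed κ] [CharZero κ] [Field L] [Algebra κ L]
  [Algebra κ[X] L] [IsScalarTower κ κ[X] L]
  [Algebra (RatFunc κ) L] [IsScalarTower κ[X] (RatFunc κ) L]
  [Algebra (Rinf κ) L] [IsScalarTower (Rinf κ) (RatFunc κ) L]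
  [FiniteDimensional (RatFunc κ) L]

theorem sup_finite {σ : Type*} (S : Finset σ) (f : σ → L) (h : ∃ i ∈ S, f i ≠ 0) :
    {v : Place κ L | (S.sup fun i => v.1 (f i)) ≠ 1}.Finite := by
  classical
  have hfin : (⋃ i ∈ S.filter (fun i => f i ≠ 0), {v : Place κ L | v.1 (f i) ≠ 1}).Finite := by
    refine Set.Finite.biUnion (Finset.finite_toSet _) fun i hi => ?_
    have hi' : f i ≠ 0 := (Finset.mem_filter.mp (Finset.mem_coe.mp hi)).2
    exact place_finite hi'
  refine hfin.subset fun v hv => ?_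
  by_contra hcon
  simp only [Set.mem_iUnion, not_exists, Finset.mem_filter] at hcon
  apply hv
  have h1 : ∀ i ∈ S, f i ≠ 0 → v.1 (f i) = 1 := by
    intro i hi hi'
    by_contra h2
    exact hcon i ⟨hi, hi'⟩ h2
  obtain ⟨i₀, hi₀, hi₀'⟩ := h
  refine le_antisymm (Finset.sup_le fun i hi => ?_) ?_
  · by_cases h2 : f i = 0
    · rw [h2, map_zero]; exact zero_le_one
    · exact (h1 i hi h2).le
  · calc (1 : ℤᵐ⁰) = v.1 (f i₀) := (h1 i₀ hi₀ hi₀').symm
      _ ≤ _ := Finset.le_sup (f := fun i => v.1 (f i)) hi₀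

theorem vmax_finite {σ : Type*} [Fintype σ] {x : σ → L} (hx : x ≠ 0) :
    {v : Place κ L | vmax v.1 x ≠ 1}.Finite := by
  refine sup_finite Finset.univ x ?_
  by_contra hcon
  push Not at hcon
  exact hx (funext fun i => hcon i (Finset.mem_univ i))

theorem height_nonneg {σ : Type*} [Fintype σ] {x : σ → L} (hx : x ≠ 0) :
    0 ≤ height κ x := by
  classical
  obtain ⟨l, hl⟩ : ∃ l, x l ≠ 0 := by
    by_contra hcon
    push Not at hcon
    exact hx (funext hcon)
  have h1 : (0 : ℤ) = ∑ᶠ v : Place κ L, log (v.1 (x l)) := (product_formula hl).symm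
  rw [h1, height]
  have hs1 : Function.support (fun v : Place κ L => log (v.1 (x l))) ⊆
      ((place_finite hl).toFinset ∪ (vmax_finite hx).toFinset : Finset (Place κ L)) := by
    intro v hv
    rw [Finset.coe_union, Set.mem_union]
    left
    rw [Set.Finite.coe_toFinset]
    intro h2
    apply hv
    simp only
    rw [h2, log_one]
  have hs2 : Function.support (fun v : Place κ L => log (vmax v.1 x)) ⊆
      ((place_finite hl).toFinset ∪ (vmax_finite hx).toFinset : Finset (Place κ L)) := by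
    intro v hv
    rw [Finset.coe_union, Set.mem_union]
    right
    rw [Set.Finite.coe_toFinset]
    intro h2
    apply hv
    simp only
    rw [h2, log_one]
  rw [finsum_eq_sum_of_support_subset _ hs1, finsum_eq_sum_of_support_subset _ hs2]
  refine Finset.sum_le_sum fun v _ => ?_
  have h2 : v.1 (x l) ≠ 0 := (Valuation.ne_zero_iff v.1).mpr hl
  have h3 : v.1 (x l) ≤ vmax v.1 x :=
    Finset.le_sup (f := fun k => v.1 (x k)) (Finset.mem_univ l)
  have h4 : vmax v.1 x ≠ 0 := fun h0 => h2 (le_zero_iff.mp (h0 ▸ h3))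
  exact (log_le_log h2 h4).mpr h3

theorem intDegree_pow' {y : RatFunc κ} (hy : y ≠ 0) (n : ℕ) :
    (y ^ n).intDegree = n * y.intDegree := by
  induction n with
  | zero => simp
  | succ n ih =>
    rw [pow_succ, RatFunc.intDegree_mul (pow_ne_zero _ hy) hy, ih]
    push_cast; ring

open Classical in
theorem sum_delta {δf : κ[X]} (hδf0 : δf ≠ 0) {δi : Rinf κ} (hδi0 : δi ≠ 0)
    (P : Finset (Place κ L)) (hP : ∀ v ∉ P, v.1 (algebraMap κ[X] L δf) = 1 ∧
      v.1 (algebraMap (Rinf κ) L δi) = 1) :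
    ∑ v ∈ P, - log (if v.1 (algebraMap κ[X] L X) ≤ 1 then v.1 (algebraMap κ[X] L δf)
      else v.1 (algebraMap (Rinf κ) L δi)) =
      (Module.finrank (RatFunc κ) L : ℤ) * (δf.natDegree - (δi : RatFunc κ).intDegree) := by
  have hf0 : algebraMap κ[X] (RatFunc κ) δf ≠ 0 := by
    rwa [ne_eq, FaithfulSMul.algebraMap_eq_zero_iff]
  have hi0 : algebraMap (Rinf κ) (RatFunc κ) δi ≠ 0 := fun h => hδi0 (Subtype.ext h)
  have hf0' : algebraMap κ[X] L δf ≠ 0 := by
    rw [IsScalarTower.algebraMap_apply κ[X] (RatFunc κ) L]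
    exact (_root_.map_ne_zero _).mpr hf0
  have hi0' : algebraMap (Rinf κ) L δi ≠ 0 := by
    rw [IsScalarTower.algebraMap_apply (Rinf κ) (RatFunc κ) L]
    exact (_root_.map_ne_zero _).mpr hi0
  have h1 := sum_finite_places (κ := κ) hf0'
  have h2 := sum_infinite_places (κ := κ) hi0'
  rw [finsum_eq_sum_of_support_subset (s := P) _ (by
    intro v hv
    by_contra hvP
    apply hv
    simp only
    rw [(hP v hvP).1, log_one, neg_zero, ite_self])] at h1
  rw [finsum_eq_sum_of_support_subset (s := P) _ (by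
    intro v hv
    by_contra hvP
    apply hv
    simp only
    rw [(hP v hvP).2, log_one, neg_zero, ite_self])] at h2
  have h3 : ∑ v ∈ P, - log (if v.1 (algebraMap κ[X] L X) ≤ 1 then v.1 (algebraMap κ[X] L δf)
      else v.1 (algebraMap (Rinf κ) L δi)) =
      ∑ v ∈ P, (if v.1 (algebraMap κ[X] L X) ≤ 1 then - log (v.1 (algebraMap κ[X] L δf)) else 0) +
      ∑ v ∈ P, (if v.1 (algebraMap κ[X] L X) ≤ 1 then 0 else
        - log (v.1 (algebraMap (Rinf κ) L δi))) := by
    rw [← Finset.sum_add_distrib]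
    refine Finset.sum_congr rfl fun v _ => ?_
    split_ifs <;> simp
  rw [h3, h1, h2]
  rw [IsScalarTower.algebraMap_apply κ[X] (RatFunc κ) L, Algebra.norm_algebraMap,
    IsScalarTower.algebraMap_apply (Rinf κ) (RatFunc κ) L, Algebra.norm_algebraMap,
    intDegree_pow' hf0, intDegree_pow' hi0, RatFunc.intDegree_polynomial]
  have : algebraMap (Rinf κ) (RatFunc κ) δi = (δi : RatFunc κ) := rfl
  rw [this]
  ring

end Support

section Core

variable {κ K L : Type*} [Field κ] [IsAlgClosed κ] [CharZero κ]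
  [Field K] [Algebra κ K] [Algebra κ[X] K] [IsScalarTower κ κ[X] K]
  [Algebra (RatFunc κ) K] [IsScalarTower κ[X] (RatFunc κ) K]
  [Algebra (Rinf κ) K] [IsScalarTower (Rinf κ) (RatFunc κ) K]
  [FiniteDimensional (RatFunc κ) K]
  [Field L] [Algebra κ L] [Algebra κ[X] L] [IsScalarTower κ κ[X] L]
  [Algebra (RatFunc κ) L] [IsScalarTower κ[X] (RatFunc κ) L]
  [Algebra (Rinf κ) L] [IsScalarTower (Rinf κ) (RatFunc κ) L]
  [FiniteDimensional (RatFunc κ) L]
  [Algebra K L] [IsScalarTower κ K L] [IsScalarTower κ[X] K L] [IsScalarTower (Rinf κ) K L]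
  [FiniteDimensional K L]

variable {n : ℕ} {ι : Type*} [Fintype ι] [DecidableEq ι]
variable {d : ι → ℕ} {aK : ι → Expo n → K} {DK : ι → Expo n → Derivation ℤ K K}
  {DL : ι → Expo n → Derivation ℤ L L}

/-- the places counted by the truncated counting function -/
def truncSet (d : ι → ℕ) (aK : ι → Expo n → K) (s : K) (x : Fin (n + 1) → L) :
    Set (Place κ L) :=
  {v | v.1 (algebraMap K L s) = 1 ∧
    ∃ j, yv d (fun i I => algebraMap K L (aK i I)) x j ≠ 0 ∧
      v.1 (yv d (fun i I => algebraMap K L (aK i I)) x j) < vmax v.1 x ^ d j}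

theorem core
    (hext : ∀ i I y, DL i I (algebraMap K L y) = algebraMap K L (DK i I y))
    (hD : DualFam d (fun i I => algebraMap K L (aK i I)) DL)
    {s : K} (hs0 : s ≠ 0)
    {δf : κ[X]} (hδf0 : δf ≠ 0)
    (hδf : ∀ i, ∀ I ∈ expo (Fin (n + 1)) (d i), ∀ b : K, IsIntegral κ[X] b →
      IsIntegral κ[X] (algebraMap κ[X] K δf * DK i I b))
    (hδfa : ∀ i, ∀ I ∈ expo (Fin (n + 1)) (d i), IsIntegral κ[X] (algebraMap κ[X] K δf * aK i I))
    (hδfs : IsIntegral κ[X] (algebraMap κ[X] K δf * s))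
    (hδfs' : IsIntegral κ[X] (algebraMap κ[X] K δf * s⁻¹))
    {δi : Rinf κ} (hδi0 : δi ≠ 0)
    (hδi : ∀ i, ∀ I ∈ expo (Fin (n + 1)) (d i), ∀ b : K, IsIntegral (Rinf κ) b →
      IsIntegral (Rinf κ) (algebraMap (Rinf κ) K δi * DK i I b))
    (hδia : ∀ i, ∀ I ∈ expo (Fin (n + 1)) (d i),
      IsIntegral (Rinf κ) (algebraMap (Rinf κ) K δi * aK i I))
    (hδis : IsIntegral (Rinf κ) (algebraMap (Rinf κ) K δi * s))
    (hδis' : IsIntegral (Rinf κ) (algebraMap (Rinf κ) K δi * s⁻¹))
    {x : Fin (n + 1) → L} (hx : x ≠ 0) {m r : ℕ}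
    (GS : Set (Expo n → L)) (e : Fin (r + 1) ⊕ ι → Fin (n + 1) ⊕ ι)
    (g : Fin r → Gen n ι L) (hg : ∀ k, (g k).Valid d m GS) {J : L} (hJ0 : J ≠ 0)
    (hJ : ∀ u : ι → Fin (n + 1) ⊕ ι → L,
      (∀ i, u i ∈ spanV d (fun i I => algebraMap K L (aK i I)) DL x) →
        (bigRows e (vecP d (fun i I => algebraMap K L (aK i I)) x)
          (fun k => Zgen d (fun i I => algebraMap K L (aK i I)) DL m x (g k)) u).det =
          J * (Matrix.of fun i j =>
            func d (fun i I => algebraMap K L (aK i I)) x j (u i)).det) :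
    ((∑ i, d i : ℕ) : ℤ) * height κ x ≤
      ((Nat.card {b // (e b).isLeft} : ℕ) : ℤ) * height κ x +
        ∑ k, (∑ᶠ v : Place κ L, log (Gam v.1 m (g k).G)) + (ramDeg κ L K : ℤ) +
        ((truncSet (κ := κ) d aK s x).ncard : ℤ) +
        ((r + Fintype.card ι + 1 : ℕ) : ℤ) * ((Module.finrank (RatFunc κ) L : ℤ) *
          (δf.natDegree - (δi : RatFunc κ).intDegree)) := by
  classical
  set a : ι → Expo n → L := fun i I => algebraMap K L (aK i I) with ha
  have hcK : CharZero K := charZero_of_injective_algebraMap (algebraMap κ K).injective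
  have hcL : CharZero L := charZero_of_injective_algebraMap (algebraMap κ L).injective
  have hc0 : CharZero (RatFunc κ) := charZero_RatFunc κ L
  have hf0 : algebraMap κ[X] L δf ≠ 0 := by
    rw [IsScalarTower.algebraMap_apply κ[X] (RatFunc κ) L]
    refine (_root_.map_ne_zero _).mpr ?_
    rwa [ne_eq, FaithfulSMul.algebraMap_eq_zero_iff]
  have hi0 : algebraMap (Rinf κ) L δi ≠ 0 := by
    rw [IsScalarTower.algebraMap_apply (Rinf κ) (RatFunc κ) L]
    exact (_root_.map_ne_zero _).mpr fun h => hδi0 (Subtype.ext h)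
  -- the value of the denominator
  let δv : Place κ L → ℤᵐ⁰ := fun v => if v.1 (algebraMap κ[X] L X) ≤ 1 then
    v.1 (algebraMap κ[X] L δf) else v.1 (algebraMap (Rinf κ) L δi)
  have hnat : ∀ v : Place κ L, ∀ k : ℕ, k ≠ 0 → v.1 (k : L) = 1 := by
    intro v k hk
    have := v.2.2 (k : κ) (Nat.cast_ne_zero.mpr hk)
    rwa [map_natCast] at this
  have hresC : ∀ v : Place κ L, ∀ y, v.1 y ≤ 1 → ∃ c ∈ Set.range (algebraMap κ L),
      v.1 (y - c) < 1 := by
    intro v y hy
    obtain ⟨c, hc⟩ := place_residue v hy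
    exact ⟨_, ⟨c, rfl⟩, hc⟩
  have hloc : ∀ v : Place κ L, log (v.1 J) + ((∑ i, d i : ℕ) : ℤ) * log (vmax v.1 x) +
        ((r + Fintype.card ι + 1 : ℕ) : ℤ) * log (δv v) ≤
      ((Nat.card {b // (e b).isLeft} : ℕ) : ℤ) * log (vmax v.1 x) +
        ∑ k, log (Gam v.1 m (g k).G) + ((ramIdx K v.1 - 1 : ℕ) : ℤ) +
        (if v ∈ truncSet (κ := κ) d aK s x then 1 else 0) ∧ ∀ k, Gam v.1 m (g k).G ≠ 0 := by
    intro v
    obtain ⟨s₀, hs₀⟩ := exists_ramIdx (K := K) v.1 v.2.1
    have he₀ := one_le_ramIdx (K := K) v.1 v.2.1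
    by_cases hX : v.1 (algebraMap κ[X] L X) ≤ 1
    · have hδv : δv v = v.1 (algebraMap κ[X] L δf) := if_pos hX
      have hδ0 : v.1 (algebraMap κ[X] L δf) ≠ 0 := (Valuation.ne_zero_iff _).mpr hf0
      obtain ⟨h1, h2⟩ := place_ineq (K₀ := RatFunc κ) v.1 v.2.1 (place_poly v hX) hext hD hδ0 hδf
        (Set.range (algebraMap κ L)) (by
          rintro _ ⟨c, rfl⟩
          refine ⟨algebraMap κ K c, ?_, IsScalarTower.algebraMap_apply κ K L c⟩
          rw [IsScalarTower.algebraMap_apply κ κ[X] K]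
          exact isIntegral_algebraMap) (hresC v) (hnat v) he₀ hs₀ hx GS e g hg hJ0 hJ
      have h3 := trunc_le v.1 (place_poly v hX) hδ0 hδfa hs0 hδfs hδfs' x
      refine ⟨?_, h2⟩
      rw [hδv]
      have h4 : (if v ∈ truncSet (κ := κ) d aK s x then 1 else 0 : ℤ) =
        (if v.1 (algebraMap K L s) = 1 ∧ ∃ j, yv d (fun i I => algebraMap K L (aK i I)) x j ≠ 0 ∧
          v.1 (yv d (fun i I => algebraMap K L (aK i I)) x j) < vmax v.1 x ^ d j
          then 1 else 0) := if_congr Iff.rfl rfl rfl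
      rw [h4]
      push_cast at h1 ⊢
      linarith
    · have hδv : δv v = v.1 (algebraMap (Rinf κ) L δi) := if_neg hX
      have hδ0 : v.1 (algebraMap (Rinf κ) L δi) ≠ 0 := (Valuation.ne_zero_iff _).mpr hi0
      obtain ⟨h1, h2⟩ := place_ineq (K₀ := RatFunc κ) v.1 v.2.1 (place_rinf v hX) hext hD hδ0 hδi
        (Set.range (algebraMap κ L)) (by
          rintro _ ⟨c, rfl⟩
          refine ⟨algebraMap κ K c, ?_, IsScalarTower.algebraMap_apply κ K L c⟩
          have hmem : algebraMap κ[X] (RatFunc κ) (C c) ∈ Rinf κ := by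
            rw [mem_Rinf, RatFunc.intDegree_polynomial, natDegree_C]
            exact le_rfl
          have h5 : algebraMap κ K c = algebraMap (Rinf κ) K ⟨_, hmem⟩ := by
            rw [IsScalarTower.algebraMap_apply (Rinf κ) (RatFunc κ) K]
            show _ = algebraMap (RatFunc κ) K (algebraMap κ[X] (RatFunc κ) (C c))
            rw [← IsScalarTower.algebraMap_apply κ[X] (RatFunc κ) K,
              IsScalarTower.algebraMap_apply κ κ[X] K]
            rfl
          rw [h5]
          exact isIntegral_algebraMap) (hresC v) (hnat v) he₀ hs₀ hx GS e g hg hJ0 hJ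
      have h3 := trunc_le v.1 (place_rinf v hX) hδ0 hδia hs0 hδis hδis' x
      refine ⟨?_, h2⟩
      rw [hδv]
      have h4 : (if v ∈ truncSet (κ := κ) d aK s x then 1 else 0 : ℤ) =
        (if v.1 (algebraMap K L s) = 1 ∧ ∃ j, yv d (fun i I => algebraMap K L (aK i I)) x j ≠ 0 ∧
          v.1 (yv d (fun i I => algebraMap K L (aK i I)) x j) < vmax v.1 x ^ d j
          then 1 else 0) := if_congr Iff.rfl rfl rfl
      rw [h4]
      push_cast at h1 ⊢
      linarith
  -- the finite set of places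
  have hGamfin : ∀ k, {v : Place κ L | Gam v.1 m (g k).G ≠ 1}.Finite := by
    intro k
    by_cases h : ∃ I ∈ expo (Fin (n + 1)) m, (g k).G I ≠ 0
    · exact sup_finite _ _ h
    · push Not at h
      refine Set.finite_empty.subset fun v _ => ?_
      refine absurd ?_ ((hloc v).2 k)
      show (expo (Fin (n + 1)) m).sup (fun K => v.1 ((g k).G K)) = 0
      rw [← le_zero_iff]
      refine Finset.sup_le fun I hI => ?_
      rw [h I hI, map_zero]
  have htr : (truncSet (κ := κ) d aK s x).Finite := by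
    have hfin : ((⋃ j ∈ Finset.univ.filter (fun j => yv d a x j ≠ 0),
        {v : Place κ L | v.1 (yv d a x j) ≠ 1}) ∪ {v : Place κ L | vmax v.1 x ≠ 1}).Finite := by
      refine Set.Finite.union (Set.Finite.biUnion (Finset.finite_toSet _) fun j hj => ?_)
        (vmax_finite hx)
      have hj' : yv d a x j ≠ 0 := (Finset.mem_filter.mp (Finset.mem_coe.mp hj)).2
      exact place_finite hj'
    refine hfin.subset fun v hv => ?_
    obtain ⟨-, j, hj, hlt⟩ := hv
    by_contra hcon
    simp only [Set.mem_union, Set.mem_iUnion, not_or, not_exists, Finset.mem_filter] at hcon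
    obtain ⟨hc1, hc2⟩ := hcon
    have h1 : v.1 (yv d a x j) = 1 := by
      by_contra h2
      exact hc1 j ⟨Finset.mem_univ _, hj⟩ h2
    have h2 : vmax v.1 x = 1 := by
      by_contra h3
      exact hc2 h3
    rw [h2, one_pow] at hlt
    exact absurd h1 hlt.ne
  let P : Finset (Place κ L) := (vmax_finite hx).toFinset ∪ (place_finite hJ0).toFinset ∪
    (Finset.univ.biUnion fun k => (hGamfin k).toFinset) ∪
    (ramIdx_finite (κ := κ) (K := K) (L := L)).toFinset ∪ (place_finite hf0).toFinset ∪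
    (place_finite hi0).toFinset ∪ htr.toFinset
  have hP : ∀ v ∉ P, vmax v.1 x = 1 ∧ v.1 J = 1 ∧ (∀ k, Gam v.1 m (g k).G = 1) ∧
      ramIdx K v.1 = 1 ∧ v.1 (algebraMap κ[X] L δf) = 1 ∧ v.1 (algebraMap (Rinf κ) L δi) = 1 ∧
      v ∉ truncSet (κ := κ) d aK s x := by
    intro v hv
    simp only [P, Finset.mem_union, Set.Finite.mem_toFinset, Finset.mem_biUnion, Finset.mem_univ,
      true_and, not_or, not_exists, Set.mem_ofPred_eq, not_not] at hv
    obtain ⟨⟨⟨⟨⟨⟨h1, h2⟩, h3⟩, h4⟩, h5⟩, h6⟩, h7⟩ := hv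
    exact ⟨h1, h2, h3, h4, h5, h6, h7⟩
  have hsum := Finset.sum_le_sum fun v (_ : v ∈ P) => (hloc v).1
  simp only [Finset.sum_add_distrib, ← Finset.mul_sum] at hsum
  -- rewriting the sums
  have e1 : ∑ v ∈ P, log (v.1 J) = 0 := by
    rw [← product_formula (κ := κ) hJ0]
    symm
    refine finsum_eq_sum_of_support_subset _ fun v hv => ?_
    by_contra hvP
    apply hv
    simp only
    rw [(hP v hvP).2.1, log_one]
  have e2 : ∑ v ∈ P, log (vmax v.1 x) = height κ x := by
    symm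
    refine finsum_eq_sum_of_support_subset _ fun v hv => ?_
    by_contra hvP
    apply hv
    simp only
    rw [(hP v hvP).1, log_one]
  have e3 : ∑ v ∈ P, ∑ k, log (Gam v.1 m (g k).G) =
      ∑ k, (∑ᶠ v : Place κ L, log (Gam v.1 m (g k).G)) := by
    rw [Finset.sum_comm]
    refine Finset.sum_congr rfl fun k _ => ?_
    symm
    refine finsum_eq_sum_of_support_subset _ fun v hv => ?_
    by_contra hvP
    apply hv
    simp only
    rw [(hP v hvP).2.2.1 k, log_one]
  have e4 : ∑ v ∈ P, ((ramIdx K v.1 - 1 : ℕ) : ℤ) = (ramDeg κ L K : ℤ) := by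
    rw [← Nat.cast_sum]
    congr 1
    symm
    refine finsum_eq_sum_of_support_subset _ fun v hv => ?_
    by_contra hvP
    apply hv
    simp only
    rw [(hP v hvP).2.2.2.1, Nat.sub_self]
  have e5 : ∑ v ∈ P, (if v ∈ truncSet (κ := κ) d aK s x then 1 else 0 : ℤ) =
      ((truncSet (κ := κ) d aK s x).ncard : ℤ) := by
    rw [Finset.sum_boole]
    congr 1
    rw [Set.ncard_eq_toFinset_card _ htr]
    congr 1
    ext v
    simp only [Finset.mem_filter, Set.Finite.mem_toFinset]
    constructor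
    · exact fun h => h.2
    · intro h
      refine ⟨?_, h⟩
      by_contra hvP
      exact (hP v hvP).2.2.2.2.2.2 h
  have e6 : ∑ v ∈ P, log (δv v) = - ((Module.finrank (RatFunc κ) L : ℤ) *
          (δf.natDegree - (δi : RatFunc κ).intDegree)) := by
    rw [← sum_delta hδf0 hδi0 P (fun v hv => ⟨(hP v hv).2.2.2.2.1, (hP v hv).2.2.2.2.2.1⟩),
      Finset.sum_neg_distrib, neg_neg]
  rw [e1, e2, e3, e4, e5, e6] at hsum
  linarith

end Core

end Pool.Agent.Lib.MP_44a246_nt
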