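import Mathlib
import Pool.Agent.Lib.MP_e52354_nt.DerivExist

/-!
Derivations of a function field adapted to the constants.
-/

namespace Pool.Agent.Lib.MP_44a246_nt

open Pool.Agent.Lib.MP_e52354_nt

section Vanish

variable {k₀ A V : Type*} [Field k₀] [CharZero k₀] [Field A] [Algebra k₀ A] [AddCommGroup V]
  [Module A V] [Module k₀ V]

/-- a derivation vanishing on a set vanishes on the elements algebraic over that set -/
theorem der_eq_zero (D : Derivation k₀ A V) (S : Set A) (hS : ∀ s ∈ S, D s = 0) {x : A}
    (hx : IsAlgebraic (IntermediateField.adjoin k₀ S) x) : D x = 0 := by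
  set F := IntermediateField.adjoin k₀ S with hF
  have hDF : ∀ c ∈ F, D c = 0 := by
    intro c hc
    induction hc using IntermediateField.adjoin_induction with
    | mem y hy => exact hS y hy
    | algebraMap c => exact Derivation.map_algebraMap D c
    | add x y _ _ hx hy => rw [map_add, hx, hy, add_zero]
    | inv x _ hx =>
      by_cases h0 : x = 0
      · rw [h0, inv_zero, map_zero]
      · have h1 : D (x * x⁻¹) = 0 := by rw [mul_inv_cancel₀ h0, Derivation.map_one_eq_zero]
        rw [Derivation.leibniz, hx, smul_zero, add_zero] at h1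
        exact (smul_eq_zero.mp h1).resolve_left h0
    | mul x y _ _ hx hy => rw [Derivation.leibniz, hx, hy, smul_zero, smul_zero, add_zero]
  let iV : Module F V := Module.compHom V (algebraMap F A)
  have : IsScalarTower F A V := ⟨fun c a v => by
    show (c • a) • v = (algebraMap F A c) • (a • v)
    rw [smul_smul]; rfl⟩
  let D' : Derivation F A V := Derivation.mk'
    { toFun := D
      map_add' := map_add D
      map_smul' := fun c y => by
        show D (c • y) = (algebraMap F A c) • D y
        have h0 : D (algebraMap F A c) = 0 := hDF c c.2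
        rw [Algebra.smul_def, Derivation.leibniz, h0, smul_zero, add_zero] }
    (fun a b => Derivation.leibniz D a b)
  have h1 := D'.map_aeval (minpoly F x) x
  rw [minpoly.aeval, map_zero] at h1
  have h2 : Polynomial.aeval x (Polynomial.derivative (minpoly F x)) ≠ 0 := by
    have : CharZero F := charZero_of_injective_algebraMap (algebraMap k₀ F).injective
    exact (minpoly.irreducible hx.isIntegral).separable.aeval_derivative_ne_zero
      (minpoly.aeval F x)
  exact (smul_eq_zero.mp h1.symm).resolve_left h2

end Vanish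

section Extend

/-- extension of a derivation to an algebraic extension -/
theorem exists_extension {K L : Type*} [Field K] [CharZero K] [Field L] [Algebra K L]
    [Algebra.IsAlgebraic K L] (D : Derivation ℤ K K) :
    ∃ D' : Derivation ℤ L L, ∀ y, D' (algebraMap K L y) = algebraMap K L (D y) := by
  have : Algebra.FormallyEtale K L := Algebra.FormallyEtale.of_isSeparable K L
  let d₀ : Derivation ℤ K L := (Algebra.linearMap K L).compDer D
  let f := (KaehlerDifferential.isBaseChange_of_formallyEtale ℤ K L).lift d₀.liftKaehlerDifferential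
  refine ⟨f.compDer (KaehlerDifferential.D ℤ L), fun y => ?_⟩
  show f (KaehlerDifferential.D ℤ L (algebraMap K L y)) = _
  rw [← KaehlerDifferential.map_D ℤ ℤ K L]
  have h2 := (KaehlerDifferential.isBaseChange_of_formallyEtale ℤ K L).lift_eq
    d₀.liftKaehlerDifferential (KaehlerDifferential.D ℤ K y)
  rw [h2, Derivation.liftKaehlerDifferential_comp_D]
  rfl

end Extend

section Adapted

/-- an element algebraic over `F(S)` is algebraic over `F(T)` for a finite subset `T` of `S` -/
theorem exists_finset_isAlgebraic {F E : Type*} [Field F] [Field E] [Algebra F E] {S : Set E}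
    {x : E} (hx : IsAlgebraic (IntermediateField.adjoin F S) x) :
    ∃ T : Finset E, (T : Set E) ⊆ S ∧ IsAlgebraic (IntermediateField.adjoin F (T : Set E)) x := by
  classical
  obtain ⟨p, hp0, hpx⟩ := hx
  choose T hT1 hT2 using fun i : ℕ => IntermediateField.exists_finset_of_mem_adjoin (p.coeff i).2
  refine ⟨p.support.biUnion T, by simpa using fun i _ => hT1 i, ?_⟩
  set U : Finset E := p.support.biUnion T with hU
  set p' : Polynomial E := p.map (algebraMap (IntermediateField.adjoin F S) E) with hp'
  have h1 : p' ∈ Polynomial.lifts (algebraMap (IntermediateField.adjoin F (U : Set E)) E) := by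
    rw [Polynomial.lifts_iff_coeff_lifts]
    intro n
    by_cases hn : p.coeff n = 0
    · exact ⟨0, by rw [map_zero, hp', Polynomial.coeff_map, hn, map_zero]⟩
    · have h2 : T n ⊆ U := Finset.subset_biUnion_of_mem T (Polynomial.mem_support_iff.mpr hn)
      refine ⟨⟨(p.coeff n : E), ?_⟩, ?_⟩
      · exact IntermediateField.adjoin.mono F _ _ (Finset.coe_subset.mpr h2) (hT2 n)
      · rw [hp', Polynomial.coeff_map]
        rfl
  obtain ⟨q, hq⟩ := (Polynomial.mem_lifts _).mp h1
  refine ⟨q, ?_, ?_⟩
  · rintro rfl
    rw [Polynomial.map_zero] at hq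
    exact hp0 ((Polynomial.map_eq_zero_iff (algebraMap (IntermediateField.adjoin F S) E).injective).mp
      hq.symm)
  · rw [Polynomial.aeval_def, ← Polynomial.eval_map, hq, hp', Polynomial.eval_map,
      ← Polynomial.aeval_def, hpx]

theorem isAlgebraic_adjoin_mono {F E : Type*} [Field F] [Field E] [Algebra F E] {S T : Set E}
    (hST : S ⊆ T) {x : E} (hx : IsAlgebraic (IntermediateField.adjoin F S) x) :
    IsAlgebraic (IntermediateField.adjoin F T) x := by
  have hle : IntermediateField.adjoin F S ≤ IntermediateField.adjoin F T :=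
    IntermediateField.adjoin.mono F S T hST
  let _ : Algebra (IntermediateField.adjoin F S) (IntermediateField.adjoin F T) :=
    (IntermediateField.inclusion hle).toRingHom.toAlgebra
  have : IsScalarTower (IntermediateField.adjoin F S) (IntermediateField.adjoin F T) E :=
    IsScalarTower.of_algebraMap_eq (fun _ => rfl)
  exact hx.tower_top _

variable {k₀ κ K : Type*} [Field k₀] [CharZero k₀] [Field κ] [Field K] [Algebra k₀ κ] [Algebra κ K]
  [Algebra k₀ K] [IsScalarTower k₀ κ K]

/-- derivations dual to an algebraically independent family, which are combinations of derivations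
preserving the field of constants -/
theorem exists_ders {t : K} (ht : Transcendental κ t)
    (halg : Algebra.IsAlgebraic (IntermediateField.adjoin κ {t}) K)
    {Θ : Type*} [Finite Θ] [DecidableEq Θ] {c : Θ → K} (hc : AlgebraicIndependent k₀ c) :
    ∃ (N : Type) (_ : Fintype N) (E : N → Derivation k₀ K K) (f : Θ → N → K),
      (∀ j, ∀ u : κ, ∃ u' : κ, E j (algebraMap κ K u) = algebraMap κ K u') ∧
      (∀ j, ∃ v : κ, E j t = algebraMap κ K v) ∧
      (∀ θ θ', (∑ j, f θ j * E j (c θ')) = (if θ = θ' then 1 else 0 : K)) := by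
  classical
  cases nonempty_fintype Θ
  -- a transcendence basis of `K`
  obtain ⟨ι, x, hx⟩ := exists_isTranscendenceBasis' k₀ κ
  have hy : IsTranscendenceBasis κ (fun _ : Unit => t) := by
    have h1 : AlgebraicIndependent κ (fun _ : Unit => t) :=
      algebraicIndependent_unique_type_iff.mpr ht
    rw [h1.isTranscendenceBasis_iff_isAlgebraic, ← IntermediateField.isAlgebraic_adjoin_iff_top,
      Set.range_const]
    exact halg
  set z : Unit ⊕ ι → K := Sum.elim (fun _ => t) (algebraMap κ K ∘ x) with hz
  have hzb : IsTranscendenceBasis k₀ z := hx.sumElim_comp hy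
  have hzalg : Algebra.IsAlgebraic (Algebra.adjoin k₀ (Set.range z)) K := hzb.isAlgebraic
  have hxalg : Algebra.IsAlgebraic (Algebra.adjoin k₀ (Set.range x)) κ := hx.isAlgebraic
  have hxalg' : Algebra.IsAlgebraic (IntermediateField.adjoin k₀ (Set.range x)) κ :=
    hx.isAlgebraic_field
  have hzalg' : Algebra.IsAlgebraic (IntermediateField.adjoin k₀ (Set.range z)) K :=
    hzb.isAlgebraic_field
  -- the dual derivations
  choose E hE using fun j : Unit ⊕ ι =>
    exists_derivation hzb.1 (fun i => if i = j then (1 : K) else 0)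
  choose e he using fun j : ι =>
    exists_derivation hx.1 (fun i => if i = j then (1 : κ) else 0)
  have hEκ : ∀ j, ∀ u : κ, ∃ u' : κ, E j (algebraMap κ K u) = algebraMap κ K u' := by
    intro j u
    have hu : IsAlgebraic (IntermediateField.adjoin k₀ (Set.range x)) u := hxalg'.isAlgebraic u
    rcases j with j | j
    · refine ⟨0, ?_⟩
      rw [map_zero]
      have h1 := der_eq_zero (V := K) ((E (Sum.inl j)).compAlgebraMap κ) (Set.range x) ?_ hu
      · exact h1
      · rintro _ ⟨i, rfl⟩
        have h2 := hE (Sum.inl j) (Sum.inr i)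
        simpa [hz] using h2
    · refine ⟨e j u, ?_⟩
      have h1 := der_eq_zero (V := K) ((E (Sum.inr j)).compAlgebraMap κ -
        (Algebra.linearMap κ K).compDer (e j)) (Set.range x) ?_ hu
      · rw [Derivation.sub_apply] at h1
        exact sub_eq_zero.mp h1
      · rintro _ ⟨i, rfl⟩
        have h2 := hE (Sum.inr j) (Sum.inr i)
        have h3 := he j i
        rw [Derivation.sub_apply, sub_eq_zero]
        show E (Sum.inr j) (algebraMap κ K (x i)) = algebraMap κ K (e j (x i))
        rw [h3]
        have h4 : z (Sum.inr i) = algebraMap κ K (x i) := rfl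
        rw [← h4, h2]
        by_cases hij : i = j
        · simp [hij]
        · simp [hij]
  have hEt : ∀ j, ∃ v : κ, E j t = algebraMap κ K v := by
    intro j
    have h2 := hE j (Sum.inl ())
    have h4 : z (Sum.inl ()) = t := rfl
    rw [h4] at h2
    by_cases hj : Sum.inl () = j
    · exact ⟨1, by rw [h2, if_pos hj, map_one]⟩
    · exact ⟨0, by rw [h2, if_neg hj, map_zero]⟩
  -- derivations dual to `c`
  have hc' : AlgebraicIndepOn k₀ id (Set.range c) := hc.coe_range
  obtain ⟨s, hs1, hs2⟩ := exists_isTranscendenceBasis_superset hc'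
  have hsalg : Algebra.IsAlgebraic (Algebra.adjoin k₀ (Set.range ((↑) : s → K))) K :=
    hs2.isAlgebraic
  choose D hD using fun θ : Θ =>
    exists_derivation hs2.1 (fun i => if (i : K) = c θ then (1 : K) else 0)
  have hDc : ∀ θ θ', D θ (c θ') = if θ = θ' then 1 else 0 := by
    intro θ θ'
    have h1 := hD θ ⟨c θ', hs1 ⟨θ', rfl⟩⟩
    simp only at h1
    rw [h1]
    by_cases h : θ = θ'
    · subst h; simp
    · rw [if_neg h, if_neg]
      intro h2
      exact h (hc.injective h2.symm)
  -- finitely many of the `z j` suffice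
  choose T hT1 hT2 using fun θ : Θ =>
    exists_finset_isAlgebraic (hzalg'.isAlgebraic (c θ))
  set U : Finset K := Finset.univ.biUnion T with hU
  have hUz : (U : Set K) ⊆ Set.range z := by simpa [hU] using hT1
  obtain ⟨S, hS⟩ : ∃ S : Finset (Unit ⊕ ι), S.image z = U := by
    obtain ⟨S, _, hS⟩ := Finset.subset_set_image_iff.mp
      (show (U : Set K) ⊆ z '' Set.univ by rwa [Set.image_univ])
    exact ⟨S, hS⟩
  let eN := S.equivFin
  refine ⟨Fin S.card, inferInstance, fun j => E (eN.symm j), fun θ j => D θ (z (eN.symm j)),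
    fun j => hEκ _, fun j => hEt _, ?_⟩
  intro θ θ'
  rw [← hDc θ θ']
  have h1 : (∑ j : Fin S.card, D θ (z (eN.symm j)) * E (eN.symm j) (c θ')) =
      ∑ j ∈ S, D θ (z j) * E j (c θ') := by
    rw [← Finset.sum_coe_sort S]
    exact Equiv.sum_comp eN.symm (fun j : S => D θ (z j) * E j (c θ'))
  rw [h1]
  have hsum : ∀ (S' : Finset (Unit ⊕ ι)) (y : K), (∑ j ∈ S', D θ (z j) • E j) y =
      ∑ j ∈ S', D θ (z j) * E j y := by
    intro S' y
    induction S' using Finset.induction_on with
    | empty => simp
    | insert a S' ha ih =>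
      rw [Finset.sum_insert ha, Finset.sum_insert ha, Derivation.add_apply, ih,
        Derivation.smul_apply, smul_eq_mul]
  have h2 := der_eq_zero (V := K) (D θ - ∑ j ∈ S, D θ (z j) • E j) (U : Set K) ?_
    (x := c θ') ?_
  · rw [Derivation.sub_apply, sub_eq_zero, hsum] at h2
    exact h2.symm
  · intro y hy
    rw [← hS, Finset.coe_image] at hy
    obtain ⟨i, hi, rfl⟩ := hy
    have hi' : i ∈ S := hi
    rw [Derivation.sub_apply, sub_eq_zero, hsum, Finset.sum_eq_single i]
    · rw [hE, if_pos rfl, mul_one]
    · intro b _ hb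
      rw [hE, if_neg (Ne.symm hb), mul_zero]
    · intro h
      exact absurd hi' h
  · refine isAlgebraic_adjoin_mono ?_ (hT2 θ')
    exact Finset.coe_subset.mpr (Finset.subset_biUnion_of_mem T (Finset.mem_univ θ'))

end Adapted

end Pool.Agent.Lib.MP_44a246_nt
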