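import Mathlib
import Pool.Agent.Lib.MP_44a246_nt.DerivGen
import Pool.Agent.Lib.MP_44a246_nt.Jacobian
import Pool.Agent.Lib.MP_e52354_nt.Machine
import Pool.Agent.Lib.MP_e52354_nt.Stable

/-!
Existence of the derivations and of the denominators.
-/

namespace Pool.Agent.Lib.MP_44a246_nt

open Pool.Agent.Lib.MP_e52354_nt Polynomial

section General

variable {R K₀ M : Type*} [CommRing R] [IsDomain R] [IsPrincipalIdealRing R]
  [Field K₀] [Algebra R K₀] [IsFractionRing R K₀]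
  [Field M] [Algebra R M] [Algebra K₀ M] [IsScalarTower R K₀ M]
  [FiniteDimensional K₀ M] [Algebra.IsSeparable K₀ M]

include K₀ in
/-- a common denominator for combinations of derivations preserving the base ring -/
theorem exists_delta_comb {N Θ : Type*} [Fintype N] [Finite Θ] (E : N → Derivation ℤ M M)
    (hE : ∀ j, ∀ ρ : R, ∃ ρ' : R, E j (algebraMap R M ρ) = algebraMap R M ρ')
    (f : Θ → N → M) (S : Finset M) :
    ∃ δ : R, δ ≠ 0 ∧ (∀ θ, ∀ b : M, IsIntegral R b →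
      IsIntegral R (algebraMap R M δ * ∑ j, f θ j * E j b)) ∧
      ∀ z ∈ S, IsIntegral R (algebraMap R M δ * z) := by
  classical
  have := Fintype.ofFinite Θ
  let S' : Finset M := S ∪ Finset.univ.image (fun p : Θ × N => f p.1 p.2)
  obtain ⟨δ, hδ0, h1, h2⟩ := exists_delta (R := R) K₀ (M := M)
    ((Finset.univ : Finset N).disjSum S') (Sum.elim E (fun _ => 0)) (Sum.elim (fun _ => 0) id)
    (by
      intro I hI ρ
      rcases I with j | z
      · exact hE j ρ
      · exact ⟨0, by simp⟩)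
  have hE' : ∀ j, ∀ b : M, IsIntegral R b → IsIntegral R (algebraMap R M δ * E j b) := fun j =>
    h1 (Sum.inl j) (Finset.inl_mem_disjSum.mpr (Finset.mem_univ j))
  have hS' : ∀ z ∈ S', IsIntegral R (algebraMap R M δ * z) := fun z hz =>
    h2 (Sum.inr z) (Finset.inr_mem_disjSum.mpr hz)
  refine ⟨δ * δ, mul_ne_zero hδ0 hδ0, fun θ b hb => ?_, fun z hz => ?_⟩
  · have h3 : algebraMap R M (δ * δ) * ∑ j, f θ j * E j b =
        ∑ j, (algebraMap R M δ * f θ j) * (algebraMap R M δ * E j b) := by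
      rw [map_mul, Finset.mul_sum]
      exact Finset.sum_congr rfl fun j _ => by ring
    rw [h3]
    refine IsIntegral.sum _ fun j _ => (hS' _ ?_).mul (hE' j b hb)
    exact Finset.mem_union_right _ (Finset.mem_image.mpr ⟨(θ, j), Finset.mem_univ _, rfl⟩)
  · rw [map_mul, mul_assoc]
    exact isIntegral_algebraMap.mul (hS' z (Finset.mem_union_left _ hz))

end General

section Data

variable {k₀ κ K : Type*} [Field k₀] [CharZero k₀] [Field κ] [Field K]
  [Algebra k₀ κ] [Algebra κ K] [Algebra k₀ K] [IsScalarTower k₀ κ K]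
  [Algebra κ[X] K] [IsScalarTower κ κ[X] K]
  [Algebra (RatFunc κ) K] [IsScalarTower κ[X] (RatFunc κ) K]
  [Algebra (Rinf κ) K] [IsScalarTower (Rinf κ) (RatFunc κ) K]
  [FiniteDimensional (RatFunc κ) K]

variable {n : ℕ} {ι : Type*} [Finite ι] [DecidableEq ι] {d : ι → ℕ} {aK : ι → Expo n → K}

/-- restriction of scalars of a derivation to the integers -/
def derZ (E : Derivation k₀ K K) : Derivation ℤ K K := E.restrictScalars ℤ

theorem exists_data (ht : Transcendental κ (algebraMap κ[X] K X))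
    (halg : Algebra.IsAlgebraic (IntermediateField.adjoin κ {algebraMap κ[X] K X}) K)
    (hc : AlgebraicIndependent k₀
      (fun θ : {θ : ι × Expo n // θ.2 ∈ expo (Fin (n + 1)) (d θ.1)} => aK θ.1.1 θ.1.2)) (s : K) :
    ∃ DK : ι → Expo n → Derivation ℤ K K, DualFam d aK DK ∧
      (∀ i I (c : k₀), DK i I (algebraMap k₀ K c) = 0) ∧
      (∃ δf : κ[X], δf ≠ 0 ∧
        (∀ i, ∀ I ∈ expo (Fin (n + 1)) (d i), ∀ b : K, IsIntegral κ[X] b →
          IsIntegral κ[X] (algebraMap κ[X] K δf * DK i I b)) ∧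
        (∀ i, ∀ I ∈ expo (Fin (n + 1)) (d i), IsIntegral κ[X] (algebraMap κ[X] K δf * aK i I)) ∧
        IsIntegral κ[X] (algebraMap κ[X] K δf * s) ∧
        IsIntegral κ[X] (algebraMap κ[X] K δf * s⁻¹)) ∧
      (∃ δi : Rinf κ, δi ≠ 0 ∧
        (∀ i, ∀ I ∈ expo (Fin (n + 1)) (d i), ∀ b : K, IsIntegral (Rinf κ) b →
          IsIntegral (Rinf κ) (algebraMap (Rinf κ) K δi * DK i I b)) ∧
        (∀ i, ∀ I ∈ expo (Fin (n + 1)) (d i),
          IsIntegral (Rinf κ) (algebraMap (Rinf κ) K δi * aK i I)) ∧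
        IsIntegral (Rinf κ) (algebraMap (Rinf κ) K δi * s) ∧
        IsIntegral (Rinf κ) (algebraMap (Rinf κ) K δi * s⁻¹)) := by
  classical
  have hcK : CharZero K := charZero_of_injective_algebraMap (algebraMap k₀ K).injective
  have hc0 : CharZero (RatFunc κ) := charZero_RatFunc κ K
  let T := {θ : ι × Expo n // θ.2 ∈ expo (Fin (n + 1)) (d θ.1)}
  have hT : Finite T := by
    have : Function.Injective (fun θ : T => (⟨θ.1.1, ⟨θ.1.2, θ.2⟩⟩ :
        Σ i, {I // I ∈ expo (Fin (n + 1)) (d i)})) := by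
      rintro ⟨⟨i, I⟩, h⟩ ⟨⟨i', I'⟩, h'⟩ heq
      simp only [Sigma.mk.injEq] at heq
      obtain ⟨h1, h2⟩ := heq
      subst h1
      simp only [heq_eq_eq, Subtype.mk.injEq] at h2
      subst h2
      rfl
    exact Finite.of_injective _ this
  have := Fintype.ofFinite T
  obtain ⟨N, iN, E, f, hE1, hE2, hE3⟩ := exists_ders (k₀ := k₀) ht halg hc
  let DT : T → Derivation ℤ K K := fun θ => ∑ j, f θ j • derZ (E j)
  have hDT : ∀ θ b, DT θ b = ∑ j, f θ j * E j b := by
    intro θ b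
    show (Derivation.coeFnAddMonoidHom (∑ j, f θ j • derZ (E j))) b = _
    rw [map_sum, Finset.sum_apply]
    rfl
  let DK : ι → Expo n → Derivation ℤ K K := fun i I =>
    if h : I ∈ expo (Fin (n + 1)) (d i) then DT ⟨(i, I), h⟩ else 0
  have hDK : ∀ i I (h : I ∈ expo (Fin (n + 1)) (d i)), DK i I = DT ⟨(i, I), h⟩ := fun i I h =>
    dif_pos h
  have hκ : ∀ j, ∀ u : κ, ∃ u' : κ, derZ (E j) (algebraMap κ K u) = algebraMap κ K u' := hE1
  have htt : ∀ j, ∃ v : κ, derZ (E j) (algebraMap κ[X] K X) = algebraMap κ K v := hE2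
  let S : Finset K := (Finset.univ.image fun θ : T => aK θ.1.1 θ.1.2) ∪ {s, s⁻¹}
  have haS : ∀ i, ∀ I ∈ expo (Fin (n + 1)) (d i), aK i I ∈ S := fun i I hI =>
    Finset.mem_union_left _ (Finset.mem_image.mpr ⟨⟨(i, I), hI⟩, Finset.mem_univ _, rfl⟩)
  have hsS : s ∈ S := Finset.mem_union_right _ (by simp)
  have hsS' : s⁻¹ ∈ S := Finset.mem_union_right _ (by simp)
  obtain ⟨δf, hδf0, hf1, hf2⟩ := exists_delta_comb (R := κ[X]) (K₀ := RatFunc κ)
    (fun j => derZ (E j)) (fun j ρ => by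
      obtain ⟨g, hg, -⟩ := poly_stable (derZ (E j)) (hκ j) (htt j) ρ
      exact ⟨g, hg⟩) f S
  obtain ⟨δi, hδi0, hi1, hi2⟩ := exists_delta_comb (R := Rinf κ) (K₀ := RatFunc κ)
    (fun j => derZ (E j)) (fun j ρ => rinf_stable (derZ (E j)) (hκ j) (htt j) ρ) f S
  refine ⟨DK, ?_, ?_, ⟨δf, hδf0, ?_, fun i I hI => hf2 _ (haS i I hI), hf2 _ hsS, hf2 _ hsS'⟩,
    ⟨δi, hδi0, ?_, fun i I hI => hi2 _ (haS i I hI), hi2 _ hsS, hi2 _ hsS'⟩⟩
  · intro i I hI j J hJ
    rw [hDK i I hI, hDT, hE3 ⟨(i, I), hI⟩ ⟨(j, J), hJ⟩]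
    refine if_congr ?_ rfl rfl
    rw [Subtype.mk.injEq, Prod.mk.injEq]
  · intro i I c
    by_cases h : I ∈ expo (Fin (n + 1)) (d i)
    · rw [hDK i I h, hDT]
      refine Finset.sum_eq_zero fun j _ => ?_
      rw [Derivation.map_algebraMap, mul_zero]
    · simp only [DK, dif_neg h]
      rfl
  · intro i I hI b hb
    rw [hDK i I hI, hDT]
    exact hf1 _ b hb
  · intro i I hI b hb
    rw [hDK i I hI, hDT]
    exact hi1 _ b hb

end Data

end Pool.Agent.Lib.MP_44a246_nt
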