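import Mathlib
import Pool.Agent.Lib.MP_44a246_nt.Vec
import Pool.Agent.Lib.MP_44a246_nt.DerivGen

/-!
The span of the derivatives of a point and the transcendence degree.
-/

namespace Pool.Agent.Lib.MP_44a246_nt

open Pool.Agent.Lib.MP_e52354_nt

section Trdeg

/-- the field generated by the ratios of the coordinates of a point -/
def pointField (k₀ : Type*) {L : Type*} [Field k₀] [Field L] [Algebra k₀ L] {σ : Type*}
    (x : σ → L) : IntermediateField k₀ L :=
  IntermediateField.adjoin k₀ {z : L | ∃ i j, z = x i / x j}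

variable {k₀ L : Type*} [Field k₀] [CharZero k₀] [Field L] [Algebra k₀ L]

/-- a derivation killing the base field, as a linear derivation -/
def toLinearDer (E : Derivation ℤ L L) (hE : ∀ c : k₀, E (algebraMap k₀ L c) = 0) :
    Derivation k₀ L L :=
  Derivation.mk'
    { toFun := E
      map_add' := map_add E
      map_smul' := fun c y => by
        show E (c • y) = c • E y
        rw [Algebra.smul_def, Derivation.leibniz, hE, smul_zero, add_zero, smul_eq_mul,
          Algebra.smul_def] }
    (fun a b => Derivation.leibniz E a b)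

variable {n : ℕ} {ι : Type*} {d : ι → ℕ} {D : ι → Expo n → Derivation ℤ L L}

theorem mem_spanX (hD0 : ∀ i I (c : k₀), D i I (algebraMap k₀ L c) = 0)
    {x : Fin (n + 1) → L} {w : Fin (n + 1) → L} (hw : w ∈ spanX d D x) :
    ∃ (c : L) (E : Derivation ℤ L L), (∀ a : k₀, E (algebraMap k₀ L a) = 0) ∧
      ∀ k, w k = c * x k + E (x k) := by
  unfold spanX at hw
  induction hw using Submodule.span_induction with
  | mem w hw =>
    rcases hw with rfl | ⟨i, I, -, rfl⟩
    · exact ⟨1, 0, fun a => rfl, fun k => by simp⟩
    · exact ⟨0, D i I, hD0 i I, fun k => by simp⟩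
  | zero => exact ⟨0, 0, fun a => rfl, fun k => by simp⟩
  | add w w' _ _ hw hw' =>
    obtain ⟨c, E, h1, h2⟩ := hw
    obtain ⟨c', E', h1', h2'⟩ := hw'
    refine ⟨c + c', E + E', fun a => ?_, fun k => ?_⟩
    · rw [Derivation.add_apply, h1, h1', add_zero]
    · rw [Pi.add_apply, h2, h2', Derivation.add_apply]; ring
  | smul b w _ hw =>
    obtain ⟨c, E, h1, h2⟩ := hw
    refine ⟨b * c, b • E, fun a => ?_, fun k => ?_⟩
    · rw [Derivation.smul_apply, h1, smul_zero]
    · rw [Pi.smul_apply, h2, Derivation.smul_apply, smul_eq_mul, smul_eq_mul]; ring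

open Cardinal in
theorem finrank_spanX_le (hD0 : ∀ i I (c : k₀), D i I (algebraMap k₀ L c) = 0)
    {x : Fin (n + 1) → L} (hx : x ≠ 0) {T : ℕ}
    (hT : Algebra.trdeg k₀ (pointField k₀ x) ≤ T) :
    Module.finrank L (spanX d D x) ≤ T + 1 := by
  classical
  obtain ⟨l, hl⟩ : ∃ l, x l ≠ 0 := by
    by_contra hcon
    push Not at hcon
    exact hx (funext hcon)
  let q : Fin (n + 1) → L := fun k => x k / x l
  obtain ⟨B, hB⟩ := (AlgebraicIndependent.matroid k₀ L).exists_isBasis (Set.range q)
  obtain ⟨hBind, hBsub, hBalg⟩ := AlgebraicIndependent.matroid_isBasis_iff.mp hB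
  have hBfin : B.Finite := (Set.finite_range q).subset hBsub
  have : Fintype B := hBfin.fintype
  -- the cardinality of the basis
  have hmemF : ∀ b ∈ B, b ∈ pointField k₀ x := by
    intro b hb
    obtain ⟨k, rfl⟩ := hBsub hb
    exact IntermediateField.subset_adjoin _ _ ⟨k, l, rfl⟩
  have hcard : Fintype.card B ≤ T := by
    let f : B → pointField k₀ x := fun b => ⟨b, hmemF b b.2⟩
    have h1 : AlgebraicIndependent k₀ f := by
      refine AlgebraicIndependent.of_comp (pointField k₀ x).val ?_
      exact hBind
    have h2 := h1.cardinalMk_le_trdeg.trans hT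
    rw [mk_fintype] at h2
    exact_mod_cast h2
  choose kb hkb using fun b : B => hBsub b.2
  -- the injection
  let φ : (Fin (n + 1) → L) →ₗ[L] (L × (B → L)) := LinearMap.prod (LinearMap.proj l)
    (LinearMap.pi fun b => LinearMap.proj (kb b))
  have hinj : Function.Injective (φ.domRestrict (spanX d D x)) := by
    rw [injective_iff_map_eq_zero]
    rintro ⟨w, hw⟩ h0
    have h0l : w l = 0 := congrArg Prod.fst h0
    have h0b : ∀ b : B, w (kb b) = 0 := fun b => congrFun (congrArg Prod.snd h0) b
    obtain ⟨c, E, hE, hwE⟩ := mem_spanX hD0 hw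
    have hxq : ∀ k, x k = x l * q k := fun k => by
      show x k = x l * (x k / x l)
      field_simp
    have hwq : ∀ k, w k = x l * E (q k) := by
      intro k
      have h1 : E (x k) = x l * E (q k) + q k * E (x l) := by
        conv_lhs => rw [hxq k]
        rw [Derivation.leibniz, smul_eq_mul, smul_eq_mul]
      have h2 : c * x l + E (x l) = 0 := by rw [← hwE l]; exact h0l
      have h3 : E (x l) = - (c * x l) := by linear_combination h2
      rw [hwE, h1, h3, hxq k]
      ring
    have hEB : ∀ b ∈ B, E b = 0 := by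
      intro b hb
      have h1 := h0b ⟨b, hb⟩
      rw [hwq, hkb] at h1
      exact (mul_eq_zero.mp h1).resolve_left hl
    have hEq : ∀ k, E (q k) = 0 := by
      intro k
      refine der_eq_zero (toLinearDer E hE) B hEB ?_
      have h1 := hBalg (q k) ⟨k, rfl⟩
      obtain ⟨p, hp0, hp⟩ := h1
      let f : Algebra.adjoin k₀ B →+* IntermediateField.adjoin k₀ B :=
        (Subalgebra.inclusion (IntermediateField.algebra_adjoin_le_adjoin k₀ B)).toRingHom
      have hf : Function.Injective f := Subalgebra.inclusion_injective _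
      refine ⟨p.map f, (Polynomial.map_ne_zero_iff hf).mpr hp0, ?_⟩
      rw [Polynomial.aeval_def, Polynomial.eval₂_map]
      exact hp
    apply Subtype.ext
    funext k
    show w k = 0
    rw [hwq, hEq, mul_zero]
  have h1 := LinearMap.finrank_le_finrank_of_injective hinj
  rw [Module.finrank_prod, Module.finrank_self, Module.finrank_fintype_fun_eq_card] at h1
  omega

omit [CharZero k₀] in
open Cardinal in
theorem trdeg_pointField_le {x : Fin (n + 1) → L} (hx : x ≠ 0) :
    Algebra.trdeg k₀ (pointField k₀ x) ≤ n := by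
  classical
  obtain ⟨l, hl⟩ : ∃ l, x l ≠ 0 := by
    by_contra hcon
    push Not at hcon
    exact hx (funext hcon)
  have hmem : ∀ k, x k / x l ∈ pointField k₀ x := fun k =>
    IntermediateField.subset_adjoin _ _ ⟨k, l, rfl⟩
  let q : {k // k ≠ l} → pointField k₀ x := fun k => ⟨x k / x l, hmem k⟩
  have halgq : ∀ k, IsAlgebraic (Algebra.adjoin k₀ (Set.range q))
      (⟨x k / x l, hmem k⟩ : pointField k₀ x) := by
    intro k
    by_cases hk : k = l
    · have : (⟨x k / x l, hmem k⟩ : pointField k₀ x) = 1 := by
        apply Subtype.ext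
        show x k / x l = 1
        rw [hk, div_self hl]
      rw [this]
      exact isAlgebraic_one
    · exact isAlgebraic_algebraMap
        (⟨⟨x k / x l, hmem k⟩, Algebra.subset_adjoin ⟨⟨k, hk⟩, rfl⟩⟩ :
          Algebra.adjoin k₀ (Set.range q))
  have halg : Algebra.IsAlgebraic (Algebra.adjoin k₀ (Set.range q)) (pointField k₀ x) := by
    refine ⟨fun z => ?_⟩
    obtain ⟨z, hz⟩ := z
    show IsAlgebraic _ (⟨z, hz⟩ : pointField k₀ x)
    induction hz using IntermediateField.adjoin_induction with
    | mem z hz =>
      obtain ⟨i, j, rfl⟩ := hz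
      by_cases hj : x j = 0
      · have : (⟨x i / x j, IntermediateField.subset_adjoin _ _ ⟨i, j, rfl⟩⟩ :
            pointField k₀ x) = 0 := by
          apply Subtype.ext
          show x i / x j = 0
          rw [hj, div_zero]
        rw [this]
        exact isAlgebraic_zero
      · have : (⟨x i / x j, IntermediateField.subset_adjoin _ _ ⟨i, j, rfl⟩⟩ :
            pointField k₀ x) = ⟨x i / x l, hmem i⟩ * (⟨x j / x l, hmem j⟩)⁻¹ := by
          apply Subtype.ext
          show x i / x j = x i / x l * (x j / x l)⁻¹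
          field_simp
        rw [this]
        exact (halgq i).mul (halgq j).inv
    | algebraMap c =>
      exact isAlgebraic_algebraMap (algebraMap k₀ (Algebra.adjoin k₀ (Set.range q)) c)
    | add x y _ _ hx hy => exact hx.add hy
    | inv x _ hx => exact hx.inv
    | mul x y _ _ hx hy => exact hx.mul hy
  have h1 := Algebra.IsAlgebraic.trdeg_le_cardinalMk k₀ (Set.range q)
  refine h1.trans ?_
  have h2 : #(Set.range q) ≤ (Fintype.card {k // k ≠ l} : ℕ) := by
    have h3 := mk_range_le_lift (f := q)
    rw [mk_fintype, lift_natCast] at h3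
    simpa using h3
  refine h2.trans ?_
  rw [Fintype.card_subtype_compl, Fintype.card_fin, Fintype.card_unique]
  simp

end Trdeg

end Pool.Agent.Lib.MP_44a246_nt
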