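import Mathlib
import Pool.Agent.Lib.MP_44a246_nt.Core
import Pool.Agent.Lib.MP_44a246_nt.Data
import Pool.Agent.Lib.MP_44a246_nt.Trdeg

/-!
The main inequality in terms of coefficient functions.
-/

namespace Pool.Agent.Lib.MP_44a246_nt

open Pool.Agent.Lib.MP_e52354_nt WithZero Polynomial

universe w

section MainLib

variable {k₀ κ K : Type*} [Field k₀] [CharZero k₀] [Field κ] [IsAlgClosed κ] [CharZero κ] [Field K]
  [Algebra k₀ κ] [Algebra κ K] [Algebra k₀ K] [IsScalarTower k₀ κ K]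
  [Algebra κ[X] K] [IsScalarTower κ κ[X] K]
  [Algebra (RatFunc κ) K] [IsScalarTower κ[X] (RatFunc κ) K]
  [Algebra (Rinf κ) K] [IsScalarTower (Rinf κ) (RatFunc κ) K]
  [FiniteDimensional (RatFunc κ) K]

variable {n : ℕ} {ι : Type*} [Fintype ι] [DecidableEq ι] {d : ι → ℕ} {aK : ι → Expo n → K}

theorem main_lib (ht : Transcendental κ (algebraMap κ[X] K X))
    (halg : Algebra.IsAlgebraic (IntermediateField.adjoin κ {algebraMap κ[X] K X}) K)
    (hc : AlgebraicIndependent k₀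
      (fun θ : {θ : ι × Expo n // θ.2 ∈ expo (Fin (n + 1)) (d θ.1)} => aK θ.1.1 θ.1.2))
    {m : ℕ} (hm : 1 ≤ m) (hmd : ∀ i, m ≤ d i) {s : K} (hs0 : s ≠ 0) :
    ∃ C : ℕ, ∀ (L : Type w) [Field L] [Algebra κ L] [Algebra κ[X] L] [IsScalarTower κ κ[X] L]
      [Algebra (RatFunc κ) L] [IsScalarTower κ[X] (RatFunc κ) L]
      [Algebra (Rinf κ) L] [IsScalarTower (Rinf κ) (RatFunc κ) L]
      [Algebra K L] [IsScalarTower κ K L] [IsScalarTower κ[X] K L] [IsScalarTower (Rinf κ) K L]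
      [IsScalarTower (RatFunc κ) K L] [FiniteDimensional K L] [Algebra k₀ L]
      [IsScalarTower k₀ K L] (x : Fin (n + 1) → L) (_ : x ≠ 0) (T H : ℕ)
      (_ : Algebra.trdeg k₀ (pointField k₀ x) ≤ T) (GS : Set (Expo n → L))
      (_ : ∀ G ∈ GS, Fval m G x = 0)
      (_ : ∀ G ∈ GS, ∑ᶠ v : Place κ L, log (Gam v.1 m G) ≤ H)
      (_ : ∀ G : Expo n → L, Fval m G x = 0 →
        ∃ G' ∈ Submodule.span L GS, ∀ I ∈ expo (Fin (n + 1)) m, G' I = G I),
      Nat.card {i // yv d (fun i I => algebraMap K L (aK i I)) x i = 0} ≤ T ∧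
      (((∑ i, d i : ℕ) : ℤ) - T - 1) * height κ x ≤
        ((truncSet (κ := κ) d aK s x).ncard : ℤ) + (ramDeg κ L K : ℤ) +
          ((T : ℤ) - (Nat.card {i // yv d (fun i I => algebraMap K L (aK i I)) x i = 0} : ℕ)) * H +
          (C : ℤ) * (Module.finrank K L : ℤ) := by
  classical
  obtain ⟨DK, hDK, hDK0, ⟨δf, hδf0, hf1, hf2, hf3, hf4⟩, ⟨δi, hδi0, hi1, hi2, hi3, hi4⟩⟩ :=
    exists_data (n := n) (d := d) (aK := aK) ht halg hc s
  refine ⟨((n + Fintype.card ι + 1 : ℕ) : ℤ).toNat * ((Module.finrank (RatFunc κ) K : ℤ) *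
    (δf.natDegree - (δi : RatFunc κ).intDegree)).toNat, ?_⟩
  intro L _ _ _ _ _ _ _ _ _ _ _ _ _ _ _ _ x hx T H hT GS hGS hH hspan
  have hcK : CharZero K := charZero_of_injective_algebraMap (algebraMap κ K).injective
  have : FiniteDimensional (RatFunc κ) L := FiniteDimensional.trans (RatFunc κ) K L
  choose DL hDL using fun i I => exists_extension (K := K) (L := L) (DK i I)
  have hD : DualFam d (fun i I => algebraMap K L (aK i I)) DL := by
    intro i I hI j J hJ
    rw [hDL, hDK i I hI j J hJ]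
    split_ifs <;> simp
  have hDL0 : ∀ i I (c : k₀), DL i I (algebraMap k₀ L c) = 0 := by
    intro i I c
    rw [IsScalarTower.algebraMap_apply k₀ K L, hDL, hDK0, map_zero]
  obtain ⟨l, hl, -, -⟩ : ∃ l, x l ≠ 0 ∧ True ∧ True := by
    by_contra hcon
    push Not at hcon
    refine hx (funext fun l => ?_)
    by_contra h
    exact (hcon l h trivial)
  obtain ⟨r, e, g, hg, hcard, hr, J, hJ0, hJ⟩ := exists_J hD hl m hm hmd GS hGS hspan
  have h1 := core hDL hD hs0 hδf0 hf1 hf2 hf3 hf4 hδi0 hi1 hi2 hi3 hi4 hx GS e g hg hJ0 hJ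
  have h2 : Module.finrank L (spanX d DL x) ≤ T + 1 := finrank_spanX_le hDL0 hx hT
  have h3 : 0 ≤ height κ x := height_nonneg hx
  rw [hcard] at h1
  set c₁ := Module.finrank L (spanX d DL x) with hc₁
  set q := Nat.card {i // yv d (fun i I => algebraMap K L (aK i I)) x i = 0} with hq
  have hrT : r + 1 + q ≤ T + 1 := hr.trans h2
  have h4 : (r : ℤ) ≤ (T : ℤ) - q := by omega
  refine ⟨by omega, ?_⟩
  have h5 : ∑ k, (∑ᶠ v : Place κ L, log (Gam v.1 m (g k).G)) ≤ ((T : ℤ) - q) * H := by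
    calc ∑ k, (∑ᶠ v : Place κ L, log (Gam v.1 m (g k).G)) ≤ ∑ _k : Fin r, (H : ℤ) :=
          Finset.sum_le_sum fun k _ => hH _ (hg k).1
      _ = (r : ℤ) * H := by rw [Finset.sum_const, Finset.card_univ, Fintype.card_fin, nsmul_eq_mul]
      _ ≤ _ := mul_le_mul_of_nonneg_right h4 (Int.natCast_nonneg _)
  have h6 : (c₁ : ℤ) * height κ x ≤ ((T : ℤ) + 1) * height κ x := by
    refine mul_le_mul_of_nonneg_right ?_ h3
    exact_mod_cast h2
  have h7 : (Module.finrank (RatFunc κ) L : ℤ) =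
      (Module.finrank (RatFunc κ) K : ℤ) * Module.finrank K L := by
    rw [← Module.finrank_mul_finrank (RatFunc κ) K L]
    push_cast
    rfl
  have h8 : (δi : RatFunc κ).intDegree ≤ 0 := (mem_Rinf κ).mp δi.2
  set A : ℤ := (Module.finrank (RatFunc κ) K : ℤ) *
    (δf.natDegree - (δi : RatFunc κ).intDegree) with hA
  have hA0 : 0 ≤ A := by
    refine mul_nonneg (Int.natCast_nonneg _) ?_
    have : (0 : ℤ) ≤ δf.natDegree := Int.natCast_nonneg _
    linarith
  have h9 : ((r + Fintype.card ι + 1 : ℕ) : ℤ) * ((Module.finrank (RatFunc κ) L : ℤ) *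
          (δf.natDegree - (δi : RatFunc κ).intDegree)) =
      ((r + Fintype.card ι + 1 : ℕ) : ℤ) * (A * Module.finrank K L) := by
    rw [h7, hA]; ring
  have hrn : r ≤ n := by
    have h10 : Module.finrank L (spanX d DL x) ≤ n + 1 := by
      have := Submodule.finrank_le (spanX d DL x)
      rwa [Module.finrank_fintype_fun_eq_card, Fintype.card_fin] at this
    omega
  have h11 : ((r + Fintype.card ι + 1 : ℕ) : ℤ) * (A * Module.finrank K L) ≤
      ((n + Fintype.card ι + 1 : ℕ) : ℤ) * (A * Module.finrank K L) := by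
    refine mul_le_mul_of_nonneg_right ?_ (mul_nonneg hA0 (Int.natCast_nonneg _))
    exact_mod_cast (by omega : r + Fintype.card ι + 1 ≤ n + Fintype.card ι + 1)
  have h12 : (((((n + Fintype.card ι + 1 : ℕ) : ℤ).toNat * A.toNat : ℕ)) : ℤ) *
      (Module.finrank K L : ℤ) = ((n + Fintype.card ι + 1 : ℕ) : ℤ) * (A * Module.finrank K L) := by
    rw [Nat.cast_mul, Int.toNat_of_nonneg hA0, Int.toNat_natCast]
    ring
  rw [h9] at h1
  rw [h12]
  linarith

end MainLib

end Pool.Agent.Lib.MP_44a246_nt
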