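import Mathlib
import Pool.Agent.Lib.MP_44a246_nt.Core

/-!
Forms vanishing at a point are generated by forms of height at most that of the point.
-/

namespace Pool.Agent.Lib.MP_44a246_nt

open Pool.Agent.Lib.MP_e52354_nt WithZero
open MvPolynomial (X C monomial)

section Span

variable {L σ : Type*} [Field L]

/-- the span of the minors of degree `m` -/
noncomputable def minorSpan (x : σ → L) (m : ℕ) : Submodule L (MvPolynomial σ L) :=
  Submodule.span L {P : MvPolynomial σ L | ∃ (i j : σ) (U : σ →₀ ℕ), U.degree + 1 = m ∧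
      P = monomial U 1 * (C (x i) * X j - C (x j) * X i)}

theorem X_mul_minorSpan (x : σ → L) (m : ℕ) (k : σ) {P : MvPolynomial σ L}
    (hP : P ∈ minorSpan x m) : X k * P ∈ minorSpan x (m + 1) := by
  unfold minorSpan at hP ⊢
  induction hP using Submodule.span_induction with
  | mem P h =>
    obtain ⟨i, j, U, hU, rfl⟩ := h
    refine Submodule.subset_span ⟨i, j, U + Finsupp.single k 1, ?_, ?_⟩
    · rw [map_add, Finsupp.degree_single]; omega
    · rw [← mul_assoc]
      congr 1
      rw [MvPolynomial.X, MvPolynomial.monomial_mul, mul_one, add_comm]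
  | zero => rw [mul_zero]; exact Submodule.zero_mem _
  | add P Q _ _ hP hQ => rw [mul_add]; exact Submodule.add_mem _ hP hQ
  | smul a P _ hP => rw [mul_smul_comm]; exact Submodule.smul_mem _ _ hP

theorem monomial_minorSpan (x : σ → L) (l : σ) (k : ℕ) : ∀ J : σ →₀ ℕ, J.degree = k →
    (x l ^ k) • monomial J (1 : L) - (J.prod fun i e => x i ^ e) • (X l : MvPolynomial σ L) ^ k ∈
      minorSpan x k := by
  classical
  induction k with
  | zero =>
    intro J hJ
    rw [Finsupp.degree_eq_zero_iff] at hJ
    subst hJ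
    simp
  | succ k ih =>
    intro J hJ
    obtain ⟨j, hj⟩ : ∃ j, J j ≠ 0 := by
      by_contra hcon
      push Not at hcon
      have : J = 0 := Finsupp.ext hcon
      rw [this, map_zero] at hJ
      omega
    obtain ⟨J', rfl⟩ : ∃ J' : σ →₀ ℕ, J = J' + Finsupp.single j 1 :=
      ⟨J - Finsupp.single j 1, by
        rw [tsub_add_cancel_of_le]
        rw [Finsupp.single_le_iff]
        omega⟩
    have hJ' : J'.degree = k := by
      rw [map_add, Finsupp.degree_single] at hJ
      omega
    have h1 := X_mul_minorSpan x k j (ih J' hJ')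
    have h2 : monomial (Finsupp.single l k) (1 : L) * (C (x l) * X j - C (x j) * X l) ∈
        minorSpan x (k + 1) :=
      Submodule.subset_span ⟨l, j, Finsupp.single l k, by rw [Finsupp.degree_single], rfl⟩
    have h3 := Submodule.add_mem _ (Submodule.smul_mem _ (x l) h1)
      (Submodule.smul_mem _ (J'.prod fun i e => x i ^ e) h2)
    refine (congrArg (· ∈ minorSpan x (k + 1)) ?_).mp h3
    rw [Finsupp.prod_add_index' (by simp) (by intro i a b; exact pow_add _ _ _),
      Finsupp.prod_single_index (by simp)]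
    have e1 : monomial (J' + Finsupp.single j 1) (1 : L) = monomial J' 1 * X j := by
      rw [MvPolynomial.X, MvPolynomial.monomial_mul, mul_one]
    have e2 : monomial (Finsupp.single l k) (1 : L) = X l ^ k := by
      rw [MvPolynomial.X_pow_eq_monomial]
    rw [e1, e2]
    simp only [MvPolynomial.smul_eq_C_mul, map_mul, map_pow, pow_one]
    ring

/-- the forms vanishing at a point are generated by the minors -/
theorem mem_span_minors (x : σ → L) {l : σ} (hl : x l ≠ 0) {m : ℕ} (hm : 1 ≤ m)
    {G : MvPolynomial σ L} (hG : G.IsHomogeneous m) (hGx : MvPolynomial.eval x G = 0) :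
    G ∈ Submodule.span L {P : MvPolynomial σ L | ∃ (i j : σ) (U : σ →₀ ℕ), U.degree + 1 = m ∧
      P = monomial U 1 * (C (x i) * X j - C (x j) * X i)} := by
  classical
  change G ∈ minorSpan x m
  have h1 : x l ^ m • G ∈ minorSpan x m := by
    have h2 : ∑ I ∈ G.support, G.coeff I • (x l ^ m • monomial I (1 : L) -
        (I.prod fun i e => x i ^ e) • (X l : MvPolynomial σ L) ^ m) ∈ minorSpan x m := by
      refine Submodule.sum_mem _ fun I hI => Submodule.smul_mem _ _ (monomial_minorSpan x l m I ?_)
      have := hG (MvPolynomial.mem_support_iff.1 hI)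
      rw [← this, Finsupp.degree_eq_weight_one]
      rfl
    have h3 : ∑ I ∈ G.support, G.coeff I • (x l ^ m • monomial I (1 : L) -
        (I.prod fun i e => x i ^ e) • (X l : MvPolynomial σ L) ^ m) = x l ^ m • G := by
      simp only [smul_sub]
      rw [Finset.sum_sub_distrib]
      have h4 : ∑ I ∈ G.support, G.coeff I • (I.prod fun i e => x i ^ e) •
          (X l : MvPolynomial σ L) ^ m = 0 := by
        simp only [smul_smul]
        rw [← Finset.sum_smul]
        have h5 : ∑ I ∈ G.support, G.coeff I * (I.prod fun i e => x i ^ e) = 0 := by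
          rw [← hGx, MvPolynomial.eval_eq]
          rfl
        rw [h5, zero_smul]
      rw [h4, sub_zero]
      conv_rhs => rw [MvPolynomial.as_sum G, Finset.smul_sum]
      refine Finset.sum_congr rfl fun I _ => ?_
      rw [smul_comm, MvPolynomial.smul_monomial, smul_eq_mul, mul_one]
    rw [← h3]
    exact h2
  have h2 := Submodule.smul_mem _ (x l ^ m)⁻¹ h1
  rwa [smul_smul, inv_mul_cancel₀ (pow_ne_zero _ hl), one_smul] at h2

theorem minor_homogeneous (x : σ → L) (i j : σ) (U : σ →₀ ℕ) {m : ℕ} (hU : U.degree + 1 = m) :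
    (monomial U 1 * (C (x i) * X j - C (x j) * X i)).IsHomogeneous m := by
  rw [← hU]
  refine MvPolynomial.IsHomogeneous.mul (MvPolynomial.isHomogeneous_monomial _ rfl) ?_
  refine MvPolynomial.IsHomogeneous.sub ?_ ?_
  · have := (MvPolynomial.isHomogeneous_C σ (x i)).mul (MvPolynomial.isHomogeneous_X L j)
    rwa [zero_add] at this
  · have := (MvPolynomial.isHomogeneous_C σ (x j)).mul (MvPolynomial.isHomogeneous_X L i)
    rwa [zero_add] at this

theorem minor_eval (x : σ → L) (i j : σ) (U : σ →₀ ℕ) :
    MvPolynomial.eval x (monomial U 1 * (C (x i) * X j - C (x j) * X i)) = 0 := by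
  rw [map_mul, map_sub, map_mul, map_mul, MvPolynomial.eval_C, MvPolynomial.eval_C,
    MvPolynomial.eval_X, MvPolynomial.eval_X]
  ring

end Span

section Height

variable {κ L : Type*} [Field κ] [IsAlgClosed κ] [CharZero κ] [Field L] [Algebra κ L]
  [Algebra (Polynomial κ) L] [IsScalarTower κ (Polynomial κ) L]
  [Algebra (RatFunc κ) L] [IsScalarTower (Polynomial κ) (RatFunc κ) L]
  [Algebra (Rinf κ) L] [IsScalarTower (Rinf κ) (RatFunc κ) L]
  [FiniteDimensional (RatFunc κ) L]

variable {σ : Type*} [Fintype σ]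

theorem polyHeight_le (x : σ → L) (hx : x ≠ 0) (G : MvPolynomial σ L)
    (h : ∀ (v : Place κ L) I, v.1 (G.coeff I) ≤ vmax v.1 x) : polyHeight κ G ≤ height κ x := by
  classical
  by_cases hG : G = 0
  · have : polyHeight κ (0 : MvPolynomial σ L) = 0 := by
      unfold polyHeight
      simp
    rw [hG, this]
    exact height_nonneg hx
  · obtain ⟨I₀, hI₀⟩ := MvPolynomial.ne_zero_iff.1 hG
    unfold polyHeight height
    have f1 := sup_finite (κ := κ) G.support (fun I => G.coeff I)
      ⟨I₀, MvPolynomial.mem_support_iff.2 hI₀, hI₀⟩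
    have f2 := vmax_finite (κ := κ) hx
    have hs1 : Function.support (fun v : Place κ L =>
        log (G.support.sup fun I => v.1 (G.coeff I))) ⊆
        (f1.toFinset ∪ f2.toFinset : Finset (Place κ L)) := by
      intro v hv
      rw [Finset.coe_union, Set.mem_union]
      left
      rw [Set.Finite.coe_toFinset]
      intro h2
      apply hv
      simp only
      rw [h2, log_one]
    have hs2 : Function.support (fun v : Place κ L => log (vmax v.1 x)) ⊆
        (f1.toFinset ∪ f2.toFinset : Finset (Place κ L)) := by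
      intro v hv
      rw [Finset.coe_union, Set.mem_union]
      right
      rw [Set.Finite.coe_toFinset]
      intro h2
      apply hv
      simp only
      rw [h2, log_one]
    rw [finsum_eq_sum_of_support_subset _ hs1, finsum_eq_sum_of_support_subset _ hs2]
    refine Finset.sum_le_sum fun v _ => ?_
    · have h1 : v.1 (G.coeff I₀) ≠ 0 := (Valuation.ne_zero_iff v.1).mpr hI₀
      have h2 : v.1 (G.coeff I₀) ≤ G.support.sup fun I => v.1 (G.coeff I) :=
        Finset.le_sup (f := fun I => v.1 (G.coeff I)) (MvPolynomial.mem_support_iff.2 hI₀)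
      have h3 : (G.support.sup fun I => v.1 (G.coeff I)) ≤ vmax v.1 x :=
        Finset.sup_le fun I _ => h v I
      have h4 : (G.support.sup fun I => v.1 (G.coeff I)) ≠ 0 :=
        fun h0 => h1 (le_zero_iff.mp (h0 ▸ h2))
      have h5 : vmax v.1 x ≠ 0 := fun h0 => h4 (le_zero_iff.mp (h0 ▸ h3))
      exact (log_le_log h4 h5).mpr h3

theorem polyHeight_minor (x : σ → L) (hx : x ≠ 0) (i j : σ) (U : σ →₀ ℕ) :
    polyHeight κ (monomial U 1 * (C (x i) * X j - C (x j) * X i)) ≤ height κ x := by
  classical
  refine polyHeight_le x hx _ fun v I => ?_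
  have hle : ∀ k, v.1 (x k) ≤ vmax v.1 x := fun k =>
    Finset.le_sup (f := fun k => v.1 (x k)) (Finset.mem_univ k)
  have h1 : monomial U (1 : L) * (C (x i) * X j - C (x j) * X i) =
      monomial (U + Finsupp.single j 1) (x i) - monomial (U + Finsupp.single i 1) (x j) := by
    rw [mul_sub, MvPolynomial.C_mul_X_eq_monomial, MvPolynomial.C_mul_X_eq_monomial,
      MvPolynomial.monomial_mul, MvPolynomial.monomial_mul, one_mul, one_mul]
  rw [h1, MvPolynomial.coeff_sub]
  refine (v.1.map_sub _ _).trans (max_le ?_ ?_)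
  · rw [MvPolynomial.coeff_monomial]
    split_ifs
    · exact hle i
    · rw [map_zero]; exact bot_le
  · rw [MvPolynomial.coeff_monomial]
    split_ifs
    · exact hle j
    · rw [map_zero]; exact bot_le

theorem mu_mem (x : σ → L) (hx : x ≠ 0) {m : ℕ} (hm : 1 ≤ m) :
    (height κ x).toNat ∈ {H : ℕ | ∀ G : MvPolynomial σ L, G.IsHomogeneous m →
      MvPolynomial.eval x G = 0 →
      G ∈ Submodule.span L {G' : MvPolynomial σ L | G'.IsHomogeneous m ∧
        MvPolynomial.eval x G' = 0 ∧ polyHeight κ G' ≤ H}} := by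
  intro G hG hGx
  obtain ⟨l, hl⟩ := Function.ne_iff.1 hx
  refine Submodule.span_mono ?_ (mem_span_minors x hl hm hG hGx)
  rintro P ⟨i, j, U, hU, rfl⟩
  refine ⟨minor_homogeneous x i j U hU, minor_eval x i j U, ?_⟩
  rw [Int.toNat_of_nonneg (height_nonneg hx)]
  exact polyHeight_minor x hx i j U

/-- the defining property of `mu` -/
theorem mu_spec (x : σ → L) (hx : x ≠ 0) {m : ℕ} (hm : 1 ≤ m) {G : MvPolynomial σ L}
    (hG : G.IsHomogeneous m) (hGx : MvPolynomial.eval x G = 0) :
    G ∈ Submodule.span L {G' : MvPolynomial σ L | G'.IsHomogeneous m ∧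
      MvPolynomial.eval x G' = 0 ∧ polyHeight κ G' ≤ (mu κ m x : ℤ)} :=
  Nat.sInf_mem ⟨_, mu_mem x hx hm⟩ G hG hGx

theorem mu_le (x : σ → L) (hx : x ≠ 0) {m : ℕ} (hm : 1 ≤ m) : (mu κ m x : ℤ) ≤ height κ x := by
  have h1 : mu κ m x ≤ (height κ x).toNat := Nat.sInf_le (mu_mem x hx hm)
  have h2 := Int.toNat_of_nonneg (height_nonneg (κ := κ) hx)
  omega

end Height

end Pool.Agent.Lib.MP_44a246_nt
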