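import Mathlib
import Pool.Agent.Lib.MP_44a246_nt.MainLib
import Pool.Agent.Lib.MP_44a246_nt.Mu

/-!
The main inequality for polynomials.
-/

namespace Pool.Agent.Lib.MP_44a246_nt

open Pool.Agent.Lib.MP_e52354_nt WithZero

universe w

section Poly

variable {n : ℕ} {L K : Type*} [Field L] [Field K] [Algebra K L]

theorem aeval_eq_Fval {d : ℕ} (F : MvPolynomial (Fin (n + 1)) K)
    (hF : F.IsHomogeneous d) (p : Fin (n + 1) → L) :
    MvPolynomial.aeval p F = Fval d (fun I => algebraMap K L (F.coeff I)) p := by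
  rw [MvPolynomial.aeval_def, MvPolynomial.eval₂_eq']
  unfold Fval mon
  apply Finset.sum_subset
  · intro I hI
    rw [mem_expo]
    have h1 := hF (MvPolynomial.mem_support_iff.mp hI)
    rw [← h1, Finsupp.degree_eq_weight_one]
    rfl
  · intro I _ hI
    rw [MvPolynomial.notMem_support_iff.mp hI, map_zero, zero_mul]

theorem eval_eq_Fval {d : ℕ} (F : MvPolynomial (Fin (n + 1)) L)
    (hF : F.IsHomogeneous d) (p : Fin (n + 1) → L) :
    MvPolynomial.eval p F = Fval d (fun I => F.coeff I) p := by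
  have h := aeval_eq_Fval (K := L) F hF p
  exact h

/-- the form with given coefficients -/
noncomputable def toPoly (m : ℕ) (G : Expo n → L) : MvPolynomial (Fin (n + 1)) L :=
  ∑ I ∈ expo (Fin (n + 1)) m, MvPolynomial.monomial I (G I)

theorem toPoly_homog (m : ℕ) (G : Expo n → L) : (toPoly m G).IsHomogeneous m := by
  refine MvPolynomial.IsHomogeneous.sum _ _ _ fun I hI => ?_
  exact MvPolynomial.isHomogeneous_monomial _ (mem_expo.mp hI)

theorem toPoly_coeff (m : ℕ) (G : Expo n → L) {I : Expo n} (hI : I ∈ expo (Fin (n + 1)) m) :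
    (toPoly m G).coeff I = G I := by
  classical
  unfold toPoly
  rw [MvPolynomial.coeff_sum]
  simp only [MvPolynomial.coeff_monomial]
  rw [Finset.sum_ite_eq' _ I, if_pos hI]

theorem Fval_congr {d : ℕ} {G G' : Expo n → L} (h : ∀ I ∈ expo (Fin (n + 1)) d, G I = G' I)
    (x : Fin (n + 1) → L) : Fval d G x = Fval d G' x := by
  unfold Fval
  exact Finset.sum_congr rfl fun I hI => by rw [h I hI]

theorem toPoly_eval (m : ℕ) (G : Expo n → L) (x : Fin (n + 1) → L) :
    MvPolynomial.eval x (toPoly m G) = Fval m G x := by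
  rw [eval_eq_Fval _ (toPoly_homog m G)]
  exact Fval_congr (fun I hI => toPoly_coeff m G hI) x

theorem sup_support_eq (v : Valuation L ℤᵐ⁰) {m : ℕ} {G : MvPolynomial (Fin (n + 1)) L}
    (hG : G.IsHomogeneous m) :
    Gam v m (fun I => G.coeff I) = G.support.sup fun I => v (G.coeff I) := by
  unfold Gam
  refine le_antisymm (Finset.sup_le fun I _ => ?_) (Finset.sup_le fun I hI => ?_)
  · show v (G.coeff I) ≤ _
    by_cases h : G.coeff I = 0
    · rw [h, map_zero]; exact zero_le
    · exact Finset.le_sup (f := fun I => v (G.coeff I)) (MvPolynomial.mem_support_iff.mpr h)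
  · refine Finset.le_sup (f := fun I => v (G.coeff I)) ?_
    rw [mem_expo]
    have h1 := hG (MvPolynomial.mem_support_iff.mp hI)
    rw [← h1, Finsupp.degree_eq_weight_one]
    rfl

end Poly

section Nonunit

variable {κ K : Type*} [Field κ] [Field K] [Algebra κ K]

theorem exists_nonunit (S : Set (Place κ K)) (hS : S.Finite) :
    ∃ s : K, s ≠ 0 ∧ ∀ v ∈ S, v.1 s ≠ 1 := by
  classical
  induction S, hS using Set.Finite.induction_on with
  | empty => exact ⟨1, one_ne_zero, fun v hv => absurd hv (Set.notMem_empty v)⟩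
  | @insert v₀ S _ hS ih =>
    obtain ⟨s, hs0, hs⟩ := ih
    by_cases h0 : v₀.1 s = 1
    · obtain ⟨s', hs'⟩ := v₀.2.1 (exp (1 : ℤ))
      have hs'0 : s' ≠ 0 := by
        rintro rfl
        rw [map_zero] at hs'
        exact exp_ne_zero hs'.symm
      set N : ℕ := 1 + ∑ v ∈ hS.toFinset, (log (v.1 s)).natAbs with hN
      refine ⟨s * s' ^ N, mul_ne_zero hs0 (pow_ne_zero _ hs'0), ?_⟩
      have hlog : ∀ v : Place κ K, log (v.1 (s * s' ^ N)) = log (v.1 s) + N * log (v.1 s') := by
        intro v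
        rw [map_mul, map_pow, log_mul ((Valuation.ne_zero_iff _).mpr hs0)
          (pow_ne_zero _ ((Valuation.ne_zero_iff _).mpr hs'0)), log_pow']
      intro v hv h1
      have h2 := hlog v
      rw [h1, log_one] at h2
      rcases Set.mem_insert_iff.mp hv with rfl | hvS
      · rw [h0, hs', log_one, log_exp] at h2
        omega
      · have h3 : log (v.1 s) ≠ 0 := by
          intro h4
          apply hs v hvS
          rw [← exp_log ((Valuation.ne_zero_iff v.1).mpr hs0), h4, exp_zero]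
        have h4 : (log (v.1 s)).natAbs < N := by
          have : (log (v.1 s)).natAbs ≤ ∑ v ∈ hS.toFinset, (log (v.1 s)).natAbs :=
            Finset.single_le_sum (f := fun v : Place κ K => (log (v.1 s)).natAbs)
              (fun _ _ => Nat.zero_le _) (hS.mem_toFinset.mpr hvS)
          omega
        have h5 : log (v.1 s) = -((N : ℤ) * log (v.1 s')) := by linarith
        have h6 : (log (v.1 s)).natAbs = N * (log (v.1 s')).natAbs := by
          rw [h5, Int.natAbs_neg, Int.natAbs_mul, Int.natAbs_natCast]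
        rcases Nat.eq_zero_or_pos (log (v.1 s')).natAbs with h7 | h7
        · rw [h7, mul_zero] at h6
          exact h3 (Int.natAbs_eq_zero.mp h6)
        · have : N ≤ N * (log (v.1 s')).natAbs := Nat.le_mul_of_pos_right N h7
          omega
    · refine ⟨s, hs0, fun v hv => ?_⟩
      rcases Set.mem_insert_iff.mp hv with rfl | hvS
      · exact h0
      · exact hs v hvS

end Nonunit

section Main

variable {k₀ κ K : Type*} [Field k₀] [CharZero k₀] [Field κ] [IsAlgClosed κ] [CharZero κ] [Field K]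
  [Algebra k₀ κ] [Algebra κ K] [Algebra k₀ K] [IsScalarTower k₀ κ K]

variable {n : ℕ} {ι : Type*} [Fintype ι]

theorem poly_main [Algebra (Polynomial κ) K] [IsScalarTower κ (Polynomial κ) K]
    [Algebra (RatFunc κ) K] [IsScalarTower (Polynomial κ) (RatFunc κ) K]
    [Algebra (Rinf κ) K] [IsScalarTower (Rinf κ) (RatFunc κ) K]
    [FiniteDimensional (RatFunc κ) K]
    (ht : Transcendental κ (algebraMap (Polynomial κ) K Polynomial.X))
    (halg : Algebra.IsAlgebraic
      (IntermediateField.adjoin κ {algebraMap (Polynomial κ) K Polynomial.X}) K)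
    (d : ι → ℕ) (F : ι → MvPolynomial (Fin (n + 1)) K)
    (hF : ∀ i, (F i).IsHomogeneous (d i))
    (hgen : AlgebraicIndependent k₀
      (fun θ : Σ i, {I : Fin (n + 1) →₀ ℕ // I.degree = d i} => (F θ.1).coeff θ.2.1))
    {m : ℕ} (hm : 1 ≤ m) (hmd : ∀ i, m ≤ d i) (S : Set (Place κ K)) (hS : S.Finite) :
    ∃ C : ℕ, ∀ (L : Type w) [Field L] [Algebra K L] [FiniteDimensional K L] [Algebra κ L]
      [IsScalarTower κ K L] [Algebra k₀ L] [IsScalarTower k₀ K L]
      (x : Fin (n + 1) → L), x ≠ 0 → ∀ T : ℕ, Algebra.trdeg k₀ (pointField k₀ x) ≤ T →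
      Nat.card {i // MvPolynomial.aeval x (F i) = 0} ≤ T ∧
      ((∑ i, (d i : ℤ)) - T - 1) * height κ x ≤ (truncCount κ F d S x : ℤ) + (ramDeg κ L K : ℤ) +
        ((T : ℤ) - (Nat.card {i // MvPolynomial.aeval x (F i) = 0} : ℕ)) * (mu κ m x : ℤ) +
        (C : ℤ) * (Module.finrank K L : ℤ) ∧ (mu κ m x : ℤ) ≤ height κ x := by
  classical
  obtain ⟨s, hs0, hs⟩ := exists_nonunit S hS
  have hc : AlgebraicIndependent k₀ (fun θ : {θ : ι × Expo n // θ.2 ∈
      expo (Fin (n + 1)) (d θ.1)} => (fun i I => (F i).coeff I) θ.1.1 θ.1.2) := by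
    have h1 : (fun θ : {θ : ι × Expo n // θ.2 ∈ expo (Fin (n + 1)) (d θ.1)} =>
        (fun i I => (F i).coeff I) θ.1.1 θ.1.2) =
        (fun θ : Σ i, {I : Fin (n + 1) →₀ ℕ // I.degree = d i} => (F θ.1).coeff θ.2.1) ∘
        (fun θ : {θ : ι × Expo n // θ.2 ∈ expo (Fin (n + 1)) (d θ.1)} =>
          ⟨θ.1.1, ⟨θ.1.2, mem_expo.mp θ.2⟩⟩) := rfl
    rw [h1]
    apply hgen.comp
    rintro ⟨⟨i, I⟩, h⟩ ⟨⟨i', I'⟩, h'⟩ heq
    simp only [Sigma.mk.injEq] at heq
    obtain ⟨h1, h2⟩ := heq
    subst h1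
    simp only [heq_eq_eq, Subtype.mk.injEq] at h2
    subst h2
    rfl
  obtain ⟨C, hC⟩ := main_lib.{w} (k₀ := k₀) (κ := κ) (K := K) (n := n) (d := d)
    (aK := fun i I => (F i).coeff I) ht halg hc hm hmd hs0
  refine ⟨C, ?_⟩
  intro L _ _ _ _ _ _ _ x hx T hT
  let iX : Algebra (Polynomial κ) L :=
    ((algebraMap K L).comp (algebraMap (Polynomial κ) K)).toAlgebra
  let iK : Algebra (RatFunc κ) L := ((algebraMap K L).comp (algebraMap (RatFunc κ) K)).toAlgebra
  let iR : Algebra (Rinf κ) L := ((algebraMap K L).comp (algebraMap (Rinf κ) K)).toAlgebra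
  have t1 : IsScalarTower (Polynomial κ) K L := IsScalarTower.of_algebraMap_eq' rfl
  have t2 : IsScalarTower (RatFunc κ) K L := IsScalarTower.of_algebraMap_eq' rfl
  have t3 : IsScalarTower (Rinf κ) K L := IsScalarTower.of_algebraMap_eq' rfl
  have t4 : IsScalarTower κ (Polynomial κ) L := IsScalarTower.of_algebraMap_eq fun u => by
    rw [IsScalarTower.algebraMap_apply κ K L, IsScalarTower.algebraMap_apply κ (Polynomial κ) K]
    rfl
  have t5 : IsScalarTower (Polynomial κ) (RatFunc κ) L := IsScalarTower.of_algebraMap_eq fun u => by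
    rw [IsScalarTower.algebraMap_apply (Polynomial κ) K L,
      IsScalarTower.algebraMap_apply (Polynomial κ) (RatFunc κ) K]
    rfl
  have t6 : IsScalarTower (Rinf κ) (RatFunc κ) L := IsScalarTower.of_algebraMap_eq fun u => by
    rw [IsScalarTower.algebraMap_apply (Rinf κ) K L,
      IsScalarTower.algebraMap_apply (Rinf κ) (RatFunc κ) K]
    rfl
  have hfin : FiniteDimensional (RatFunc κ) L := FiniteDimensional.trans (RatFunc κ) K L
  have hyv : ∀ i, yv d (fun i I => algebraMap K L ((F i).coeff I)) x i =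
      MvPolynomial.aeval x (F i) := fun i => (aeval_eq_Fval (F i) (hF i) x).symm
  let GP : Set (MvPolynomial (Fin (n + 1)) L) := {G' | G'.IsHomogeneous m ∧
      MvPolynomial.eval x G' = 0 ∧ polyHeight κ G' ≤ (mu κ m x : ℤ)}
  let φ : MvPolynomial (Fin (n + 1)) L →ₗ[L] (Expo n → L) :=
    { toFun := fun G I => G.coeff I
      map_add' := fun G G' => by funext I; exact MvPolynomial.coeff_add I G G'
      map_smul' := fun c G => by funext I; exact MvPolynomial.coeff_smul I c G }
  have hφ : ∀ G I, φ G I = G.coeff I := fun G I => rfl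
  obtain ⟨h0, h1⟩ := hC L x hx T (mu κ m x) hT (φ '' GP)
    (by
      rintro _ ⟨G, ⟨hG1, hG2, -⟩, rfl⟩
      rw [← hG2, eval_eq_Fval G hG1]
      rfl)
    (by
      rintro _ ⟨G, ⟨hG1, -, hG3⟩, rfl⟩
      refine le_trans (le_of_eq ?_) hG3
      unfold polyHeight
      refine finsum_congr fun v => ?_
      rw [← sup_support_eq v.1 hG1]
      rfl)
    (by
      intro G hG
      have h2 := mu_spec (κ := κ) x hx hm (toPoly_homog m G) (by rw [toPoly_eval, hG])
      refine ⟨φ (toPoly m G), ?_, fun I hI => ?_⟩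
      · rw [← Submodule.map_span]
        exact Submodule.mem_map_of_mem h2
      · rw [hφ, toPoly_coeff m G hI])
  -- comparison of the counting functions
  have htr : {w : Place κ L | (∀ v ∈ S, ¬ (w.1.comap (algebraMap K L)).IsEquiv v.1) ∧
      ∃ i, MvPolynomial.aeval x (F i) ≠ 0 ∧
        w.1 (MvPolynomial.aeval x (F i)) < vmax w.1 x ^ d i}.Finite := by
    have hfin : ((⋃ j ∈ Finset.univ.filter (fun j => MvPolynomial.aeval x (F j) ≠ 0),
        {v : Place κ L | v.1 (MvPolynomial.aeval x (F j)) ≠ 1}) ∪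
        {v : Place κ L | vmax v.1 x ≠ 1}).Finite := by
      refine Set.Finite.union (Set.Finite.biUnion (Finset.finite_toSet _) fun j hj => ?_)
        (vmax_finite hx)
      have hj' : MvPolynomial.aeval x (F j) ≠ 0 :=
        (Finset.mem_filter.mp (Finset.mem_coe.mp hj)).2
      exact place_finite hj'
    refine hfin.subset fun v hv => ?_
    obtain ⟨-, j, hj, hlt⟩ := hv
    by_contra hcon
    simp only [Set.mem_union, Set.mem_iUnion, not_or, not_exists, Finset.mem_filter] at hcon
    obtain ⟨hc1, hc2⟩ := hcon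
    have h1 : v.1 (MvPolynomial.aeval x (F j)) = 1 := by
      by_contra h2
      exact hc1 j ⟨Finset.mem_univ _, hj⟩ h2
    have h2 : vmax v.1 x = 1 := by
      by_contra h3
      exact hc2 h3
    rw [h2, one_pow] at hlt
    exact absurd h1 hlt.ne
  have hsub : truncSet (κ := κ) d (fun i I => (F i).coeff I) s x ⊆
      {w : Place κ L | (∀ v ∈ S, ¬ (w.1.comap (algebraMap K L)).IsEquiv v.1) ∧
      ∃ i, MvPolynomial.aeval x (F i) ≠ 0 ∧
        w.1 (MvPolynomial.aeval x (F i)) < vmax w.1 x ^ d i} := by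
    rintro w ⟨hw1, j, hj1, hj2⟩
    refine ⟨fun v hv hequiv => ?_, j, ?_, ?_⟩
    · refine hs v hv ?_
      exact (hequiv.eq_one_iff_eq_one).mp hw1
    · rw [← hyv]; exact hj1
    · rw [← hyv]; exact hj2
  have hN : ((truncSet (κ := κ) d (fun i I => (F i).coeff I) s x).ncard : ℤ) ≤
      (truncCount κ F d S x : ℤ) := by
    exact_mod_cast Set.ncard_le_ncard hsub htr
  have hq : Nat.card {i // yv d (fun i I => algebraMap K L ((F i).coeff I)) x i = 0} =
      Nat.card {i // MvPolynomial.aeval x (F i) = 0} := by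
    simp only [hyv]
  rw [hq] at h0 h1
  refine ⟨h0, ?_, mu_le x hx hm⟩
  push_cast at h1 ⊢
  linarith

end Main

end Pool.Agent.Lib.MP_44a246_nt
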