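import Mathlib
import Pool.Agent.Lib.MP_44a246_nt.Core
import Pool.Agent.Lib.MP_44a246_nt.Trdeg

/-!
Primitive elements with constant coefficients and their heights.
-/

namespace Pool.Agent.Lib.MP_44a246_nt

open Pool.Agent.Lib.MP_e52354_nt WithZero

section Prim

variable {κ K L : Type*} [Field κ] [CharZero κ] [Field K] [Field L] [Algebra κ L] [Algebra κ K]
  [Algebra K L] [IsScalarTower κ K L] [FiniteDimensional K L] {n : ℕ}

/-- the field of a point is generated by a constant combination of the ratios of coordinates -/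
theorem exists_prim {x : Fin (n + 1) → L} {l : Fin (n + 1)} (hl : x l ≠ 0)
    (h : pointField K x = ⊤) :
    ∃ c : Fin (n + 1) → κ,
      IntermediateField.adjoin K {∑ k, algebraMap κ L (c k) * (x k / x l)} = ⊤ := by
  classical
  have : CharZero K := charZero_of_injective_algebraMap (algebraMap κ K).injective
  let A := AlgebraicClosure L
  have hA : ∀ y : L, ((minpoly K y).map (algebraMap K A)).Splits := fun y => IsAlgClosed.splits _
  let g : (Fin (n + 1) → κ) →ₗ[κ] L :=
    ∑ k, (LinearMap.proj k : (Fin (n + 1) → κ) →ₗ[κ] κ).smulRight (x k / x l)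
  have hg : ∀ c, g c = ∑ k, algebraMap κ L (c k) * (x k / x l) := by
    intro c
    simp [g, LinearMap.sum_apply, Algebra.smul_def]
  let f : (L →ₐ[K] A) → ((Fin (n + 1) → κ) →ₗ[κ] A) := fun φ =>
    (φ.toLinearMap.restrictScalars κ).comp g
  let p : {q : (L →ₐ[K] A) × (L →ₐ[K] A) // q.1 ≠ q.2} → Subspace κ (Fin (n + 1) → κ) :=
    fun q => LinearMap.eqLocus (f q.1.1) (f q.1.2)
  have hp : ∀ q, p q ≠ ⊤ := by
    rintro ⟨⟨φ, ψ⟩, hne⟩ htop
    apply hne
    have h1 : ∀ k, φ (x k / x l) = ψ (x k / x l) := by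
      intro k
      have h2 : Pi.single k (1 : κ) ∈ p ⟨(φ, ψ), hne⟩ := by rw [htop]; trivial
      have h3 : φ (g (Pi.single k 1)) = ψ (g (Pi.single k 1)) := h2
      have h4 : g (Pi.single k 1) = x k / x l := by
        rw [hg, Finset.sum_eq_single k]
        · rw [Pi.single_eq_same, map_one, one_mul]
        · intro j _ hj
          rw [Pi.single_eq_of_ne hj, map_zero, zero_mul]
        · intro hk
          exact absurd (Finset.mem_univ k) hk
      rwa [h4] at h3
    have h2 : ∀ y ∈ pointField K x, φ y = ψ y := by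
      intro y hy
      induction hy using IntermediateField.adjoin_induction with
      | mem y hy =>
        obtain ⟨i, j, rfl⟩ := hy
        have h5 : x i / x j = (x i / x l) / (x j / x l) := by
          rw [div_div_div_cancel_right₀ hl]
        rw [h5, map_div₀ φ (x i / x l) (x j / x l), map_div₀ ψ (x i / x l) (x j / x l), h1, h1]
      | algebraMap c => rw [AlgHom.commutes, AlgHom.commutes]
      | add a b _ _ ha hb => rw [map_add, map_add, ha, hb]
      | inv a _ ha => rw [map_inv₀, map_inv₀, ha]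
      | mul a b _ _ ha hb => rw [map_mul, map_mul, ha, hb]
    refine AlgHom.ext fun y => h2 y ?_
    rw [h]
    trivial
  have hcov : ¬ (⋃ q, (p q : Set (Fin (n + 1) → κ))) = Set.univ := by
    intro hcon
    obtain ⟨q, hq⟩ := Subspace.exists_eq_top_of_iUnion_eq_univ hcon
    exact hp q hq
  obtain ⟨c, hc⟩ := (Set.ne_univ_iff_exists_notMem _).mp hcov
  refine ⟨c, ?_⟩
  rw [Field.primitive_element_iff_algHom_eq_of_eval' K A hA]
  intro φ ψ hφψ
  by_contra hne
  apply hc
  rw [Set.mem_iUnion]
  refine ⟨⟨(φ, ψ), hne⟩, ?_⟩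
  show φ (g c) = ψ (g c)
  rw [hg]
  exact hφψ

end Prim

section Height

variable {κ L : Type*} [Field κ] [IsAlgClosed κ] [CharZero κ] [Field L] [Algebra κ L]
  [Algebra (Polynomial κ) L] [IsScalarTower κ (Polynomial κ) L]
  [Algebra (RatFunc κ) L] [IsScalarTower (Polynomial κ) (RatFunc κ) L]
  [Algebra (Rinf κ) L] [IsScalarTower (Rinf κ) (RatFunc κ) L]
  [FiniteDimensional (RatFunc κ) L] {n : ℕ}

theorem height_comb_le {x : Fin (n + 1) → L} {l : Fin (n + 1)} (hl : x l ≠ 0)
    (c : Fin (n + 1) → κ) :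
    height κ ![1, ∑ k, algebraMap κ L (c k) * (x k / x l)] ≤ height κ x := by
  classical
  set α : L := ∑ k, algebraMap κ L (c k) * (x k / x l) with hα
  have hx : x ≠ 0 := fun h => hl (by rw [h]; rfl)
  have hy : (![1, α] : Fin 2 → L) ≠ 0 := fun h => one_ne_zero (congrFun h 0)
  have h0 : ∑ᶠ v : Place κ L, log (v.1 (x l)) = 0 := product_formula hl
  let P : Finset (Place κ L) := (place_finite hl).toFinset ∪
    ((vmax_finite hx).toFinset ∪ (vmax_finite hy).toFinset)
  have hs0 : Function.support (fun v : Place κ L => log (v.1 (x l))) ⊆ (P : Set (Place κ L)) := by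
    intro v hv
    rw [Finset.coe_union, Set.mem_union]
    left
    rw [Set.Finite.coe_toFinset]
    intro h2
    apply hv
    simp only
    rw [h2, log_one]
  have hs1 : Function.support (fun v : Place κ L => log (vmax v.1 x)) ⊆ (P : Set (Place κ L)) := by
    intro v hv
    rw [Finset.coe_union, Set.mem_union]
    right
    rw [Finset.coe_union, Set.mem_union]
    left
    rw [Set.Finite.coe_toFinset]
    intro h2
    apply hv
    simp only
    rw [h2, log_one]
  have hs2 : Function.support (fun v : Place κ L => log (vmax v.1 ![1, α])) ⊆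
      (P : Set (Place κ L)) := by
    intro v hv
    rw [Finset.coe_union, Set.mem_union]
    right
    rw [Finset.coe_union, Set.mem_union]
    right
    rw [Set.Finite.coe_toFinset]
    intro h2
    apply hv
    simp only
    rw [h2, log_one]
  rw [finsum_eq_sum_of_support_subset _ hs0] at h0
  have h1 : height κ ![1, α] = ∑ v ∈ P, (log (vmax v.1 ![1, α]) + log (v.1 (x l))) := by
    rw [Finset.sum_add_distrib, h0, add_zero, height, finsum_eq_sum_of_support_subset _ hs2]
  rw [h1, height, finsum_eq_sum_of_support_subset _ hs1]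
  refine Finset.sum_le_sum fun v _ => ?_
  have hvl : v.1 (x l) ≠ 0 := (Valuation.ne_zero_iff v.1).mpr hl
  have hvl' : v.1 (x l) ≤ vmax v.1 x :=
    Finset.le_sup (f := fun k => v.1 (x k)) (Finset.mem_univ l)
  have hvx : vmax v.1 x ≠ 0 := fun h0 => hvl (le_zero_iff.mp (h0 ▸ hvl'))
  have hvm0 : vmax v.1 ![1, α] ≠ 0 := by
    have h2 : v.1 ((![1, α] : Fin 2 → L) 0) ≤ vmax v.1 ![1, α] :=
      Finset.le_sup (f := fun k => v.1 ((![1, α] : Fin 2 → L) k)) (Finset.mem_univ 0)
    intro h3
    rw [h3] at h2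
    simp at h2
  rw [← log_mul hvm0 hvl]
  refine (log_le_log (mul_ne_zero hvm0 hvl) hvx).mpr ?_
  -- `vmax ![1, α] * v (x l) ≤ vmax x`
  have h5 : v.1 α * v.1 (x l) ≤ vmax v.1 x := by
    rw [← map_mul, hα, Finset.sum_mul]
    refine Valuation.map_sum_le v.1 fun k _ => ?_
    have h6 : algebraMap κ L (c k) * (x k / x l) * x l = algebraMap κ L (c k) * x k := by
      rw [mul_assoc, div_mul_cancel₀ _ hl]
    rw [h6, map_mul]
    have h7 : v.1 (algebraMap κ L (c k)) ≤ 1 := by
      by_cases hc : c k = 0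
      · rw [hc, map_zero, map_zero]; exact zero_le_one
      · exact (v.2.2 (c k) hc).le
    calc v.1 (algebraMap κ L (c k)) * v.1 (x k) ≤ 1 * v.1 (x k) := mul_le_mul_left h7 _
      _ = v.1 (x k) := one_mul _
      _ ≤ vmax v.1 x := Finset.le_sup (f := fun k => v.1 (x k)) (Finset.mem_univ k)
  have h8 : vmax v.1 ![1, α] = max 1 (v.1 α) := by
    apply le_antisymm
    · refine Finset.sup_le fun i _ => ?_
      fin_cases i
      · simp
      · simp
    · refine max_le ?_ ?_
      · have h := Finset.le_sup (f := fun k => v.1 ((![1, α] : Fin 2 → L) k)) (Finset.mem_univ 0)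
        calc (1 : ℤᵐ⁰) = v.1 ((![1, α] : Fin 2 → L) 0) := by simp
          _ ≤ vmax v.1 ![1, α] := h
      · exact Finset.le_sup (f := fun k => v.1 ((![1, α] : Fin 2 → L) k)) (Finset.mem_univ 1)
  rw [h8]
  rcases le_total (v.1 α) 1 with h9 | h9
  · rw [max_eq_left h9, one_mul]
    exact hvl'
  · rw [max_eq_right h9]
    exact h5

end Height

end Pool.Agent.Lib.MP_44a246_nt
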