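import Mathlib

/-!
Surjective discrete valuations and height one primes; the local norm formula.
-/

namespace Pool.Agent.Lib.MP_44a246_nt

open WithZero IsDedekindDomain

section Eq

variable {K : Type*} [Field K]

/-- two normalised discrete valuations with nested valuation rings are equal -/
theorem val_eq_of_le_one {v w : Valuation K ℤᵐ⁰} (hv : Function.Surjective v)
    (hw : Function.Surjective w) (h : ∀ x, v x ≤ 1 → w x ≤ 1) : v = w := by
  have h1 : ∀ x, v x = 1 → w x = 1 := by
    intro x hx
    have hx0 : x ≠ 0 := by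
      rintro rfl
      rw [map_zero] at hx
      exact zero_ne_one hx
    refine le_antisymm (h x hx.le) ?_
    have h2 := h x⁻¹ (by rw [map_inv₀, hx, inv_one])
    rw [map_inv₀] at h2
    exact (inv_le_one₀ (zero_lt_iff.mpr ((Valuation.ne_zero_iff w).mpr hx0))).mp h2
  obtain ⟨π, hπ⟩ := hv (exp (-1 : ℤ))
  have hπ0 : π ≠ 0 := by
    rintro rfl
    rw [map_zero] at hπ
    exact exp_ne_zero hπ.symm
  have hwπ0 : w π ≠ 0 := (Valuation.ne_zero_iff w).mpr hπ0
  have h2 : ∀ x, x ≠ 0 → w x = w π ^ (- log (v x)) := by
    intro x hx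
    have hvx : v x ≠ 0 := (Valuation.ne_zero_iff v).mpr hx
    have h3 : w (x * π ^ log (v x)) = 1 := by
      apply h1
      rw [map_mul, map_zpow₀, hπ, ← exp_zsmul]
      conv_lhs => rw [← exp_log hvx]
      rw [← exp_add, ← exp_zero]
      congr 1
      simp
    rw [map_mul, map_zpow₀] at h3
    rw [zpow_neg]
    exact eq_inv_of_mul_eq_one_left h3
  have h3 : w π = exp (-1 : ℤ) := by
    have h4 : w π ≤ 1 := h π (by rw [hπ, ← exp_zero, exp_le_exp]; omega)
    have h5 : log (w π) ≤ 0 := by
      rw [← log_one]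
      exact (log_le_log hwπ0 one_ne_zero).mpr h4
    obtain ⟨y, hy⟩ := hw (exp (1 : ℤ))
    have hy0 : y ≠ 0 := by
      rintro rfl
      rw [map_zero] at hy
      exact exp_ne_zero hy.symm
    have h6 := h2 y hy0
    rw [hy] at h6
    have h7 := congrArg log h6
    rw [log_exp, log_zpow, smul_eq_mul] at h7
    have h8 : log (w π) = -1 := by
      have h9 : IsUnit (log (w π)) := IsUnit.of_mul_eq_one_right (- log (v y)) (by linarith)
      rcases Int.isUnit_iff.mp h9 with h9 | h9 <;> omega
    rw [← exp_log hwπ0, h8]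
  ext x
  by_cases hx : x = 0
  · rw [hx, map_zero, map_zero]
  · have hvx : v x ≠ 0 := (Valuation.ne_zero_iff v).mpr hx
    rw [h2 x hx, h3, ← exp_zsmul]
    conv_lhs => rw [← exp_log hvx]
    congr 1
    simp

end Eq

section Dedekind

variable {B L : Type*} [CommRing B] [IsDedekindDomain B] [Field L] [Algebra B L]
  [IsFractionRing B L]

/-- a normalised discrete valuation which is nonnegative on a Dedekind domain with the same field
of fractions is the valuation of a height one prime -/
theorem exists_heightOne {w : Valuation L ℤᵐ⁰} (hw : Function.Surjective w)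
    (h : ∀ b : B, w (algebraMap B L b) ≤ 1) : ∃ P : HeightOneSpectrum B, P.valuation L = w := by
  let I : Ideal B :=
    { carrier := {b | w (algebraMap B L b) < 1}
      add_mem' := by
        intro a b ha hb
        simp only [Set.mem_ofPred_eq, map_add] at *
        exact lt_of_le_of_lt (w.map_add _ _) (max_lt ha hb)
      zero_mem' := by simp
      smul_mem' := by
        intro c x hx
        simp only [Set.mem_ofPred_eq, smul_eq_mul, map_mul] at *
        exact lt_of_le_of_lt (mul_le_of_le_one_left' (h c)) hx }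
  have hI : ∀ b, b ∈ I ↔ w (algebraMap B L b) < 1 := fun b => Iff.rfl
  have hprime : I.IsPrime := by
    refine ⟨?_, ?_⟩
    · rw [Ideal.ne_top_iff_one, hI, map_one, map_one]
      exact lt_irrefl _
    · intro x y hxy
      by_contra hcon
      push Not at hcon
      rw [hI, hI] at hcon
      rw [hI, map_mul, map_mul] at hxy
      have h1 := le_antisymm (h x) (not_lt.mp hcon.1)
      have h2 := le_antisymm (h y) (not_lt.mp hcon.2)
      rw [h1, h2, one_mul] at hxy
      exact lt_irrefl _ hxy
  have hbot : I ≠ ⊥ := by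
    intro h0
    have h1 : ∀ b : B, b ≠ 0 → w (algebraMap B L b) = 1 := by
      intro b hb
      refine le_antisymm (h b) (not_lt.mp fun hlt => hb ?_)
      have : b ∈ I := hlt
      rwa [h0, Ideal.mem_bot] at this
    obtain ⟨y, hy⟩ := hw (exp (1 : ℤ))
    obtain ⟨a, b, hb, rfl⟩ := IsFractionRing.div_surjective (A := B) y
    have hb0 : b ≠ 0 := nonZeroDivisors.ne_zero hb
    have ha0 : a ≠ 0 := by
      rintro rfl
      rw [map_zero, zero_div, map_zero] at hy
      exact exp_ne_zero hy.symm
    rw [map_div₀, h1 a ha0, h1 b hb0, div_one, ← exp_zero, exp_inj] at hy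
    omega
  let P : HeightOneSpectrum B := ⟨I, hprime, hbot⟩
  refine ⟨P, val_eq_of_le_one (P.valuation_surjective L) hw fun x hx => ?_⟩
  obtain ⟨n, d, hnd⟩ := P.exists_primeCompl_mul_eq_of_integer x hx
  have h1 : w (algebraMap B L d) = 1 := by
    refine le_antisymm (h _) (not_lt.mp fun hlt => ?_)
    exact d.2 hlt
  have h2 := congrArg w hnd
  rw [map_mul, h1, mul_one] at h2
  rw [h2]
  exact h n

end Dedekind

section Count

variable {B : Type*} [CommRing B] [IsDedekindDomain B]

/-- the exponent of a height one prime in an ideal -/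
noncomputable def cnt (P : HeightOneSpectrum B) (I : Ideal B) : ℕ :=
  (Associates.mk P.asIdeal).count (Associates.mk I).factors

theorem cnt_mul (P : HeightOneSpectrum B) {I J : Ideal B} (hI : I ≠ ⊥) (hJ : J ≠ ⊥) :
    cnt P (I * J) = cnt P I + cnt P J := by
  unfold cnt
  rw [← Associates.mk_mul_mk, Associates.count_mul (Associates.mk_ne_zero.mpr hI)
    (Associates.mk_ne_zero.mpr hJ) P.associates_irreducible]

theorem cnt_one (P : HeightOneSpectrum B) : cnt P 1 = 0 := by
  unfold cnt
  rw [Associates.mk_one, Associates.factors_one,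
    Associates.count_zero P.associates_irreducible]

theorem cnt_self (P : HeightOneSpectrum B) : cnt P P.asIdeal = 1 := by
  unfold cnt
  exact Associates.count_self P.associates_irreducible

theorem cnt_of_ne {P Q : HeightOneSpectrum B} (h : P ≠ Q) : cnt P Q.asIdeal = 0 := by
  unfold cnt
  exact Associates.count_eq_zero_of_ne P.associates_irreducible Q.associates_irreducible
    (fun h' => h (HeightOneSpectrum.ext (associated_iff_eq.mp (Associates.mk_eq_mk_iff_associated.mp h'))))

theorem cnt_pow (P : HeightOneSpectrum B) {I : Ideal B} (hI : I ≠ ⊥) (n : ℕ) :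
    cnt P (I ^ n) = n * cnt P I := by
  unfold cnt
  rw [Associates.mk_pow, Associates.count_pow (Associates.mk_ne_zero.mpr hI)
    P.associates_irreducible]

theorem log_valuation {L : Type*} [Field L] [Algebra B L] [IsFractionRing B L]
    (P : HeightOneSpectrum B) {b : B} (hb : b ≠ 0) :
    log (P.valuation L (algebraMap B L b)) = - (cnt P (Ideal.span {b}) : ℤ) := by
  rw [P.valuation_of_algebraMap, P.intValuation_if_neg hb, log_exp]
  rfl

end Count

section LocalNorm

variable {A K B L : Type*} [CommRing A] [IsDedekindDomain A] [IsLocalRing A]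
  [Field K] [Algebra A K]
  [IsFractionRing A K] [Field L] [Algebra K L] [Algebra A L] [IsScalarTower A K L]
  [FiniteDimensional K L] [Algebra.IsSeparable K L] [CommRing B] [IsDedekindDomain B]
  [Algebra A B] [Algebra B L] [IsScalarTower A B L] [IsFractionRing B L] [IsIntegralClosure B A L]
  [Module.Finite A B] [Module.IsTorsionFree A B] [CharZero A]

theorem asIdeal_eq_max (p : HeightOneSpectrum A) : p.asIdeal = IsLocalRing.maximalIdeal A := 
  IsLocalRing.eq_maximalIdeal p.isMaximal

theorem liesOver_max (p : HeightOneSpectrum A) (P : HeightOneSpectrum B) :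
    P.asIdeal.LiesOver p.asIdeal := by
  refine ⟨?_⟩
  have h1 : (P.asIdeal.under A).IsPrime := inferInstance
  have h2 : P.asIdeal.under A ≠ ⊥ := by
    exact Ideal.IsIntegral.comap_ne_bot _ P.ne_bot
  have := asIdeal_eq_max (A := A) ⟨P.asIdeal.under A, h1, h2⟩
  rw [asIdeal_eq_max p]
  exact this.symm

theorem finite_heightOne (p : HeightOneSpectrum A) : Finite (HeightOneSpectrum B) := by
  have h1 : (p.asIdeal.primesOver B).Finite := _root_.primesOver_finite p.asIdeal B
  have := h1.to_subtype
  refine Finite.of_injective (fun P : HeightOneSpectrum B =>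
    (⟨P.asIdeal, P.isPrime, liesOver_max p P⟩ : p.asIdeal.primesOver B)) ?_
  intro P Q h
  exact HeightOneSpectrum.ext (congrArg Subtype.val h)

theorem cnt_relNorm [Fintype (HeightOneSpectrum B)] (p : HeightOneSpectrum A) {I : Ideal B} (hI : I ≠ ⊥) :
    cnt p (Ideal.relNorm A I) = ∑ P : HeightOneSpectrum B, P.asIdeal.inertiaDeg A * cnt P I := by
  classical
  have : CharZero (FractionRing A) :=
    charZero_of_injective_algebraMap (R := A) (IsFractionRing.injective A _)
  revert hI
  refine UniqueFactorizationMonoid.induction_on_prime I ?_ ?_ ?_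
  · intro h; exact absurd rfl h
  · intro J hJ _
    rw [Ideal.isUnit_iff] at hJ
    rw [hJ, Ideal.relNorm_top, ← Ideal.one_eq_top, ← Ideal.one_eq_top, cnt_one]
    simp only [cnt_one, mul_zero, Finset.sum_const_zero]
  · intro J Q hJ hQ ih _
    have hQ0 : Q ≠ ⊥ := hQ.ne_zero
    let Q' : HeightOneSpectrum B := ⟨Q, Ideal.isPrime_of_prime hQ, hQ0⟩
    have hlies : Q.LiesOver p.asIdeal := liesOver_max p Q'
    have : Q.IsMaximal := Q'.isMaximal
    have : p.asIdeal.IsMaximal := p.isMaximal
    have hrel : Ideal.relNorm A Q = p.asIdeal ^ Q.inertiaDeg A :=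
      Ideal.relNorm_eq_pow_of_isMaximal Q p.asIdeal
    rw [map_mul, cnt_mul, ih hJ, hrel, cnt_pow p p.ne_bot, cnt_self, mul_one]
    · have : ∀ P : HeightOneSpectrum B, cnt P (Q * J) = cnt P Q + cnt P J := fun P => cnt_mul P hQ0 hJ
      simp only [this, mul_add, Finset.sum_add_distrib]
      congr 1
      rw [Finset.sum_eq_single Q']
      · show Q.inertiaDeg A = Q.inertiaDeg A * cnt Q' Q'.asIdeal
        rw [cnt_self, mul_one]
      · intro P _ hP
        show _ * cnt P Q'.asIdeal = 0
        rw [cnt_of_ne hP, mul_zero]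
      · intro h; exact absurd (Finset.mem_univ _) h
    · rw [hrel]; exact pow_ne_zero _ p.ne_bot
    · rw [ne_eq, Ideal.relNorm_eq_bot_iff]; exact hJ

theorem local_norm [Fintype (HeightOneSpectrum B)] (p : HeightOneSpectrum A) {y : L} (hy : y ≠ 0) :
    log (p.valuation K (Algebra.norm K y)) =
      ∑ P : HeightOneSpectrum B, (P.asIdeal.inertiaDeg A : ℤ) * log (P.valuation L y) := by
  have key : ∀ b : B, b ≠ 0 → log (p.valuation K (Algebra.norm K (algebraMap B L b))) =
      ∑ P : HeightOneSpectrum B, (P.asIdeal.inertiaDeg A : ℤ) * log (P.valuation L (algebraMap B L b)) := by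
    intro b hb
    have hb' : Ideal.span {b} ≠ (⊥ : Ideal B) := by rwa [ne_eq, Ideal.span_singleton_eq_bot]
    have h1 := cnt_relNorm p hb'
    rw [Ideal.relNorm_singleton] at h1
    have h2 : Algebra.intNorm A B b ≠ 0 := by
      intro h0
      have h3 : Ideal.relNorm A (Ideal.span {b}) = ⊥ := by
        rw [Ideal.relNorm_singleton, h0, Ideal.span_singleton_eq_bot]
      exact hb' (Ideal.relNorm_eq_bot_iff.mp h3)
    rw [← Algebra.algebraMap_intNorm (A := A) (K := K) (L := L) b, log_valuation p h2, h1]
    push_cast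
    rw [← Finset.sum_neg_distrib]
    refine Finset.sum_congr rfl fun P _ => ?_
    rw [log_valuation P hb]
    ring
  obtain ⟨a, b, hb, rfl⟩ := IsFractionRing.div_surjective (A := B) y
  have hb0 : b ≠ 0 := nonZeroDivisors.ne_zero hb
  have ha0 : a ≠ 0 := by
    rintro rfl
    rw [map_zero, zero_div] at hy
    exact hy rfl
  have ha1 : algebraMap B L a ≠ 0 := by rwa [ne_eq, FaithfulSMul.algebraMap_eq_zero_iff]
  have hb1 : algebraMap B L b ≠ 0 := by rwa [ne_eq, FaithfulSMul.algebraMap_eq_zero_iff]
  have ha2 : Algebra.norm K (algebraMap B L a) ≠ 0 := Algebra.norm_ne_zero_iff.mpr ha1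
  have hb2 : Algebra.norm K (algebraMap B L b) ≠ 0 := Algebra.norm_ne_zero_iff.mpr hb1
  have hdiv : Algebra.norm K (algebraMap B L a / algebraMap B L b) =
      Algebra.norm K (algebraMap B L a) / Algebra.norm K (algebraMap B L b) :=
    eq_div_of_mul_eq hb2 (by rw [← map_mul, div_mul_cancel₀ _ hb1])
  rw [hdiv, map_div₀, log_div ((Valuation.ne_zero_iff _).mpr ha2)
    ((Valuation.ne_zero_iff _).mpr hb2), key a ha0, key b hb0, ← Finset.sum_sub_distrib]
  refine Finset.sum_congr rfl fun P _ => ?_
  rw [map_div₀, log_div ((Valuation.ne_zero_iff _).mpr ha1) ((Valuation.ne_zero_iff _).mpr hb1)]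
  ring

open Polynomial in
/-- the different bound at one place -/
theorem local_diff (p : HeightOneSpectrum A) (P : HeightOneSpectrum B) {e : ℕ}
    (he : ∀ x : K, P.valuation L (algebraMap K L x) = p.valuation K x ^ e) {β : L}
    (hβ : IsIntegral A β) (hgen : Algebra.adjoin K {β} = ⊤) :
    P.valuation L (aeval β (derivative (minpoly K β))) ≤ exp (-((e - 1 : ℕ) : ℤ)) := by
  obtain ⟨x, rfl⟩ : ∃ x : B, algebraMap B L x = β := (IsIntegralClosure.isIntegral_iff (A := B)).mp hβ
  have hx : IsIntegral A x := IsIntegralClosure.isIntegral A L x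
  have hmem := aeval_derivative_mem_differentIdeal A K L x hgen
  have hdvd : P.asIdeal ^ (e - 1) ∣ differentIdeal A B := by
    by_cases he0 : e = 0
    · rw [he0]; simp
    have : p.asIdeal.IsMaximal := p.isMaximal
    refine pow_sub_one_dvd_differentIdeal_aux A K L P.asIdeal he0 p.ne_bot ?_
    rw [Ideal.dvd_iff_le, Ideal.map_le_iff_le_comap]
    intro a ha
    rw [Ideal.mem_comap, ← P.intValuation_le_pow_iff_mem, ← P.valuation_of_algebraMap (K := L)]
    change P.valuation L (algebraMap B L (algebraMap A B a)) ≤ _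
    rw [← IsScalarTower.algebraMap_apply, IsScalarTower.algebraMap_apply A K L, he]
    have h1 : p.valuation K (algebraMap A K a) ≤ exp (-1 : ℤ) := by
      rw [p.valuation_of_algebraMap]
      have := (p.intValuation_le_pow_iff_mem a 1).mpr (by rwa [pow_one])
      simpa using this
    calc p.valuation K (algebraMap A K a) ^ e ≤ exp (-1 : ℤ) ^ e := pow_le_pow_left' h1 e
      _ = exp (-(e : ℤ)) := by rw [← exp_nsmul]; congr 1; simp
  have h2 : aeval x (derivative (minpoly A x)) ∈ P.asIdeal ^ (e - 1) :=
    (Ideal.dvd_iff_le.mp hdvd) hmem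
  rw [← P.intValuation_le_pow_iff_mem, ← P.valuation_of_algebraMap (K := L)] at h2
  change P.valuation L (algebraMap B L _) ≤ _ at h2
  have h3 : algebraMap B L (aeval x (derivative (minpoly A x))) =
      aeval (algebraMap B L x) (derivative (minpoly K (algebraMap B L x))) := by
    rw [minpoly.isIntegrallyClosed_eq_field_fractions K L hx, derivative_map, aeval_map_algebraMap,
      aeval_algebraMap_apply]
  rwa [h3] at h2

end LocalNorm

end Pool.Agent.Lib.MP_44a246_nt
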