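import Mathlib
import Pool.Agent.Lib.MP_44a246_nt.Val
import Pool.Agent.Lib.MP_44a246_nt.Ram

/-!
Places of a finite extension `L / K` above a place of `K`: the local norm formula, the different
bound.
-/

namespace Pool.Agent.Lib.MP_44a246_nt

open WithZero IsDedekindDomain Polynomial
open Pool.Agent.Lib.MP_e52354_nt

section Below

variable {K L : Type*} [Field K] [Field L] [Algebra K L] [Algebra.IsAlgebraic K L]

theorem ramIdx_dvd (w : Valuation L ℤᵐ⁰) (hw : Function.Surjective w) {x : K} (hx : x ≠ 0) :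
    (ramIdx K w : ℤ) ∣ log (w (algebraMap K L x)) := by
  obtain ⟨s, hs⟩ := exists_ramIdx (K := K) w hw
  have he := one_le_ramIdx (K := K) w hw
  set e := ramIdx K w with hedef
  have hs0 : s ≠ 0 := by
    rintro rfl
    rw [map_zero, map_zero] at hs
    exact exp_ne_zero hs.symm
  have hx' : algebraMap K L x ≠ 0 := (_root_.map_ne_zero _).mpr hx
  have hs' : algebraMap K L s ≠ 0 := (_root_.map_ne_zero _).mpr hs0
  have hwx : w (algebraMap K L x) ≠ 0 := (Valuation.ne_zero_iff w).mpr hx'
  by_contra hcon
  have hr := Int.emod_nonneg (log (w (algebraMap K L x))) (b := (e : ℤ)) (by omega)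
  have hr2 := Int.emod_lt_of_pos (log (w (algebraMap K L x))) (b := (e : ℤ)) (by omega)
  have hr3 : log (w (algebraMap K L x)) % (e : ℤ) ≠ 0 := fun h => hcon (Int.dvd_of_emod_eq_zero h)
  have hdm := Int.mul_ediv_add_emod (log (w (algebraMap K L x))) (e : ℤ)
  set q := log (w (algebraMap K L x)) / (e : ℤ)
  set r := log (w (algebraMap K L x)) % (e : ℤ)
  have hmem : r.toNat ∈ {m : ℕ | 0 < m ∧ ∃ s : K, w (algebraMap K L s) = exp (-(m : ℤ))} := by
    refine ⟨by omega, (x * s ^ q)⁻¹, ?_⟩
    rw [map_inv₀, map_inv₀, map_mul, map_mul, map_zpow₀, map_zpow₀, hs, ← exp_log hwx, ← exp_zsmul,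
      ← exp_add, ← exp_neg]
    congr 1
    rw [Int.toNat_of_nonneg hr, ← hdm, smul_eq_mul]
    ring
  have h1 : e ≤ r.toNat := Nat.sInf_le hmem
  omega

open Classical in
/-- the restriction of a normalised valuation to a subfield, normalised -/
noncomputable def belowVal (K : Type*) [Field K] [Algebra K L] [Algebra.IsAlgebraic K L]
    (w : Valuation L ℤᵐ⁰) (hw : Function.Surjective w) : Valuation K ℤᵐ⁰ where
  toFun x := if x = 0 then 0 else exp (log (w (algebraMap K L x)) / (ramIdx K w : ℤ))
  map_zero' := if_pos rfl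
  map_one' := by
    rw [if_neg one_ne_zero, map_one, map_one, log_one, Int.zero_ediv, exp_zero]
  map_mul' x y := by
    by_cases hx : x = 0
    · rw [if_pos hx, zero_mul, if_pos (by rw [hx, zero_mul])]
    by_cases hy : y = 0
    · rw [if_pos hy, mul_zero, if_pos (by rw [hy, mul_zero])]
    have hx' : w (algebraMap K L x) ≠ 0 :=
      (Valuation.ne_zero_iff w).mpr ((_root_.map_ne_zero _).mpr hx)
    have hy' : w (algebraMap K L y) ≠ 0 :=
      (Valuation.ne_zero_iff w).mpr ((_root_.map_ne_zero _).mpr hy)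
    rw [if_neg hx, if_neg hy, if_neg (mul_ne_zero hx hy), map_mul, map_mul, log_mul hx' hy',
      Int.add_ediv_of_dvd_left (ramIdx_dvd w hw hx), exp_add]
  map_add_le_max' x y := by
    by_cases hx : x = 0
    · rw [hx, zero_add, if_pos rfl]; exact le_max_right _ _
    by_cases hy : y = 0
    · rw [hy, add_zero, if_pos rfl]; exact le_max_left _ _
    by_cases hxy : x + y = 0
    · rw [if_pos hxy]; exact zero_le
    have hx' : w (algebraMap K L x) ≠ 0 :=
      (Valuation.ne_zero_iff w).mpr ((_root_.map_ne_zero _).mpr hx)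
    have hy' : w (algebraMap K L y) ≠ 0 :=
      (Valuation.ne_zero_iff w).mpr ((_root_.map_ne_zero _).mpr hy)
    have hxy' : w (algebraMap K L (x + y)) ≠ 0 :=
      (Valuation.ne_zero_iff w).mpr ((_root_.map_ne_zero _).mpr hxy)
    have he : 0 < (ramIdx K w : ℤ) := by
      have := one_le_ramIdx (K := K) w hw
      omega
    rw [if_neg hx, if_neg hy, if_neg hxy]
    have h1 := w.map_add (algebraMap K L x) (algebraMap K L y)
    rw [← map_add] at h1
    rcases le_max_iff.mp h1 with h2 | h2
    · refine le_max_of_le_left ?_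
      rw [exp_le_exp]
      exact Int.ediv_le_ediv he ((log_le_log hxy' hx').mpr h2)
    · refine le_max_of_le_right ?_
      rw [exp_le_exp]
      exact Int.ediv_le_ediv he ((log_le_log hxy' hy').mpr h2)

theorem belowVal_pow (w : Valuation L ℤᵐ⁰) (hw : Function.Surjective w) (x : K) :
    w (algebraMap K L x) = belowVal K w hw x ^ ramIdx K w := by
  classical
  have he := one_le_ramIdx (K := K) w hw
  by_cases hx : x = 0
  · rw [hx, map_zero, map_zero, map_zero, zero_pow (by omega)]
  have hx' : w (algebraMap K L x) ≠ 0 :=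
    (Valuation.ne_zero_iff w).mpr ((_root_.map_ne_zero _).mpr hx)
  have h1 : belowVal K w hw x = exp (log (w (algebraMap K L x)) / (ramIdx K w : ℤ)) := if_neg hx
  rw [h1, ← exp_nsmul]
  conv_lhs => rw [← exp_log hx']
  congr 1
  rw [nsmul_eq_mul, Int.mul_ediv_cancel' (ramIdx_dvd w hw hx)]

theorem belowVal_surjective (w : Valuation L ℤᵐ⁰) (hw : Function.Surjective w) :
    Function.Surjective (belowVal K w hw) := by
  have he := one_le_ramIdx (K := K) w hw
  obtain ⟨s, hs⟩ := exists_ramIdx (K := K) w hw
  rw [belowVal_pow w hw] at hs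
  have h1 : belowVal K w hw s = exp (-1 : ℤ) := by
    have h2 : exp (-(ramIdx K w : ℤ)) = exp (-1 : ℤ) ^ ramIdx K w := by
      rw [← exp_nsmul]; congr 1; simp
    rw [h2] at hs
    exact (pow_left_inj₀ zero_le zero_le (by omega)).mp hs
  intro g
  by_cases hg : g = 0
  · exact ⟨0, by rw [map_zero, hg]⟩
  · refine ⟨s ^ (- log g), ?_⟩
    rw [map_zpow₀, h1, ← exp_zsmul]
    conv_rhs => rw [← exp_log hg]
    congr 1
    simp

end Below

section PlaceBelow

variable {κ K L : Type*} [Field κ] [Field K] [Field L] [Algebra κ K] [Algebra κ L] [Algebra K L]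
  [IsScalarTower κ K L] [Algebra.IsAlgebraic K L]

/-- the place of `K` below a place of `L` -/
noncomputable def below (K : Type*) [Field K] [Algebra κ K] [Algebra K L] [IsScalarTower κ K L]
    [Algebra.IsAlgebraic K L] (w : Place κ L) : Place κ K :=
  ⟨belowVal K w.1 w.2.1, belowVal_surjective w.1 w.2.1, by
    intro c hc
    have h1 := belowVal_pow w.1 w.2.1 (algebraMap κ K c)
    rw [← IsScalarTower.algebraMap_apply, w.2.2 c hc] at h1
    have he := one_le_ramIdx (K := K) w.1 w.2.1
    exact (pow_eq_one_iff.mp h1.symm).resolve_right (by omega)⟩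

theorem below_pow (w : Place κ L) (x : K) :
    w.1 (algebraMap K L x) = (below K w).1 x ^ ramIdx K w.1 :=
  belowVal_pow w.1 w.2.1 x

theorem below_eq {w : Place κ L} {v : Place κ K}
    (h : ∀ x : K, v.1 x ≤ 1 → w.1 (algebraMap K L x) ≤ 1) : below K w = v := by
  apply Subtype.ext
  symm
  refine val_eq_of_le_one v.2.1 (below K w).2.1 fun x hx => ?_
  have h1 := h x hx
  rw [below_pow] at h1
  have he := one_le_ramIdx (K := K) w.1 w.2.1
  by_contra hcon
  push Not at hcon
  exact absurd h1 (not_le.mpr (one_lt_pow₀ hcon (by omega)))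

/-- the places above `v` -/
def overSet (L : Type*) [Field L] [Algebra κ L] [Algebra K L] [IsScalarTower κ K L]
    [Algebra.IsAlgebraic K L] (v : Place κ K) : Set (Place κ L) :=
  {w | below K w = v}

end PlaceBelow

section ValRing

variable {K : Type*} [Field K]

/-- the valuation ring of a discrete valuation is a principal ideal ring -/
theorem isPrincipalIdealRing_valuationSubring (v : Valuation K ℤᵐ⁰) :
    IsPrincipalIdealRing v.valuationSubring := by
  refine ⟨fun I => ?_⟩
  by_cases hI : I = ⊥
  · rw [hI]; exact ⟨⟨0, by simp⟩⟩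
  · obtain ⟨g₀, hg₀, hg₀0⟩ := Submodule.exists_mem_ne_zero_of_ne_bot hI
    have hex : ∃ n : ℕ, ∃ g ∈ I, g ≠ 0 ∧ (- log (v (g : K))).toNat = n :=
      ⟨_, g₀, hg₀, hg₀0, rfl⟩
    classical
    obtain ⟨g, hg, hg0, hgn⟩ := Nat.find_spec hex
    have hmin := fun n (hn : n < Nat.find hex) => Nat.find_min hex hn
    refine ⟨⟨g, ?_⟩⟩
    apply le_antisymm
    · intro x hx
      by_cases hx0 : x = 0
      · rw [hx0]; exact Submodule.zero_mem _
      have hle : (- log (v (g : K))).toNat ≤ (- log (v (x : K))).toNat := by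
        by_contra hlt
        push Not at hlt
        rw [hgn] at hlt
        exact hmin _ hlt ⟨x, hx, hx0, rfl⟩
      have hg0' : (g : K) ≠ 0 := fun h => hg0 (Subtype.ext h)
      have hx0' : (x : K) ≠ 0 := fun h => hx0 (Subtype.ext h)
      have hgv : v (g : K) ≠ 0 := (Valuation.ne_zero_iff v).mpr hg0'
      have hxv : v (x : K) ≠ 0 := (Valuation.ne_zero_iff v).mpr hx0'
      have hgR : log (v (g : K)) ≤ 0 := by
        rw [← log_one]; exact (log_le_log hgv one_ne_zero).mpr g.2
      have hxR : log (v (x : K)) ≤ 0 := by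
        rw [← log_one]; exact (log_le_log hxv one_ne_zero).mpr x.2
      have hq : (x : K) / g ∈ v.valuationSubring := by
        rw [Valuation.mem_valuationSubring_iff, map_div₀]
        rw [← exp_log hgv, ← exp_log hxv, ← exp_sub, ← exp_zero, exp_le_exp]
        omega
      rw [Submodule.mem_span_singleton]
      refine ⟨⟨_, hq⟩, ?_⟩
      apply Subtype.ext
      show (x : K) / g * g = x
      field_simp
    · rw [Submodule.span_singleton_le_iff_mem]
      exact hg

end ValRing

section Local

variable {κ K L : Type*} [Field κ] [IsAlgClosed κ] [CharZero κ] [Field L] [Algebra κ L]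
  [Algebra κ[X] L] [IsScalarTower κ κ[X] L]
  [Algebra (RatFunc κ) L] [IsScalarTower κ[X] (RatFunc κ) L]
  [Algebra (Rinf κ) L] [IsScalarTower (Rinf κ) (RatFunc κ) L]
  [FiniteDimensional (RatFunc κ) L]
  [Field K] [Algebra κ K] [Algebra K L] [IsScalarTower κ K L] [FiniteDimensional K L]

theorem local_main (v : Place κ K) : ∃ S : Finset (Place κ L), (∀ w, w ∈ S ↔ below K w = v) ∧
    (∀ y : L, y ≠ 0 → log (v.1 (Algebra.norm K y)) = ∑ w ∈ S, log (w.1 y)) ∧
    (∀ β : L, (∀ w ∈ S, w.1 β ≤ 1) → Algebra.adjoin K {β} = ⊤ → ∀ w ∈ S,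
      w.1 (aeval β (derivative (minpoly K β))) ≤ exp (-((ramIdx K w.1 - 1 : ℕ) : ℤ))) := by
  classical
  have hcK : CharZero K := charZero_of_injective_algebraMap (algebraMap κ K).injective
  let A := v.1.valuationSubring
  have hcA : CharZero A := ⟨fun m n h => by
    have h1 := congrArg (algebraMap A K) h
    rw [map_natCast, map_natCast] at h1
    exact Nat.cast_injective h1⟩
  have : IsPrincipalIdealRing A := isPrincipalIdealRing_valuationSubring v.1
  let B := integralClosure A L
  have : IsFractionRing B L := isFractionRing_B A K L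
  have : IsDedekindDomain B := isDedekindDomain_B A K L
  have : Module.Finite A B := finite_B A K L
  obtain ⟨p, hp⟩ : ∃ p : HeightOneSpectrum A, p.valuation K = v.1 :=
    exists_heightOne v.2.1 (fun a => a.2)
  have hpx : ∀ x, v.1 x = p.valuation K x := fun x => by rw [hp]
  have : Finite (HeightOneSpectrum B) := finite_heightOne p
  have : Fintype (HeightOneSpectrum B) := Fintype.ofFinite _
  have hA : ∀ (P : HeightOneSpectrum B) (x : K), v.1 x ≤ 1 → P.valuation L (algebraMap K L x) ≤ 1 := by
    intro P x hx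
    have : algebraMap K L x = algebraMap B L (algebraMap A B ⟨x, hx⟩) := by
      rw [← IsScalarTower.algebraMap_apply A B L, IsScalarTower.algebraMap_apply A K L]
      rfl
    rw [this]
    exact P.valuation_le_one _
  have hκ : ∀ (P : HeightOneSpectrum B) (c : κ), c ≠ 0 → P.valuation L (algebraMap κ L c) = 1 := by
    have h1 : ∀ (P : HeightOneSpectrum B) (c : κ), c ≠ 0 → P.valuation L (algebraMap κ L c) ≤ 1 := by
      intro P c hc
      rw [IsScalarTower.algebraMap_apply κ K L]
      exact hA P _ (v.2.2 c hc).le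
    intro P c hc
    refine le_antisymm (h1 P c hc) ?_
    have h2 := h1 P c⁻¹ (inv_ne_zero hc)
    rw [map_inv₀, map_inv₀] at h2
    exact (inv_le_one₀ (zero_lt_iff.mpr ((Valuation.ne_zero_iff _).mpr
      ((_root_.map_ne_zero _).mpr hc)))).mp h2
  let g : HeightOneSpectrum B → Place κ L := fun P => ⟨P.valuation L, P.valuation_surjective L, hκ P⟩
  have hg : ∀ P, below K (g P) = v := fun P => below_eq (hA P)
  have hgi : Function.Injective g := by
    intro P Q h
    have h1 : P.valuation L = Q.valuation L := congrArg Subtype.val h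
    exact HeightOneSpectrum.eq_of_valuation_isEquiv_valuation (K := L) (h1 ▸ Valuation.IsEquiv.refl)
  have hgs : ∀ w : Place κ L, below K w = v → ∃ P, g P = w := by
    intro w hw
    obtain ⟨P, hP⟩ := exists_heightOne (B := B) w.2.1 (by
      intro b
      refine integral_le_one (R := A) w.1 ?_ b.2
      intro a
      rw [IsScalarTower.algebraMap_apply A K L, below_pow, hw]
      exact pow_le_one' a.2 _)
    exact ⟨P, Subtype.ext hP⟩
  have hin : ∀ P : HeightOneSpectrum B, P.asIdeal.inertiaDeg A = 1 := by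
    intro P
    have h0 : P.asIdeal.LiesOver p.asIdeal := liesOver_max p P
    have h1 : p.asIdeal.IsMaximal := p.isMaximal
    have h2 : P.asIdeal.IsMaximal := P.isMaximal
    rw [Ideal.inertiaDeg_eq_of_isMaximal p.asIdeal P.asIdeal]
    let _ := Ideal.Quotient.field p.asIdeal
    refine finrank_eq_one (1 : B ⧸ P.asIdeal) one_ne_zero ?_
    intro b
    obtain ⟨b, rfl⟩ := Ideal.Quotient.mk_surjective b
    obtain ⟨c, hc⟩ := place_residue (g P) (P.valuation_le_one b)
    have hcA : v.1 (algebraMap κ K c) ≤ 1 := by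
      by_cases hc0 : c = 0
      · rw [hc0, map_zero, map_zero]; exact zero_le_one
      · exact (v.2.2 c hc0).le
    refine ⟨Ideal.Quotient.mk _ (⟨algebraMap κ K c, hcA⟩ : A), ?_⟩
    rw [Algebra.smul_def, mul_one]
    change Ideal.Quotient.mk P.asIdeal (algebraMap A B ⟨algebraMap κ K c, hcA⟩) = _
    symm
    rw [Ideal.Quotient.eq, ← P.valuation_lt_one_iff_mem (K := L)]
    change P.valuation L (algebraMap B L _) < 1
    rw [map_sub (algebraMap B L)]
    have h3 : algebraMap B L (algebraMap A B ⟨algebraMap κ K c, hcA⟩) = algebraMap κ L c := by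
      rw [← IsScalarTower.algebraMap_apply A B L, IsScalarTower.algebraMap_apply A K L,
        IsScalarTower.algebraMap_apply κ K L]
      rfl
    rw [h3]
    exact hc
  refine ⟨Finset.univ.image g, ?_, ?_, ?_⟩
  · intro w
    rw [Finset.mem_image]
    constructor
    · rintro ⟨P, -, rfl⟩; exact hg P
    · intro hw
      obtain ⟨P, hP⟩ := hgs w hw
      exact ⟨P, Finset.mem_univ _, hP⟩
  · intro y hy
    rw [Finset.sum_image hgi.injOn, hpx, local_norm p hy (B := B)]
    refine Finset.sum_congr rfl fun P _ => ?_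
    rw [hin, Nat.cast_one, one_mul]
  · intro β hβ hgen w hw
    obtain ⟨P, -, rfl⟩ := Finset.mem_image.mp hw
    have hint : IsIntegral A β := by
      obtain ⟨b, hb⟩ := HeightOneSpectrum.mem_integers_of_valuation_le_one (R := B) L β (by
        intro P
        exact hβ (g P) (Finset.mem_image_of_mem _ (Finset.mem_univ _)))
      rw [← hb]
      exact b.2
    refine local_diff p P (e := ramIdx K (g P).1) ?_ hint hgen
    intro x
    have h1 := below_pow (g P) x
    rw [hg P, hpx] at h1
    exact h1

end Local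

end Pool.Agent.Lib.MP_44a246_nt
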