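import Mathlib
import Pool.Agent.Lib.MP_44a246_nt.Over
import Pool.Agent.Lib.MP_44a246_nt.Core

/-!
The sum of the ramification indices above a place is the degree; heights in a finite extension.
-/

namespace Pool.Agent.Lib.MP_44a246_nt

open WithZero Polynomial
open Pool.Agent.Lib.MP_e52354_nt

section Ext

variable {κ K L : Type*} [Field κ] [IsAlgClosed κ] [CharZero κ] [Field L] [Algebra κ L]
  [Algebra κ[X] L] [IsScalarTower κ κ[X] L]
  [Algebra (RatFunc κ) L] [IsScalarTower κ[X] (RatFunc κ) L]
  [Algebra (Rinf κ) L] [IsScalarTower (Rinf κ) (RatFunc κ) L]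
  [FiniteDimensional (RatFunc κ) L]
  [Field K] [Algebra κ K] [Algebra K L] [IsScalarTower κ K L] [FiniteDimensional K L]

variable (L) in
/-- the places of `L` above a place of `K` -/
noncomputable def overFin (v : Place κ K) : Finset (Place κ L) := Classical.choose (local_main v)

theorem mem_overFin {v : Place κ K} {w : Place κ L} : w ∈ overFin L v ↔ below K w = v :=
  (Classical.choose_spec (local_main v)).1 w

theorem log_norm (v : Place κ K) {y : L} (hy : y ≠ 0) :
    log (v.1 (Algebra.norm K y)) = ∑ w ∈ overFin L v, log (w.1 y) :=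
  (Classical.choose_spec (local_main v)).2.1 y hy

theorem different_bound (v : Place κ K) {β : L} (hβ : ∀ w ∈ overFin L v, w.1 β ≤ 1)
    (hgen : Algebra.adjoin K {β} = ⊤) {w : Place κ L} (hw : w ∈ overFin L v) :
    w.1 (aeval β (derivative (minpoly K β))) ≤ exp (-((ramIdx K w.1 - 1 : ℕ) : ℤ)) :=
  (Classical.choose_spec (local_main v)).2.2 β hβ hgen w hw

theorem log_algebraMap {v : Place κ K} {w : Place κ L} (hw : w ∈ overFin L v) (x : K) :
    log (w.1 (algebraMap K L x)) = ramIdx K w.1 * log (v.1 x) := by
  rw [below_pow, mem_overFin.mp hw, log_pow, nsmul_eq_mul]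

/-- the fundamental identity `∑ e = n` -/
theorem sum_ramIdx (v : Place κ K) :
    ∑ w ∈ overFin L v, (ramIdx K w.1 : ℤ) = Module.finrank K L := by
  obtain ⟨x, hx⟩ := v.2.1 (exp (1 : ℤ))
  have hx0 : x ≠ 0 := by
    rintro rfl
    rw [map_zero] at hx
    exact exp_ne_zero hx.symm
  have h1 := log_norm (L := L) v (y := algebraMap K L x) ((_root_.map_ne_zero _).mpr hx0)
  rw [Algebra.norm_algebraMap, map_pow, log_pow, hx, log_exp] at h1
  rw [Finset.sum_congr rfl fun w hw => log_algebraMap hw x, ← Finset.sum_mul, hx, log_exp] at h1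
  simpa using h1.symm

theorem overFin_nonempty (v : Place κ K) : (overFin L v).Nonempty := by
  by_contra hcon
  rw [Finset.not_nonempty_iff_eq_empty] at hcon
  have h1 := sum_ramIdx (L := L) v
  rw [hcon, Finset.sum_empty] at h1
  have h2 : 0 < Module.finrank K L := Module.finrank_pos
  omega

theorem sum_fiber {g : Place κ L → ℤ} {S : Finset (Place κ L)} (hS : Function.support g ⊆ S)
    {T : Finset (Place κ K)} (hT : ∀ w ∈ S, below K w ∈ T) :
    ∑ᶠ w, g w = ∑ v ∈ T, ∑ w ∈ overFin L v, g w := by
  classical
  rw [← Finset.sum_biUnion]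
  · refine finsum_eq_sum_of_support_subset _ fun w hw => ?_
    rw [Finset.mem_coe, Finset.mem_biUnion]
    exact ⟨below K w, hT w (hS hw), mem_overFin.mpr rfl⟩
  · intro v _ v' _ hne
    rw [Function.onFun, Finset.disjoint_left]
    intro w hw hw'
    exact hne ((mem_overFin.mp hw).symm.trans (mem_overFin.mp hw'))

theorem finsum_le_of_over {g h : Place κ L → ℤ} (hg : (Function.support g).Finite)
    (hh : (Function.support h).Finite)
    (hle : ∀ v : Place κ K, ∑ w ∈ overFin L v, g w ≤ ∑ w ∈ overFin L v, h w) :
    ∑ᶠ w, g w ≤ ∑ᶠ w, h w := by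
  classical
  set S := hg.toFinset ∪ hh.toFinset
  have h1 : Function.support g ⊆ S := by
    intro w hw
    simp only [S, Finset.coe_union, Set.Finite.coe_toFinset]
    exact Or.inl hw
  have h2 : Function.support h ⊆ S := by
    intro w hw
    simp only [S, Finset.coe_union, Set.Finite.coe_toFinset]
    exact Or.inr hw
  have hT : ∀ w ∈ S, below K w ∈ S.image (below K) := fun w hw => Finset.mem_image_of_mem _ hw
  rw [sum_fiber h1 hT, sum_fiber h2 hT]
  exact Finset.sum_le_sum fun v _ => hle v

theorem vmax_algebraMap {σ : Type*} [Fintype σ] (w : Place κ L) (x : σ → K) :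
    vmax w.1 (fun i => algebraMap K L (x i)) = vmax (below K w).1 x ^ ramIdx K w.1 := by
  unfold vmax
  apply le_antisymm
  · refine Finset.sup_le fun i _ => ?_
    rw [below_pow]
    exact pow_le_pow_left' (Finset.le_sup (f := fun i => (below K w).1 (x i)) (Finset.mem_univ i)) _
  · rcases isEmpty_or_nonempty σ with hσ | hσ
    · have he := one_le_ramIdx (K := K) w.1 w.2.1
      rw [Finset.univ_eq_empty, Finset.sup_empty, bot_eq_zero, zero_pow (by omega)]
      exact zero_le
    · obtain ⟨i, -, hi⟩ := Finset.exists_max_image (Finset.univ : Finset σ)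
        (fun i => (below K w).1 (x i)) Finset.univ_nonempty
      have h1 : (Finset.univ.sup fun i => (below K w).1 (x i)) = (below K w).1 (x i) :=
        le_antisymm (Finset.sup_le fun j hj => hi j hj)
          (Finset.le_sup (f := fun i => (below K w).1 (x i)) (Finset.mem_univ i))
      rw [h1, ← below_pow]
      exact Finset.le_sup (f := fun i => w.1 (algebraMap K L (x i))) (Finset.mem_univ i)

/-- the height in a finite extension -/
theorem height_ext {σ : Type*} [Fintype σ] {x : σ → K} (hx : x ≠ 0) :
    height κ (fun i => algebraMap K L (x i)) = Module.finrank K L * height κ x := by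
  classical
  have hx' : (fun i => algebraMap K L (x i)) ≠ 0 := by
    intro h0
    apply hx
    funext i
    have := congrFun h0 i
    simpa using this
  set S := (vmax_finite (κ := κ) hx').toFinset
  have hS : Function.support (fun w : Place κ L => log (vmax w.1 fun i => algebraMap K L (x i))) ⊆
      S := by
    intro w hw
    rw [Finset.mem_coe, Set.Finite.mem_toFinset]
    intro h1
    apply hw
    simp only
    rw [h1, log_one]
  have hT : ∀ w ∈ S, below K w ∈ S.image (below K) := fun w hw => Finset.mem_image_of_mem _ hw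
  unfold height
  rw [sum_fiber hS hT]
  have h1 : ∀ v : Place κ K, ∑ w ∈ overFin L v, log (vmax w.1 fun i => algebraMap K L (x i)) =
      Module.finrank K L * log (vmax v.1 x) := by
    intro v
    rw [← sum_ramIdx (L := L) v, Finset.sum_mul]
    refine Finset.sum_congr rfl fun w hw => ?_
    rw [vmax_algebraMap, mem_overFin.mp hw, log_pow, nsmul_eq_mul]
  rw [Finset.sum_congr rfl fun v _ => h1 v, ← Finset.mul_sum]
  congr 1
  symm
  refine finsum_eq_sum_of_support_subset _ fun v hv => ?_
  obtain ⟨w, hw⟩ := overFin_nonempty (L := L) v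
  rw [Finset.mem_coe, Finset.mem_image]
  refine ⟨w, ?_, mem_overFin.mp hw⟩
  rw [Set.Finite.mem_toFinset]
  intro h2
  apply hv
  have h2' : vmax w.1 (fun i => algebraMap K L (x i)) = 1 := h2
  rw [vmax_algebraMap, mem_overFin.mp hw] at h2'
  have he := one_le_ramIdx (K := K) w.1 w.2.1
  have h3 : vmax v.1 x = 1 := (pow_eq_one_iff.mp h2').resolve_right (by omega)
  simp only
  rw [h3, log_one]

end Ext

end Pool.Agent.Lib.MP_44a246_nt
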