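import Mathlib

/-!
The different of `1 / (α - c)`.
-/

namespace Pool.Agent.Lib.MP_44a246_nt

open Polynomial

theorem reflect_deriv {K L : Type*} [Field K] [Field L] [Algebra K L] (N : ℕ) (f : K[X])
    (hf : f.natDegree ≤ N) {β : L} (hβ : β ≠ 0) :
    β ^ 2 * aeval β (derivative (reflect N f)) =
      N * β ^ (N + 1) * aeval β⁻¹ f - β ^ N * aeval β⁻¹ (derivative f) := by
  revert hf
  refine Polynomial.induction_with_natDegree_le (fun f => β ^ 2 * aeval β (derivative (reflect N f)) =
      N * β ^ (N + 1) * aeval β⁻¹ f - β ^ N * aeval β⁻¹ (derivative f)) N ?_ ?_ ?_ f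
  · simp
  · intro n r _ hn
    rw [reflect_C_mul_X_pow, revAt_le hn]
    obtain ⟨m, rfl⟩ := Nat.exists_eq_add_of_le hn
    rw [Nat.add_sub_cancel_left, derivative_C_mul_X_pow, derivative_C_mul_X_pow]
    simp only [map_mul, aeval_C, map_pow, aeval_X, map_natCast]
    rcases m with _ | m <;> rcases n with _ | n <;> simp <;> field_simp <;> ring
  · intro f g _ _ hf hg
    rw [reflect_add, derivative_add, derivative_add, map_add, map_add, map_add]
    linear_combination hf + hg

theorem norm_sub_eq {K L : Type*} [Field K] [Field L] [Algebra K L] [FiniteDimensional K L] {α : L}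
    (hgen : Algebra.adjoin K {α} = ⊤) (c : K) :
    Algebra.norm K (algebraMap K L c - α) = (minpoly K α).eval c := by
  classical
  have hint : IsIntegral K α := IsIntegral.of_finite K α
  let pb := PowerBasis.ofAdjoinEqTop hint hgen
  have hpb : pb.gen = α := PowerBasis.ofAdjoinEqTop_gen hint hgen
  rw [Algebra.norm_eq_matrix_det pb.basis, map_sub, AlgHom.commutes]
  have h1 := charpoly_leftMulMatrix pb
  rw [hpb] at h1
  rw [← h1, Matrix.eval_charpoly]
  rfl

theorem natDegree_minpoly_eq {K L : Type*} [Field K] [Field L] [Algebra K L] [FiniteDimensional K L]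
    {α : L} (hgen : Algebra.adjoin K {α} = ⊤) :
    (minpoly K α).natDegree = Module.finrank K L := by
  have hint : IsIntegral K α := IsIntegral.of_finite K α
  let pb := PowerBasis.ofAdjoinEqTop hint hgen
  have hpb : pb.gen = α := PowerBasis.ofAdjoinEqTop_gen hint hgen
  rw [pb.finrank, ← pb.natDegree_minpoly, hpb]

theorem deriv_minpoly_inv {K L : Type*} [Field K] [Field L] [Algebra K L] [FiniteDimensional K L]
    {α β : L} {c : K} (hgen : Algebra.adjoin K {α} = ⊤) (hgenβ : Algebra.adjoin K {β} = ⊤)
    (hβ0 : β ≠ 0) (hβ : β⁻¹ = α - algebraMap K L c) :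
    algebraMap K L (Algebra.norm K (algebraMap K L c - α)) * β ^ 2 *
      aeval β (derivative (minpoly K β)) =
      - β ^ Module.finrank K L * aeval α (derivative (minpoly K α)) := by
  classical
  have hint : IsIntegral K α := IsIntegral.of_finite K α
  have hintβ : IsIntegral K β := IsIntegral.of_finite K β
  set r := Module.finrank K L with hr
  set a := Algebra.norm K (algebraMap K L c - α) with ha
  have ha' : a = (minpoly K α).eval c := norm_sub_eq hgen c
  have ha0 : a ≠ 0 := by
    rw [ha, Algebra.norm_ne_zero_iff, ← neg_sub, ← hβ]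
    exact neg_ne_zero.mpr (inv_ne_zero hβ0)
  have hdeg : (minpoly K α).natDegree = r := natDegree_minpoly_eq hgen
  set p : K[X] := (minpoly K α).comp (X + C c) with hp
  have hpdeg : p.natDegree = r := by
    rw [hp, natDegree_comp, natDegree_X_add_C, mul_one, hdeg]
  have hβα : β⁻¹ + algebraMap K L c = α := by rw [hβ]; ring
  have hp0 : aeval β⁻¹ p = 0 := by
    rw [hp, aeval_comp]
    simp only [map_add, aeval_X, aeval_C]
    rw [hβα]
    exact minpoly.aeval K α
  have hp' : aeval β⁻¹ (derivative p) = aeval α (derivative (minpoly K α)) := by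
    rw [hp, derivative_comp]
    simp only [derivative_add, derivative_X, derivative_C, add_zero, mul_one, one_mul, map_mul, map_one]
    rw [aeval_comp]
    simp only [map_add, aeval_X, aeval_C]
    rw [hβα]
  have hq0 : aeval β (reflect r p) = 0 := by
    let _ : Invertible β⁻¹ := invertibleOfNonzero (inv_ne_zero hβ0)
    have h1 := eval₂_reflect_mul_pow (algebraMap K L) β⁻¹ r p hpdeg.le
    rw [invOf_eq_inv, inv_inv] at h1
    have h2 : aeval β (reflect r p) * β⁻¹ ^ r = aeval β⁻¹ p := h1
    rw [hp0] at h2
    rcases mul_eq_zero.mp h2 with h3 | h3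
    · exact h3
    · exact absurd h3 (pow_ne_zero _ (inv_ne_zero hβ0))
  have hcoef : (reflect r p).coeff r = a := by
    rw [coeff_reflect, revAt_le le_rfl, Nat.sub_self, ha', hp, coeff_zero_eq_eval_zero, eval_comp]
    simp
  have hmonic : (C a⁻¹ * reflect r p).Monic := by
    refine monic_of_natDegree_le_of_coeff_eq_one r ?_ ?_
    · refine (natDegree_C_mul_le _ _).trans (natDegree_reflect_le.trans ?_)
      rw [hpdeg, max_self]
    · rw [coeff_C_mul, hcoef, inv_mul_cancel₀ ha0]
  have hG : C a⁻¹ * reflect r p = minpoly K β := by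
    refine eq_of_monic_of_dvd_of_natDegree_le (minpoly.monic hintβ) hmonic
      (minpoly.dvd K β ?_) ?_
    · rw [map_mul, hq0, mul_zero]
    · rw [natDegree_minpoly_eq hgenβ]
      refine (natDegree_C_mul_le _ _).trans (natDegree_reflect_le.trans ?_)
      rw [hpdeg, max_self]
  have h1 := reflect_deriv r p hpdeg.le hβ0
  rw [hp0, hp', mul_zero, zero_sub] at h1
  rw [← hG, derivative_C_mul, map_mul, aeval_C, map_inv₀]
  have ha1 : algebraMap K L a ≠ 0 := (_root_.map_ne_zero _).mpr ha0
  field_simp
  linear_combination h1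

end Pool.Agent.Lib.MP_44a246_nt
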