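import Mathlib
import Pool.Agent.Lib.MP_44a246_nt.Ext
import Pool.Agent.Lib.MP_44a246_nt.MinInv

/-!
The degree of the ramification divisor of `K(α) / K` is at most `2 (r - 1) h(α)`.
-/

namespace Pool.Agent.Lib.MP_44a246_nt

open WithZero Polynomial
open Pool.Agent.Lib.MP_e52354_nt

section RamBound

variable {κ K L : Type*} [Field κ] [IsAlgClosed κ] [CharZero κ] [Field L] [Algebra κ L]
  [Algebra κ[X] L] [IsScalarTower κ κ[X] L]
  [Algebra (RatFunc κ) L] [IsScalarTower κ[X] (RatFunc κ) L]
  [Algebra (Rinf κ) L] [IsScalarTower (Rinf κ) (RatFunc κ) L]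
  [FiniteDimensional (RatFunc κ) L]
  [Field K] [Algebra κ K] [Algebra K L] [IsScalarTower κ K L] [FiniteDimensional K L]

omit [IsAlgClosed κ] [CharZero κ] [Algebra κ[X] L] [IsScalarTower κ κ[X] L] 
  [Algebra (RatFunc κ) L] [IsScalarTower κ[X] (RatFunc κ) L]
  [Algebra (Rinf κ) L] [IsScalarTower (Rinf κ) (RatFunc κ) L]
  [FiniteDimensional (RatFunc κ) L] in
theorem vmax_pair (w : Place κ L) (α : L) : vmax w.1 ![1, α] = max 1 (w.1 α) := by
  unfold vmax
  rw [Fin.univ_succ]
  simp

omit [IsAlgClosed κ] [Algebra κ[X] L] [IsScalarTower κ κ[X] L] 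
  [Algebra (RatFunc κ) L] [IsScalarTower κ[X] (RatFunc κ) L]
  [Algebra (Rinf κ) L] [IsScalarTower (Rinf κ) (RatFunc κ) L]
  [FiniteDimensional (RatFunc κ) L] in
/-- a constant avoiding the residues of `α` at finitely many places -/
theorem exists_const (S : Finset (Place κ L)) (α : L) :
    ∃ c : κ, ∀ w ∈ S, w.1 (α - algebraMap κ L c) = vmax w.1 ![1, α] := by
  classical
  have hsub : ∀ w : Place κ L, {c : κ | w.1 (α - algebraMap κ L c) < 1}.Subsingleton := by
    intro w c hc c' hc'
    by_contra hne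
    have h1 : algebraMap κ L (c' - c) = (α - algebraMap κ L c) - (α - algebraMap κ L c') := by
      rw [map_sub]; ring
    have h2 := w.2.2 (c' - c) (sub_ne_zero.mpr (Ne.symm hne))
    rw [h1] at h2
    have h3 := (w.1.map_sub (α - algebraMap κ L c) (α - algebraMap κ L c')).trans_lt
      (max_lt hc hc')
    exact absurd h2 h3.ne
  have hfin : (⋃ w ∈ S, {c : κ | w.1 (α - algebraMap κ L c) < 1}).Finite :=
    Set.Finite.biUnion S.finite_toSet fun w _ => (hsub w).finite
  have : Infinite κ := CharZero.infinite κ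
  obtain ⟨c, hc⟩ := hfin.exists_notMem
  refine ⟨c, fun w hw => ?_⟩
  have h1 : 1 ≤ w.1 (α - algebraMap κ L c) := by
    by_contra hlt
    push Not at hlt
    exact hc (Set.mem_biUnion hw hlt)
  have h2 : w.1 (algebraMap κ L c) ≤ 1 := by
    by_cases hc0 : c = 0
    · rw [hc0, map_zero, map_zero]; exact zero_le_one
    · exact (w.2.2 c hc0).le
  rw [vmax_pair]
  rcases le_or_gt (w.1 α) 1 with h3 | h3
  · rw [max_eq_left h3]
    exact le_antisymm ((w.1.map_sub _ _).trans (max_le h3 h2)) h1
  · rw [max_eq_right h3.le, Valuation.map_sub_eq_of_lt_left _ (h2.trans_lt h3)]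

theorem adjoin_inv_eq_top {α β : L} {c : K} (hgen : Algebra.adjoin K {α} = ⊤)
    (hβ : β⁻¹ = α - algebraMap K L c) : Algebra.adjoin K {β} = ⊤ := by
  have hintβ : IsIntegral K β := IsIntegral.of_finite K β
  rw [← IntermediateField.adjoin_simple_toSubalgebra_of_isAlgebraic hintβ.isAlgebraic]
  have h1 : α ∈ IntermediateField.adjoin K {β} := by
    have h2 : α = β⁻¹ + algebraMap K L c := by rw [hβ]; ring
    rw [h2]
    exact AddMemClass.add_mem (inv_mem (IntermediateField.mem_adjoin_simple_self K β))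
      ((IntermediateField.adjoin K {β}).algebraMap_mem c)
  rw [eq_top_iff, ← hgen]
  exact Algebra.adjoin_le (Set.singleton_subset_iff.mpr
    (show α ∈ (IntermediateField.adjoin K {β}).toSubalgebra from h1))

theorem ram_local (v : Place κ K) {α : L} (hgen : Algebra.adjoin K {α} = ⊤) :
    ∑ w ∈ overFin L v, ((ramIdx K w.1 - 1 : ℕ) : ℤ) ≤
      ∑ w ∈ overFin L v, ((2 * (Module.finrank K L : ℤ) - 2) * log (vmax w.1 ![1, α]) -
        log (w.1 (aeval α (derivative (minpoly K α))))) := by
  classical
  have hcK : CharZero K := charZero_of_injective_algebraMap (algebraMap κ K).injective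
  have hint : IsIntegral K α := IsIntegral.of_finite K α
  obtain ⟨c, hc⟩ := exists_const (overFin L v) α
  have hM : ∀ w : Place κ L, 1 ≤ vmax w.1 ![1, α] := fun w => by
    rw [vmax_pair]; exact le_max_left _ _
  obtain ⟨w₀, hw₀⟩ := overFin_nonempty (L := L) v
  have hαc : α - algebraMap κ L c ≠ 0 := by
    intro h0
    have h1 := hc w₀ hw₀
    rw [h0, map_zero] at h1
    have h2 := hM w₀
    rw [← h1] at h2
    exact absurd h2 (by simp)
  set β := (α - algebraMap κ L c)⁻¹ with hβdef
  have hβ0 : β ≠ 0 := inv_ne_zero hαc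
  have hβ : β⁻¹ = α - algebraMap K L (algebraMap κ K c) := by
    rw [hβdef, inv_inv, ← IsScalarTower.algebraMap_apply κ K L]
  have hgenβ : Algebra.adjoin K {β} = ⊤ := adjoin_inv_eq_top hgen hβ
  have hβ1 : ∀ w ∈ overFin L v, w.1 β ≤ 1 := by
    intro w hw
    rw [hβdef, map_inv₀, hc w hw]
    exact inv_le_one_of_one_le₀ (hM w)
  have hlogβ : ∀ w ∈ overFin L v, log (w.1 β) = - log (vmax w.1 ![1, α]) := by
    intro w hw
    rw [hβdef, map_inv₀, hc w hw, log_inv]
  have hkey := deriv_minpoly_inv hgen hgenβ hβ0 hβ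
  set N := Algebra.norm K (algebraMap K L (algebraMap κ K c) - α) with hN
  have hcα : algebraMap K L (algebraMap κ K c) - α ≠ 0 := by
    rw [← neg_sub, ← hβ]
    exact neg_ne_zero.mpr (inv_ne_zero hβ0)
  have hN0 : N ≠ 0 := Algebra.norm_ne_zero_iff.mpr hcα
  have hlogN : log (v.1 N) = ∑ w ∈ overFin L v, log (vmax w.1 ![1, α]) := by
    rw [hN, log_norm v hcα]
    refine Finset.sum_congr rfl fun w hw => ?_
    rw [← hc w hw, ← neg_sub, Valuation.map_neg, ← IsScalarTower.algebraMap_apply κ K L]
  have hfα : aeval α (derivative (minpoly K α)) ≠ 0 :=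
    (minpoly.irreducible hint).separable.aeval_derivative_ne_zero (minpoly.aeval K α)
  have hgβ : aeval β (derivative (minpoly K β)) ≠ 0 :=
    (minpoly.irreducible (IsIntegral.of_finite K β)).separable.aeval_derivative_ne_zero
      (minpoly.aeval K β)
  have hloc : ∀ w ∈ overFin L v, ((ramIdx K w.1 - 1 : ℕ) : ℤ) ≤
      ((Module.finrank K L : ℤ) - 2) * log (vmax w.1 ![1, α]) -
        log (w.1 (aeval α (derivative (minpoly K α)))) +
        ramIdx K w.1 * ∑ w' ∈ overFin L v, log (vmax w'.1 ![1, α]) := by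
    intro w hw
    have h1 := different_bound v hβ1 hgenβ hw
    have hne : ∀ {y : L}, y ≠ 0 → w.1 y ≠ 0 := fun hy => (Valuation.ne_zero_iff w.1).mpr hy
    have h2 : log (w.1 (aeval β (derivative (minpoly K β)))) ≤ -((ramIdx K w.1 - 1 : ℕ) : ℤ) := by
      have := (log_le_log (hne hgβ) exp_ne_zero).mpr h1
      rwa [log_exp] at this
    have h3 := congrArg (fun y => log (w.1 y)) hkey
    simp only [map_mul, map_pow, neg_mul, Valuation.map_neg] at h3
    have hN1 : w.1 (algebraMap K L N) ≠ 0 := hne ((_root_.map_ne_zero _).mpr hN0)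
    have hb1 : w.1 β ≠ 0 := hne hβ0
    rw [log_mul (mul_ne_zero hN1 (pow_ne_zero _ hb1)) (hne hgβ), log_mul hN1 (pow_ne_zero _ hb1),
      log_mul (pow_ne_zero _ hb1) (hne hfα), log_pow, log_pow, log_algebraMap hw, hlogN,
      hlogβ w hw] at h3
    simp only [nsmul_eq_mul] at h3
    push_cast at h3
    linarith
  refine (Finset.sum_le_sum hloc).trans (le_of_eq ?_)
  rw [Finset.sum_add_distrib, ← Finset.sum_mul, sum_ramIdx]
  rw [Finset.sum_sub_distrib, Finset.sum_sub_distrib, ← Finset.mul_sum, ← Finset.mul_sum]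
  ring

theorem ram_bound' {α : L} (hgen : Algebra.adjoin K {α} = ⊤) :
    (ramDeg κ L K : ℤ) ≤ 2 * ((Module.finrank K L : ℤ) - 1) * height κ ![1, α] := by
  classical
  have hcK : CharZero K := charZero_of_injective_algebraMap (algebraMap κ K).injective
  have hint : IsIntegral K α := IsIntegral.of_finite K α
  have hfα : aeval α (derivative (minpoly K α)) ≠ 0 :=
    (minpoly.irreducible hint).separable.aeval_derivative_ne_zero (minpoly.aeval K α)
  have h1α : (![1, α] : Fin 2 → L) ≠ 0 := by
    intro h0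
    have := congrFun h0 0
    simp at this
  have hs1 : (Function.support fun w : Place κ L => ((ramIdx K w.1 - 1 : ℕ) : ℤ)).Finite := by
    refine (ramIdx_finite (κ := κ) (K := K) (L := L)).subset fun w hw h1 => hw ?_
    have h1' : ramIdx K w.1 = 1 := h1
    simp only
    rw [h1']
    simp
  have hs2 : (Function.support fun w : Place κ L => log (vmax w.1 ![1, α])).Finite := by
    refine (vmax_finite (κ := κ) h1α).subset fun w hw h1 => hw ?_
    have h1' : vmax w.1 ![1, α] = 1 := h1
    simp only
    rw [h1', log_one]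
  have hs3 : (Function.support fun w : Place κ L =>
      log (w.1 (aeval α (derivative (minpoly K α))))).Finite := by
    refine (place_finite (κ := κ) hfα).subset fun w hw h1 => hw ?_
    have h1' : w.1 (aeval α (derivative (minpoly K α))) = 1 := h1
    simp only
    rw [h1', log_one]
  have hs2' : (Function.support fun w : Place κ L =>
      (2 * (Module.finrank K L : ℤ) - 2) * log (vmax w.1 ![1, α])).Finite := by
    refine hs2.subset fun w hw h1 => hw ?_
    simp only at h1 ⊢
    rw [h1, mul_zero]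
  have hs4 : (Function.support fun w : Place κ L =>
      ((2 * (Module.finrank K L : ℤ) - 2) * log (vmax w.1 ![1, α]) -
        log (w.1 (aeval α (derivative (minpoly K α)))))).Finite := by
    refine (hs2'.union hs3).subset fun w hw => ?_
    by_contra hcon
    rw [Set.mem_union, not_or, Function.mem_support, Function.mem_support, not_not, not_not] at hcon
    apply hw
    simp only
    rw [hcon.1, hcon.2, sub_zero]
  have h1 := finsum_le_of_over (K := K) hs1 hs4 (fun v => ram_local v hgen)
  have h5 := mul_finsum (fun w : Place κ L => log (vmax w.1 ![1, α]))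
    (2 * (Module.finrank K L : ℤ) - 2)
  rw [finsum_sub_distrib hs2' hs3, product_formula hfα, sub_zero, ← h5] at h1
  have h2 : (ramDeg κ L K : ℤ) = ∑ᶠ w : Place κ L, ((ramIdx K w.1 - 1 : ℕ) : ℤ) := by
    unfold ramDeg
    have hs1' : (Function.support fun w : Place κ L => (ramIdx K w.1 - 1 : ℕ)).Finite := by
      refine (ramIdx_finite (κ := κ) (K := K) (L := L)).subset fun w hw h1 => hw ?_
      have h1' : ramIdx K w.1 = 1 := h1
      simp only
      rw [h1', Nat.sub_self]
    exact (map_finsum (Nat.castAddMonoidHom ℤ) hs1')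
  rw [h2]
  refine h1.trans (le_of_eq ?_)
  unfold height
  ring

/-- The Castelnuovo-type bound for the ramification. -/
theorem ram_bound (α : L) (hgen : IntermediateField.adjoin K {α} = ⊤) :
    (ramDeg κ L K : ℤ) ≤ 2 * ((Module.finrank K L : ℤ) - 1) * height κ ![1, α] := by
  have hint : IsIntegral K α := IsIntegral.of_finite K α
  refine ram_bound' ?_
  rw [← IntermediateField.adjoin_simple_toSubalgebra_of_isAlgebraic hint.isAlgebraic, hgen,
    IntermediateField.top_toSubalgebra]

end RamBound

end Pool.Agent.Lib.MP_44a246_nt
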