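import Mathlib
import Pool.Agent.Lib.MP_44a246_nt.RamBound
import Pool.Agent.Lib.MP_44a246_nt.Prim

/-!
The ramification of the field of a point is bounded by the height.
-/

namespace Pool.Agent.Lib.MP_44a246_nt

open Pool.Agent.Lib.MP_e52354_nt WithZero

theorem ram_point {κ K L : Type*} [Field κ] [IsAlgClosed κ] [CharZero κ] [Field K] [Algebra κ K]
    [Algebra (Polynomial κ) K] [IsScalarTower κ (Polynomial κ) K]
    [Algebra (RatFunc κ) K] [IsScalarTower (Polynomial κ) (RatFunc κ) K]
    [Algebra (Rinf κ) K] [IsScalarTower (Rinf κ) (RatFunc κ) K]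
    [FiniteDimensional (RatFunc κ) K] [Field L] [Algebra K L] [FiniteDimensional K L]
    [Algebra κ L] [IsScalarTower κ K L] {n : ℕ} (x : Fin (n + 1) → L) (hx : x ≠ 0)
    (hgen : pointField K x = ⊤) :
    (ramDeg κ L K : ℤ) ≤ 2 * ((Module.finrank K L : ℤ) - 1) * height κ x ∧ 0 ≤ height κ x := by
  let iX : Algebra (Polynomial κ) L :=
    ((algebraMap K L).comp (algebraMap (Polynomial κ) K)).toAlgebra
  let iK : Algebra (RatFunc κ) L := ((algebraMap K L).comp (algebraMap (RatFunc κ) K)).toAlgebra
  let iR : Algebra (Rinf κ) L := ((algebraMap K L).comp (algebraMap (Rinf κ) K)).toAlgebra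
  have t1 : IsScalarTower (Polynomial κ) K L := IsScalarTower.of_algebraMap_eq' rfl
  have t2 : IsScalarTower (RatFunc κ) K L := IsScalarTower.of_algebraMap_eq' rfl
  have t3 : IsScalarTower (Rinf κ) K L := IsScalarTower.of_algebraMap_eq' rfl
  have t4 : IsScalarTower κ (Polynomial κ) L := IsScalarTower.of_algebraMap_eq fun u => by
    rw [IsScalarTower.algebraMap_apply κ K L, IsScalarTower.algebraMap_apply κ (Polynomial κ) K]
    rfl
  have t5 : IsScalarTower (Polynomial κ) (RatFunc κ) L := IsScalarTower.of_algebraMap_eq fun u => by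
    rw [IsScalarTower.algebraMap_apply (Polynomial κ) K L,
      IsScalarTower.algebraMap_apply (Polynomial κ) (RatFunc κ) K]
    rfl
  have t6 : IsScalarTower (Rinf κ) (RatFunc κ) L := IsScalarTower.of_algebraMap_eq fun u => by
    rw [IsScalarTower.algebraMap_apply (Rinf κ) K L,
      IsScalarTower.algebraMap_apply (Rinf κ) (RatFunc κ) K]
    rfl
  have hfin : FiniteDimensional (RatFunc κ) L := FiniteDimensional.trans (RatFunc κ) K L
  obtain ⟨l, hl⟩ : ∃ l, x l ≠ 0 := by
    by_contra hcon
    push Not at hcon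
    exact hx (funext hcon)
  obtain ⟨c, hc⟩ := exists_prim (κ := κ) hl hgen
  have h1 := ram_bound (κ := κ) _ hc
  have h2 := height_comb_le (κ := κ) hl c
  have h3 : (1 : ℤ) ≤ Module.finrank K L := by
    exact_mod_cast Module.finrank_pos
  refine ⟨h1.trans (mul_le_mul_of_nonneg_left h2 (by linarith)), height_nonneg hx⟩

end Pool.Agent.Lib.MP_44a246_nt
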