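import Mathlib
import Pool.Agent.Lib.MP_44a246_nt.PolyMain
import Pool.Agent.Lib.MP_44a246_nt.Instances
import Pool.Agent.Lib.MP_44a246_nt.RamPoint

/-!
# Points of bounded degree on generic complete intersections over function fields

Let `κ` be an algebraically closed field of characteristic zero and `K` a function field of one
variable over `κ`. Let `F i` (`i` in a finite set with `s` elements) be forms of degrees `d i ≥ 1`
in `n + 1` variables over `K`, all of whose coefficients are algebraically independent over a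
subfield `k₀` of `κ`. Then, with a constant `C` depending only on the forms, on the finite set `S`
of places of `K` and on `ρ`, every point `x` of projective `n`-space whose field of definition
`L = K(x)` has degree at most `ρ` over `K` satisfies

`(∑ d i + q + 1 - 2 T - 2 ρ) h(x) ≤ N(x) + C`,

where `T` is any bound for the transcendence degree of `x` over `k₀` (for example the dimension of
a closed subvariety over `k₀` containing `x`), `q` is the number of the forms vanishing at `x`
and `N(x)` is the truncated counting function of the hypersurfaces not containing `x`.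

In particular, if `∑ d i + s ≥ 2 T + 2 ρ`, then the points `x` of degree at most `ρ` over `K` and
of transcendence degree at most `T` over `k₀` on the intersection of all the hypersurfaces
`F i = 0` have bounded height.
-/

namespace Pool.Agent.Lib.MP_44a246_nt.BoundedDegreeRes

open Pool.Agent.Lib.MP_44a246_nt

universe w

theorem result {k₀ κ K : Type*} [Field k₀] [CharZero k₀] [Field κ] [IsAlgClosed κ] [Field K]
    [Algebra k₀ κ] [Algebra κ K] [Algebra k₀ K] [IsScalarTower k₀ κ K]
    {t : K} (ht : Transcendental κ t) [FiniteDimensional (IntermediateField.adjoin κ {t}) K]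
    {n : ℕ} {ι : Type*} [Fintype ι] (d : ι → ℕ) (hd : ∀ i, 1 ≤ d i)
    (F : ι → MvPolynomial (Fin (n + 1)) K) (hF : ∀ i, (F i).IsHomogeneous (d i))
    (hgen : AlgebraicIndependent k₀
      (fun θ : Σ i, {I : Fin (n + 1) →₀ ℕ // I.degree = d i} => (F θ.1).coeff θ.2.1))
    (S : Set (Place κ K)) (hS : S.Finite) (ρ : ℕ) :
    ∃ C : ℕ, ∀ (L : Type w) [Field L] [Algebra K L] [FiniteDimensional K L] [Algebra κ L]
      [IsScalarTower κ K L] [Algebra k₀ L] [IsScalarTower k₀ K L]
      (x : Fin (n + 1) → L), x ≠ 0 → pointField K x = ⊤ → Module.finrank K L ≤ ρ →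
      ∀ T : ℕ, Algebra.trdeg k₀ (pointField k₀ x) ≤ T →
      ((∑ i, (d i : ℤ)) + (Nat.card {i // MvPolynomial.aeval x (F i) = 0} : ℕ) + 1 - 2 * T -
        2 * ρ) * height κ x ≤ (truncCount κ F d S x : ℤ) + C := by
  have hcκ : CharZero κ := charZero_of_injective_algebraMap (algebraMap k₀ κ).injective
  refine with_instances ht ?_
  intro _ _ _ _ _ _ _ h1 h2
  obtain ⟨C, hC⟩ := poly_main.{w} h1 h2 d F hF hgen le_rfl hd S hS
  refine ⟨C * ρ, ?_⟩
  intro L _ _ _ _ _ _ _ x hx hgenx hρ T hT
  obtain ⟨h3, h4, h5⟩ := hC L x hx T hT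
  obtain ⟨h6, h7⟩ := ram_point (κ := κ) x hx hgenx
  set q : ℤ := ((Nat.card {i // MvPolynomial.aeval x (F i) = 0} : ℕ) : ℤ) with hq
  have h3' : q ≤ T := by rw [hq]; exact_mod_cast h3
  set h := height κ x with hh
  have hρ' : (Module.finrank K L : ℤ) ≤ ρ := by exact_mod_cast hρ
  have h8 : ((T : ℤ) - q) * (mu κ 1 x : ℤ) ≤ ((T : ℤ) - q) * h :=
    mul_le_mul_of_nonneg_left h5 (by linarith)
  have h9 : 2 * ((Module.finrank K L : ℤ) - 1) * h ≤ 2 * ((ρ : ℤ) - 1) * h :=
    mul_le_mul_of_nonneg_right (by linarith) h7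
  have h10 : (C : ℤ) * (Module.finrank K L : ℤ) ≤ (C : ℤ) * ρ :=
    mul_le_mul_of_nonneg_left hρ' (by positivity)
  push_cast
  nlinarith [h4, h6, h8, h9, h10]

end Pool.Agent.Lib.MP_44a246_nt.BoundedDegreeRes
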