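import Mathlib
import Pool.Agent.Lib.MP_44a246_nt.LocalIneq

/-!
Determinants whose rows are the Euler vector and vectors of derivations.
-/

namespace Pool.Agent.Lib.MP_44a246_nt

open Pool.Agent.Lib.MP_e52354_nt WithZero

section Rows

variable {n : ℕ} {ι : Type*} {M : Type*} [Field M]

variable (d : ι → ℕ) (a : ι → Expo n → M)

open Classical in
/-- the vector of a derivation -/
noncomputable def vecE (x : Fin (n + 1) → M) (E : Derivation ℤ M M) : Fin (n + 1) ⊕ ι → M :=
  Sum.elim (fun k => E (x k))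
    (fun j => if yv d a x j = 0 then 0 else E (yv d a x j) / yv d a x j)

theorem vecD_eq_vecE (D : ι → Expo n → Derivation ℤ M M) (x : Fin (n + 1) → M) (i : ι)
    (I : Expo n) : vecD d a D x i I = vecE d a x (D i I) := rfl

theorem vecE_add (x : Fin (n + 1) → M) (E E' : Derivation ℤ M M) :
    vecE d a x (E + E') = vecE d a x E + vecE d a x E' := by
  funext z
  rcases z with k | j
  · rfl
  · simp only [vecE, Sum.elim_inr, Pi.add_apply, Derivation.add_apply]
    split_ifs
    · simp
    · rw [add_div]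

theorem vecE_smul (x : Fin (n + 1) → M) (c : M) (E : Derivation ℤ M M) :
    vecE d a x (c • E) = c • vecE d a x E := by
  funext z
  rcases z with k | j
  · rfl
  · simp only [vecE, Sum.elim_inr, Pi.smul_apply, Derivation.smul_apply, smul_eq_mul]
    split_ifs
    · simp
    · rw [mul_div_assoc]

/-- the vector of a derivation, as a linear map -/
noncomputable def vecL (x : Fin (n + 1) → M) :
    Derivation ℤ M M →ₗ[M] (Fin (n + 1) ⊕ ι → M) where
  toFun := vecE d a x
  map_add' := vecE_add d a x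
  map_smul' := vecE_smul d a x

theorem vecE_scale {α : M} (hα : α ≠ 0) (q : Fin (n + 1) → M) (E : Derivation ℤ M M) :
    vecE d a (fun k => α * q k) E = TT α (vecE d a q E + (E α / α) • vecP d a q) := by
  funext z
  rcases z with k | j
  · rw [TT_inl]
    simp only [vecE, vecP, Sum.elim_inl, Derivation.leibniz, smul_eq_mul, Pi.add_apply,
      Pi.smul_apply]
    field_simp
  · exact congrFun (vecD_smul d a (fun _ _ => E) hα q j 0) (Sum.inr j)

/-- the square matrix with the rows `P` and the vectors of the derivations, and the columns `e` -/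
noncomputable def bigM {R : Type*} (e : Option R → Fin (n + 1) ⊕ ι) (x : Fin (n + 1) → M)
    (E : R → Derivation ℤ M M) : Matrix (Option R) (Option R) M :=
  Matrix.of fun ρ z => Option.elim ρ (vecP d a x) (fun ρ => vecE d a x (E ρ)) (e z)

variable {d a}

theorem det_bigM_scale {R : Type*} [Fintype R] [DecidableEq R] {α : M} (hα : α ≠ 0)
    (q : Fin (n + 1) → M) (e : Option R → Fin (n + 1) ⊕ ι) (E : R → Derivation ℤ M M) :
    (bigM d a e (fun k => α * q k) E).det =
      α ^ (Nat.card {b // (e b).isLeft}) * (bigM d a e q E).det := by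
  classical
  set B := bigM d a e q E with hB
  let c : Option R → M := fun ρ => Option.elim ρ 0 (fun ρ => E ρ α / α)
  let A : Matrix (Option R) (Option R) M := Matrix.of fun ρ z => B ρ z + c ρ * B none z
  have hA : A.det = B.det := by
    refine Matrix.det_eq_of_forall_row_eq_smul_add_const c none (by simp [c]) ?_
    intro ρ z
    rfl
  let s : Fin (n + 1) ⊕ ι → M := Sum.elim (fun _ => α) (fun _ => 1)
  have hs : bigM d a e (fun k => α * q k) E = Matrix.of fun ρ z => s (e z) * A ρ z := by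
    ext ρ z
    have hP0 : B none z = vecP d a q (e z) := rfl
    show _ = s (e z) * (B ρ z + c ρ * B none z)
    rw [hP0]
    have hT : ∀ w : Fin (n + 1) ⊕ ι → M, TT α w (e z) = s (e z) * w (e z) := by
      intro w
      rcases e z with k | j
      · rfl
      · rw [TT_inr]
        simp [s]
    rcases ρ with _ | ρ
    · show vecP d a (fun k => α * q k) (e z) = s (e z) * (vecP d a q (e z) + 0 * vecP d a q (e z))
      rw [vecP_smul d a hα, hT]; ring
    · show vecE d a (fun k => α * q k) (E ρ) (e z) =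
          s (e z) * (vecE d a q (E ρ) (e z) + (E ρ α / α) * vecP d a q (e z))
      rw [vecE_scale d a hα, hT]
      rfl
  rw [hs, Matrix.det_mul_row, hA]
  congr 1
  have h1 : ∀ b, s (e b) = if (e b).isLeft then α else 1 := by
    intro b
    rcases e b with k | j <;> simp [s]
  simp only [h1, Finset.prod_ite, Finset.prod_const_one, mul_one, Finset.prod_const]
  congr 1
  rw [Nat.card_eq_fintype_card, Fintype.card_subtype]

end Rows

section Local

variable {n : ℕ} {ι : Type*} {L : Type*} [Field L] {d : ι → ℕ} {a : ι → Expo n → L}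

/-- The local estimate for normalised points. -/
theorem det_bigM_norm {R : Type*} [Fintype R] [DecidableEq R] (v : Valuation L ℤᵐ⁰) {π : L}
    (hπ : v π = exp (-1 : ℤ)) (E : R → Derivation ℤ L L)
    (hpol : ∀ y, v y ≤ 1 → ∃ g, v g ≤ 1 ∧ ∀ ρ, v (E ρ y - g * E ρ π) ≤ 1) {k₁ k₂ : ℕ}
    (hord : ∀ ρ, v (E ρ π) ≤ exp (k₁ : ℤ))
    {q : Fin (n + 1) → L} (hq : ∀ k, v (q k) ≤ 1)
    (hy : ∀ j, yv d a q j ≠ 0 → v (yv d a q j) = 1 ∨ k₂ = 1)
    (e : Option R → Fin (n + 1) ⊕ ι) :
    v (bigM d a e q E).det ≤ exp ((k₁ + k₂ : ℕ) : ℤ) := by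
  classical
  have hleib : ∀ ρ x y, E ρ (x * y) = x * E ρ y + y * E ρ x := by
    intro ρ x y
    simp only [Derivation.leibniz, smul_eq_mul]
  have hpow : ∀ ρ x, x ≠ 0 → ∀ k : ℤ, E ρ (x ^ k) = k * x ^ (k - 1) * E ρ x := by
    intro ρ x hx k
    simp only [Derivation.leibniz_zpow, smul_eq_mul, zsmul_eq_mul]
    ring
  have hcol : ∀ z : Fin (n + 1) ⊕ ι, ∃ τ, v τ ≤ exp (k₂ : ℤ) ∧
      ∀ ρ, v (vecE d a q (E ρ) z - E ρ π * τ) ≤ 1 := by
    have hk2 : (1 : ℤᵐ⁰) ≤ exp (k₂ : ℤ) := by
      rw [← exp_zero]; exact exp_le_exp.mpr (by positivity)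
    intro z
    rcases z with k | j
    · obtain ⟨g, hg, h⟩ := hpol (q k) (hq k)
      refine ⟨g, hg.trans hk2, fun ρ => ?_⟩
      have := h ρ
      simp only [vecE, Sum.elim_inl]
      rwa [mul_comm (E ρ π) g]
    · by_cases h0 : yv d a q j = 0
      · refine ⟨0, by simp, fun ρ => ?_⟩
        simp only [vecE, Sum.elim_inr, if_pos h0]
        simp
      · obtain ⟨τ, h1, h2, h3⟩ := log_der_polar v (fun ρ y => E ρ y) hleib hpow hπ hpol h0
        refine ⟨τ, ?_, fun ρ => ?_⟩
        · rcases hy j h0 with h | h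
          · exact (h2 h).trans hk2
          · rw [h]; exact_mod_cast h1
        · have := h3 ρ
          simp only [vecE, Sum.elim_inr, if_neg h0]
          exact this
  choose τ hτ hcolτ using hcol
  set B := bigM d a e q E with hB
  have hrow : ∀ ρ, ∃ c, v c ≤ exp (k₁ : ℤ) ∧ ∀ b, v (B ρ b - c * τ (e b)) ≤ 1 := by
    intro ρ
    rcases ρ with _ | ρ
    · refine ⟨0, by simp, fun b => ?_⟩
      show v (vecP d a q (e b) - 0 * τ (e b)) ≤ 1
      rw [zero_mul, sub_zero]
      rcases e b with k | j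
      · exact hq k
      · simp only [vecP, Sum.elim_inr]
        split_ifs
        · simp
        · exact v_nat v _
    · exact ⟨E ρ π, hord ρ, fun b => hcolτ (e b) ρ⟩
  choose c hc hreg using hrow
  have hdet := det_polar v (Matrix.of fun r z => B r z - c r * τ (e z))
    (fun r z => hreg r z) c (fun b => τ (e b)) k₁ k₂ hc (fun b => hτ (e b))
  have h1 : (Matrix.of fun r z => (Matrix.of fun r z => B r z - c r * τ (e z)) r z +
      c r * τ (e z)) = B := by
    ext r z
    simp
  rw [h1] at hdet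
  exact hdet

/-- The local estimate. -/
theorem det_bigM_le {R : Type*} [Fintype R] [DecidableEq R] (v : Valuation L ℤᵐ⁰) {π : L}
    (hπ : v π = exp (-1 : ℤ)) (E : R → Derivation ℤ L L)
    (hpol : ∀ y, v y ≤ 1 → ∃ g, v g ≤ 1 ∧ ∀ ρ, v (E ρ y - g * E ρ π) ≤ 1) {k₁ k₂ : ℕ}
    (hord : ∀ ρ, v (E ρ π) ≤ exp (k₁ : ℤ))
    {x : Fin (n + 1) → L} (hx : x ≠ 0)
    (hy : ∀ j, yv d a x j ≠ 0 → v (yv d a x j) = vmax v x ^ d j ∨ k₂ = 1)
    (e : Option R → Fin (n + 1) ⊕ ι) :
    v (bigM d a e x E).det ≤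
      vmax v x ^ (Nat.card {b // (e b).isLeft}) * exp ((k₁ + k₂ : ℕ) : ℤ) := by
  classical
  obtain ⟨l, hl0, hlmax, hle⟩ := exists_vmax v hx
  set α := x l with hα
  set q : Fin (n + 1) → L := fun k => x k / α with hq
  have hxq : x = fun k => α * q k := by
    funext k
    show x k = α * (x k / α)
    field_simp
  have hqle : ∀ k, v (q k) ≤ 1 := by
    intro k
    rw [hq]
    simp only
    rw [map_div₀]
    exact div_le_one_of_le₀ (hle k) zero_le
  have hyq : ∀ j, yv d a x j = α ^ d j * yv d a q j := by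
    intro j
    conv_lhs => rw [hxq]
    exact yv_smul d a α q j
  have hvα : v α ≠ 0 := (Valuation.ne_zero_iff v).mpr hl0
  have h5 := det_bigM_norm (a := a) v hπ E hpol hord hqle (k₂ := k₂) (by
    intro j hj
    have h6 : yv d a x j ≠ 0 := by
      rw [hyq]; exact mul_ne_zero (pow_ne_zero _ hl0) hj
    rcases hy j h6 with h7 | h7
    · left
      rw [hyq, map_mul, map_pow, hlmax] at h7
      exact mul_left_cancel₀ (pow_ne_zero _ hvα) (by rw [h7, mul_one])
    · exact Or.inr h7) e
  have h8 : (bigM d a e x E).det =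
      α ^ (Nat.card {b // (e b).isLeft}) * (bigM d a e q E).det := by
    conv_lhs => rw [hxq]
    exact det_bigM_scale hl0 q e E
  rw [h8, map_mul, map_pow, hlmax]
  exact mul_le_mul' le_rfl h5

end Local

end Pool.Agent.Lib.MP_44a246_nt
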