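import Mathlib
import Pool.Agent.Lib.MP_44a246_nt.Rows

/-!
The element J with additional rows and Pluecker coordinates of the tangent space.
-/

namespace Pool.Agent.Lib.MP_44a246_nt

open Pool.Agent.Lib.MP_e52354_nt

section LinAlg

variable {M : Type*} [Field M]

/-- extension of a linearly independent family by elements of a set -/
theorem exists_ext_family {κ W : Type*} [AddCommGroup W] [Module M W] [FiniteDimensional M W]
    (f : κ → W) (hf : LinearIndependent M f) (T : Set W) :
    ∃ (r : ℕ) (Z : Fin r → W), (∀ k, Z k ∈ T) ∧ LinearIndependent M (Sum.elim f Z) ∧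
      Submodule.span M (Set.range (Sum.elim f Z)) = Submodule.span M (Set.range f ∪ T) := by
  classical
  obtain ⟨b, hbt, hfb, htb, hbi⟩ := exists_linearIndepOn_id_extension (K := M)
    (s := Set.range f) (t := Set.range f ∪ T) hf.linearIndepOn_id Set.subset_union_left
  have hbfin : b.Finite := hbi.finite
  have hbi' : LinearIndependent M ((↑) : b → W) := hbi
  have hcfin : (b \ Set.range f).Finite := hbfin.subset Set.sdiff_subset
  let g : Fin hcfin.toFinset.card ≃ hcfin.toFinset := hcfin.toFinset.equivFin.symm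
  have hg : ∀ i, ((g i : hcfin.toFinset) : W) ∈ b \ Set.range f := by
    intro i
    exact hcfin.mem_toFinset.mp (g i).2
  let Z : Fin hcfin.toFinset.card → W := fun i => (g i).1
  refine ⟨_, Z, ?_, ?_, ?_⟩
  · intro i
    rcases hbt (hg i).1 with h | h
    · exact absurd h (hg i).2
    · exact h
  · let e : κ ⊕ Fin hcfin.toFinset.card → b :=
      Sum.elim (fun k => ⟨f k, hfb ⟨k, rfl⟩⟩) (fun i => ⟨Z i, (hg i).1⟩)
    have he : Function.Injective e := by
      rintro (k | i) (k' | i') h
      · simp only [e, Sum.elim_inl, Subtype.mk.injEq] at h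
        rw [hf.injective h]
      · simp only [e, Sum.elim_inl, Sum.elim_inr, Subtype.mk.injEq] at h
        exact absurd ⟨k, h⟩ (hg i').2
      · simp only [e, Sum.elim_inl, Sum.elim_inr, Subtype.mk.injEq] at h
        exact absurd ⟨k', h.symm⟩ (hg i).2
      · simp only [e, Sum.elim_inr, Subtype.mk.injEq, Z] at h
        rw [g.injective (Subtype.ext h)]
    have h1 := hbi'.comp e he
    have h2 : ((↑) : b → W) ∘ e = Sum.elim f Z := by
      funext i
      rcases i with k | i <;> rfl
    rwa [h2] at h1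
  · apply le_antisymm
    · rw [Submodule.span_le]
      rintro _ ⟨k | i, rfl⟩
      · exact Submodule.subset_span (Or.inl ⟨k, rfl⟩)
      · exact Submodule.subset_span (hbt (hg i).1)
    · rw [Submodule.span_le]
      refine htb.trans ?_
      rw [SetLike.coe_subset_coe, Submodule.span_le]
      intro z hz
      apply Submodule.subset_span
      by_cases hzf : z ∈ Set.range f
      · obtain ⟨k, rfl⟩ := hzf
        exact ⟨Sum.inl k, rfl⟩
      · obtain ⟨i, hi⟩ := g.surjective ⟨z, by simpa using ⟨hz, by simpa using hzf⟩⟩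
        exact ⟨Sum.inr i, by simp only [Sum.elim_inr, Z]; rw [hi]⟩

/-- nonvanishing minor -/
theorem exists_minor {ι : Type*} [Finite ι] (W : Submodule M (ι → M)) :
    ∃ (ω : Module.Basis (Fin (Module.finrank M W)) M W) (β : Fin (Module.finrank M W) → ι),
      (Matrix.of fun i j => (ω i : ι → M) (β j)).det ≠ 0 := by
  classical
  obtain ⟨s, hs, hs'⟩ := exists_cols W
  let g : Fin (Module.finrank M W) ≃ s := (s.equivFinOfCardEq hs).symm
  refine ⟨Module.finBasis M W, fun j => (g j).1, ?_⟩
  intro hdet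
  obtain ⟨c, hc0, hc⟩ := Matrix.exists_vecMul_eq_zero_iff.mpr hdet
  apply hc0
  have h1 : (∑ i, c i • Module.finBasis M W i : W) = 0 := by
    apply Subtype.ext
    apply hs' _ (∑ i, c i • Module.finBasis M W i : W).2
    intro z hz
    obtain ⟨j, hj⟩ := g.surjective ⟨z, hz⟩
    have h2 := congrFun hc j
    rw [Matrix.vecMul, dotProduct] at h2
    simp only [Matrix.of_apply, hj] at h2
    simpa [Finset.sum_apply] using h2
  funext i
  exact Fintype.linearIndependent_iff.mp (Module.finBasis M W).linearIndependent c h1 i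

/-- Factorisation of the determinants. -/
theorem exists_factor {κ α ι : Type*} [Fintype κ] [DecidableEq κ] [Fintype ι] [DecidableEq ι]
    [Finite α] (V : Submodule M (α ⊕ ι → M)) (F : (α ⊕ ι → M) →ₗ[M] (ι → M))
    (w : ι → α ⊕ ι → M) (hwV : ∀ i, w i ∈ V)
    (hwf : ∀ i j, F (w i) j = if i = j then 1 else 0)
    (C : κ → α ⊕ ι → M) (hC : LinearIndependent M C)
    (hCK : Submodule.span M (Set.range C) = V ⊓ LinearMap.ker F)
    (X : Submodule M (α → M))
    (hX : V.map (LinearMap.funLeft M M (Sum.inl : α → α ⊕ ι)) = X)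
    (N : ι → Prop) (hN : ∀ j, N j → ∀ v ∈ V, v (Sum.inr j) = 0)
    (bas : Module.Basis (Fin (Module.finrank M X)) M X) :
    ∃ (c : ℕ) (β : Fin c → ι) (ε : κ ⊕ ι ≃ Fin (Module.finrank M X) ⊕ Fin c),
      c + Nat.card {j // N j} ≤ Fintype.card ι ∧
      ∃ J : M, J ≠ 0 ∧ ∀ (A : Fin (Module.finrank M X) → α) (v : ι → α ⊕ ι → M),
        (∀ i, v i ∈ V) →
        (Matrix.of fun ρ z => (Sum.elim C v : κ ⊕ ι → α ⊕ ι → M) ρ
          (Sum.elim (fun j => Sum.inl (A j)) (fun j => Sum.inr (β j)) (ε z) : α ⊕ ι)).det =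
        J * (Matrix.of fun i j => (bas i : α → M) (A j)).det *
          (Matrix.of fun i j => F (v i) j).det := by
  classical
  have hCV : ∀ k, C k ∈ V := fun k => by
    have : C k ∈ V ⊓ LinearMap.ker F := by
      rw [← hCK]; exact Submodule.subset_span ⟨k, rfl⟩
    exact this.1
  have hCF : ∀ k, F (C k) = 0 := fun k => by
    have : C k ∈ V ⊓ LinearMap.ker F := by
      rw [← hCK]; exact Submodule.subset_span ⟨k, rfl⟩
    exact this.2
  -- every element of V is a combination of C and w
  have hdec : ∀ v ∈ V, ∃ c : κ → M, v = ∑ k, c k • C k + ∑ j, F v j • w j := by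
    intro v hv
    have h2 : v - ∑ j, F v j • w j ∈ V ⊓ LinearMap.ker F := by
      refine ⟨Submodule.sub_mem _ hv (Submodule.sum_mem _ fun j _ =>
        Submodule.smul_mem _ _ (hwV j)), ?_⟩
      rw [SetLike.mem_coe, LinearMap.mem_ker]
      funext j'
      rw [map_sub, map_sum, Pi.sub_apply, Finset.sum_apply]
      have h3 : ∀ j, F (F v j • w j) j' = F v j * (if j = j' then 1 else 0) := by
        intro j
        rw [map_smul, Pi.smul_apply, hwf, smul_eq_mul]
      simp [h3]
    rw [← hCK] at h2
    obtain ⟨c, hc⟩ := (Submodule.mem_span_range_iff_exists_fun M).mp h2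
    exact ⟨c, by rw [hc]; abel⟩
  -- the first basis
  have hli0 : LinearIndependent M (fun ρ : κ ⊕ ι =>
      (⟨Sum.elim C w ρ, by rcases ρ with k | i; exacts [hCV k, hwV i]⟩ : V)) := by
    rw [Fintype.linearIndependent_iff]
    intro c hc
    have h1 : ∑ k, c (Sum.inl k) • C k + ∑ i, c (Sum.inr i) • w i = 0 := by
      have := congrArg V.subtype hc
      simpa [Fintype.sum_sum_type] using this
    have h2 : ∀ j, c (Sum.inr j) = 0 := by
      intro j
      have h3 := congrFun (congrArg F h1) j
      rw [map_add, map_sum, map_sum, map_zero, Pi.add_apply, Finset.sum_apply,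
        Finset.sum_apply] at h3
      simp only [map_smul, Pi.smul_apply] at h3
      simp only [hwf, smul_eq_mul, Pi.zero_apply, hCF] at h3
      simpa using h3
    have h3 : ∑ k, c (Sum.inl k) • C k = 0 := by
      simp only [h2, zero_smul, Finset.sum_const_zero, add_zero] at h1
      exact h1
    have h4 := Fintype.linearIndependent_iff.mp hC (fun k => c (Sum.inl k)) h3
    rintro (k | j)
    · exact h4 k
    · exact h2 j
  have hsp0 : ⊤ ≤ Submodule.span M (Set.range (fun ρ : κ ⊕ ι =>
      (⟨Sum.elim C w ρ, by rcases ρ with k | i; exacts [hCV k, hwV i]⟩ : V))) := by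
    rintro ⟨v, hv⟩ -
    obtain ⟨c, hc⟩ := hdec v hv
    rw [Submodule.mem_span_range_iff_exists_fun]
    refine ⟨Sum.elim c (F v), ?_⟩
    apply Subtype.ext
    rw [Fintype.sum_sum_type]
    simp only [Sum.elim_inl, Sum.elim_inr, Submodule.coe_add, Submodule.coe_sum,
      Submodule.coe_smul]
    exact hc.symm
  let b0 : Module.Basis (κ ⊕ ι) M V := Module.Basis.mk hli0 hsp0
  have hb0 : ∀ ρ, ((b0 ρ : V) : α ⊕ ι → M) = Sum.elim C w ρ := by
    intro ρ
    simp only [b0, Module.Basis.mk_apply]
  -- the second basis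
  let W2 : Submodule M (ι → M) :=
    V.comap (LinearMap.pi fun z => Sum.elim (fun _ => 0) (fun j => LinearMap.proj j) z)
  have hW2 : ∀ u : ι → M, u ∈ W2 ↔ (Sum.elim (fun _ => 0) u : α ⊕ ι → M) ∈ V := by
    intro u
    have : (LinearMap.pi fun z : α ⊕ ι =>
        Sum.elim (fun _ => (0 : (ι → M) →ₗ[M] M)) (fun j => LinearMap.proj j) z) u =
        (Sum.elim (fun _ => 0) u : α ⊕ ι → M) := by
      funext z
      cases z <;> simp
    rw [← this]
    exact Iff.rfl
  obtain ⟨ω, β, hβ⟩ := exists_minor W2
  have hlift : ∀ i, ∃ u ∈ V, ∀ k, u (Sum.inl k) = (bas i : α → M) k := by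
    intro i
    have h1 : (bas i : α → M) ∈ V.map (LinearMap.funLeft M M (Sum.inl : α → α ⊕ ι)) := by
      rw [hX]; exact (bas i).2
    obtain ⟨u, hu, hu'⟩ := h1
    exact ⟨u, hu, fun k => congrFun hu' k⟩
  choose u huV hu using hlift
  let ω' : Fin (Module.finrank M W2) → α ⊕ ι → M := fun i => Sum.elim (fun _ => 0) (ω i : ι → M)
  have hω' : ∀ i, ω' i ∈ V := fun i => (hW2 _).mp (ω i).2
  have hli1 : LinearIndependent M (fun ρ : Fin (Module.finrank M X) ⊕ Fin (Module.finrank M W2) =>
      (⟨Sum.elim u ω' ρ, by rcases ρ with k | i; exacts [huV k, hω' i]⟩ : V)) := by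
    rw [Fintype.linearIndependent_iff]
    intro c hc
    have h1 : ∑ k, c (Sum.inl k) • u k + ∑ i, c (Sum.inr i) • ω' i = 0 := by
      have := congrArg V.subtype hc
      simpa [Fintype.sum_sum_type] using this
    have h2 : (∑ k, c (Sum.inl k) • bas k : X) = 0 := by
      apply Subtype.ext
      funext k
      have h3 := congrFun h1 (Sum.inl k)
      simp only [Pi.add_apply, Finset.sum_apply, Pi.smul_apply, hu, ω', Sum.elim_inl,
        smul_zero, Finset.sum_const_zero, add_zero] at h3
      simpa [Finset.sum_apply] using h3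
    have h3 := Fintype.linearIndependent_iff.mp bas.linearIndependent _ h2
    have h4 : (∑ k, c (Sum.inr k) • ω k : W2) = 0 := by
      apply Subtype.ext
      funext j
      have h5 := congrFun h1 (Sum.inr j)
      simp only [h3, zero_smul, Finset.sum_const_zero, zero_add, Finset.sum_apply,
        Pi.smul_apply, ω', Sum.elim_inr] at h5
      simpa [Finset.sum_apply] using h5
    have h5 := Fintype.linearIndependent_iff.mp ω.linearIndependent _ h4
    rintro (k | j)
    · exact h3 k
    · exact h5 j
  have hsp1 : ⊤ ≤ Submodule.span M (Set.range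
      (fun ρ : Fin (Module.finrank M X) ⊕ Fin (Module.finrank M W2) =>
      (⟨Sum.elim u ω' ρ, by rcases ρ with k | i; exacts [huV k, hω' i]⟩ : V))) := by
    rintro ⟨v, hv⟩ -
    have h1 : (fun k => v (Sum.inl k)) ∈ X := by
      rw [← hX]; exact ⟨v, hv, rfl⟩
    have h2 : (fun j => v (Sum.inr j) - ∑ i, bas.repr ⟨_, h1⟩ i * u i (Sum.inr j)) ∈ W2 := by
      rw [hW2]
      have h3 : (Sum.elim (fun _ => 0) (fun j => v (Sum.inr j) -
          ∑ i, bas.repr ⟨_, h1⟩ i * u i (Sum.inr j)) : α ⊕ ι → M) =
          v - ∑ i, bas.repr ⟨_, h1⟩ i • u i := by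
        funext z
        rcases z with k | j
        · simp only [Sum.elim_inl, Pi.sub_apply, Finset.sum_apply, Pi.smul_apply, smul_eq_mul, hu]
          have h4 := congrFun (congrArg Subtype.val (bas.sum_repr ⟨_, h1⟩)) k
          simp only [Submodule.coe_sum, Submodule.coe_smul, Finset.sum_apply, Pi.smul_apply,
            smul_eq_mul] at h4
          rw [h4, sub_self]
        · simp only [Sum.elim_inr, Pi.sub_apply, Finset.sum_apply, Pi.smul_apply, smul_eq_mul]
      rw [h3]
      exact Submodule.sub_mem _ hv (Submodule.sum_mem _ fun i _ =>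
        Submodule.smul_mem _ _ (huV i))
    rw [Submodule.mem_span_range_iff_exists_fun]
    refine ⟨Sum.elim (fun i => bas.repr ⟨_, h1⟩ i) (fun i => ω.repr ⟨_, h2⟩ i), ?_⟩
    apply Subtype.ext
    rw [Fintype.sum_sum_type]
    simp only [Sum.elim_inl, Sum.elim_inr, Submodule.coe_add, Submodule.coe_sum,
      Submodule.coe_smul]
    funext z
    rcases z with k | j
    · simp only [Pi.add_apply, Finset.sum_apply, Pi.smul_apply, smul_eq_mul, hu, ω', Sum.elim_inl,
        mul_zero, Finset.sum_const_zero, add_zero]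
      have h4 := congrFun (congrArg Subtype.val (bas.sum_repr ⟨_, h1⟩)) k
      simpa only [Submodule.coe_sum, Submodule.coe_smul, Finset.sum_apply, Pi.smul_apply,
        smul_eq_mul] using h4
    · simp only [Pi.add_apply, Finset.sum_apply, Pi.smul_apply, smul_eq_mul, ω', Sum.elim_inr]
      have h4 := congrFun (congrArg Subtype.val (ω.sum_repr ⟨_, h2⟩)) j
      simp only [Submodule.coe_sum, Submodule.coe_smul, Finset.sum_apply, Pi.smul_apply,
        smul_eq_mul] at h4
      rw [h4]
      ring
  let b1 : Module.Basis (Fin (Module.finrank M X) ⊕ Fin (Module.finrank M W2)) M V :=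
    Module.Basis.mk hli1 hsp1
  have hb1 : ∀ ρ, ((b1 ρ : V) : α ⊕ ι → M) = Sum.elim u ω' ρ := by
    intro ρ
    simp only [b1, Module.Basis.mk_apply]
  let ε : κ ⊕ ι ≃ Fin (Module.finrank M X) ⊕ Fin (Module.finrank M W2) := b0.indexEquiv b1
  let S : Matrix (κ ⊕ ι) (κ ⊕ ι) M := Matrix.of fun ρ z => b1.repr (b0 ρ) (ε z)
  have hS : S.det ≠ 0 := by
    have h1 := Module.Basis.isUnit_det (b1.reindex ε.symm) b0
    rw [Module.Basis.det_apply] at h1
    have h2 : (b1.reindex ε.symm).toMatrix b0 = S.transpose := by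
      ext i j
      simp [Module.Basis.toMatrix_apply, S]
    rw [h2, Matrix.det_transpose] at h1
    exact h1.ne_zero
  refine ⟨Module.finrank M W2, β, ε, ?_, S.det * (Matrix.of fun i j => (ω i : ι → M) (β j)).det,
    mul_ne_zero hS hβ, ?_⟩
  · -- the inequality
    have h1 : Module.finrank M W2 ≤ Nat.card {i // ¬ N i} := by
      let q : W2 →ₗ[M] ({i // ¬ N i} → M) :=
        (LinearMap.funLeft M M (Subtype.val : {i // ¬ N i} → ι)).comp W2.subtype
      have hq : Function.Injective q := by
        rw [← LinearMap.ker_eq_bot, eq_bot_iff]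
        rintro ⟨u, hu⟩ hqu
        rw [Submodule.mem_bot]
        apply Subtype.ext
        funext j
        by_cases hj : N j
        · have := hN j hj _ ((hW2 u).mp hu)
          simpa using this
        · exact congrFun (LinearMap.mem_ker.mp hqu) ⟨j, hj⟩
      have h2 := LinearMap.finrank_le_finrank_of_injective hq
      rw [Module.finrank_fintype_fun_eq_card] at h2
      rw [Nat.card_eq_fintype_card]
      exact h2
    have h2 : Nat.card {i // N i} + Nat.card {i // ¬ N i} = Fintype.card ι := by
      rw [Nat.card_eq_fintype_card, Nat.card_eq_fintype_card, Fintype.card_subtype_compl]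
      have := Fintype.card_subtype_le (fun i => N i)
      omega
    omega
  · intro A v hv
    have hdec' : ∀ i, ∃ c : κ → M, v i = ∑ k, c k • C k + ∑ j, F (v i) j • w j :=
      fun i => hdec (v i) (hv i)
    choose c hc using hdec'
    set col : κ ⊕ ι → α ⊕ ι := fun z =>
      Sum.elim (fun j => Sum.inl (A j)) (fun j => Sum.inr (β j)) (ε z) with hcol
    have h2 : (Matrix.of fun ρ z => (Sum.elim C v : κ ⊕ ι → α ⊕ ι → M) ρ (col z)) =
        Matrix.fromBlocks 1 0 (Matrix.of c) (Matrix.of fun i j => F (v i) j) *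
          (Matrix.of fun ρ z => (Sum.elim C w : κ ⊕ ι → α ⊕ ι → M) ρ (col z)) := by
      ext b b'
      rw [Matrix.mul_apply, Fintype.sum_sum_type]
      cases b with
      | inl k =>
        simp only [Matrix.fromBlocks_apply₁₁, Matrix.fromBlocks_apply₁₂, Matrix.zero_apply,
          zero_mul, Finset.sum_const_zero, add_zero, Matrix.one_apply, ite_mul, one_mul,
          Matrix.of_apply, Sum.elim_inl]
        rw [Finset.sum_ite_eq]
        simp
      | inr i =>
        simp only [Matrix.fromBlocks_apply₂₁, Matrix.fromBlocks_apply₂₂, Matrix.of_apply,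
          Sum.elim_inl, Sum.elim_inr]
        conv_lhs => rw [hc i]
        simp [Finset.sum_apply]
    have h3 : (Matrix.of fun ρ z => (Sum.elim C w : κ ⊕ ι → α ⊕ ι → M) ρ (col z)) =
        S * (Matrix.fromBlocks (Matrix.of fun i j => (bas i : α → M) (A j))
          (Matrix.of fun i j => u i (Sum.inr (β j))) 0
          (Matrix.of fun i j => (ω i : ι → M) (β j))).submatrix ε ε := by
      ext ρ z
      rw [Matrix.mul_apply, Matrix.of_apply, ← hb0, ← b1.sum_repr (b0 ρ)]
      rw [← Equiv.sum_comp ε]
      simp only [Submodule.coe_sum, Submodule.coe_smul, Finset.sum_apply, Pi.smul_apply,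
        smul_eq_mul, hb1]
      refine Finset.sum_congr rfl fun y _ => ?_
      simp only [S, Matrix.of_apply, Matrix.submatrix_apply, hcol]
      congr 1
      generalize ε y = y'
      generalize ε z = z'
      rcases y' with i | i <;> rcases z' with j | j <;> simp [hu, ω']
    rw [h2, h3, Matrix.det_mul, Matrix.det_mul, Matrix.det_fromBlocks_zero₁₂, Matrix.det_one,
      one_mul, Matrix.det_submatrix_equiv_self, Matrix.det_fromBlocks_zero₂₁]
    ring

end LinAlg

section Jac2

variable {n : ℕ} {ι : Type*} {M : Type*} [Field M] {𝓑 : Type*}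

variable (d : ι → ℕ) (a : ι → Expo n → M) (D : ι → Expo n → Derivation ℤ M M)
  (E : 𝓑 → Derivation ℤ M M)

/-- the derivation of a generator -/
noncomputable def genDer (m : ℕ) (g : Gen n ι M) : Derivation ℤ M M :=
  ∑ K ∈ expo (Fin (n + 1)) m, g.G K • D g.i (K + g.U)

/-- the space spanned by the Euler vector and the vectors of all the derivations -/
noncomputable def spanV2 (x : Fin (n + 1) → M) : Submodule M (Fin (n + 1) ⊕ ι → M) :=
  Submodule.span M (insert (vecP d a x)
    ({w | ∃ i, ∃ I ∈ expo (Fin (n + 1)) (d i), w = vecE d a x (D i I)} ∪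
      {w | ∃ b, w = vecE d a x (E b)}))

/-- the first block of `spanV2` -/
noncomputable def spanX2 (x : Fin (n + 1) → M) : Submodule M (Fin (n + 1) → M) :=
  Submodule.span M (insert x
    ({w | ∃ i, ∃ I ∈ expo (Fin (n + 1)) (d i), w = fun k => D i I (x k)} ∪
      {w | ∃ b, w = fun k => E b (x k)}))

/-- the space spanned by the point and its derivatives by the derivations `E` -/
noncomputable def spanX1 (x : Fin (n + 1) → M) : Submodule M (Fin (n + 1) → M) :=
  Submodule.span M (insert x {w | ∃ b, w = fun k => E b (x k)})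

variable {d a D E}

variable [Fintype ι] [DecidableEq ι]

omit [Fintype ι] [DecidableEq ι] in
theorem vecE_genDer (m : ℕ) (x : Fin (n + 1) → M) (g : Gen n ι M) :
    vecE d a x (genDer D m g) = Zgen d a D m x g := by
  have h1 : vecE d a x (genDer D m g) = vecL d a x (genDer D m g) := rfl
  rw [h1, genDer, map_sum, Zgen_eq_sum]
  refine Finset.sum_congr rfl fun K _ => ?_
  rw [map_smul]
  rfl

omit [Fintype ι] [DecidableEq ι] in
theorem func_vecE {b : Derivation ℤ M M} {j : ι}
    (hb : ∀ I ∈ expo (Fin (n + 1)) (d j), b (a j I) = 0) (x : Fin (n + 1) → M) :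
    func d a x j (vecE d a x b) = 0 := by
  classical
  have h1 := D_Fval (d j) (a j) b x
  have h2 : ∑ J ∈ expo (Fin (n + 1)) (d j), b (a j J) * mon x J = 0 :=
    Finset.sum_eq_zero fun J hJ => by rw [hb J hJ, zero_mul]
  have h3 : yv d a x j * (if yv d a x j = 0 then 0 else b (yv d a x j) / yv d a x j) =
      b (yv d a x j) := by
    split_ifs with h0
    · rw [h0, map_zero, mul_zero]
    · field_simp
  unfold func vecE
  simp only [Sum.elim_inl, Sum.elim_inr]
  rw [h3]
  change b (yv d a x j) = _ at h1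
  rw [h1, h2]
  ring

omit [Fintype ι] [DecidableEq ι] in
theorem spanV2_inr {x : Fin (n + 1) → M} {j : ι} (hj : yv d a x j = 0)
    {v : Fin (n + 1) ⊕ ι → M} (hv : v ∈ spanV2 d a D E x) : v (Sum.inr j) = 0 := by
  unfold spanV2 at hv
  induction hv using Submodule.span_induction with
  | mem v hv =>
    rcases hv with rfl | ⟨i, I, hI, rfl⟩ | ⟨b, rfl⟩
    · simp [vecP, hj]
    · simp [vecE, hj]
    · simp [vecE, hj]
  | zero => rfl
  | add v₁ v₂ _ _ h₁ h₂ => rw [Pi.add_apply, h₁, h₂, add_zero]
  | smul c v _ h₁ => rw [Pi.smul_apply, h₁, smul_zero]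

omit [Fintype ι] [DecidableEq ι] in
theorem map_spanV2 (x : Fin (n + 1) → M) :
    (spanV2 d a D E x).map (LinearMap.funLeft M M (Sum.inl : Fin (n + 1) → Fin (n + 1) ⊕ ι)) =
      spanX2 d D E x := by
  unfold spanV2 spanX2
  rw [Submodule.map_span]
  congr 1
  ext w
  simp only [Set.mem_image, Set.mem_insert_iff, Set.mem_union, Set.mem_ofPred_eq]
  constructor
  · rintro ⟨v, rfl | ⟨i, I, hI, rfl⟩ | ⟨b, rfl⟩, rfl⟩
    · left
      funext k
      simp [LinearMap.funLeft_apply, vecP]
    · right; left
      refine ⟨i, I, hI, ?_⟩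
      funext k
      simp [LinearMap.funLeft_apply, vecE]
    · right; right
      refine ⟨b, ?_⟩
      funext k
      simp [LinearMap.funLeft_apply, vecE]
  · rintro (rfl | ⟨i, I, hI, rfl⟩ | ⟨b, rfl⟩)
    · refine ⟨_, Or.inl rfl, ?_⟩
      funext k
      simp [LinearMap.funLeft_apply, vecP]
    · refine ⟨_, Or.inr (Or.inl ⟨i, I, hI, rfl⟩), ?_⟩
      funext k
      simp [LinearMap.funLeft_apply, vecE]
    · refine ⟨_, Or.inr (Or.inr ⟨b, rfl⟩), ?_⟩
      funext k
      simp [LinearMap.funLeft_apply, vecE]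

omit [Fintype ι] [DecidableEq ι] in
/-- an element of the kernel of the functionals of `spanV2` is determined by its first block -/
theorem inl_injective {x : Fin (n + 1) → M} {v : Fin (n + 1) ⊕ ι → M}
    (hv : v ∈ spanV2 d a D E x) (hF : funcL d a x v = 0) (h0 : ∀ k, v (Sum.inl k) = 0) :
    v = 0 := by
  funext z
  rcases z with k | j
  · exact h0 k
  · by_cases hj : yv d a x j = 0
    · exact spanV2_inr hj hv
    · have h1 := congrFun hF j
      rw [funcL_apply, func] at h1
      simp only [h0, mul_zero, Finset.sum_const_zero, zero_sub, Pi.zero_apply, neg_eq_zero,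
        mul_eq_zero] at h1
      exact h1.resolve_left hj

theorem exists_J2 (hD : DualFam d a D)
    (hE : ∀ b i, ∀ I ∈ expo (Fin (n + 1)) (d i), E b (a i I) = 0)
    {x : Fin (n + 1) → M} {l : Fin (n + 1)} (hl : x l ≠ 0)
    (m : ℕ) (hm : 1 ≤ m) (hmd : ∀ i, m ≤ d i) (GS : Set (Expo n → M))
    (hGS : ∀ G ∈ GS, Fval m G x = 0)
    (hspan : ∀ G : Expo n → M, Fval m G x = 0 →
      ∃ G' ∈ Submodule.span M GS, ∀ I ∈ expo (Fin (n + 1)) m, G' I = G I)
    (bas : Module.Basis (Fin (Module.finrank M (spanX2 d D E x))) M (spanX2 d D E x)) :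
    ∃ (r r' : ℕ) (g : Fin r → Gen n ι M) (b : Fin r' → 𝓑)
      (col : (Fin (Module.finrank M (spanX2 d D E x)) → Fin (n + 1)) →
        Option (Fin r' ⊕ (Fin r ⊕ ι)) → Fin (n + 1) ⊕ ι),
      (∀ k, (g k).Valid d m GS) ∧
      r' + 1 = Module.finrank M (spanX1 E x) ∧
      r + Module.finrank M (spanX1 E x) + Nat.card {i // yv d a x i = 0} ≤
        Module.finrank M (spanX2 d D E x) ∧
      (∀ A, Nat.card {c // (col A c).isLeft} = Module.finrank M (spanX2 d D E x)) ∧
      ∃ J : M, J ≠ 0 ∧ ∀ (A : Fin (Module.finrank M (spanX2 d D E x)) → Fin (n + 1))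
        (V : ι → Derivation ℤ M M), (∀ i, vecE d a x (V i) ∈ spanV2 d a D E x) →
        (bigM d a (col A) x (Sum.elim (fun k => E (b k))
          (Sum.elim (fun k => genDer D m (g k)) V))).det =
          J * (Matrix.of fun i j => (bas i : Fin (n + 1) → M) (A j)).det *
            (Matrix.of fun i j => func d a x j (vecE d a x (V i))).det := by
  classical
  set V := spanV2 d a D E x with hV
  set P := vecP d a x with hP
  have hPV : P ∈ V := Submodule.subset_span (Set.mem_insert _ _)
  have hP0 : P ≠ 0 := by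
    intro h0
    apply hl
    have := congrFun h0 (Sum.inl l)
    simpa [hP, vecP] using this
  have hDV : ∀ i, ∀ I ∈ expo (Fin (n + 1)) (d i), vecE d a x (D i I) ∈ V := fun i I hI =>
    Submodule.subset_span (Set.mem_insert_of_mem _ (Or.inl ⟨i, I, hI, rfl⟩))
  have hEV : ∀ b, vecE d a x (E b) ∈ V := fun b =>
    Submodule.subset_span (Set.mem_insert_of_mem _ (Or.inr ⟨b, rfl⟩))
  have hPK : P ∈ LinearMap.ker (funcL d a x) := by
    rw [LinearMap.mem_ker]
    funext j
    exact func_vecP x j
  have hEK : ∀ b, vecE d a x (E b) ∈ LinearMap.ker (funcL d a x) := by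
    intro b
    rw [LinearMap.mem_ker]
    funext j
    exact func_vecE (hE b j) x
  -- vectors dual to the functionals
  let w : ι → Fin (n + 1) ⊕ ι → M := fun i =>
    (-(x l) ^ (d i))⁻¹ • vecE d a x (D i (Finsupp.single l (d i)))
  have hwV : ∀ i, w i ∈ V := fun i => Submodule.smul_mem _ _ (hDV i _
    (by rw [mem_expo, Finsupp.degree_single]))
  have hwf : ∀ i j, funcL d a x (w i) j = if i = j then 1 else 0 := by
    intro i j
    rw [map_smul, Pi.smul_apply, funcL_apply, ← vecD_eq_vecE,
      func_vecD hD x i (by rw [mem_expo, Finsupp.degree_single]) j, smul_eq_mul, mon_single]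
    split_ifs
    · exact inv_mul_cancel₀ (neg_ne_zero.mpr (pow_ne_zero _ hl))
    · rw [mul_zero]
  -- the first part of the kernel
  obtain ⟨r', Z1, hZ1, hli1, hsp1⟩ := exists_ext_family (M := M) (fun _ : Unit => P)
    (LinearIndependent.of_subsingleton () hP0) {w | ∃ b, w = vecE d a x (E b)}
  choose b hb using hZ1
  -- the second part
  obtain ⟨r, Z2, hZ2, hli2, hsp2⟩ := exists_ext_family (M := M) _ hli1
    {w | ∃ g : Gen n ι M, g.Valid d m GS ∧ Zgen d a D m x g = w}
  choose g hg hgZ using hZ2
  set f1 : Unit ⊕ Fin r' → Fin (n + 1) ⊕ ι → M := Sum.elim (fun _ : Unit => P) Z1 with hf1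
  set C : (Unit ⊕ Fin r') ⊕ Fin r → Fin (n + 1) ⊕ ι → M := Sum.elim f1 Z2 with hC
  have hf1K : ∀ k, f1 k ∈ V ⊓ LinearMap.ker (funcL d a x) := by
    rintro (_ | k)
    · exact ⟨hPV, hPK⟩
    · rw [hf1, Sum.elim_inr, hb k]
      exact ⟨hEV _, hEK _⟩
  have hZK : ∀ g : Gen n ι M, g.Valid d m GS →
      Zgen d a D m x g ∈ V ⊓ LinearMap.ker (funcL d a x) := by
    intro g hg
    refine ⟨?_, ?_⟩
    · rw [SetLike.mem_coe, Zgen_eq_sum]
      exact Submodule.sum_mem _ fun K hK => Submodule.smul_mem _ _
        (hDV _ _ (add_mem_expo hK hg.2))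
    · rw [SetLike.mem_coe, LinearMap.mem_ker]
      funext j
      exact func_Zgen hD x m GS hGS g hg j
  have hCK : Submodule.span M (Set.range C) = V ⊓ LinearMap.ker (funcL d a x) := by
    rw [hsp2]
    apply le_antisymm
    · rw [Submodule.span_le]
      rintro _ (⟨k, rfl⟩ | ⟨g, hg, rfl⟩)
      · exact hf1K k
      · exact hZK g hg
    · rintro v ⟨hv, hvK⟩
      rw [hV, spanV2, ← Set.insert_union, Submodule.span_union, SetLike.mem_coe,
        Submodule.mem_sup] at hv
      obtain ⟨v1, hv1, v2, hv2, rfl⟩ := hv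
      have h2 : v2 ∈ LinearMap.ker (funcL d a x) := by
        have : Submodule.span M {w | ∃ b, w = vecE d a x (E b)} ≤
            LinearMap.ker (funcL d a x) := by
          rw [Submodule.span_le]
          rintro _ ⟨b, rfl⟩
          exact hEK b
        exact this hv2
      have h1 : v1 ∈ LinearMap.ker (funcL d a x) := by
        have := Submodule.sub_mem _ hvK h2
        simpa using this
      have h3 := ker_le_span hD hl m hm hmd GS hspan ⟨hv1, h1⟩
      rw [Submodule.span_union]
      refine Submodule.add_mem _ ?_ ?_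
      · have h4 : Submodule.span M (insert (vecP d a x)
            {w | ∃ g : Gen n ι M, g.Valid d m GS ∧ Zgen d a D m x g = w}) ≤
            Submodule.span M (Set.range f1) ⊔
              Submodule.span M {w | ∃ g : Gen n ι M, g.Valid d m GS ∧ Zgen d a D m x g = w} := by
          rw [← Submodule.span_union]
          apply Submodule.span_mono
          rintro _ (rfl | h)
          · exact Or.inl ⟨Sum.inl (), rfl⟩
          · exact Or.inr h
        exact h4 h3
      · apply Submodule.mem_sup_left
        rw [hsp1, Submodule.span_union]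
        exact Submodule.mem_sup_right hv2
  obtain ⟨c, β, ε, hcard, J, hJ, hfac⟩ := exists_factor V (funcL d a x) w hwV hwf C hli2 hCK
    (spanX2 d D E x) (map_spanV2 x) (fun j => yv d a x j = 0)
    (fun j hj v hv => spanV2_inr hj hv) bas
  let eqv : Option (Fin r' ⊕ (Fin r ⊕ ι)) ≃ ((Unit ⊕ Fin r') ⊕ Fin r) ⊕ ι :=
    { toFun := fun o => Option.elim o (Sum.inl (Sum.inl (Sum.inl ())))
        (Sum.elim (fun k => Sum.inl (Sum.inl (Sum.inr k)))
          (Sum.elim (fun k => Sum.inl (Sum.inr k)) Sum.inr))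
      invFun := Sum.elim (Sum.elim (Sum.elim (fun _ => none) (fun k => some (Sum.inl k)))
        (fun k => some (Sum.inr (Sum.inl k)))) (fun i => some (Sum.inr (Sum.inr i)))
      left_inv := by rintro (_ | k | k | i) <;> rfl
      right_inv := by rintro (((_ | k) | k) | i) <;> rfl }
  have hX1 : r' + 1 = Module.finrank M (spanX1 E x) := by
    set K1 := Submodule.span M (Set.range f1) with hK1
    have h1 := finrank_span_eq_card hli1
    rw [Fintype.card_sum, Fintype.card_unit, Fintype.card_fin] at h1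
    let p : K1 →ₗ[M] (Fin (n + 1) → M) :=
      (LinearMap.funLeft M M (Sum.inl : Fin (n + 1) → Fin (n + 1) ⊕ ι)).comp K1.subtype
    have h2 : Function.Injective p := by
      rw [← LinearMap.ker_eq_bot, eq_bot_iff]
      rintro ⟨u, hu⟩ hpu
      rw [Submodule.mem_bot]
      apply Subtype.ext
      have h3 : K1 ≤ V ⊓ LinearMap.ker (funcL d a x) := by
        rw [hK1, Submodule.span_le]
        rintro _ ⟨k, rfl⟩
        exact hf1K k
      exact inl_injective (h3 hu).1 (LinearMap.mem_ker.mp (h3 hu).2)
        (fun k => congrFun (LinearMap.mem_ker.mp hpu) k)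
    have h3 : LinearMap.range p = spanX1 E x := by
      have h4 : LinearMap.range p =
          K1.map (LinearMap.funLeft M M (Sum.inl : Fin (n + 1) → Fin (n + 1) ⊕ ι)) := by
        simp only [p, LinearMap.range_comp, Submodule.range_subtype]
      rw [h4, hsp1, Submodule.map_span, spanX1]
      congr 1
      ext w
      simp only [Set.mem_image, Set.mem_insert_iff, Set.mem_union, Set.mem_ofPred_eq,
        Set.mem_range]
      constructor
      · rintro ⟨v, ⟨_, rfl⟩ | ⟨b, rfl⟩, rfl⟩
        · left
          funext k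
          simp [LinearMap.funLeft_apply, hP, vecP]
        · right
          refine ⟨b, ?_⟩
          funext k
          simp [LinearMap.funLeft_apply, vecE]
      · rintro (rfl | ⟨b, rfl⟩)
        · refine ⟨_, Or.inl ⟨(), rfl⟩, ?_⟩
          funext k
          simp [LinearMap.funLeft_apply, hP, vecP]
        · refine ⟨_, Or.inr ⟨b, rfl⟩, ?_⟩
          funext k
          simp [LinearMap.funLeft_apply, vecE]
    have h4 := LinearMap.finrank_range_of_inj h2
    rw [h3, h1] at h4
    rw [h4, add_comm]
  refine ⟨r, r', g, b, fun A z => Sum.elim (fun j => Sum.inl (A j)) (fun j => Sum.inr (β j))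
    (ε (eqv z)), hg, hX1, ?_, ?_, J, hJ, ?_⟩
  · have h1 := Fintype.card_congr ε
    rw [Fintype.card_sum, Fintype.card_sum, Fintype.card_sum, Fintype.card_sum,
      Fintype.card_unit, Fintype.card_fin, Fintype.card_fin, Fintype.card_fin,
      Fintype.card_fin] at h1
    rw [← hX1]
    omega
  · intro A
    refine (Nat.card_congr ?_).trans (Nat.card_fin (Module.finrank M (spanX2 d D E x)))
    refine ((eqv.trans ε).subtypeEquiv (q := fun z => z.isLeft = true) (fun z => ?_)).trans
      { toFun := fun z => z.1.getLeft z.2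
        invFun := fun i => ⟨Sum.inl i, rfl⟩
        left_inv := ?_
        right_inv := fun i => rfl }
    · show Sum.isLeft (Sum.elim (fun j => Sum.inl (A j)) (fun j => Sum.inr (β j))
          (ε (eqv z)) : Fin (n + 1) ⊕ ι) = true ↔ (ε (eqv z)).isLeft = true
      rcases ε (eqv z) with i | i <;> simp
    · rintro ⟨z | z, h⟩
      · rfl
      · simp at h
  · intro A V' hV'
    have h0 := hfac A (fun i => vecE d a x (V' i)) hV'
    simp only [funcL_apply] at h0
    rw [← h0]
    have h1 : bigM d a (fun z => Sum.elim (fun j => Sum.inl (A j)) (fun j => Sum.inr (β j))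
        (ε (eqv z))) x (Sum.elim (fun k => E (b k)) (Sum.elim (fun k => genDer D m (g k)) V')) =
        (Matrix.of fun ρ z => (Sum.elim C (fun i => vecE d a x (V' i)) :
          ((Unit ⊕ Fin r') ⊕ Fin r) ⊕ ι → Fin (n + 1) ⊕ ι → M) ρ
          (Sum.elim (fun j => Sum.inl (A j)) (fun j => Sum.inr (β j)) (ε z) :
            Fin (n + 1) ⊕ ι)).submatrix eqv eqv := by
      ext ρ z
      rw [Matrix.submatrix_apply, Matrix.of_apply, bigM, Matrix.of_apply]
      rcases ρ with _ | k | k | i
      · rfl
      · show vecE d a x (E (b k)) _ = Z1 k _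
        rw [hb k]
      · show vecE d a x (genDer D m (g k)) _ = Z2 k _
        rw [← hgZ k, vecE_genDer]
      · rfl
    rw [h1, Matrix.det_submatrix_equiv_self]

end Jac2

end Pool.Agent.Lib.MP_44a246_nt
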