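import Mathlib
import Pool.Agent.Lib.MP_44a246_nt.PlaceIneq
import Pool.Agent.Lib.MP_44a246_nt.Jac2

/-!
The logarithmic inequality at one place, with additional rows and Pluecker coordinates.
-/

namespace Pool.Agent.Lib.MP_44a246_nt

open Pool.Agent.Lib.MP_e52354_nt WithZero

section Rows2

variable {n : ℕ} {ι : Type*} {L : Type*} [Field L]

theorem bigM_smul {d : ι → ℕ} {a : ι → Expo n → L} {R : Type*} [Fintype R] [DecidableEq R]
    (e : Option R → Fin (n + 1) ⊕ ι) (x : Fin (n + 1) → L) (E : R → Derivation ℤ L L)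
    (w : R → L) :
    (bigM d a e x (fun ρ => w ρ • E ρ)).det = (∏ ρ, w ρ) * (bigM d a e x E).det := by
  have h : bigM d a e x (fun ρ => w ρ • E ρ) =
      Matrix.of fun ρ z => (Option.elim ρ 1 w : L) * bigM d a e x E ρ z := by
    ext ρ z
    rcases ρ with _ | ρ
    · show vecP d a x (e z) = 1 * vecP d a x (e z)
      rw [one_mul]
    · show vecE d a x (w ρ • E ρ) (e z) = w ρ * vecE d a x (E ρ) (e z)
      rw [vecE_smul]
      rfl
  rw [h, Matrix.det_mul_column, Fintype.prod_option]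
  simp

end Rows2

section PlaceIneq2

variable {R K₀ K L : Type*} [CommRing R] [IsDomain R] [IsPrincipalIdealRing R]
    [Field K₀] [Algebra R K₀] [IsFractionRing R K₀]
    [Field K] [Algebra R K] [Algebra K₀ K] [IsScalarTower R K₀ K] [FiniteDimensional K₀ K]
    [Algebra.IsSeparable K₀ K]
    [Field L] [Algebra R L] [Algebra K₀ L] [IsScalarTower R K₀ L] [FiniteDimensional K₀ L]
    [Algebra.IsSeparable K₀ L] [Algebra K L] [IsScalarTower R K L]

variable {n : ℕ} {ι : Type*} [Fintype ι] [DecidableEq ι] {𝓑 : Type*}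
variable {d : ι → ℕ} {a : ι → Expo n → L} {DK : ι → Expo n → Derivation ℤ K K}
  {DL : ι → Expo n → Derivation ℤ L L} {EK : 𝓑 → Derivation ℤ K K} {EL : 𝓑 → Derivation ℤ L L}

open Classical in
include K₀ in
/-- The inequality at one place. -/
theorem place_ineq2 (v : Valuation L ℤᵐ⁰) (hsurj : Function.Surjective v)
    (hv : ∀ ρ : R, v (algebraMap R L ρ) ≤ 1)
    (hext : ∀ i I y, DL i I (algebraMap K L y) = algebraMap K L (DK i I y))
    (hextE : ∀ b y, EL b (algebraMap K L y) = algebraMap K L (EK b y))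
    (hD : DualFam d a DL)
    {δ : R} (hδ0 : v (algebraMap R L δ) ≠ 0)
    (hδ : ∀ i, ∀ I ∈ expo (Fin (n + 1)) (d i), ∀ b : K, IsIntegral R b →
      IsIntegral R (algebraMap R K δ * DK i I b))
    (hδE : ∀ b, ∀ y : K, IsIntegral R y → IsIntegral R (algebraMap R K δ * EK b y))
    (C : Set L) (hC : ∀ c ∈ C, ∃ c' : K, IsIntegral R c' ∧ c = algebraMap K L c')
    (hres : ∀ y, v y ≤ 1 → ∃ c ∈ C, v (y - c) < 1) (hnat : ∀ k : ℕ, k ≠ 0 → v (k : L) = 1)
    {s₀ : K} {e₀ : ℕ} (he₀ : 1 ≤ e₀) (hs₀ : v (algebraMap K L s₀) = exp (-(e₀ : ℤ)))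
    {x : Fin (n + 1) → L} (hx : x ≠ 0) {m r r' c₁ : ℕ}
    (GS : Set (Expo n → L)) (g : Fin r → Gen n ι L) (hg : ∀ k, (g k).Valid d m GS)
    (b : Fin r' → 𝓑) {𝒜 : Type*} [Fintype 𝒜]
    (col : 𝒜 → Option (Fin r' ⊕ (Fin r ⊕ ι)) → Fin (n + 1) ⊕ ι)
    (hcol : ∀ A, Nat.card {c // (col A c).isLeft} = c₁) (p : 𝒜 → L) (hp : p ≠ 0)
    {J : L} (hJ0 : J ≠ 0)
    (hJ : ∀ (A : 𝒜) (V : ι → Derivation ℤ L L), (∀ i, vecE d a x (V i) ∈ spanV2 d a DL EL x) →
        (bigM d a (col A) x (Sum.elim (fun k => EL (b k))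
          (Sum.elim (fun k => genDer DL m (g k)) V))).det =
          J * p A * (Matrix.of fun i j => func d a x j (vecE d a x (V i))).det) :
    log (v J) + log (vmax v p) + ((∑ i, d i : ℕ) : ℤ) * log (vmax v x) +
        ((r' + (r + Fintype.card ι) : ℕ) : ℤ) * log (v (algebraMap R L δ)) ≤
      (c₁ : ℤ) * log (vmax v x) +
        ∑ k, log (Gam v m (g k).G) + ((e₀ - 1 : ℕ) : ℤ) +
        (if ∃ j, yv d a x j ≠ 0 ∧ v (yv d a x j) ≠ vmax v x ^ d j then 1 else 0) ∧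
      ∀ k, Gam v m (g k).G ≠ 0 := by
  obtain ⟨π, hπ⟩ := hsurj (exp (-1 : ℤ))
  let T := {θ : ι × Expo n // θ.2 ∈ expo (Fin (n + 1)) (d θ.1)}
  have hT : Finite T := by
    have : Function.Injective (fun θ : T => (⟨θ.1.1, ⟨θ.1.2, θ.2⟩⟩ :
        Σ i, {I // I ∈ expo (Fin (n + 1)) (d i)})) := by
      rintro ⟨⟨i, I⟩, h⟩ ⟨⟨i', I'⟩, h'⟩ heq
      simp only [Sigma.mk.injEq] at heq
      obtain ⟨h1, h2⟩ := heq
      subst h1
      simp only [heq_eq_eq, Subtype.mk.injEq] at h2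
      subst h2
      rfl
    exact Finite.of_injective _ this
  obtain ⟨hpol, hord⟩ := chart_polar (K₀ := K₀) v hv
    (Sum.elim (fun θ : T => DK θ.1.1 θ.1.2) (fun k : Fin r' => EK (b k)))
    (Sum.elim (fun θ : T => DL θ.1.1 θ.1.2) (fun k : Fin r' => EL (b k)))
    (by rintro (θ | k) y; exacts [hext _ _ y, hextE _ y]) δ
    (by rintro (θ | k) y hy; exacts [hδ _ _ θ.2 y hy, hδE _ y hy])
    C hC hres hnat hπ he₀ hs₀
  set k₂ : ℕ := if ∃ j, yv d a x j ≠ 0 ∧ v (yv d a x j) ≠ vmax v x ^ d j then 1 else 0 with hk₂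
  have hy : ∀ j, yv d a x j ≠ 0 → v (yv d a x j) = vmax v x ^ d j ∨ k₂ = 1 := by
    intro j hj
    by_cases h : v (yv d a x j) = vmax v x ^ d j
    · exact Or.inl h
    · right
      rw [hk₂, if_pos ⟨j, hj, h⟩]
  obtain ⟨l, hl0, hlmax, -⟩ := exists_vmax v hx
  have hvmax : vmax v x ≠ 0 := by rw [hlmax]; exact (Valuation.ne_zero_iff v).mpr hl0
  have hvJ : v J ≠ 0 := (Valuation.ne_zero_iff v).mpr hJ0
  -- the rows
  let V : ι → Derivation ℤ L L := fun i => DL i (Finsupp.single l (d i))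
  have hVmem : ∀ i, vecE d a x (V i) ∈ spanV2 d a DL EL x := fun i =>
    Submodule.subset_span (Set.mem_insert_of_mem _ (Or.inl ⟨i, Finsupp.single l (d i),
      by rw [mem_expo, Finsupp.degree_single], rfl⟩))
  let E₀ : Fin r' ⊕ (Fin r ⊕ ι) → Derivation ℤ L L :=
    Sum.elim (fun k => EL (b k)) (Sum.elim (fun k => genDer DL m (g k)) V)
  have hdet : ∀ A, (bigM d a (col A) x E₀).det = J * p A * ∏ i, (- (x l) ^ (d i)) := by
    intro A
    rw [hJ A V hVmem]
    congr 1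
    exact det_eval hD x l
  have hprod0 : (∏ i, (- (x l) ^ (d i))) ≠ 0 :=
    Finset.prod_ne_zero_iff.mpr fun i _ => neg_ne_zero.mpr (pow_ne_zero _ hl0)
  obtain ⟨A₀, hA₀⟩ : ∃ A, p A ≠ 0 := by
    by_contra hcon
    push Not at hcon
    exact hp (funext hcon)
  -- the sizes of the generators
  have hGam : ∀ k, Gam v m (g k).G ≠ 0 := by
    intro k h0
    have h1 : ∀ I ∈ expo (Fin (n + 1)) m, (g k).G I = 0 := by
      intro I hI
      have h2 : v ((g k).G I) ≤ Gam v m (g k).G :=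
        Finset.le_sup (f := fun K => v ((g k).G K)) hI
      rw [h0, le_zero_iff, Valuation.zero_iff] at h2
      exact h2
    have h2 : genDer DL m (g k) = 0 := by
      unfold genDer
      refine Finset.sum_eq_zero fun I hI => ?_
      rw [h1 I hI, zero_smul]
    have h3 : (bigM d a (col A₀) x E₀).det = 0 := by
      refine Matrix.det_eq_zero_of_row_eq_zero (some (Sum.inr (Sum.inl k))) fun z => ?_
      show vecE d a x (genDer DL m (g k)) (col A₀ z) = 0
      rw [h2]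
      have h4 : vecE d a x (0 : Derivation ℤ L L) = 0 := by
        have := vecE_smul d a x (0 : L) (0 : Derivation ℤ L L)
        rw [zero_smul, zero_smul] at this
        exact this
      rw [h4]; rfl
    rw [hdet] at h3
    exact mul_ne_zero (mul_ne_zero hJ0 hA₀) hprod0 h3
  refine ⟨?_, hGam⟩
  have hγ : ∀ k, ∃ γ : L, γ ≠ 0 ∧ v γ = Gam v m (g k).G := by
    intro k
    obtain ⟨K₁, hK₁, hmax⟩ := Finset.exists_max_image (expo (Fin (n + 1)) m)
      (fun K => v ((g k).G K)) (expo_nonempty n m)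
    have hsup : Gam v m (g k).G = v ((g k).G K₁) :=
      le_antisymm (Finset.sup_le hmax) (Finset.le_sup (f := fun K => v ((g k).G K)) hK₁)
    refine ⟨(g k).G K₁, ?_, hsup.symm⟩
    intro h0
    apply hGam k
    rw [hsup, h0, map_zero]
  choose γ hγ0 hγ using hγ
  -- normalised rows
  let w : Fin r' ⊕ (Fin r ⊕ ι) → L :=
    Sum.elim (fun _ => algebraMap R L δ)
      (Sum.elim (fun k => algebraMap R L δ * (γ k)⁻¹) (fun _ => algebraMap R L δ))
  let E₁ : Fin r' ⊕ (Fin r ⊕ ι) → Derivation ℤ L L := fun ρ => w ρ • E₀ ρ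
  have hVexpo : ∀ i, Finsupp.single l (d i) ∈ expo (Fin (n + 1)) (d i) := fun i => by
    rw [mem_expo, Finsupp.degree_single]
  have hgD : ∀ k y, genDer DL m (g k) y =
      ∑ I ∈ expo (Fin (n + 1)) m, (g k).G I * DL (g k).i (I + (g k).U) y := by
    intro k y
    show (Derivation.coeFnAddMonoidHom (genDer DL m (g k))) y = _
    unfold genDer
    rw [map_sum, Finset.sum_apply]
    rfl
  have hKU : ∀ k, ∀ I ∈ expo (Fin (n + 1)) m,
      I + (g k).U ∈ expo (Fin (n + 1)) (d (g k).i) := by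
    intro k I hI
    have := (hg k).2
    rw [mem_expo] at hI ⊢
    rw [map_add, hI]
    omega
  have hGle : ∀ k, ∀ I ∈ expo (Fin (n + 1)) m, v ((g k).G I * (γ k)⁻¹) ≤ 1 := by
    intro k I hI
    rw [map_mul, map_inv₀, hγ]
    have h2 : v ((g k).G I) ≤ Gam v m (g k).G :=
      Finset.le_sup (f := fun K => v ((g k).G K)) hI
    exact mul_inv_le_one_of_le₀ h2 zero_le
  have hpol1 : ∀ y, v y ≤ 1 → ∃ g', v g' ≤ 1 ∧ ∀ ρ, v (E₁ ρ y - g' * E₁ ρ π) ≤ 1 := by
    intro y hy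
    obtain ⟨g', hg', h⟩ := hpol y hy
    refine ⟨g', hg', ?_⟩
    rintro (k | k | i)
    · exact h (Sum.inr k)
    · have h1 : E₁ (Sum.inr (Sum.inl k)) y - g' * E₁ (Sum.inr (Sum.inl k)) π =
          ∑ I ∈ expo (Fin (n + 1)) m, ((g k).G I * (γ k)⁻¹) *
            (algebraMap R L δ * DL (g k).i (I + (g k).U) y -
              g' * (algebraMap R L δ * DL (g k).i (I + (g k).U) π)) := by
        show (algebraMap R L δ * (γ k)⁻¹) * genDer DL m (g k) y -
          g' * ((algebraMap R L δ * (γ k)⁻¹) * genDer DL m (g k) π) = _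
        rw [hgD, hgD, Finset.mul_sum, Finset.mul_sum, Finset.mul_sum, ← Finset.sum_sub_distrib]
        exact Finset.sum_congr rfl fun I _ => by ring
      rw [h1]
      refine v.map_sum_le fun I hI => ?_
      rw [map_mul]
      exact _root_.mul_le_one' (hGle k I hI) (h (Sum.inl ⟨(_, _), hKU k I hI⟩))
    · exact h (Sum.inl ⟨(_, _), hVexpo i⟩)
  have hord1 : ∀ ρ, v (E₁ ρ π) ≤ exp ((e₀ - 1 : ℕ) : ℤ) := by
    have he : ((e₀ - 1 : ℕ) : ℤ) = (e₀ : ℤ) - 1 := by omega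
    rw [he]
    rintro (k | k | i)
    · exact hord (Sum.inr k)
    · have h1 : E₁ (Sum.inr (Sum.inl k)) π =
          ∑ I ∈ expo (Fin (n + 1)) m, ((g k).G I * (γ k)⁻¹) *
            (algebraMap R L δ * DL (g k).i (I + (g k).U) π) := by
        show (algebraMap R L δ * (γ k)⁻¹) * genDer DL m (g k) π = _
        rw [hgD, Finset.mul_sum]
        exact Finset.sum_congr rfl fun I _ => by ring
      rw [h1]
      refine v.map_sum_le fun I hI => ?_
      rw [map_mul]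
      calc v ((g k).G I * (γ k)⁻¹) * v (algebraMap R L δ * DL (g k).i (I + (g k).U) π)
          ≤ 1 * exp ((e₀ : ℤ) - 1) :=
            mul_le_mul' (hGle k I hI) (hord (Sum.inl ⟨(_, _), hKU k I hI⟩))
        _ = _ := one_mul _
    · exact hord (Sum.inl ⟨(_, _), hVexpo i⟩)
  have hA : ∀ A, v (∏ ρ, w ρ) * (v J * v (p A) * vmax v x ^ (∑ i, d i)) ≤
      vmax v x ^ c₁ * exp ((e₀ - 1 + k₂ : ℕ) : ℤ) := by
    intro A
    have h1 := det_bigM_le (a := a) v hπ E₁ hpol1 hord1 hx hy (col A)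
    rw [hcol A] at h1
    have h2 : (bigM d a (col A) x E₁).det = (∏ ρ, w ρ) * (J * p A * ∏ i, (- (x l) ^ (d i))) := by
      rw [← hdet A]
      exact bigM_smul (col A) x E₀ w
    rw [h2] at h1
    simp only [map_mul, map_prod, map_pow, Valuation.map_neg, Finset.prod_pow_eq_pow_sum] at h1 ⊢
    rw [hlmax] at h1 ⊢
    exact h1
  obtain ⟨A₁, -, hA₁⟩ := Finset.exists_max_image Finset.univ (fun A => v (p A))
    ⟨A₀, Finset.mem_univ _⟩
  have hvp : vmax v p = v (p A₁) :=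
    le_antisymm (Finset.sup_le hA₁) (Finset.le_sup (f := fun A => v (p A)) (Finset.mem_univ A₁))
  have hvp0 : vmax v p ≠ 0 := by
    intro h0
    have h1 : v (p A₀) ≤ vmax v p := Finset.le_sup (f := fun A => v (p A)) (Finset.mem_univ A₀)
    rw [h0, le_zero_iff, Valuation.zero_iff] at h1
    exact hA₀ h1
  have h := hA A₁
  rw [← hvp] at h
  have hw : v (∏ ρ, w ρ) = v (algebraMap R L δ) ^ (r' + (r + Fintype.card ι)) *
      ∏ k, (Gam v m (g k).G)⁻¹ := by
    rw [Fintype.prod_sum_type, Fintype.prod_sum_type]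
    simp only [w, Sum.elim_inl, Sum.elim_inr, Finset.prod_mul_distrib, Finset.prod_const,
      Finset.card_univ, Fintype.card_fin, map_mul, map_pow, map_prod, map_inv₀, hγ]
    rw [pow_add, pow_add]
    ac_rfl
  have hw0 : v (∏ ρ, w ρ) ≠ 0 := by
    rw [hw]
    exact mul_ne_zero (pow_ne_zero _ hδ0)
      (Finset.prod_ne_zero_iff.mpr fun k _ => inv_ne_zero (hGam k))
  have hlhs : v (∏ ρ, w ρ) * (v J * vmax v p * vmax v x ^ (∑ i, d i)) ≠ 0 :=
    mul_ne_zero hw0 (mul_ne_zero (mul_ne_zero hvJ hvp0) (pow_ne_zero _ hvmax))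
  have hrhs : vmax v x ^ c₁ * exp ((e₀ - 1 + k₂ : ℕ) : ℤ) ≠ 0 :=
    mul_ne_zero (pow_ne_zero _ hvmax) exp_ne_zero
  have h1 := (log_le_log hlhs hrhs).mpr h
  rw [log_mul hw0 (mul_ne_zero (mul_ne_zero hvJ hvp0) (pow_ne_zero _ hvmax)),
    log_mul (mul_ne_zero hvJ hvp0) (pow_ne_zero _ hvmax), log_mul hvJ hvp0, log_pow',
    log_mul (pow_ne_zero _ hvmax) exp_ne_zero, log_pow', log_exp, hw,
    log_mul (pow_ne_zero _ hδ0) (Finset.prod_ne_zero_iff.mpr fun k _ => inv_ne_zero (hGam k)),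
    log_pow', log_prod' _ _ (fun k _ => inv_ne_zero (hGam k))] at h1
  simp only [log_inv, Finset.sum_neg_distrib] at h1
  have h2 : ((e₀ - 1 + k₂ : ℕ) : ℤ) = ((e₀ - 1 : ℕ) : ℤ) + (if ∃ j, yv d a x j ≠ 0 ∧
      v (yv d a x j) ≠ vmax v x ^ d j then 1 else 0 : ℤ) := by
    rw [hk₂]
    push_cast
    rfl
  rw [h2] at h1
  linarith

end PlaceIneq2

end Pool.Agent.Lib.MP_44a246_nt
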