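import Mathlib
import Pool.Agent.Lib.MP_44a246_nt.PlaceIneq2
import Pool.Agent.Lib.MP_44a246_nt.Core

/-!
The summation over all places, with Pluecker coordinates.
-/

namespace Pool.Agent.Lib.MP_44a246_nt

open Pool.Agent.Lib.MP_e52354_nt WithZero Polynomial

section Core2

variable {κ K L : Type*} [Field κ] [IsAlgClosed κ] [CharZero κ]
  [Field K] [Algebra κ K] [Algebra κ[X] K] [IsScalarTower κ κ[X] K]
  [Algebra (RatFunc κ) K] [IsScalarTower κ[X] (RatFunc κ) K]
  [Algebra (Rinf κ) K] [IsScalarTower (Rinf κ) (RatFunc κ) K]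
  [FiniteDimensional (RatFunc κ) K]
  [Field L] [Algebra κ L] [Algebra κ[X] L] [IsScalarTower κ κ[X] L]
  [Algebra (RatFunc κ) L] [IsScalarTower κ[X] (RatFunc κ) L]
  [Algebra (Rinf κ) L] [IsScalarTower (Rinf κ) (RatFunc κ) L]
  [FiniteDimensional (RatFunc κ) L]
  [Algebra K L] [IsScalarTower κ K L] [IsScalarTower κ[X] K L] [IsScalarTower (Rinf κ) K L]
  [FiniteDimensional K L]

variable {n : ℕ} {ι : Type*} [Fintype ι] [DecidableEq ι] {𝓑 : Type*}
variable {d : ι → ℕ} {aK : ι → Expo n → K} {DK : ι → Expo n → Derivation ℤ K K}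
  {DL : ι → Expo n → Derivation ℤ L L} {EK : 𝓑 → Derivation ℤ K K} {EL : 𝓑 → Derivation ℤ L L}

theorem core2
    (hext : ∀ i I y, DL i I (algebraMap K L y) = algebraMap K L (DK i I y))
    (hextE : ∀ b y, EL b (algebraMap K L y) = algebraMap K L (EK b y))
    (hD : DualFam d (fun i I => algebraMap K L (aK i I)) DL)
    {s : K} (hs0 : s ≠ 0)
    {δf : κ[X]} (hδf0 : δf ≠ 0)
    (hδf : ∀ i, ∀ I ∈ expo (Fin (n + 1)) (d i), ∀ b : K, IsIntegral κ[X] b →
      IsIntegral κ[X] (algebraMap κ[X] K δf * DK i I b))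
    (hδfE : ∀ b, ∀ y : K, IsIntegral κ[X] y → IsIntegral κ[X] (algebraMap κ[X] K δf * EK b y))
    (hδfa : ∀ i, ∀ I ∈ expo (Fin (n + 1)) (d i), IsIntegral κ[X] (algebraMap κ[X] K δf * aK i I))
    (hδfs : IsIntegral κ[X] (algebraMap κ[X] K δf * s))
    (hδfs' : IsIntegral κ[X] (algebraMap κ[X] K δf * s⁻¹))
    {δi : Rinf κ} (hδi0 : δi ≠ 0)
    (hδi : ∀ i, ∀ I ∈ expo (Fin (n + 1)) (d i), ∀ b : K, IsIntegral (Rinf κ) b →
      IsIntegral (Rinf κ) (algebraMap (Rinf κ) K δi * DK i I b))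
    (hδiE : ∀ b, ∀ y : K, IsIntegral (Rinf κ) y →
      IsIntegral (Rinf κ) (algebraMap (Rinf κ) K δi * EK b y))
    (hδia : ∀ i, ∀ I ∈ expo (Fin (n + 1)) (d i),
      IsIntegral (Rinf κ) (algebraMap (Rinf κ) K δi * aK i I))
    (hδis : IsIntegral (Rinf κ) (algebraMap (Rinf κ) K δi * s))
    (hδis' : IsIntegral (Rinf κ) (algebraMap (Rinf κ) K δi * s⁻¹))
    {x : Fin (n + 1) → L} (hx : x ≠ 0) {m r r' c₁ : ℕ}
    (GS : Set (Expo n → L)) (g : Fin r → Gen n ι L) (hg : ∀ k, (g k).Valid d m GS)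
    (b : Fin r' → 𝓑) {𝒜 : Type*} [Fintype 𝒜]
    (col : 𝒜 → Option (Fin r' ⊕ (Fin r ⊕ ι)) → Fin (n + 1) ⊕ ι)
    (hcol : ∀ A, Nat.card {c // (col A c).isLeft} = c₁) (p : 𝒜 → L) (hp : p ≠ 0)
    {J : L} (hJ0 : J ≠ 0)
    (hJ : ∀ (A : 𝒜) (V : ι → Derivation ℤ L L), (∀ i,
        vecE d (fun i I => algebraMap K L (aK i I)) x (V i) ∈
          spanV2 d (fun i I => algebraMap K L (aK i I)) DL EL x) →
        (bigM d (fun i I => algebraMap K L (aK i I)) (col A) x (Sum.elim (fun k => EL (b k))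
          (Sum.elim (fun k => genDer DL m (g k)) V))).det =
          J * p A * (Matrix.of fun i j => func d (fun i I => algebraMap K L (aK i I)) x j
            (vecE d (fun i I => algebraMap K L (aK i I)) x (V i))).det) :
    height κ p + ((∑ i, d i : ℕ) : ℤ) * height κ x ≤
      (c₁ : ℤ) * height κ x +
        ∑ k, (∑ᶠ v : Place κ L, log (Gam v.1 m (g k).G)) + (ramDeg κ L K : ℤ) +
        ((truncSet (κ := κ) d aK s x).ncard : ℤ) +
        ((r' + (r + Fintype.card ι) + 1 : ℕ) : ℤ) * ((Module.finrank (RatFunc κ) L : ℤ) *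
          (δf.natDegree - (δi : RatFunc κ).intDegree)) := by
  classical
  set a : ι → Expo n → L := fun i I => algebraMap K L (aK i I) with ha
  have hcK : CharZero K := charZero_of_injective_algebraMap (algebraMap κ K).injective
  have hcL : CharZero L := charZero_of_injective_algebraMap (algebraMap κ L).injective
  have hc0 : CharZero (RatFunc κ) := charZero_RatFunc κ L
  have hf0 : algebraMap κ[X] L δf ≠ 0 := by
    rw [IsScalarTower.algebraMap_apply κ[X] (RatFunc κ) L]
    refine (_root_.map_ne_zero _).mpr ?_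
    rwa [ne_eq, FaithfulSMul.algebraMap_eq_zero_iff]
  have hi0 : algebraMap (Rinf κ) L δi ≠ 0 := by
    rw [IsScalarTower.algebraMap_apply (Rinf κ) (RatFunc κ) L]
    exact (_root_.map_ne_zero _).mpr fun h => hδi0 (Subtype.ext h)
  -- the value of the denominator
  let δv : Place κ L → ℤᵐ⁰ := fun v => if v.1 (algebraMap κ[X] L X) ≤ 1 then
    v.1 (algebraMap κ[X] L δf) else v.1 (algebraMap (Rinf κ) L δi)
  have hnat : ∀ v : Place κ L, ∀ k : ℕ, k ≠ 0 → v.1 (k : L) = 1 := by
    intro v k hk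
    have := v.2.2 (k : κ) (Nat.cast_ne_zero.mpr hk)
    rwa [map_natCast] at this
  have hresC : ∀ v : Place κ L, ∀ y, v.1 y ≤ 1 → ∃ c ∈ Set.range (algebraMap κ L),
      v.1 (y - c) < 1 := by
    intro v y hy
    obtain ⟨c, hc⟩ := place_residue v hy
    exact ⟨_, ⟨c, rfl⟩, hc⟩
  have hloc : ∀ v : Place κ L, log (v.1 J) + log (vmax v.1 p) +
        ((∑ i, d i : ℕ) : ℤ) * log (vmax v.1 x) +
        ((r' + (r + Fintype.card ι) + 1 : ℕ) : ℤ) * log (δv v) ≤
      (c₁ : ℤ) * log (vmax v.1 x) +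
        ∑ k, log (Gam v.1 m (g k).G) + ((ramIdx K v.1 - 1 : ℕ) : ℤ) +
        (if v ∈ truncSet (κ := κ) d aK s x then 1 else 0) ∧ ∀ k, Gam v.1 m (g k).G ≠ 0 := by
    intro v
    obtain ⟨s₀, hs₀⟩ := exists_ramIdx (K := K) v.1 v.2.1
    have he₀ := one_le_ramIdx (K := K) v.1 v.2.1
    by_cases hX : v.1 (algebraMap κ[X] L X) ≤ 1
    · have hδv : δv v = v.1 (algebraMap κ[X] L δf) := if_pos hX
      have hδ0 : v.1 (algebraMap κ[X] L δf) ≠ 0 := (Valuation.ne_zero_iff _).mpr hf0
      obtain ⟨h1, h2⟩ := place_ineq2 (K₀ := RatFunc κ) v.1 v.2.1 (place_poly v hX) hext hextE hD hδ0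
        hδf hδfE
        (Set.range (algebraMap κ L)) (by
          rintro _ ⟨c, rfl⟩
          refine ⟨algebraMap κ K c, ?_, IsScalarTower.algebraMap_apply κ K L c⟩
          rw [IsScalarTower.algebraMap_apply κ κ[X] K]
          exact isIntegral_algebraMap) (hresC v) (hnat v) he₀ hs₀ hx GS g hg b col hcol p hp hJ0 hJ
      have h3 := trunc_le v.1 (place_poly v hX) hδ0 hδfa hs0 hδfs hδfs' x
      refine ⟨?_, h2⟩
      rw [hδv]
      have h4 : (if v ∈ truncSet (κ := κ) d aK s x then 1 else 0 : ℤ) =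
        (if v.1 (algebraMap K L s) = 1 ∧ ∃ j, yv d (fun i I => algebraMap K L (aK i I)) x j ≠ 0 ∧
          v.1 (yv d (fun i I => algebraMap K L (aK i I)) x j) < vmax v.1 x ^ d j
          then 1 else 0) := if_congr Iff.rfl rfl rfl
      rw [h4]
      push_cast at h1 ⊢
      linarith
    · have hδv : δv v = v.1 (algebraMap (Rinf κ) L δi) := if_neg hX
      have hδ0 : v.1 (algebraMap (Rinf κ) L δi) ≠ 0 := (Valuation.ne_zero_iff _).mpr hi0
      obtain ⟨h1, h2⟩ := place_ineq2 (K₀ := RatFunc κ) v.1 v.2.1 (place_rinf v hX) hext hextE hD hδ0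
        hδi hδiE
        (Set.range (algebraMap κ L)) (by
          rintro _ ⟨c, rfl⟩
          refine ⟨algebraMap κ K c, ?_, IsScalarTower.algebraMap_apply κ K L c⟩
          have hmem : algebraMap κ[X] (RatFunc κ) (C c) ∈ Rinf κ := by
            rw [mem_Rinf, RatFunc.intDegree_polynomial, natDegree_C]
            exact le_rfl
          have h5 : algebraMap κ K c = algebraMap (Rinf κ) K ⟨_, hmem⟩ := by
            rw [IsScalarTower.algebraMap_apply (Rinf κ) (RatFunc κ) K]
            show _ = algebraMap (RatFunc κ) K (algebraMap κ[X] (RatFunc κ) (C c))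
            rw [← IsScalarTower.algebraMap_apply κ[X] (RatFunc κ) K,
              IsScalarTower.algebraMap_apply κ κ[X] K]
            rfl
          rw [h5]
          exact isIntegral_algebraMap) (hresC v) (hnat v) he₀ hs₀ hx GS g hg b col hcol p hp hJ0 hJ
      have h3 := trunc_le v.1 (place_rinf v hX) hδ0 hδia hs0 hδis hδis' x
      refine ⟨?_, h2⟩
      rw [hδv]
      have h4 : (if v ∈ truncSet (κ := κ) d aK s x then 1 else 0 : ℤ) =
        (if v.1 (algebraMap K L s) = 1 ∧ ∃ j, yv d (fun i I => algebraMap K L (aK i I)) x j ≠ 0 ∧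
          v.1 (yv d (fun i I => algebraMap K L (aK i I)) x j) < vmax v.1 x ^ d j
          then 1 else 0) := if_congr Iff.rfl rfl rfl
      rw [h4]
      push_cast at h1 ⊢
      linarith
  -- the finite set of places
  have hGamfin : ∀ k, {v : Place κ L | Gam v.1 m (g k).G ≠ 1}.Finite := by
    intro k
    by_cases h : ∃ I ∈ expo (Fin (n + 1)) m, (g k).G I ≠ 0
    · exact sup_finite _ _ h
    · push Not at h
      refine Set.finite_empty.subset fun v _ => ?_
      refine absurd ?_ ((hloc v).2 k)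
      show (expo (Fin (n + 1)) m).sup (fun K => v.1 ((g k).G K)) = 0
      rw [← le_zero_iff]
      refine Finset.sup_le fun I hI => ?_
      rw [h I hI, map_zero]
  have htr : (truncSet (κ := κ) d aK s x).Finite := by
    have hfin : ((⋃ j ∈ Finset.univ.filter (fun j => yv d a x j ≠ 0),
        {v : Place κ L | v.1 (yv d a x j) ≠ 1}) ∪ {v : Place κ L | vmax v.1 x ≠ 1}).Finite := by
      refine Set.Finite.union (Set.Finite.biUnion (Finset.finite_toSet _) fun j hj => ?_)
        (vmax_finite hx)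
      have hj' : yv d a x j ≠ 0 := (Finset.mem_filter.mp (Finset.mem_coe.mp hj)).2
      exact place_finite hj'
    refine hfin.subset fun v hv => ?_
    obtain ⟨-, j, hj, hlt⟩ := hv
    by_contra hcon
    simp only [Set.mem_union, Set.mem_iUnion, not_or, not_exists, Finset.mem_filter] at hcon
    obtain ⟨hc1, hc2⟩ := hcon
    have h1 : v.1 (yv d a x j) = 1 := by
      by_contra h2
      exact hc1 j ⟨Finset.mem_univ _, hj⟩ h2
    have h2 : vmax v.1 x = 1 := by
      by_contra h3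
      exact hc2 h3
    rw [h2, one_pow] at hlt
    exact absurd h1 hlt.ne
  let P : Finset (Place κ L) := (vmax_finite hp).toFinset ∪
    (vmax_finite hx).toFinset ∪ (place_finite hJ0).toFinset ∪
    (Finset.univ.biUnion fun k => (hGamfin k).toFinset) ∪
    (ramIdx_finite (κ := κ) (K := K) (L := L)).toFinset ∪ (place_finite hf0).toFinset ∪
    (place_finite hi0).toFinset ∪ htr.toFinset
  have hP : ∀ v ∉ P, vmax v.1 x = 1 ∧ v.1 J = 1 ∧ (∀ k, Gam v.1 m (g k).G = 1) ∧
      ramIdx K v.1 = 1 ∧ v.1 (algebraMap κ[X] L δf) = 1 ∧ v.1 (algebraMap (Rinf κ) L δi) = 1 ∧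
      v ∉ truncSet (κ := κ) d aK s x ∧ vmax v.1 p = 1 := by
    intro v hv
    simp only [P, Finset.mem_union, Set.Finite.mem_toFinset, Finset.mem_biUnion, Finset.mem_univ,
      true_and, not_or, not_exists, Set.mem_ofPred_eq, not_not] at hv
    obtain ⟨⟨⟨⟨⟨⟨⟨h0, h1⟩, h2⟩, h3⟩, h4⟩, h5⟩, h6⟩, h7⟩ := hv
    exact ⟨h1, h2, h3, h4, h5, h6, h7, h0⟩
  have hsum := Finset.sum_le_sum fun v (_ : v ∈ P) => (hloc v).1
  simp only [Finset.sum_add_distrib, ← Finset.mul_sum] at hsum
  -- rewriting the sums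
  have e1 : ∑ v ∈ P, log (v.1 J) = 0 := by
    rw [← product_formula (κ := κ) hJ0]
    symm
    refine finsum_eq_sum_of_support_subset _ fun v hv => ?_
    by_contra hvP
    apply hv
    simp only
    rw [(hP v hvP).2.1, log_one]
  have e2 : ∑ v ∈ P, log (vmax v.1 x) = height κ x := by
    symm
    refine finsum_eq_sum_of_support_subset _ fun v hv => ?_
    by_contra hvP
    apply hv
    simp only
    rw [(hP v hvP).1, log_one]
  have e3 : ∑ v ∈ P, ∑ k, log (Gam v.1 m (g k).G) =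
      ∑ k, (∑ᶠ v : Place κ L, log (Gam v.1 m (g k).G)) := by
    rw [Finset.sum_comm]
    refine Finset.sum_congr rfl fun k _ => ?_
    symm
    refine finsum_eq_sum_of_support_subset _ fun v hv => ?_
    by_contra hvP
    apply hv
    simp only
    rw [(hP v hvP).2.2.1 k, log_one]
  have e4 : ∑ v ∈ P, ((ramIdx K v.1 - 1 : ℕ) : ℤ) = (ramDeg κ L K : ℤ) := by
    rw [← Nat.cast_sum]
    congr 1
    symm
    refine finsum_eq_sum_of_support_subset _ fun v hv => ?_
    by_contra hvP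
    apply hv
    simp only
    rw [(hP v hvP).2.2.2.1, Nat.sub_self]
  have e5 : ∑ v ∈ P, (if v ∈ truncSet (κ := κ) d aK s x then 1 else 0 : ℤ) =
      ((truncSet (κ := κ) d aK s x).ncard : ℤ) := by
    rw [Finset.sum_boole]
    congr 1
    rw [Set.ncard_eq_toFinset_card _ htr]
    congr 1
    ext v
    simp only [Finset.mem_filter, Set.Finite.mem_toFinset]
    constructor
    · exact fun h => h.2
    · intro h
      refine ⟨?_, h⟩
      by_contra hvP
      exact (hP v hvP).2.2.2.2.2.2.1 h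
  have e6 : ∑ v ∈ P, log (δv v) = - ((Module.finrank (RatFunc κ) L : ℤ) *
          (δf.natDegree - (δi : RatFunc κ).intDegree)) := by
    rw [← sum_delta hδf0 hδi0 P (fun v hv => ⟨(hP v hv).2.2.2.2.1, (hP v hv).2.2.2.2.2.1⟩),
      Finset.sum_neg_distrib, neg_neg]
  have e7 : ∑ v ∈ P, log (vmax v.1 p) = height κ p := by
    symm
    refine finsum_eq_sum_of_support_subset _ fun v hv => ?_
    by_contra hvP
    apply hv
    simp only
    rw [(hP v hvP).2.2.2.2.2.2.2, log_one]
  rw [e1, e2, e3, e4, e5, e6, e7] at hsum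
  linarith

end Core2

end Pool.Agent.Lib.MP_44a246_nt
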