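import Mathlib
import Pool.Agent.Lib.MP_44a246_nt.Data
import Pool.Agent.Lib.MP_e52354_nt.TDir

/-!
A full family of derivations of a function field with uniform denominators.
-/

namespace Pool.Agent.Lib.MP_44a246_nt

open Pool.Agent.Lib.MP_e52354_nt Polynomial

universe u v

section Basis

variable {k₀ : Type*} {κ : Type u} {K : Type v} [Field k₀] [CharZero k₀] [Field κ] [Field K]
  [Algebra k₀ κ] [Algebra κ K] [Algebra k₀ K] [IsScalarTower k₀ κ K]

open Classical in
/-- a transcendence basis of a function field containing a given transcendental element, and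
the dual derivations, which preserve the field of constants -/
theorem exists_basis_ders {t : K} (ht : Transcendental κ t)
    (halg : Algebra.IsAlgebraic (IntermediateField.adjoin κ {t}) K) :
    ∃ (ι : Type u) (z : Unit ⊕ ι → K) (E : Unit ⊕ ι → Derivation k₀ K K),
      z (Sum.inl ()) = t ∧ Algebra.IsAlgebraic (IntermediateField.adjoin k₀ (Set.range z)) K ∧
      (∀ b b', E b (z b') = if b = b' then 1 else 0) ∧
      (∀ b, ∀ u : κ, ∃ u' : κ, E b (algebraMap κ K u) = algebraMap κ K u') := by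
  -- a transcendence basis of `K`
  obtain ⟨ι, x, hx⟩ := exists_isTranscendenceBasis' k₀ κ
  have hy : IsTranscendenceBasis κ (fun _ : Unit => t) := by
    have h1 : AlgebraicIndependent κ (fun _ : Unit => t) :=
      algebraicIndependent_unique_type_iff.mpr ht
    rw [h1.isTranscendenceBasis_iff_isAlgebraic, ← IntermediateField.isAlgebraic_adjoin_iff_top,
      Set.range_const]
    exact halg
  set z : Unit ⊕ ι → K := Sum.elim (fun _ => t) (algebraMap κ K ∘ x) with hz
  have hzb : IsTranscendenceBasis k₀ z := hx.sumElim_comp hy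
  have hzalg : Algebra.IsAlgebraic (Algebra.adjoin k₀ (Set.range z)) K := hzb.isAlgebraic
  have hxalg : Algebra.IsAlgebraic (Algebra.adjoin k₀ (Set.range x)) κ := hx.isAlgebraic
  have hxalg' : Algebra.IsAlgebraic (IntermediateField.adjoin k₀ (Set.range x)) κ :=
    hx.isAlgebraic_field
  have hzalg' : Algebra.IsAlgebraic (IntermediateField.adjoin k₀ (Set.range z)) K :=
    hzb.isAlgebraic_field
  -- the dual derivations
  choose E hE using fun j : Unit ⊕ ι =>
    exists_derivation hzb.1 (fun i => if i = j then (1 : K) else 0)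
  choose e he using fun j : ι =>
    exists_derivation hx.1 (fun i => if i = j then (1 : κ) else 0)
  have hEκ : ∀ j, ∀ u : κ, ∃ u' : κ, E j (algebraMap κ K u) = algebraMap κ K u' := by
    intro j u
    have hu : IsAlgebraic (IntermediateField.adjoin k₀ (Set.range x)) u := hxalg'.isAlgebraic u
    rcases j with j | j
    · refine ⟨0, ?_⟩
      rw [map_zero]
      have h1 := der_eq_zero (V := K) ((E (Sum.inl j)).compAlgebraMap κ) (Set.range x) ?_ hu
      · exact h1
      · rintro _ ⟨i, rfl⟩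
        have h2 := hE (Sum.inl j) (Sum.inr i)
        simpa [hz] using h2
    · refine ⟨e j u, ?_⟩
      have h1 := der_eq_zero (V := K) ((E (Sum.inr j)).compAlgebraMap κ -
        (Algebra.linearMap κ K).compDer (e j)) (Set.range x) ?_ hu
      · rw [Derivation.sub_apply] at h1
        exact sub_eq_zero.mp h1
      · rintro _ ⟨i, rfl⟩
        have h2 := hE (Sum.inr j) (Sum.inr i)
        have h3 := he j i
        rw [Derivation.sub_apply, sub_eq_zero]
        show E (Sum.inr j) (algebraMap κ K (x i)) = algebraMap κ K (e j (x i))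
        rw [h3]
        have h4 : z (Sum.inr i) = algebraMap κ K (x i) := rfl
        rw [← h4, h2]
        by_cases hij : i = j
        · simp [hij]
        · simp [hij]
  refine ⟨ι, z, E, rfl, hzalg', fun b b' => ?_, hEκ⟩
  rw [hE]
  exact if_congr eq_comm rfl rfl

end Basis

section Kill

variable {κ M : Type*} [Field κ] [Field M] [CharZero M]
  [Algebra κ M] [Algebra κ[X] M] [IsScalarTower κ κ[X] M]
  [Algebra (RatFunc κ) M] [IsScalarTower κ[X] (RatFunc κ) M]
  [Algebra (Rinf κ) M] [IsScalarTower (Rinf κ) (RatFunc κ) M]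
  [FiniteDimensional (RatFunc κ) M]

/-- a derivation killing the parameter and a set of generators preserves integrality -/
theorem stable_of_kill (D : Derivation ℤ M M)
    (hκ : ∀ u : κ, ∃ u' : κ, D (algebraMap κ M u) = algebraMap κ M u')
    (ht : D (algebraMap κ[X] M X) = 0) (Θ : Finset M) (hΘ : ∀ θ ∈ Θ, D θ = 0)
    (htop : Algebra.adjoin (RatFunc κ) (Θ : Set M) = ⊤) :
    (∀ b : M, IsIntegral κ[X] b → IsIntegral κ[X] (D b)) ∧
      ∀ b : M, IsIntegral (Rinf κ) b → IsIntegral (Rinf κ) (D b) := by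
  classical
  have hc0 : CharZero (RatFunc κ) := charZero_RatFunc κ M
  have hc0' : CharZero κ := ((algebraMap κ (RatFunc κ)).charZero_iff
    (algebraMap κ (RatFunc κ)).injective).mpr hc0
  have ht' : ∃ v : κ, D (algebraMap κ[X] M X) = algebraMap κ M v := ⟨0, by rw [ht, map_zero]⟩
  constructor
  · choose! g hg0 hgD hgint using fun θ (hθ : θ ∈ Θ) =>
      exists_mult (Finset.univ : Finset Unit) (fun _ => D) (fun _ _ => hκ) (fun _ _ => ht)
        (fun _ _ => hΘ θ hθ)
    intro b hb
    refine integral_stable (RatFunc κ) D (fun ρ => ?_) (fun n hn => ?_)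
      (Θ.image fun θ => algebraMap (RatFunc κ) M (g θ) * θ) ?_
      (adjoin_mul_eq_top Θ g hg0 htop) b hb
    · obtain ⟨f₁, hf₁, -⟩ := poly_stable D hκ ht' ρ
      exact ⟨f₁, hf₁⟩
    · have : (n : κ[X]) = C (n : κ) := by simp
      rw [this, isUnit_C]
      exact isUnit_iff_ne_zero.mpr (by exact_mod_cast hn)
    · intro θ' hθ'
      obtain ⟨θ, hθ, rfl⟩ := Finset.mem_image.mp hθ'
      refine ⟨hgint θ hθ, ?_⟩
      rw [Derivation.leibniz, hΘ θ hθ, hgD θ hθ () (Finset.mem_univ ())]
      simp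
  · choose! g hg0 hgD hgint using fun θ (_ : θ ∈ Θ) =>
      exists_mult_inf (κ := κ) (Finset.univ : Finset Unit) (fun _ => D) (fun _ _ => ht) θ
    intro b hb
    refine integral_stable (RatFunc κ) D (fun ρ => ?_) (fun n hn => ?_)
      (Θ.image fun θ => algebraMap (RatFunc κ) M (g θ) * θ) ?_
      (adjoin_mul_eq_top Θ g hg0 htop) b hb
    · exact rinf_stable D hκ ht' ρ
    · have h1 : ((n : RatFunc κ))⁻¹ ∈ Rinf κ := by
        rw [mem_Rinf, RatFunc.intDegree_inv]
        have : (n : RatFunc κ) = algebraMap κ[X] (RatFunc κ) (n : κ[X]) := by simp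
        rw [this, RatFunc.intDegree_polynomial]
        simp
      have hn0 : (n : RatFunc κ) ≠ 0 := by exact_mod_cast hn
      refine IsUnit.of_mul_eq_one ⟨_, h1⟩ ?_
      apply Subtype.ext
      show (((n : Rinf κ)) : RatFunc κ) * (n : RatFunc κ)⁻¹ = 1
      have h2 : (((n : Rinf κ)) : RatFunc κ) = (n : RatFunc κ) :=
        map_natCast (algebraMap (Rinf κ) (RatFunc κ)) n
      rw [h2]
      exact mul_inv_cancel₀ hn0
    · intro θ' hθ'
      obtain ⟨θ, hθ, rfl⟩ := Finset.mem_image.mp hθ'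
      refine ⟨hgint θ hθ, ?_⟩
      rw [Derivation.leibniz, hΘ θ hθ, hgD θ hθ () (Finset.mem_univ ())]
      simp

end Kill

section Family

variable {k₀ : Type*} {κ : Type u} {K : Type v} [Field k₀] [CharZero k₀] [Field κ] [Field K]
  [Algebra k₀ κ] [Algebra κ K] [Algebra k₀ K] [IsScalarTower k₀ κ K]
  [Algebra κ[X] K] [IsScalarTower κ κ[X] K]
  [Algebra (RatFunc κ) K] [IsScalarTower κ[X] (RatFunc κ) K]
  [Algebra (Rinf κ) K] [IsScalarTower (Rinf κ) (RatFunc κ) K]
  [FiniteDimensional (RatFunc κ) K]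

/-- A family of derivations dual to a transcendence basis of `K` over `k₀`, and derivations dual
to a given finite algebraically independent family, with uniform denominators on both charts. -/
theorem exists_family (ht : Transcendental κ (algebraMap κ[X] K X))
    (halg : Algebra.IsAlgebraic (IntermediateField.adjoin κ {algebraMap κ[X] K X}) K)
    {Θ : Type*} [Finite Θ] [DecidableEq Θ] {c : Θ → K} (hc : AlgebraicIndependent k₀ c)
    (S : Finset K) :
    ∃ (B : Type u) (_ : DecidableEq B) (z : B → K) (E : B → Derivation k₀ K K)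
      (D : Θ → Derivation k₀ K K),
      (∀ b b', E b (z b') = if b = b' then 1 else 0) ∧
      Algebra.IsAlgebraic (IntermediateField.adjoin k₀ (Set.range z)) K ∧
      (∀ θ θ', D θ (c θ') = if θ = θ' then 1 else 0) ∧
      (∃ δ : κ[X], δ ≠ 0 ∧
        (∀ b, ∀ y : K, IsIntegral κ[X] y → IsIntegral κ[X] (algebraMap κ[X] K δ * E b y)) ∧
        (∀ θ, ∀ y : K, IsIntegral κ[X] y → IsIntegral κ[X] (algebraMap κ[X] K δ * D θ y)) ∧
        (∀ b θ, IsIntegral κ[X] (algebraMap κ[X] K δ * E b (c θ))) ∧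
        ∀ y ∈ S, IsIntegral κ[X] (algebraMap κ[X] K δ * y)) ∧
      (∃ δ : Rinf κ, δ ≠ 0 ∧
        (∀ b, ∀ y : K, IsIntegral (Rinf κ) y →
          IsIntegral (Rinf κ) (algebraMap (Rinf κ) K δ * E b y)) ∧
        (∀ θ, ∀ y : K, IsIntegral (Rinf κ) y →
          IsIntegral (Rinf κ) (algebraMap (Rinf κ) K δ * D θ y)) ∧
        (∀ b θ, IsIntegral (Rinf κ) (algebraMap (Rinf κ) K δ * E b (c θ))) ∧
        ∀ y ∈ S, IsIntegral (Rinf κ) (algebraMap (Rinf κ) K δ * y)) := by
  classical
  cases nonempty_fintype Θ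
  have hcK : CharZero K := charZero_of_injective_algebraMap (algebraMap k₀ K).injective
  have hc0 : CharZero (RatFunc κ) := charZero_RatFunc κ K
  obtain ⟨ι, z, E, hzt, hzalg, hE, hEκ⟩ := exists_basis_ders (k₀ := k₀) ht halg
  -- generators
  obtain ⟨G, hG⟩ : ∃ G : Finset K, Algebra.adjoin (RatFunc κ) (G : Set K) = ⊤ :=
    (inferInstance : Algebra.FiniteType (RatFunc κ) K).out
  -- derivations dual to `c`
  have hc' : AlgebraicIndepOn k₀ id (Set.range c) := hc.coe_range
  obtain ⟨s, hs1, hs2⟩ := exists_isTranscendenceBasis_superset hc'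
  have hsalg : Algebra.IsAlgebraic (Algebra.adjoin k₀ (Set.range ((↑) : s → K))) K :=
    hs2.isAlgebraic
  choose D₀ hD₀ using fun θ : Θ =>
    exists_derivation hs2.1 (fun i => if (i : K) = c θ then (1 : K) else 0)
  have hDc : ∀ θ θ', D₀ θ (c θ') = if θ = θ' then 1 else 0 := by
    intro θ θ'
    have h1 := hD₀ θ ⟨c θ', hs1 ⟨θ', rfl⟩⟩
    simp only at h1
    rw [h1]
    by_cases h : θ = θ'
    · subst h; simp
    · rw [if_neg h, if_neg]
      intro h2
      exact h (hc.injective h2.symm)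
  -- finitely many of the `z j` suffice
  choose T hT1 hT2 using fun y : K => exists_finset_isAlgebraic (hzalg.isAlgebraic y)
  set U : Finset K := (G ∪ Finset.univ.image c).biUnion T with hU
  have hUz : (U : Set K) ⊆ Set.range z := by
    rw [hU, Finset.coe_biUnion]
    exact Set.iUnion₂_subset fun y _ => hT1 y
  obtain ⟨S₀, hS₀⟩ : ∃ S₀ : Finset (Unit ⊕ ι), S₀.image z = U := by
    obtain ⟨S₀, _, hS₀⟩ := Finset.subset_set_image_iff.mp
      (show (U : Set K) ⊆ z '' Set.univ by rwa [Set.image_univ])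
    exact ⟨S₀, hS₀⟩
  have hUalg : ∀ y ∈ G ∪ Finset.univ.image c,
      IsAlgebraic (IntermediateField.adjoin k₀ (U : Set K)) y := fun y hy =>
    isAlgebraic_adjoin_mono (Finset.coe_subset.mpr (Finset.subset_biUnion_of_mem T hy)) (hT2 y)
  set B₁ : Finset (Unit ⊕ ι) := insert (Sum.inl ()) S₀ with hB₁
  -- the derivations which are not in `B₁`
  have hkill : ∀ b ∉ B₁, ∀ y ∈ G ∪ Finset.univ.image c, E b y = 0 := by
    intro b hb y hy
    refine der_eq_zero (V := K) (E b) (U : Set K) ?_ (hUalg y hy)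
    intro u hu
    rw [← hS₀, Finset.coe_image] at hu
    obtain ⟨j, hj, rfl⟩ := hu
    rw [hE, if_neg]
    rintro rfl
    exact hb (Finset.mem_insert_of_mem hj)
  have hEt : ∀ b, b ≠ Sum.inl () → E b (algebraMap κ[X] K X) = 0 := by
    intro b hb
    rw [← hzt, hE, if_neg hb]
  have hEt' : ∀ b, ∃ v : κ, derZ (E b) (algebraMap κ[X] K X) = algebraMap κ K v := by
    intro b
    show ∃ v : κ, E b (algebraMap κ[X] K X) = algebraMap κ K v
    by_cases hb : b = Sum.inl ()
    · exact ⟨1, by rw [← hzt, hE, if_pos hb, map_one]⟩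
    · exact ⟨0, by rw [hEt b hb, map_zero]⟩
  have hEκ' : ∀ b, ∀ u : κ, ∃ u' : κ, derZ (E b) (algebraMap κ K u) = algebraMap κ K u' := hEκ
  have hout : ∀ b ∉ B₁, (∀ y : K, IsIntegral κ[X] y → IsIntegral κ[X] (E b y)) ∧
      ∀ y : K, IsIntegral (Rinf κ) y → IsIntegral (Rinf κ) (E b y) := by
    intro b hb
    refine stable_of_kill (derZ (E b)) (hEκ' b) ?_ G ?_ hG
    · refine hEt b ?_
      rintro rfl
      exact hb (Finset.mem_insert_self _ _)
    · intro y hy
      exact hkill b hb y (Finset.mem_union_left _ hy)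
  -- the new derivations dual to `c`
  have hsum : ∀ (S' : Finset (Unit ⊕ ι)) (θ : Θ) (y : K), (∑ j ∈ S', D₀ θ (z j) • E j) y =
      ∑ j ∈ S', D₀ θ (z j) * E j y := by
    intro S' θ y
    induction S' using Finset.induction_on with
    | empty => simp
    | insert a S' ha ih =>
      rw [Finset.sum_insert ha, Finset.sum_insert ha, Derivation.add_apply, ih,
        Derivation.smul_apply, smul_eq_mul]
  let D : Θ → Derivation k₀ K K := fun θ => ∑ j ∈ B₁, D₀ θ (z j) • E j
  have hDy : ∀ θ y, D θ y = ∑ j ∈ B₁, D₀ θ (z j) * E j y := fun θ y => hsum B₁ θ y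
  have hD : ∀ θ θ', D θ (c θ') = if θ = θ' then 1 else 0 := by
    intro θ θ'
    rw [← hDc θ θ']
    have h2 := der_eq_zero (V := K) (D₀ θ - D θ) (U : Set K) ?_
      (x := c θ') (hUalg _ (Finset.mem_union_right _ (Finset.mem_image_of_mem _ (Finset.mem_univ _))))
    · rw [Derivation.sub_apply, sub_eq_zero] at h2
      exact h2.symm
    · intro y hy
      rw [← hS₀, Finset.coe_image] at hy
      obtain ⟨i, hi, rfl⟩ := hy
      have hi' : i ∈ B₁ := Finset.mem_insert_of_mem hi
      rw [Derivation.sub_apply, sub_eq_zero, hDy, Finset.sum_eq_single i]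
      · rw [hE, if_pos rfl, mul_one]
      · intro b _ hb
        rw [hE, if_neg hb, mul_zero]
      · intro h
        exact absurd hi' h
  -- common denominators
  let f : (B₁ ⊕ Θ) → B₁ → K := Sum.elim (fun b j => if b = j then 1 else 0)
    (fun θ j => D₀ θ (z j))
  let S' : Finset K := S ∪ Finset.univ.image (fun p : B₁ × Θ => E p.1 (c p.2))
  have hf1 : ∀ (b : B₁) (y : K), ∑ j, f (Sum.inl b) j * derZ (E (j : Unit ⊕ ι)) y = E b y := by
    intro b y
    rw [Finset.sum_eq_single b]
    · show (if b = b then 1 else 0) * E b y = E b y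
      rw [if_pos rfl, one_mul]
    · intro j _ hj
      show (if b = j then 1 else 0) * E j y = 0
      rw [if_neg (Ne.symm hj), zero_mul]
    · intro h
      exact absurd (Finset.mem_univ b) h
  have hf2 : ∀ (θ : Θ) (y : K), ∑ j, f (Sum.inr θ) j * derZ (E (j : Unit ⊕ ι)) y = D θ y := by
    intro θ y
    rw [hDy, ← Finset.sum_coe_sort B₁]
    rfl
  obtain ⟨δf, hδf0, hδf1, hδf2⟩ := exists_delta_comb (R := κ[X]) (K₀ := RatFunc κ)
    (fun j : B₁ => derZ (E j)) (fun j ρ => by
      obtain ⟨g, hg, -⟩ := poly_stable (derZ (E j)) (hEκ' j) (hEt' j) ρ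
      exact ⟨g, hg⟩) f S'
  obtain ⟨δi, hδi0, hδi1, hδi2⟩ := exists_delta_comb (R := Rinf κ) (K₀ := RatFunc κ)
    (fun j : B₁ => derZ (E j)) (fun j ρ => rinf_stable (derZ (E j)) (hEκ' j) (hEt' j) ρ) f S'
  have hmemS' : ∀ b (hb : b ∈ B₁) (θ : Θ), E b (c θ) ∈ S' := fun b hb θ =>
    Finset.mem_union_right _ (Finset.mem_image.mpr ⟨(⟨b, hb⟩, θ), Finset.mem_univ _, rfl⟩)
  refine ⟨Unit ⊕ ι, inferInstance, z, E, D, fun b b' => ?_, hzalg, hD,
    ⟨δf, hδf0, ?_, ?_, ?_, fun y hy => hδf2 y (Finset.mem_union_left _ hy)⟩,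
    ⟨δi, hδi0, ?_, ?_, ?_, fun y hy => hδi2 y (Finset.mem_union_left _ hy)⟩⟩
  · rw [hE]
  · intro b y hy
    by_cases hb : b ∈ B₁
    · have h := hδf1 (Sum.inl ⟨b, hb⟩) y hy
      rwa [hf1] at h
    · exact isIntegral_algebraMap.mul ((hout b hb).1 y hy)
  · intro θ y hy
    have h := hδf1 (Sum.inr θ) y hy
    rwa [hf2] at h
  · intro b θ
    by_cases hb : b ∈ B₁
    · exact hδf2 _ (hmemS' b hb θ)
    · rw [hkill b hb _ (Finset.mem_union_right _ (Finset.mem_image_of_mem _ (Finset.mem_univ _))),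
        mul_zero]
      exact isIntegral_zero
  · intro b y hy
    by_cases hb : b ∈ B₁
    · have h := hδi1 (Sum.inl ⟨b, hb⟩) y hy
      rwa [hf1] at h
    · exact isIntegral_algebraMap.mul ((hout b hb).2 y hy)
  · intro θ y hy
    have h := hδi1 (Sum.inr θ) y hy
    rwa [hf2] at h
  · intro b θ
    by_cases hb : b ∈ B₁
    · exact hδi2 _ (hmemS' b hb θ)
    · rw [hkill b hb _ (Finset.mem_union_right _ (Finset.mem_image_of_mem _ (Finset.mem_univ _))),
        mul_zero]
      exact isIntegral_zero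

end Family

end Pool.Agent.Lib.MP_44a246_nt
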