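import Mathlib
import Pool.Agent.Lib.MP_44a246_nt.Trdeg
import Pool.Agent.Lib.MP_44a246_nt.Jac2

/-!
Tangent spaces, their Pluecker coordinates, and their description by a family of derivations.
-/

namespace Pool.Agent.Lib.MP_44a246_nt

open Pool.Agent.Lib.MP_e52354_nt

section Def

variable {L σ : Type*} [Field L]

/-- The tangent space at `x` of the cone over the Zariski closure of the point `x` over the field
generated by `A`: the vectors `c x + E x`, where `c ∈ L` and `E` is a derivation of `L` vanishing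
on `A`, applied to the coordinates of `x`. -/
def tangent (A : Set L) (x : σ → L) : Submodule L (σ → L) where
  carrier := {w | ∃ (c : L) (E : Derivation ℤ L L), (∀ a ∈ A, E a = 0) ∧
    ∀ k, w k = c * x k + E (x k)}
  add_mem' := by
    rintro w w' ⟨c, E, h1, h2⟩ ⟨c', E', h1', h2'⟩
    refine ⟨c + c', E + E', fun a ha => ?_, fun k => ?_⟩
    · rw [Derivation.add_apply, h1 a ha, h1' a ha, add_zero]
    · rw [Pi.add_apply, h2, h2', Derivation.add_apply]; ring
  zero_mem' := ⟨0, 0, fun a _ => rfl, fun k => by simp⟩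
  smul_mem' := by
    rintro b w ⟨c, E, h1, h2⟩
    refine ⟨b * c, b • E, fun a ha => ?_, fun k => ?_⟩
    · rw [Derivation.smul_apply, h1 a ha, smul_zero]
    · rw [Pi.smul_apply, h2, Derivation.smul_apply, smul_eq_mul, smul_eq_mul]; ring

end Def

section Pluecker

variable {L : Type*} [Field L] {N c : ℕ}

theorem exists_minor_ne {W : Submodule L (Fin N → L)} (b : Fin c → (Fin N → L))
    (hb : LinearIndependent L b) : ∃ A : Fin c → Fin N,
      (Matrix.of fun i j => b i (A j)).det ≠ 0 := by
  classical
  obtain ⟨s, hs, hs'⟩ := exists_cols (Submodule.span L (Set.range b))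
  rw [finrank_span_eq_card hb, Fintype.card_fin] at hs
  let A : Fin c → Fin N := fun j => (s.orderEmbOfFin hs j)
  refine ⟨A, fun hdet => ?_⟩
  obtain ⟨v, hv0, hv⟩ := Matrix.exists_vecMul_eq_zero_iff.mpr hdet
  have h1 : ∑ i, v i • b i = 0 := by
    apply hs'
    · exact Submodule.sum_mem _ fun i _ => Submodule.smul_mem _ _
        (Submodule.subset_span ⟨i, rfl⟩)
    · intro k hk
      obtain ⟨j, rfl⟩ : ∃ j, A j = k := by
        have : k ∈ Set.range (s.orderEmbOfFin hs) := by
          rw [Finset.range_orderEmbOfFin]; exact hk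
        exact this
      have h2 := congrFun hv j
      rw [Matrix.vecMul, dotProduct] at h2
      simp only [Finset.sum_apply, Pi.smul_apply, smul_eq_mul]
      exact h2
  apply hv0
  funext i
  exact Fintype.linearIndependent_iff.mp hb v h1 i

end Pluecker

section Density

variable {k₀ K L : Type*} [Field k₀] [CharZero k₀] [Field K] [Field L] [Algebra k₀ K]
  [Algebra K L] [Algebra k₀ L] [IsScalarTower k₀ K L] [Algebra.IsAlgebraic K L]

theorem isAlgebraic_map_adjoin {B : Type*} {z : B → K}
    (hz : Algebra.IsAlgebraic (IntermediateField.adjoin k₀ (Set.range z)) K) (y : L) :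
    IsAlgebraic (IntermediateField.adjoin k₀ (Set.range fun b => algebraMap K L (z b))) y := by
  set F := IntermediateField.adjoin k₀ (Set.range z) with hF
  set F' := IntermediateField.adjoin k₀ (Set.range fun b => algebraMap K L (z b)) with hF'
  have hmap : F.map (IsScalarTower.toAlgHom k₀ K L) = F' := by
    rw [hF, IntermediateField.adjoin_map, hF']
    congr 1
    rw [← Set.range_comp]
    rfl
  have : IsScalarTower F K L := inferInstance
  have halg : Algebra.IsAlgebraic F L := Algebra.IsAlgebraic.trans F K L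
  obtain ⟨P, hP0, hP⟩ := halg.isAlgebraic y
  have hmem : ∀ u : F, algebraMap K L u ∈ F' := by
    intro u
    rw [← hmap]
    exact ⟨u, u.2, rfl⟩
  let f : F →+* F' :=
    { toFun := fun u => ⟨algebraMap K L u, hmem u⟩
      map_one' := by apply Subtype.ext; simp
      map_mul' := fun u v => by apply Subtype.ext; simp
      map_zero' := by apply Subtype.ext; simp
      map_add' := fun u v => by apply Subtype.ext; simp }
  refine ⟨P.map f, (Polynomial.map_ne_zero_iff f.injective).mpr hP0, ?_⟩
  rw [Polynomial.aeval_def, Polynomial.eval₂_map]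
  exact hP

/-- every derivation is, on a finite set, a combination of the given ones -/
theorem density {B : Type*} [DecidableEq B] {z : B → K}
    (hz : Algebra.IsAlgebraic (IntermediateField.adjoin k₀ (Set.range z)) K)
    (F : B → Derivation ℤ L L) (hF0 : ∀ b (c : k₀), F b (algebraMap k₀ L c) = 0)
    (hF : ∀ b b', F b (algebraMap K L (z b')) = if b = b' then 1 else 0)
    (E : Derivation ℤ L L) (hE : ∀ c : k₀, E (algebraMap k₀ L c) = 0) (Y : Finset L) :
    ∃ s : Finset B, ∀ y ∈ Y, E y = ∑ b ∈ s, E (algebraMap K L (z b)) * F b y := by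
  classical
  choose T hT1 hT2 using fun y : L => exists_finset_isAlgebraic (isAlgebraic_map_adjoin hz y)
  let U : Finset L := Y.biUnion T
  have hU : (U : Set L) ⊆ Set.range fun b => algebraMap K L (z b) := by
    simpa [U] using fun y _ => hT1 y
  obtain ⟨s, hs⟩ : ∃ s : Finset B, s.image (fun b => algebraMap K L (z b)) = U := by
    obtain ⟨s, _, hs⟩ := Finset.subset_set_image_iff.mp
      (show (U : Set L) ⊆ (fun b => algebraMap K L (z b)) '' Set.univ by rwa [Set.image_univ])
    exact ⟨s, hs⟩
  refine ⟨s, fun y hy => ?_⟩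
  have hsum : ∀ u : L, (∑ b ∈ s, E (algebraMap K L (z b)) • F b) u =
      ∑ b ∈ s, E (algebraMap K L (z b)) * F b u := by
    intro u
    show (Derivation.coeFnAddMonoidHom (∑ b ∈ s, E (algebraMap K L (z b)) • F b)) u = _
    rw [map_sum, Finset.sum_apply]
    rfl
  let G : Derivation ℤ L L := E - ∑ b ∈ s, E (algebraMap K L (z b)) • F b
  have hG : ∀ u, G u = E u - ∑ b ∈ s, E (algebraMap K L (z b)) * F b u := by
    intro u
    simp only [G]
    rw [Derivation.sub_apply, hsum]
  have hG0 : ∀ c : k₀, G (algebraMap k₀ L c) = 0 := by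
    intro c
    rw [hG, hE]
    simp [hF0]
  have h := der_eq_zero (toLinearDer G hG0) (U : Set L) (x := y) ?_ ?_
  · have h1 : G y = 0 := h
    rw [hG] at h1
    exact sub_eq_zero.mp h1
  · intro u hu
    rw [← hs, Finset.coe_image] at hu
    obtain ⟨b, hb, rfl⟩ := hu
    have hb' : b ∈ s := hb
    show G _ = 0
    rw [hG, sub_eq_zero, Finset.sum_eq_single b]
    · simp [hF]
    · intro b' _ hb''
      rw [hF, if_neg hb'', mul_zero]
    · intro h; exact absurd hb' h
  · refine isAlgebraic_adjoin_mono ?_ (hT2 y)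
    exact Finset.coe_subset.mpr (Finset.subset_biUnion_of_mem T hy)

end Density

section Compare

variable {k₀ K L : Type*} [Field k₀] [CharZero k₀] [Field K] [Field L] [Algebra k₀ K]
  [Algebra K L] [Algebra k₀ L] [IsScalarTower k₀ K L] [Algebra.IsAlgebraic K L]

variable {n : ℕ} {ι : Type*} [Finite ι] [DecidableEq ι] {d : ι → ℕ} {aK : ι → Expo n → K}
  {B : Type*} [DecidableEq B]

/-- the set of the coefficients -/
def coefSet (L : Type*) [Field L] [Algebra K L] (d : ι → ℕ) (aK : ι → Expo n → K) : Set L :=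
  {y | ∃ i, ∃ I ∈ expo (Fin (n + 1)) (d i), y = algebraMap K L (aK i I)}

theorem span_eq_tangent {z : B → K}
    (hz : Algebra.IsAlgebraic (IntermediateField.adjoin k₀ (Set.range z)) K)
    {D : ι → Expo n → Derivation ℤ L L} {E : B → Derivation ℤ L L}
    (hD0 : ∀ i I (c : k₀), D i I (algebraMap k₀ L c) = 0)
    (hE0 : ∀ b (c : k₀), E b (algebraMap k₀ L c) = 0)
    (hD : DualFam d (fun i I => algebraMap K L (aK i I)) D)
    (hE : ∀ b i, ∀ I ∈ expo (Fin (n + 1)) (d i), E b (algebraMap K L (aK i I)) = 0)
    (e : B → ι → Expo n → L)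
    (hF : ∀ b b', E b (algebraMap K L (z b')) + ∑ᶠ i, ∑ I ∈ expo (Fin (n + 1)) (d i),
      e b i I * D i I (algebraMap K L (z b')) = if b = b' then 1 else 0)
    (x : Fin (n + 1) → L) :
    spanX2 d D E x = tangent (Set.range (algebraMap k₀ L)) x ∧
      spanX1 E x = tangent (Set.range (algebraMap k₀ L) ∪ coefSet L d aK) x := by
  classical
  have := Fintype.ofFinite ι
  simp only [finsum_eq_sum_of_fintype] at hF
  -- the auxiliary derivations
  let F : B → Derivation ℤ L L := fun b =>
    E b + ∑ i, ∑ I ∈ expo (Fin (n + 1)) (d i), e b i I • D i I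
  have hFy : ∀ b y, F b y = E b y + ∑ i, ∑ I ∈ expo (Fin (n + 1)) (d i), e b i I * D i I y := by
    intro b y
    show (Derivation.coeFnAddMonoidHom (E b + ∑ i, ∑ I ∈ expo (Fin (n + 1)) (d i),
      e b i I • D i I)) y = _
    rw [map_add, map_sum, Pi.add_apply, Finset.sum_apply]
    simp only [map_sum, Finset.sum_apply]
    rfl
  have hFc : ∀ b j, ∀ J ∈ expo (Fin (n + 1)) (d j), F b (algebraMap K L (aK j J)) = e b j J := by
    intro b j J hJ
    rw [hFy, hE b j J hJ, zero_add, Finset.sum_eq_single j]
    · rw [Finset.sum_eq_single J]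
      · rw [hD j J hJ j J hJ, if_pos ⟨rfl, rfl⟩, mul_one]
      · intro I hI hIJ
        rw [hD j I hI j J hJ, if_neg (fun h => hIJ h.2), mul_zero]
      · intro h; exact absurd hJ h
    · intro i _ hij
      refine Finset.sum_eq_zero fun I hI => ?_
      rw [hD i I hI j J hJ, if_neg (fun h => hij h.1), mul_zero]
    · intro h; exact absurd (Finset.mem_univ _) h
  have hF0 : ∀ b (c : k₀), F b (algebraMap k₀ L c) = 0 := by
    intro b c
    rw [hFy, hE0]
    simp [hD0]
  have hFz : ∀ b b', F b (algebraMap K L (z b')) = if b = b' then 1 else 0 := by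
    intro b b'
    rw [hFy]
    exact hF b b'
  let Y : Finset L := Finset.univ.image x ∪
    Finset.univ.biUnion fun i => (expo (Fin (n + 1)) (d i)).image fun I => algebraMap K L (aK i I)
  have hYx : ∀ k, x k ∈ Y := fun k =>
    Finset.mem_union_left _ (Finset.mem_image_of_mem _ (Finset.mem_univ k))
  have hYa : ∀ i, ∀ I ∈ expo (Fin (n + 1)) (d i), algebraMap K L (aK i I) ∈ Y := fun i I hI =>
    Finset.mem_union_right _ (Finset.mem_biUnion.mpr ⟨i, Finset.mem_univ _,
      Finset.mem_image_of_mem _ hI⟩)
  constructor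
  · apply le_antisymm
    · unfold spanX2
      rw [Submodule.span_le]
      rintro w (rfl | (⟨i, I, hI, rfl⟩ | ⟨b, rfl⟩))
      · exact ⟨1, 0, fun a _ => rfl, fun k => by simp⟩
      · refine ⟨0, D i I, ?_, fun k => by simp⟩
        rintro _ ⟨c, rfl⟩
        exact hD0 i I c
      · refine ⟨0, E b, ?_, fun k => by simp⟩
        rintro _ ⟨c, rfl⟩
        exact hE0 b c
    · rintro w ⟨c, G, hG, hw⟩
      obtain ⟨s, hs⟩ := density hz F hF0 hFz G (fun c => hG _ ⟨c, rfl⟩) Y
      have h1 : w = c • x + ∑ b ∈ s, G (algebraMap K L (z b)) • ((fun k => E b (x k)) +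
          ∑ i, ∑ I ∈ expo (Fin (n + 1)) (d i), e b i I • (fun k => D i I (x k))) := by
        funext k
        rw [hw k, hs _ (hYx k)]
        simp only [hFy, Pi.add_apply, Pi.smul_apply, smul_eq_mul, Finset.sum_apply]
      rw [h1]
      refine Submodule.add_mem _ (Submodule.smul_mem _ _ (Submodule.subset_span
        (Set.mem_insert _ _))) (Submodule.sum_mem _ fun b _ => Submodule.smul_mem _ _
        (Submodule.add_mem _ (Submodule.subset_span (Set.mem_insert_of_mem _
        (Or.inr ⟨b, rfl⟩))) (Submodule.sum_mem _ fun i _ => Submodule.sum_mem _ fun I hI =>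
        Submodule.smul_mem _ _ (Submodule.subset_span (Set.mem_insert_of_mem _
        (Or.inl ⟨i, I, hI, rfl⟩))))))
  · apply le_antisymm
    · unfold spanX1
      rw [Submodule.span_le]
      rintro w (rfl | ⟨b, rfl⟩)
      · exact ⟨1, 0, fun a _ => rfl, fun k => by simp⟩
      · refine ⟨0, E b, ?_, fun k => by simp⟩
        rintro _ (⟨c, rfl⟩ | ⟨i, I, hI, rfl⟩)
        · exact hE0 b c
        · exact hE b i I hI
    · rintro w ⟨c, G, hG, hw⟩
      obtain ⟨s, hs⟩ := density hz F hF0 hFz G (fun c => hG _ (Or.inl ⟨c, rfl⟩)) Y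
      have hcoef : ∀ i, ∀ I ∈ expo (Fin (n + 1)) (d i),
          ∑ b ∈ s, G (algebraMap K L (z b)) * e b i I = 0 := by
        intro i I hI
        have h1 := hs _ (hYa i I hI)
        rw [hG _ (Or.inr ⟨i, I, hI, rfl⟩)] at h1
        rw [h1]
        exact Finset.sum_congr rfl fun b _ => by rw [hFc b i I hI]
      have h1 : w = c • x + ∑ b ∈ s, G (algebraMap K L (z b)) • (fun k => E b (x k)) := by
        funext k
        rw [hw k, hs _ (hYx k)]
        simp only [hFy, Pi.add_apply, Pi.smul_apply, smul_eq_mul, Finset.sum_apply, mul_add,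
          Finset.sum_add_distrib]
        have h2 : ∑ b ∈ s, G (algebraMap K L (z b)) * ∑ i, ∑ I ∈ expo (Fin (n + 1)) (d i),
            e b i I * D i I (x k) = 0 := by
          simp only [Finset.mul_sum]
          rw [Finset.sum_comm]
          refine Finset.sum_eq_zero fun i _ => ?_
          rw [Finset.sum_comm]
          refine Finset.sum_eq_zero fun I hI => ?_
          have : ∀ b ∈ s, G (algebraMap K L (z b)) * (e b i I * D i I (x k)) =
              (G (algebraMap K L (z b)) * e b i I) * D i I (x k) := fun b _ => by ring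
          rw [Finset.sum_congr rfl this, ← Finset.sum_mul, hcoef i I hI, zero_mul]
        rw [h2, add_zero]
      rw [h1]
      exact Submodule.add_mem _ (Submodule.smul_mem _ _ (Submodule.subset_span
        (Set.mem_insert _ _))) (Submodule.sum_mem _ fun b _ => Submodule.smul_mem _ _
        (Submodule.subset_span (Set.mem_insert_of_mem _ ⟨b, rfl⟩)))

end Compare

end Pool.Agent.Lib.MP_44a246_nt
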