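import Mathlib
import Pool.Agent.Lib.MP_44a246_nt.Core2
import Pool.Agent.Lib.MP_44a246_nt.Family
import Pool.Agent.Lib.MP_44a246_nt.Tangent

/-!
The main inequality with tangent spaces, in terms of coefficient functions.
-/

namespace Pool.Agent.Lib.MP_44a246_nt

open Pool.Agent.Lib.MP_e52354_nt WithZero Polynomial

universe u v w

section SubHeight

variable (κ : Type*) {L : Type*} [Field κ] [Field L] [Algebra κ L]

/-- The height of a subspace: the height of the vector of its Pluecker coordinates. -/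
noncomputable def subHeight {σ : Type*} [Fintype σ] (W : Submodule L (σ → L)) : ℤ :=
  height κ (fun A : Fin (Module.finrank L W) → σ =>
    (Matrix.of fun i j => (Module.finBasis L W i : σ → L) (A j)).det)

end SubHeight

section Data2

variable {k₀ : Type*} {κ : Type u} {K : Type v} [Field k₀] [CharZero k₀] [Field κ] [Field K]
  [Algebra k₀ κ] [Algebra κ K] [Algebra k₀ K] [IsScalarTower k₀ κ K]
  [Algebra κ[X] K] [IsScalarTower κ κ[X] K]
  [Algebra (RatFunc κ) K] [IsScalarTower κ[X] (RatFunc κ) K]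
  [Algebra (Rinf κ) K] [IsScalarTower (Rinf κ) (RatFunc κ) K]
  [FiniteDimensional (RatFunc κ) K]

variable {n : ℕ} {ι : Type*} [Fintype ι] [DecidableEq ι] {d : ι → ℕ} {aK : ι → Expo n → K}

theorem int_comb {R : Type*} [CommRing R] [Algebra R K] {δ : R} {e y : K} {S : Type*}
    (T : S → Finset (Expo n)) [Fintype S] (f g : S → Expo n → K)
    (h0 : IsIntegral R (algebraMap R K δ * e))
    (hf : ∀ i, ∀ I ∈ T i, IsIntegral R (algebraMap R K δ * f i I))
    (hg : ∀ i, ∀ I ∈ T i, IsIntegral R (algebraMap R K δ * g i I))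
    (hy : y = e - ∑ i, ∑ I ∈ T i, f i I * g i I) :
    IsIntegral R (algebraMap R K (δ * δ) * y) := by
  have h1 : algebraMap R K (δ * δ) * y = algebraMap R K δ * (algebraMap R K δ * e) -
      ∑ i, ∑ I ∈ T i, (algebraMap R K δ * f i I) * (algebraMap R K δ * g i I) := by
    rw [hy, mul_sub, Finset.mul_sum, map_mul]
    congr 1
    · ring
    · refine Finset.sum_congr rfl fun i _ => ?_
      rw [Finset.mul_sum]
      exact Finset.sum_congr rfl fun I _ => by ring
  rw [h1]
  exact (isIntegral_algebraMap.mul h0).sub (IsIntegral.sum _ fun i _ =>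
    IsIntegral.sum _ fun I hI => (hf i I hI).mul (hg i I hI))

theorem exists_data2 (ht : Transcendental κ (algebraMap κ[X] K X))
    (halg : Algebra.IsAlgebraic (IntermediateField.adjoin κ {algebraMap κ[X] K X}) K)
    (hc : AlgebraicIndependent k₀
      (fun θ : {θ : ι × Expo n // θ.2 ∈ expo (Fin (n + 1)) (d θ.1)} => aK θ.1.1 θ.1.2)) (s : K) :
    ∃ (B : Type u) (_ : DecidableEq B) (z : B → K) (DK : ι → Expo n → Derivation ℤ K K)
      (EK : B → Derivation ℤ K K) (e : B → ι → Expo n → K), DualFam d aK DK ∧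
      (∀ b i, ∀ I ∈ expo (Fin (n + 1)) (d i), EK b (aK i I) = 0) ∧
      (∀ i I (c : k₀), DK i I (algebraMap k₀ K c) = 0) ∧
      (∀ b (c : k₀), EK b (algebraMap k₀ K c) = 0) ∧
      Algebra.IsAlgebraic (IntermediateField.adjoin k₀ (Set.range z)) K ∧
      (∀ b b', EK b (z b') + ∑ i, ∑ I ∈ expo (Fin (n + 1)) (d i), e b i I * DK i I (z b') =
        if b = b' then 1 else 0) ∧
      (∃ δf : κ[X], δf ≠ 0 ∧
        (∀ i, ∀ I ∈ expo (Fin (n + 1)) (d i), ∀ b : K, IsIntegral κ[X] b →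
          IsIntegral κ[X] (algebraMap κ[X] K δf * DK i I b)) ∧
        (∀ b, ∀ y : K, IsIntegral κ[X] y → IsIntegral κ[X] (algebraMap κ[X] K δf * EK b y)) ∧
        (∀ i, ∀ I ∈ expo (Fin (n + 1)) (d i), IsIntegral κ[X] (algebraMap κ[X] K δf * aK i I)) ∧
        IsIntegral κ[X] (algebraMap κ[X] K δf * s) ∧
        IsIntegral κ[X] (algebraMap κ[X] K δf * s⁻¹)) ∧
      (∃ δi : Rinf κ, δi ≠ 0 ∧
        (∀ i, ∀ I ∈ expo (Fin (n + 1)) (d i), ∀ b : K, IsIntegral (Rinf κ) b →
          IsIntegral (Rinf κ) (algebraMap (Rinf κ) K δi * DK i I b)) ∧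
        (∀ b, ∀ y : K, IsIntegral (Rinf κ) y →
          IsIntegral (Rinf κ) (algebraMap (Rinf κ) K δi * EK b y)) ∧
        (∀ i, ∀ I ∈ expo (Fin (n + 1)) (d i),
          IsIntegral (Rinf κ) (algebraMap (Rinf κ) K δi * aK i I)) ∧
        IsIntegral (Rinf κ) (algebraMap (Rinf κ) K δi * s) ∧
        IsIntegral (Rinf κ) (algebraMap (Rinf κ) K δi * s⁻¹)) := by
  classical
  let T := {θ : ι × Expo n // θ.2 ∈ expo (Fin (n + 1)) (d θ.1)}
  have hT : Finite T := by
    have : Function.Injective (fun θ : T => (⟨θ.1.1, ⟨θ.1.2, θ.2⟩⟩ :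
        Σ i, {I // I ∈ expo (Fin (n + 1)) (d i)})) := by
      rintro ⟨⟨i, I⟩, h⟩ ⟨⟨i', I'⟩, h'⟩ heq
      simp only [Sigma.mk.injEq] at heq
      obtain ⟨h1, h2⟩ := heq
      subst h1
      simp only [heq_eq_eq, Subtype.mk.injEq] at h2
      subst h2
      rfl
    exact Finite.of_injective _ this
  have := Fintype.ofFinite T
  let S : Finset K := (Finset.univ.image fun θ : T => aK θ.1.1 θ.1.2) ∪ {s, s⁻¹}
  have haS : ∀ i, ∀ I ∈ expo (Fin (n + 1)) (d i), aK i I ∈ S := fun i I hI =>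
    Finset.mem_union_left _ (Finset.mem_image.mpr ⟨⟨(i, I), hI⟩, Finset.mem_univ _, rfl⟩)
  have hsS : s ∈ S := Finset.mem_union_right _ (by simp)
  have hsS' : s⁻¹ ∈ S := Finset.mem_union_right _ (by simp)
  obtain ⟨B, iB, z, E, D, h1, h2, h3, ⟨δf, hf0, hf1, hf2, hf3, hf4⟩, ⟨δi, hi0, hi1, hi2, hi3, hi4⟩⟩ :=
    exists_family (k₀ := k₀) ht halg hc S
  let DK : ι → Expo n → Derivation ℤ K K := fun i I =>
    if h : I ∈ expo (Fin (n + 1)) (d i) then derZ (D ⟨(i, I), h⟩) else 0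
  have hDK : ∀ i I (h : I ∈ expo (Fin (n + 1)) (d i)) y, DK i I y = D ⟨(i, I), h⟩ y := by
    intro i I h y
    simp only [DK, dif_pos h]
    rfl
  have hdual : DualFam d aK DK := by
    intro i I hI j J hJ
    rw [hDK i I hI, h3 ⟨(i, I), hI⟩ ⟨(j, J), hJ⟩]
    refine if_congr ?_ rfl rfl
    rw [Subtype.mk.injEq, Prod.mk.injEq]
  let EK : B → Derivation ℤ K K := fun b =>
    derZ (E b) - ∑ i, ∑ I ∈ expo (Fin (n + 1)) (d i), E b (aK i I) • DK i I
  have hEK : ∀ b y, EK b y = E b y -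
      ∑ i, ∑ I ∈ expo (Fin (n + 1)) (d i), E b (aK i I) * DK i I y := by
    intro b y
    show (Derivation.coeFnAddMonoidHom (derZ (E b) -
      ∑ i, ∑ I ∈ expo (Fin (n + 1)) (d i), E b (aK i I) • DK i I)) y = _
    rw [map_sub, map_sum, Pi.sub_apply, Finset.sum_apply]
    simp only [map_sum, Finset.sum_apply]
    rfl
  have hDK0 : ∀ i I (c : k₀), DK i I (algebraMap k₀ K c) = 0 := by
    intro i I c
    by_cases h : I ∈ expo (Fin (n + 1)) (d i)
    · rw [hDK i I h, Derivation.map_algebraMap]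
    · simp only [DK, dif_neg h]
      rfl
  refine ⟨B, iB, z, DK, EK, fun b i I => E b (aK i I), hdual, ?_, hDK0, ?_, h2, ?_,
    ⟨δf * δf, mul_ne_zero hf0 hf0, ?_, ?_, ?_, ?_, ?_⟩,
    ⟨δi * δi, mul_ne_zero hi0 hi0, ?_, ?_, ?_, ?_, ?_⟩⟩
  · intro b j J hJ
    rw [hEK, sub_eq_zero, Finset.sum_eq_single j]
    · rw [Finset.sum_eq_single J]
      · rw [hdual j J hJ j J hJ, if_pos ⟨rfl, rfl⟩, mul_one]
      · intro I hI hIJ
        rw [hdual j I hI j J hJ, if_neg (fun h => hIJ h.2), mul_zero]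
      · intro h; exact absurd hJ h
    · intro i _ hij
      refine Finset.sum_eq_zero fun I hI => ?_
      rw [hdual i I hI j J hJ, if_neg (fun h => hij h.1), mul_zero]
    · intro h; exact absurd (Finset.mem_univ _) h
  · intro b c
    rw [hEK, Derivation.map_algebraMap]
    simp [hDK0]
  · intro b b'
    rw [hEK, sub_add_cancel, h1]
  · intro i I hI y hy
    rw [map_mul, mul_assoc, hDK i I hI]
    exact isIntegral_algebraMap.mul (hf2 _ y hy)
  · intro b y hy
    exact int_comb (fun i => expo (Fin (n + 1)) (d i)) (fun i I => E b (aK i I))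
      (fun i I => DK i I y) (hf1 b y hy) (fun i I hI => hf3 b ⟨(i, I), hI⟩)
      (fun i I hI => by rw [hDK i I hI]; exact hf2 _ y hy) (hEK b y)
  · intro i I hI
    rw [map_mul, mul_assoc]
    exact isIntegral_algebraMap.mul (hf4 _ (haS i I hI))
  · rw [map_mul, mul_assoc]
    exact isIntegral_algebraMap.mul (hf4 _ hsS)
  · rw [map_mul, mul_assoc]
    exact isIntegral_algebraMap.mul (hf4 _ hsS')
  · intro i I hI y hy
    rw [map_mul, mul_assoc, hDK i I hI]
    exact isIntegral_algebraMap.mul (hi2 _ y hy)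
  · intro b y hy
    exact int_comb (fun i => expo (Fin (n + 1)) (d i)) (fun i I => E b (aK i I))
      (fun i I => DK i I y) (hi1 b y hy) (fun i I hI => hi3 b ⟨(i, I), hI⟩)
      (fun i I hI => by rw [hDK i I hI]; exact hi2 _ y hy) (hEK b y)
  · intro i I hI
    rw [map_mul, mul_assoc]
    exact isIntegral_algebraMap.mul (hi4 _ (haS i I hI))
  · rw [map_mul, mul_assoc]
    exact isIntegral_algebraMap.mul (hi4 _ hsS)
  · rw [map_mul, mul_assoc]
    exact isIntegral_algebraMap.mul (hi4 _ hsS')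

end Data2

section Main2

variable {k₀ : Type*} {κ : Type u} {K : Type v} [Field k₀] [CharZero k₀] [Field κ]
  [IsAlgClosed κ] [CharZero κ] [Field K]
  [Algebra k₀ κ] [Algebra κ K] [Algebra k₀ K] [IsScalarTower k₀ κ K]
  [Algebra κ[X] K] [IsScalarTower κ κ[X] K]
  [Algebra (RatFunc κ) K] [IsScalarTower κ[X] (RatFunc κ) K]
  [Algebra (Rinf κ) K] [IsScalarTower (Rinf κ) (RatFunc κ) K]
  [FiniteDimensional (RatFunc κ) K]

variable {n : ℕ} {ι : Type*} [Fintype ι] [DecidableEq ι] {d : ι → ℕ} {aK : ι → Expo n → K}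

theorem main_lib2 (ht : Transcendental κ (algebraMap κ[X] K X))
    (halg : Algebra.IsAlgebraic (IntermediateField.adjoin κ {algebraMap κ[X] K X}) K)
    (hc : AlgebraicIndependent k₀
      (fun θ : {θ : ι × Expo n // θ.2 ∈ expo (Fin (n + 1)) (d θ.1)} => aK θ.1.1 θ.1.2))
    {m : ℕ} (hm : 1 ≤ m) (hmd : ∀ i, m ≤ d i) {s : K} (hs0 : s ≠ 0) :
    ∃ C : ℕ, ∀ (L : Type w) [Field L] [Algebra κ L] [Algebra κ[X] L] [IsScalarTower κ κ[X] L]
      [Algebra (RatFunc κ) L] [IsScalarTower κ[X] (RatFunc κ) L]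
      [Algebra (Rinf κ) L] [IsScalarTower (Rinf κ) (RatFunc κ) L]
      [Algebra K L] [IsScalarTower κ K L] [IsScalarTower κ[X] K L] [IsScalarTower (Rinf κ) K L]
      [IsScalarTower (RatFunc κ) K L] [FiniteDimensional K L] [Algebra k₀ L]
      [IsScalarTower k₀ K L] (x : Fin (n + 1) → L) (_ : x ≠ 0) (H : ℕ)
      (GS : Set (Expo n → L))
      (_ : ∀ G ∈ GS, Fval m G x = 0)
      (_ : ∀ G ∈ GS, ∑ᶠ v : Place κ L, log (Gam v.1 m G) ≤ H)
      (_ : ∀ G : Expo n → L, Fval m G x = 0 →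
        ∃ G' ∈ Submodule.span L GS, ∀ I ∈ expo (Fin (n + 1)) m, G' I = G I)
      (Θ Θ₁ : Submodule L (Fin (n + 1) → L))
      (_ : Θ = tangent (Set.range (algebraMap k₀ L)) x)
      (_ : Θ₁ = tangent (Set.range (algebraMap k₀ L) ∪ coefSet L d aK) x),
      Module.finrank L Θ₁ + Nat.card {i // yv d (fun i I => algebraMap K L (aK i I)) x i = 0} ≤
        Module.finrank L Θ ∧
      (((∑ i, d i : ℕ) : ℤ) - Module.finrank L Θ) * height κ x + subHeight κ Θ ≤
        ((truncSet (κ := κ) d aK s x).ncard : ℤ) + (ramDeg κ L K : ℤ) +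
          ((Module.finrank L Θ : ℤ) - Module.finrank L Θ₁ -
            (Nat.card {i // yv d (fun i I => algebraMap K L (aK i I)) x i = 0} : ℕ)) * H +
          (C : ℤ) * (Module.finrank K L : ℤ) := by
  classical
  obtain ⟨B, iB, z, DK, EK, e, hDK, hEKa, hDK0, hEK0, hz, hzE, ⟨δf, hδf0, hf1, hf1', hf2, hf3, hf4⟩,
    ⟨δi, hδi0, hi1, hi1', hi2, hi3, hi4⟩⟩ :=
    exists_data2 (n := n) (d := d) (aK := aK) ht halg hc s
  refine ⟨((n + Fintype.card ι + 1 : ℕ) : ℤ).toNat * ((Module.finrank (RatFunc κ) K : ℤ) *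
    (δf.natDegree - (δi : RatFunc κ).intDegree)).toNat, ?_⟩
  intro L _ _ _ _ _ _ _ _ _ _ _ _ _ _ _ _ x hx H GS hGS hH hspan Θ Θ₁ hΘ hΘ₁
  have hcK : CharZero K := charZero_of_injective_algebraMap (algebraMap κ K).injective
  have : FiniteDimensional (RatFunc κ) L := FiniteDimensional.trans (RatFunc κ) K L
  choose DL hDL using fun i I => exists_extension (K := K) (L := L) (DK i I)
  choose EL hEL using fun b => exists_extension (K := K) (L := L) (EK b)
  have hD : DualFam d (fun i I => algebraMap K L (aK i I)) DL := by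
    intro i I hI j J hJ
    rw [hDL, hDK i I hI j J hJ]
    split_ifs <;> simp
  have hDL0 : ∀ i I (c : k₀), DL i I (algebraMap k₀ L c) = 0 := by
    intro i I c
    rw [IsScalarTower.algebraMap_apply k₀ K L, hDL, hDK0, map_zero]
  have hEL0 : ∀ b (c : k₀), EL b (algebraMap k₀ L c) = 0 := by
    intro b c
    rw [IsScalarTower.algebraMap_apply k₀ K L, hEL, hEK0, map_zero]
  have hELa : ∀ b i, ∀ I ∈ expo (Fin (n + 1)) (d i), EL b (algebraMap K L (aK i I)) = 0 := by
    intro b i I hI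
    rw [hEL, hEKa b i I hI, map_zero]
  obtain ⟨l, hl⟩ : ∃ l, x l ≠ 0 := by
    by_contra hcon
    push Not at hcon
    exact hx (funext hcon)
  obtain ⟨hT2, hT1⟩ := span_eq_tangent (k₀ := k₀) (K := K) (L := L) (n := n) (aK := aK) hz
    hDL0 hEL0 hD hELa (fun b i I => algebraMap K L (e b i I)) (by
      intro b b'
      rw [finsum_eq_sum_of_fintype, hEL]
      simp only [hDL, ← map_mul, ← map_sum, ← map_add]
      rw [hzE b b']
      split_ifs <;> simp) x
  rw [← hΘ] at hT2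
  rw [← hΘ₁] at hT1
  have key : ∀ bas : Module.Basis (Fin (Module.finrank L Θ)) L Θ,
      ∃ (r r' : ℕ) (g : Fin r → Gen n ι L) (b : Fin r' → B)
      (col : (Fin (Module.finrank L Θ) → Fin (n + 1)) →
        Option (Fin r' ⊕ (Fin r ⊕ ι)) → Fin (n + 1) ⊕ ι),
      (∀ k, (g k).Valid d m GS) ∧
      r' + 1 = Module.finrank L Θ₁ ∧
      r + Module.finrank L Θ₁ +
        Nat.card {i // yv d (fun i I => algebraMap K L (aK i I)) x i = 0} ≤
        Module.finrank L Θ ∧
      (∀ A, Nat.card {c // (col A c).isLeft} = Module.finrank L Θ) ∧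
      ∃ J : L, J ≠ 0 ∧ ∀ (A : Fin (Module.finrank L Θ) → Fin (n + 1))
        (V : ι → Derivation ℤ L L), (∀ i, vecE d (fun i I => algebraMap K L (aK i I)) x (V i) ∈
          spanV2 d (fun i I => algebraMap K L (aK i I)) DL EL x) →
        (bigM d (fun i I => algebraMap K L (aK i I)) (col A) x (Sum.elim (fun k => EL (b k))
          (Sum.elim (fun k => genDer DL m (g k)) V))).det =
          J * (Matrix.of fun i j => (bas i : Fin (n + 1) → L) (A j)).det *
            (Matrix.of fun i j => func d (fun i I => algebraMap K L (aK i I)) x j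
              (vecE d (fun i I => algebraMap K L (aK i I)) x (V i))).det := by
    rw [← hT2, ← hT1]
    intro bas
    exact exists_J2 hD hELa hl m hm hmd GS hGS hspan bas
  obtain ⟨r, r', g, b, col, hg, hr', hr, hcol, J, hJ0, hJ⟩ := key (Module.finBasis L Θ)
  have hp : (fun A : Fin (Module.finrank L Θ) → Fin (n + 1) =>
      (Matrix.of fun i j => (Module.finBasis L Θ i : Fin (n + 1) → L) (A j)).det) ≠ 0 := by
    have hli : LinearIndependent L (fun i => (Module.finBasis L Θ i : Fin (n + 1) → L)) :=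
      (Module.finBasis L Θ).linearIndependent.map' Θ.subtype (Submodule.ker_subtype Θ)
    obtain ⟨A, hA⟩ := exists_minor_ne (W := Θ) _ hli
    intro h0
    exact hA (congrFun h0 A)
  have h1 := core2 hDL hEL hD hs0 hδf0 hf1 hf1' hf2 hf3 hf4 hδi0 hi1 hi1' hi2 hi3 hi4 hx GS g hg b
    col hcol _ hp hJ0 hJ
  have h3 : 0 ≤ height κ x := height_nonneg hx
  change subHeight κ Θ + _ ≤ _ at h1
  set c₁ := Module.finrank L Θ with hc₁
  set c₀ := Module.finrank L Θ₁ with hc₀
  set q := Nat.card {i // yv d (fun i I => algebraMap K L (aK i I)) x i = 0} with hq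
  refine ⟨by omega, ?_⟩
  have h4 : (r : ℤ) ≤ (c₁ : ℤ) - c₀ - q := by omega
  have h5 : ∑ k, (∑ᶠ v : Place κ L, log (Gam v.1 m (g k).G)) ≤ ((c₁ : ℤ) - c₀ - q) * H := by
    calc ∑ k, (∑ᶠ v : Place κ L, log (Gam v.1 m (g k).G)) ≤ ∑ _k : Fin r, (H : ℤ) :=
          Finset.sum_le_sum fun k _ => hH _ (hg k).1
      _ = (r : ℤ) * H := by rw [Finset.sum_const, Finset.card_univ, Fintype.card_fin, nsmul_eq_mul]
      _ ≤ _ := mul_le_mul_of_nonneg_right h4 (Int.natCast_nonneg _)
  have h7 : (Module.finrank (RatFunc κ) L : ℤ) =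
      (Module.finrank (RatFunc κ) K : ℤ) * Module.finrank K L := by
    rw [← Module.finrank_mul_finrank (RatFunc κ) K L]
    push_cast
    rfl
  have h8 : (δi : RatFunc κ).intDegree ≤ 0 := (mem_Rinf κ).mp δi.2
  set A : ℤ := (Module.finrank (RatFunc κ) K : ℤ) *
    (δf.natDegree - (δi : RatFunc κ).intDegree) with hA
  have hA0 : 0 ≤ A := by
    refine mul_nonneg (Int.natCast_nonneg _) ?_
    have : (0 : ℤ) ≤ δf.natDegree := Int.natCast_nonneg _
    linarith
  have h9 : ((r' + (r + Fintype.card ι) + 1 : ℕ) : ℤ) * ((Module.finrank (RatFunc κ) L : ℤ) *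
          (δf.natDegree - (δi : RatFunc κ).intDegree)) =
      ((r' + (r + Fintype.card ι) + 1 : ℕ) : ℤ) * (A * Module.finrank K L) := by
    rw [h7, hA]; ring
  have hrn : r' + r ≤ n := by
    have h10 : c₁ ≤ n + 1 := by
      have := Submodule.finrank_le Θ
      rwa [Module.finrank_fintype_fun_eq_card, Fintype.card_fin] at this
    omega
  have h11 : ((r' + (r + Fintype.card ι) + 1 : ℕ) : ℤ) * (A * Module.finrank K L) ≤
      ((n + Fintype.card ι + 1 : ℕ) : ℤ) * (A * Module.finrank K L) := by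
    refine mul_le_mul_of_nonneg_right ?_ (mul_nonneg hA0 (Int.natCast_nonneg _))
    exact_mod_cast (by omega : r' + (r + Fintype.card ι) + 1 ≤ n + Fintype.card ι + 1)
  have h12 : (((((n + Fintype.card ι + 1 : ℕ) : ℤ).toNat * A.toNat : ℕ)) : ℤ) *
      (Module.finrank K L : ℤ) = ((n + Fintype.card ι + 1 : ℕ) : ℤ) * (A * Module.finrank K L) := by
    rw [Nat.cast_mul, Int.toNat_of_nonneg hA0, Int.toNat_natCast]
    ring
  rw [h9] at h1
  rw [h12]
  linarith

end Main2

end Pool.Agent.Lib.MP_44a246_nt
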