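import Mathlib

/-!
Abbreviations for the statements.
-/

namespace Pool.Agent.Lib.MP_44a246_nt

section

variable {K ι σ : Type*} [Field K]

/-- All the coefficients of degree `d i` of all the forms `F i`, together, are algebraically
independent over `k₀`. -/
def GenericCoeffs (k₀ : Type*) [Field k₀] [Algebra k₀ K] (d : ι → ℕ)
    (F : ι → MvPolynomial σ K) : Prop :=
  AlgebraicIndependent k₀
    (fun θ : Σ i, {I : σ →₀ ℕ // I.degree = d i} => (F θ.1).coeff θ.2.1)

/-- The base field `k₀` and the coefficients of the forms `F i`, as a subset of `L`. -/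
def coeffSet (k₀ L : Type*) [Field k₀] [Field L] [Algebra k₀ L] [Algebra K L]
    (F : ι → MvPolynomial σ K) : Set L :=
  Set.range (algebraMap k₀ L) ∪ {y | ∃ i I, y = algebraMap K L ((F i).coeff I)}

/-- The number of the forms `F i` that vanish at `x`. -/
noncomputable def vanCard {L : Type*} [Field L] [Algebra K L] (F : ι → MvPolynomial σ K)
    (x : σ → L) : ℕ :=
  Nat.card {i // MvPolynomial.aeval x (F i) = 0}

end

end Pool.Agent.Lib.MP_44a246_nt
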